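import Pool.Agent.H84.SR.Back

/-!
# The limit pairs over Möbius maps
-/

set_option autoImplicit false

open Filter Topology Polynomial Metric Set MeasureTheory

namespace Pool.Agent.H84.SR

open Pool.Agent.H44.Fatou Pool.Agent.H32.BT

/-- the rational maps of degree `d` that are not hyperbolic -/
def NH (d : ℕ) : Set (E d) :=
  {v | IsCoprime (pol v.1) (pol v.2) ∧ max (pol v.1).natDegree (pol v.2).natDegree = d ∧
    ¬ HypMap (rat (pol v.1) (pol v.2))}

/-- `∏ (X - z i)` over `i ≠ k` -/
noncomputable def hk {d : ℕ} (x : V d) (k : Fin d) : Polynomial ℂ :=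
  ∏ i ∈ Finset.univ.erase k, (X - C (x i.castSucc))

/-- the limit pair, in the coordinate `1 / (z - α)`, when all residues except the residue `b` at
`z k` tend to zero; here `c' = c - α` -/
noncomputable def lim0 {d : ℕ} (x : V d) (k : Fin d) (c' b : ℂ) : E d :=
  (cf d ((X - C (x k.castSucc)) * hk x k),
    cf d ((C c' * (X - C (x k.castSucc)) + C b) * hk x k))

/-- product of the distances, at most one -/
noncomputable def sep {d : ℕ} (x : V d) : ℝ :=
  ∏ p ∈ (Finset.univ : Finset (Fin d)).offDiag, min 1 ‖x p.1.castSucc - x p.2.castSucc‖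

open Classical in
/-- second threshold: if all `|w j|`, `j ≠ k`, are smaller then the map is hyperbolic -/
noncomputable def tau {d : ℕ} (α : ℂ) (K : ℝ) (k : Fin d) (x : V d) (c w : ℂ) : ℝ :=
  if (NH d).Nonempty then
    min 1 (infDist (lim0 x k (c - α)
      (w / ∏ i ∈ Finset.univ.erase k, (x k.castSucc - x i.castSucc))) (NH d) * sep x /
        (d * (1 + K) ^ d))
  else 1

/-- the second region containing the bad maps -/
def TT2 {d : ℕ} (α : ℂ) (K δ : ℝ) : Set (V d × V d) :=
  {a | (∀ i, ‖a.1 i‖ ≤ K) ∧ (∀ i, ‖a.2 i‖ ≤ K) ∧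
    ‖a.1 (Fin.last d)‖ ^ (2 * d) * ∏ j : Fin d, ‖a.2 j.castSucc‖ ≤ δ ∧
    ((∃ k : Fin d, a.2 k.castSucc = 0) ∨
      ∃ k : Fin d, rho α K a.1 (a.2 (Fin.last d)) < ‖a.2 k.castSucc‖ ∧
        ∃ j : Fin d, j ≠ k ∧
          tau α K k a.1 (a.2 (Fin.last d)) (a.2 k.castSucc) ≤ ‖a.2 j.castSucc‖)}

theorem tau_le_one {d : ℕ} (α : ℂ) (K : ℝ) (k : Fin d) (x : V d) (c w : ℂ) :
    tau α K k x c w ≤ 1 := by
  unfold tau
  split_ifs
  · exact min_le_left _ _
  · exact le_rfl

private theorem lim_coeff_cont {d : ℕ} (s : Finset (Fin d)) : ∀ n : ℕ,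
    Continuous (fun y : V d => (∏ j ∈ s, (X - C (y j.castSucc))).coeff n) := by
  classical
  induction s using Finset.induction_on with
  | empty =>
    intro n
    simp only [Finset.prod_empty]
    exact continuous_const
  | insert a s ha ih =>
    intro n
    have h1 : (fun y : V d => (∏ j ∈ insert a s, (X - C (y j.castSucc))).coeff n) =
        fun y : V d => (X * ∏ j ∈ s, (X - C (y j.castSucc))).coeff n -
          y a.castSucc * (∏ j ∈ s, (X - C (y j.castSucc))).coeff n := by
      funext y
      rw [Finset.prod_insert ha, sub_mul, coeff_sub, coeff_C_mul]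
    rw [h1]
    have h2 : Continuous (fun y : V d => y a.castSucc *
        (∏ j ∈ s, (X - C (y j.castSucc))).coeff n) :=
      (continuous_apply _).mul (ih n)
    cases n with
    | zero =>
      simp only [coeff_X_mul_zero]
      exact continuous_const.sub h2
    | succ n =>
      simp only [coeff_X_mul]
      exact (ih n).sub h2

private theorem lim_hk_cont {d : ℕ} (k : Fin d) (n : ℕ) :
    Continuous (fun y : V d => (hk y k).coeff n) := by
  unfold hk
  exact lim_coeff_cont _ n

private theorem lim_coeff_X_mul_cont {d : ℕ} (k : Fin d) (n : ℕ) :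
    Continuous (fun y : V d => (X * hk y k).coeff n) := by
  unfold hk
  cases n with
  | zero =>
    simp only [coeff_X_mul_zero]
    exact continuous_const
  | succ n =>
    simp only [coeff_X_mul]
    exact lim_coeff_cont _ n

private theorem lim_coeff_bound {d : ℕ} {K : ℝ} (hK : 0 ≤ K) {x : V d} (hz : ∀ i, ‖x i‖ ≤ K)
    (s : Finset (Fin d)) : ∀ n : ℕ,
    ‖(∏ j ∈ s, (X - C (x j.castSucc))).coeff n‖ ≤ (1 + K) ^ s.card := by
  classical
  induction s using Finset.induction_on with
  | empty =>
    intro n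
    rw [Finset.prod_empty, coeff_one, Finset.card_empty, pow_zero]
    split_ifs <;> simp
  | insert a s ha ih =>
    intro n
    have h1 : (∏ j ∈ insert a s, (X - C (x j.castSucc))).coeff n =
        (X * ∏ j ∈ s, (X - C (x j.castSucc))).coeff n -
          x a.castSucc * (∏ j ∈ s, (X - C (x j.castSucc))).coeff n := by
      rw [Finset.prod_insert ha, sub_mul, coeff_sub, coeff_C_mul]
    have h2 : ‖(X * ∏ j ∈ s, (X - C (x j.castSucc))).coeff n‖ ≤ (1 + K) ^ s.card := by
      cases n with
      | zero =>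
        rw [coeff_X_mul_zero, norm_zero]
        positivity
      | succ n =>
        rw [coeff_X_mul]
        exact ih n
    have h3 : ‖x a.castSucc * (∏ j ∈ s, (X - C (x j.castSucc))).coeff n‖ ≤
        K * (1 + K) ^ s.card := by
      rw [norm_mul]
      exact mul_le_mul (hz _) (ih n) (norm_nonneg _) hK
    rw [h1, Finset.card_insert_of_notMem ha, pow_succ]
    refine (norm_sub_le _ _).trans ?_
    linarith

/-
lim0 is a continuous function of (x, c', b) (coefficients of products), infDist is continuous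
(continuous_infDist_pt), the quotient w / prod is measurable, sep is continuous.
-/
theorem lim0_cont {d : ℕ} (k : Fin d) :
    Continuous fun a : V d × ℂ × ℂ => lim0 a.1 k a.2.1 a.2.2 := by
  have hH : ∀ n : ℕ, Continuous (fun a : V d × ℂ × ℂ => (hk a.1 k).coeff n) := fun n =>
    (lim_hk_cont k n).comp continuous_fst
  have hX : ∀ n : ℕ, Continuous (fun a : V d × ℂ × ℂ => (X * hk a.1 k).coeff n) := fun n =>
    (lim_coeff_X_mul_cont k n).comp continuous_fst
  have hz : Continuous (fun a : V d × ℂ × ℂ => a.1 k.castSucc) := by fun_prop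
  have h1 : ∀ n : ℕ, Continuous (fun a : V d × ℂ × ℂ =>
      ((X - C (a.1 k.castSucc)) * hk a.1 k).coeff n) := by
    intro n
    have e : (fun a : V d × ℂ × ℂ => ((X - C (a.1 k.castSucc)) * hk a.1 k).coeff n) =
        fun a : V d × ℂ × ℂ => (X * hk a.1 k).coeff n - a.1 k.castSucc * (hk a.1 k).coeff n := by
      funext a
      rw [sub_mul, coeff_sub, coeff_C_mul]
    rw [e]
    exact (hX n).sub (hz.mul (hH n))
  unfold lim0
  refine Continuous.prodMk ?_ ?_
  · refine continuous_pi (fun i => ?_)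
    exact h1 i
  · refine continuous_pi (fun i => ?_)
    show Continuous (fun a : V d × ℂ × ℂ =>
      ((C a.2.1 * (X - C (a.1 k.castSucc)) + C a.2.2) * hk a.1 k).coeff (i : ℕ))
    have e : (fun a : V d × ℂ × ℂ =>
        ((C a.2.1 * (X - C (a.1 k.castSucc)) + C a.2.2) * hk a.1 k).coeff (i : ℕ)) =
        fun a : V d × ℂ × ℂ => a.2.1 * ((X - C (a.1 k.castSucc)) * hk a.1 k).coeff (i : ℕ) +
          a.2.2 * (hk a.1 k).coeff (i : ℕ) := by
      funext a
      rw [add_mul, coeff_add, coeff_C_mul, mul_assoc, coeff_C_mul]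
    rw [e]
    exact ((continuous_fst.comp continuous_snd).mul (h1 i)).add
      ((continuous_snd.comp continuous_snd).mul (hH i))

private theorem lim_prod_cont {d : ℕ} (k : Fin d) :
    Continuous (fun y : V d => ∏ i ∈ Finset.univ.erase k, (y k.castSucc - y i.castSucc)) :=
  continuous_finsetProd _ (fun _ _ => (continuous_apply _).sub (continuous_apply _))

private theorem lim_sep_cont {d : ℕ} : Continuous (fun y : V d => sep y) := by
  unfold sep
  refine continuous_finsetProd _ (fun p _ => ?_)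
  have h1 : Continuous (fun y : V d => y p.1.castSucc - y p.2.castSucc) :=
    (continuous_apply _).sub (continuous_apply _)
  exact continuous_const.min h1.norm

private theorem lim_map_meas {d : ℕ} (α : ℂ) (k : Fin d) :
    Measurable (fun a : V d × ℂ × ℂ => ((a.1, a.2.1 - α,
        a.2.2 / ∏ i ∈ Finset.univ.erase k, (a.1 k.castSucc - a.1 i.castSucc)) :
          V d × ℂ × ℂ)) := by
  have h0 : Measurable (fun a : V d × ℂ × ℂ =>
      ∏ i ∈ Finset.univ.erase k, (a.1 k.castSucc - a.1 i.castSucc)) :=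
    (lim_prod_cont k).measurable.comp measurable_fst
  have h1 : Measurable (fun a : V d × ℂ × ℂ => a.2.1 - α) :=
    (measurable_fst.comp measurable_snd).sub_const α
  have h2 : Measurable (fun a : V d × ℂ × ℂ =>
      a.2.2 / ∏ i ∈ Finset.univ.erase k, (a.1 k.castSucc - a.1 i.castSucc)) :=
    (measurable_snd.comp measurable_snd).div h0
  exact measurable_fst.prodMk (h1.prodMk h2)

private theorem lim_inf_meas {d : ℕ} (k : Fin d) :
    Measurable (fun a : V d × ℂ × ℂ => infDist (lim0 a.1 k a.2.1 a.2.2) (NH d)) :=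
  ((continuous_infDist_pt _).comp (lim0_cont k)).measurable

theorem tau_meas {d : ℕ} (α : ℂ) (K : ℝ) (k : Fin d) :
    Measurable fun a : V d × ℂ × ℂ => tau α K k a.1 a.2.1 a.2.2 := by
  have h4 := (lim_inf_meas k).comp (lim_map_meas α k)
  have h5 : Measurable (fun a : V d × ℂ × ℂ => sep a.1) :=
    lim_sep_cont.measurable.comp measurable_fst
  unfold tau
  by_cases hne : (NH d).Nonempty
  · simp only [if_pos hne]
    exact measurable_const.min ((h4.mul h5).div_const _)
  · simp only [if_neg hne]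
    exact measurable_const

/-
Each factor |z j - z i| is at least min 1 |..|, and the product over i <> j is a part of the product
over all pairs, whose factors are <= 1.
-/
theorem sep_le {d : ℕ} (x : V d) (j : Fin d) :
    sep x ≤ ∏ i ∈ Finset.univ.erase j, ‖x j.castSucc - x i.castSucc‖ := by
  classical
  unfold sep
  set f : Fin d × Fin d → ℝ := fun p => min 1 ‖x p.1.castSucc - x p.2.castSucc‖ with hf
  have hf0 : ∀ p, 0 ≤ f p := fun p => by rw [hf]; positivity
  have hf1 : ∀ p, f p ≤ 1 := fun p => by rw [hf]; exact min_le_left _ _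
  have hsub : (Finset.univ.erase j).image (fun i => (j, i)) ⊆
      (Finset.univ : Finset (Fin d)).offDiag := by
    intro p hp
    obtain ⟨i, hi, rfl⟩ := Finset.mem_image.1 hp
    rw [Finset.mem_offDiag]
    exact ⟨Finset.mem_univ _, Finset.mem_univ _, (Finset.mem_erase.1 hi).1.symm⟩
  rw [← Finset.prod_sdiff hsub]
  have h1 : ∏ p ∈ (Finset.univ : Finset (Fin d)).offDiag \
      (Finset.univ.erase j).image (fun i => (j, i)), f p ≤ 1 :=
    Finset.prod_le_one (fun p _ => hf0 p) (fun p _ => hf1 p)
  have h2 : ∏ p ∈ (Finset.univ.erase j).image (fun i => (j, i)), f p =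
      ∏ i ∈ Finset.univ.erase j, f (j, i) := by
    rw [Finset.prod_image]
    intro a _ b _ hab
    exact (Prod.mk.inj hab).2
  have h3 : ∏ i ∈ Finset.univ.erase j, f (j, i) ≤
      ∏ i ∈ Finset.univ.erase j, ‖x j.castSucc - x i.castSucc‖ :=
    Finset.prod_le_prod (fun i _ => hf0 _) (fun i _ => min_le_right _ _)
  have h4 : 0 ≤ ∏ p ∈ (Finset.univ.erase j).image (fun i => (j, i)), f p :=
    Finset.prod_nonneg (fun p _ => hf0 p)
  calc (∏ p ∈ (Finset.univ : Finset (Fin d)).offDiag \
      (Finset.univ.erase j).image (fun i => (j, i)), f p) *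
      ∏ p ∈ (Finset.univ.erase j).image (fun i => (j, i)), f p
      ≤ 1 * ∏ p ∈ (Finset.univ.erase j).image (fun i => (j, i)), f p :=
        mul_le_mul_of_nonneg_right h1 h4
    _ ≤ _ := by rw [one_mul, h2]; exact h3

private theorem lim_rat_const {A B : Polynomial ℂ} {t : ℂ} (ht : t ≠ 0) :
    rat (C t * A) (C t * B) = rat A B := by
  have hdg : dg (C t * A) (C t * B) = dg A B := by
    unfold dg
    rw [natDegree_C_mul ht, natDegree_C_mul ht]
  funext x
  induction x using OnePoint.rec with
  | infty =>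
    rw [rat_infty, rat_infty, hdg, coeff_C_mul, coeff_C_mul, mul_comm t, mul_comm t, pt_smul ht]
  | coe x =>
    rw [rat_coe, rat_coe, eval_mul, eval_mul, eval_C, mul_comm t, mul_comm t, pt_smul ht]

/-
back_cj: cj1 α d A B = fr α d B = mk x and cj2 α d A B = fr α d A - C α * mk x (cj2_eq) are coprime,
maximum of the degrees d. exists_mob α and hypMap_conj: HypMap (rat (cj1) (cj2)) ↔ HypMap (rat A B);
back: A, B coprime of degree d. So rat (cj1) (cj2) is not hyperbolic. Multiplying both by C q⁻¹,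
q = x (last d), changes neither coprimality, nor degrees, nor rat (pt_smul). pol_cf.
-/
theorem nh_of_bad {d : ℕ} (hd : 1 ≤ d) {α : ℂ} {A B : Polynomial ℂ} (hA : A.natDegree ≤ d)
    (hB : B.natDegree ≤ d) {x : V d} (hx : fr α d B = mk x) (hq : x (Fin.last d) ≠ 0)
    (hw : ∀ j : Fin d, (fr α d A).eval (x j.castSucc) ≠ 0) (hbad : ¬ HypDeg d A B) :
    ((cf d (C (x (Fin.last d))⁻¹ * mk x),
      cf d (C (x (Fin.last d))⁻¹ * (fr α d A - C α * mk x))) : E d) ∈ NH d := by
  obtain ⟨h1, h2⟩ := back hA hB hx hq hw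
  have hnh : ¬ HypMap (rat A B) := fun h3 => hbad ⟨h1, h2, h3⟩
  obtain ⟨φ, -, -, -, hφ⟩ := exists_mob α
  obtain ⟨c1, c2, c3⟩ := hφ d A B h1 h2 hd
  have hnh' : ¬ HypMap (rat (cj1 α d A B) (cj2 α d A B)) := fun h3 =>
    hnh ((hypMap_conj φ c3).1 h3)
  have e1 : cj1 α d A B = mk x := hx
  have e2 : cj2 α d A B = fr α d A - C α * mk x := by rw [cj2_eq, hx]
  rw [e1, e2] at c1 c2 hnh'
  set t := (x (Fin.last d))⁻¹ with ht
  have ht0 : t ≠ 0 := inv_ne_zero hq
  have d1 : (C t * mk x).natDegree ≤ d := (natDegree_C_mul_le _ _).trans (mk_natDegree_le x)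
  have d2 : (C t * (fr α d A - C α * mk x)).natDegree ≤ d := by
    refine (natDegree_C_mul_le _ _).trans ((natDegree_sub_le _ _).trans (max_le ?_ ?_))
    · exact fr_natDegree α hA
    · exact (natDegree_C_mul_le _ _).trans (mk_natDegree_le x)
  show IsCoprime (pol (cf d (C t * mk x))) (pol (cf d (C t * (fr α d A - C α * mk x)))) ∧
    max (pol (cf d (C t * mk x))).natDegree
      (pol (cf d (C t * (fr α d A - C α * mk x)))).natDegree = d ∧
    ¬ HypMap (rat (pol (cf d (C t * mk x))) (pol (cf d (C t * (fr α d A - C α * mk x)))))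
  rw [pol_cf d1, pol_cf d2, lim_rat_const ht0, natDegree_C_mul ht0, natDegree_C_mul ht0]
  refine ⟨?_, c2, hnh'⟩
  exact (isCoprime_mul_unit_left (isUnit_C.2 (isUnit_iff_ne_zero.2 ht0)) _ _).2 c1

/-
pfrac_poly with P = fr α d A, c = y (last d): P = C c * mk x + C q * sum_j C (eps x P j) *
prod_(i <> j) (X - z i), eps x P j = y j / prod_(i <> j) (z j - z i). So the first components agree
(mk x = C q * (X - z k) * hk x k) and the second components differ by the sum over j <> k of
eps_j * prod_(i <> j) (X - z i); the coefficients of prod_(i <> j) (X - z i) are at most (1+K)^(d-1)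
in modulus (induction on the product; |z i| <= K).
-/
theorem lim_dist {d : ℕ} {α : ℂ} {K : ℝ} (hK : 1 ≤ K) {A : Polynomial ℂ} (hA : A.natDegree ≤ d)
    {x y : V d} (hz : ∀ i, ‖x i‖ ≤ K) (hq : x (Fin.last d) ≠ 0)
    (hinj : Function.Injective fun j : Fin d => x j.castSucc)
    (hy : ∀ i, evl x (cf d (fr α d A)) i = x (Fin.last d) * y i) (k : Fin d) :
    dist ((cf d (C (x (Fin.last d))⁻¹ * mk x),
        cf d (C (x (Fin.last d))⁻¹ * (fr α d A - C α * mk x))) : E d)
      (lim0 x k (y (Fin.last d) - α)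
        (y k.castSucc / ∏ i ∈ Finset.univ.erase k, (x k.castSucc - x i.castSucc))) ≤
      (1 + K) ^ d * ∑ j ∈ Finset.univ.erase k,
        ‖y j.castSucc‖ / ∏ i ∈ Finset.univ.erase j, ‖x j.castSucc - x i.castSucc‖ := by
  classical
  set P := fr α d A with hP
  set q := x (Fin.last d) with hqd
  have hPd : P.natDegree ≤ d := fr_natDegree α hA
  have hc : P.coeff d = y (Fin.last d) * q := by
    have h1 := hy (Fin.last d)
    rw [evl_last] at h1
    have h2 : cf d P (Fin.last d) = P.coeff d := rfl
    rw [h2] at h1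
    rw [h1, mul_comm]
  have hev : ∀ j : Fin d, P.eval (x j.castSucc) = q * y j.castSucc := by
    intro j
    have h1 := hy j.castSucc
    rw [evl_castSucc, pol_cf hPd] at h1
    exact h1
  have heps : ∀ j : Fin d, eps x P j =
      y j.castSucc / ∏ i ∈ Finset.univ.erase j, (x j.castSucc - x i.castSucc) := by
    intro j
    unfold eps
    rw [hev j, ← hqd, mul_div_mul_left _ _ hq]
  have hpf := pfrac_poly hinj hq hPd hc
  rw [← hqd] at hpf
  have hmk : mk x = C q * ((X - C (x k.castSucc)) * hk x k) := by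
    unfold mk hk
    rw [Finset.mul_prod_erase Finset.univ
      (fun j : Fin d => (X - C (x j.castSucc) : Polynomial ℂ)) (Finset.mem_univ k)]
  have hCC : C q⁻¹ * C q = (1 : Polynomial ℂ) := by
    rw [← C_mul, inv_mul_cancel₀ hq, C_1]
  have e1 : C q⁻¹ * mk x = (X - C (x k.castSucc)) * hk x k := by
    rw [hmk, ← mul_assoc, hCC, one_mul]
  have e2 : C q⁻¹ * (P - C α * mk x) =
      (C (y (Fin.last d) - α) * (X - C (x k.castSucc)) + C (eps x P k)) * hk x k +
        ∑ j ∈ Finset.univ.erase k, C (eps x P j) *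
          ∏ i ∈ Finset.univ.erase j, (X - C (x i.castSucc)) := by
    have e3 : ∑ j : Fin d, C (eps x P j) * ∏ i ∈ Finset.univ.erase j, (X - C (x i.castSucc)) =
        C (eps x P k) * hk x k + ∑ j ∈ Finset.univ.erase k, C (eps x P j) *
          ∏ i ∈ Finset.univ.erase j, (X - C (x i.castSucc)) := by
      rw [← Finset.add_sum_erase _ _ (Finset.mem_univ k)]
      rfl
    calc C q⁻¹ * (P - C α * mk x) = C q⁻¹ * (C (y (Fin.last d)) * mk x + C q *
          (∑ j : Fin d, C (eps x P j) * ∏ i ∈ Finset.univ.erase j, (X - C (x i.castSucc))) -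
          C α * mk x) := by rw [← hpf]
      _ = (C (y (Fin.last d)) - C α) * (C q⁻¹ * mk x) + (C q⁻¹ * C q) *
          ∑ j : Fin d, C (eps x P j) * ∏ i ∈ Finset.univ.erase j, (X - C (x i.castSucc)) := by
          ring
      _ = _ := by
          rw [e1, hCC, one_mul, e3, C_sub]
          ring
  have hK0 : (0 : ℝ) ≤ K := by linarith
  have hR : 0 ≤ (1 + K) ^ d * ∑ j ∈ Finset.univ.erase k,
        ‖y j.castSucc‖ / ∏ i ∈ Finset.univ.erase j, ‖x j.castSucc - x i.castSucc‖ := by
    apply mul_nonneg (by positivity)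
    apply Finset.sum_nonneg
    intro j _
    exact div_nonneg (norm_nonneg _) (Finset.prod_nonneg (fun i _ => norm_nonneg _))
  unfold lim0
  rw [Prod.dist_eq]
  apply max_le
  · show dist (cf d (C q⁻¹ * mk x)) (cf d ((X - C (x k.castSucc)) * hk x k)) ≤ _
    rw [e1, dist_self]
    exact hR
  · show dist (cf d (C q⁻¹ * (P - C α * mk x)))
      (cf d ((C (y (Fin.last d) - α) * (X - C (x k.castSucc)) +
        C (y k.castSucc / ∏ i ∈ Finset.univ.erase k, (x k.castSucc - x i.castSucc))) *
          hk x k)) ≤ _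
    rw [← heps k, dist_pi_le_iff hR]
    intro i
    rw [dist_eq_norm]
    show ‖(C q⁻¹ * (P - C α * mk x)).coeff (i : ℕ) -
      ((C (y (Fin.last d) - α) * (X - C (x k.castSucc)) + C (eps x P k)) * hk x k).coeff
        (i : ℕ)‖ ≤ _
    rw [e2, coeff_add, add_sub_cancel_left, finsetSum_coeff, Finset.mul_sum]
    refine (norm_sum_le _ _).trans (Finset.sum_le_sum (fun j hj => ?_))
    rw [coeff_C_mul, norm_mul, heps j, norm_div, norm_prod, mul_comm]
    apply mul_le_mul_of_nonneg_right _
      (div_nonneg (norm_nonneg _) (Finset.prod_nonneg (fun i _ => norm_nonneg _)))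
    refine (lim_coeff_bound hK0 hz _ _).trans ?_
    apply pow_le_pow_right₀ (by linarith)
    rw [Finset.card_erase_of_mem (Finset.mem_univ _), Finset.card_univ, Fintype.card_fin]
    omega

end Pool.Agent.H84.SR
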