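import Pool.Agent.H84.SR.Cover
import Pool.Agent.H84.SR.Lim

/-!
# The bad pairs in coordinates, second version
-/

set_option autoImplicit false

open Filter Topology Polynomial Metric Set

namespace Pool.Agent.H84.SR

open Pool.Agent.H44.Fatou Pool.Agent.H32.BT

/-
Take K, x, y from cover. If some y j = 0 (j < d) done. Otherwise (x, y) ∈ TT gives k with
rho < |y k|. All (fr α d (pol v.1)).eval (z j) = q y j are nonzero (evl_castSucc, pol_cf), so nh_of_bad
(v ∈ Y is not HypDeg) gives a point of NH d, which is nonempty, and lim_dist gives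
D := infDist (lim0 ..) (NH d) <= (1+K)^d sum_(j <> k) |y j| / prod <= (1+K)^d / sep * sum_(j <> k) |y j|
(sep_le; sep > 0 as the z i are different). Suppose |y j| < tau for all j <> k. Then, d >= 2,
sum_(j <> k) |y j| <= (d-1) tau <= (d - 1) D sep/(d (1+K)^d), so D <= ((d-1)/d) D, D = 0, tau <= 0,
contradiction with 0 <= |y j| < tau.
-/
theorem cover2 {d : ℕ} (hd : 2 ≤ d) {α : ℂ} (hα : ‖α‖ = 1) : ∃ K : ℝ, 1 ≤ K ∧
    ∀ δ : ℝ, ∀ v ∈ Y d α δ, (fr α d (pol v.2)).coeff d ≠ 0 → (fr α d (pol v.2)).roots.Nodup →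
      ∃ x y : V d, (x, y) ∈ TT2 (d := d) α K δ ∧ x (Fin.last d) ≠ 0 ∧
        (Function.Injective fun j : Fin d => x j.castSucc) ∧
        cf d (fr α d (pol v.2)) = cf d (mk x) ∧
        ∀ i, evl x (cf d (fr α d (pol v.1))) i = x (Fin.last d) * y i := by
  obtain ⟨K, hK1, hK⟩ := cover hd hα
  refine ⟨K, hK1, ?_⟩
  intro δ v hv hc hnd
  obtain ⟨x, y, hT, hq, hinj, hcf, hy⟩ := hK δ v hv hc hnd
  refine ⟨x, y, ?_, hq, hinj, hcf, hy⟩
  obtain ⟨hb1, hb2, hres, k, hk⟩ := hT
  obtain ⟨hv1, hv2, hv3, hrs, hbad⟩ := hv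
  refine ⟨hb1, hb2, hres, ?_⟩
  by_cases h0 : ∃ k : Fin d, y k.castSucc = 0
  · exact Or.inl h0
  push Not at h0
  have hk' : rho α K x (y (Fin.last d)) < ‖y k.castSucc‖ := by
    rcases hk with hk | hk
    · exact absurd hk (h0 k)
    · exact hk
  refine Or.inr ⟨k, hk', ?_⟩
  by_contra hcon
  push Not at hcon
  have hA := pol_natDegree v.1
  have hB := pol_natDegree v.2
  have hR := fr_natDegree α hB
  have hP : (fr α d (pol v.1)).natDegree ≤ d := fr_natDegree α hA
  have hx : fr α d (pol v.2) = mk x := by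
    rw [← pol_cf hR, hcf, pol_cf (mk_natDegree_le x)]
  have hw : ∀ j : Fin d, (fr α d (pol v.1)).eval (x j.castSucc) ≠ 0 := by
    intro j
    have h1 := hy j.castSucc
    rw [evl_castSucc, pol_cf hP] at h1
    rw [h1]
    exact mul_ne_zero hq (h0 j)
  have hnh := nh_of_bad (by omega) hA hB hx hq hw hbad
  have hdist := lim_dist hK1 hA hb1 hq hinj hy k (α := α)
  have hD := (infDist_le_dist_of_mem (x := lim0 x k (y (Fin.last d) - α)
    (y k.castSucc / ∏ i ∈ Finset.univ.erase k, (x k.castSucc - x i.castSucc))) hnh)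
  rw [dist_comm] at hD
  have hD2 := hD.trans hdist
  have hD0 : 0 ≤ infDist (lim0 x k (y (Fin.last d) - α)
    (y k.castSucc / ∏ i ∈ Finset.univ.erase k, (x k.castSucc - x i.castSucc))) (NH d) :=
    infDist_nonneg
  have htau : tau α K k x (y (Fin.last d)) (y k.castSucc) ≤ infDist (lim0 x k
      (y (Fin.last d) - α) (y k.castSucc / ∏ i ∈ Finset.univ.erase k,
        (x k.castSucc - x i.castSucc))) (NH d) * sep x / (d * (1 + K) ^ d) := by
    unfold tau
    rw [if_pos ⟨_, hnh⟩]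
    exact min_le_right _ _
  generalize tau α K k x (y (Fin.last d)) (y k.castSucc) = t at hcon htau
  generalize infDist (lim0 x k (y (Fin.last d) - α)
    (y k.castSucc / ∏ i ∈ Finset.univ.erase k, (x k.castSucc - x i.castSucc))) (NH d) = D
    at hD2 hD0 htau
  have hs : 0 < sep x := by
    unfold sep
    apply Finset.prod_pos
    intro p hp
    rw [Finset.mem_offDiag] at hp
    apply lt_min one_pos
    rw [norm_pos_iff, sub_ne_zero]
    intro h
    exact hp.2.2 (hinj h)
  have hKd : 0 < (1 + K) ^ d := by positivity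
  have hdR : (2 : ℝ) ≤ d := by exact_mod_cast hd
  have hterm : ∀ j ∈ Finset.univ.erase k,
      ‖y j.castSucc‖ / ∏ i ∈ Finset.univ.erase j, ‖x j.castSucc - x i.castSucc‖ ≤
        t / sep x := by
    intro j hj
    exact div_le_div₀ ((norm_nonneg _).trans (hcon j (Finset.ne_of_mem_erase hj)).le)
      (hcon j (Finset.ne_of_mem_erase hj)).le hs (sep_le x j)
  have hsum : ∑ j ∈ Finset.univ.erase k,
      ‖y j.castSucc‖ / ∏ i ∈ Finset.univ.erase j, ‖x j.castSucc - x i.castSucc‖ ≤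
        (d - 1 : ℝ) * (t / sep x) := by
    refine (Finset.sum_le_sum hterm).trans (le_of_eq ?_)
    rw [Finset.sum_const, Finset.card_erase_of_mem (Finset.mem_univ k), Finset.card_univ,
      Fintype.card_fin, nsmul_eq_mul, Nat.cast_sub (by omega), Nat.cast_one]
  have h1 : D ≤ (1 + K) ^ d * ((d - 1 : ℝ) * (t / sep x)) :=
    hD2.trans (mul_le_mul_of_nonneg_left hsum hKd.le)
  have h2 : t / sep x ≤ D / (d * (1 + K) ^ d) := by
    rw [div_le_iff₀ hs]
    refine htau.trans (le_of_eq ?_)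
    ring
  have h3 : D ≤ (1 + K) ^ d * ((d - 1 : ℝ) * (D / (d * (1 + K) ^ d))) := by
    refine h1.trans (mul_le_mul_of_nonneg_left ?_ hKd.le)
    exact mul_le_mul_of_nonneg_left h2 (by linarith)
  have h4 : (1 + K) ^ d * ((d - 1 : ℝ) * (D / (d * (1 + K) ^ d))) = (d - 1) * D / d := by
    have hd0 : (d : ℝ) ≠ 0 := by linarith
    field_simp
  rw [h4, le_div_iff₀ (by linarith)] at h3
  have h5 : D ≤ 0 := by nlinarith
  have h6 : D = 0 := le_antisymm h5 hD0
  rw [h6, zero_mul, zero_div] at htau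
  have hnt : Nontrivial (Fin d) := Fin.nontrivial_iff_two_le.mpr hd
  obtain ⟨j, hj⟩ := exists_ne k
  have h7 := hcon j hj
  have h8 := norm_nonneg (y j.castSucc)
  linarith


end Pool.Agent.H84.SR
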