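import Pool.Agent.H84.SR.RhoA

/-!
# The integral of the logarithm of the threshold
-/

set_option autoImplicit false

open MeasureTheory Metric Set

namespace Pool.Agent.H84.SR

private theorem rb_term_nonneg (a : ℝ) (ha : 0 ≤ a) : 0 ≤ Real.log (1 / min 1 a) := by
  rcases ha.eq_or_lt with h | h
  · rw [← h]
    simp
  · apply Real.log_nonneg
    rw [le_div_iff₀ (lt_min one_pos h), one_mul]
    exact min_le_left _ _

private theorem rb_box_finite (n : ℕ) {K : ℝ} (hK : 0 ≤ K) :
    volume {x : Fin n → ℂ | ∀ i, ‖x i‖ ≤ K} < ⊤ := by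
  have h1 : {x : Fin n → ℂ | ∀ i, ‖x i‖ ≤ K} ⊆ closedBall (0 : Fin n → ℂ) K := by
    intro x hx
    rw [mem_closedBall_zero_iff, pi_norm_le_iff_of_nonneg hK]
    exact hx
  exact lt_of_le_of_lt (measure_mono h1) measure_closedBall_lt_top

private theorem rb_pair {C : ℝ} (hC : ∀ y : ℂ,
    ∫⁻ w : ℂ, ENNReal.ofReal (Real.log (1 / min 1 ‖w - y‖)) ≤ ENNReal.ofReal C) (n : ℕ)
    (i j : Fin (n + 1)) (hij : i ≠ j) (K : ℝ) :
    ∫⁻ x in {x : Fin (n + 1) → ℂ | ∀ i, ‖x i‖ ≤ K},
      ENNReal.ofReal (Real.log (1 / min 1 ‖x i - x j‖)) ≤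
      ENNReal.ofReal C * volume {y : Fin n → ℂ | ∀ i, ‖y i‖ ≤ K} := by
  obtain ⟨k, hk⟩ := Fin.exists_succAbove_eq (Ne.symm hij)
  have hmp := volume_preserving_piFinSuccAbove (fun _ : Fin (n + 1) => ℂ) i
  obtain ⟨T, hT⟩ : ∃ T : Set (Fin n → ℂ), T = {y : Fin n → ℂ | ∀ i, ‖y i‖ ≤ K} := ⟨_, rfl⟩
  have hTm : MeasurableSet T := by
    have h1 : T = ⋂ i, {y : Fin n → ℂ | ‖y i‖ ≤ K} := by
      rw [hT]
      ext y
      simp
    rw [h1]
    refine MeasurableSet.iInter fun i => ?_
    exact measurableSet_le (show Measurable fun y : Fin n → ℂ => y i from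
      measurable_pi_apply i).norm measurable_const
  obtain ⟨G, hG⟩ : ∃ G : ℂ × (Fin n → ℂ) → ENNReal,
    G = fun z => ENNReal.ofReal (Real.log (1 / min 1 ‖z.1 - z.2 k‖)) := ⟨_, rfl⟩
  have hGm : Measurable G := by
    rw [hG]
    refine ENNReal.measurable_ofReal.comp (Real.measurable_log.comp (measurable_const.div ?_))
    refine measurable_const.min ?_
    exact (measurable_fst.sub ((show Measurable fun y : Fin n → ℂ => y k from
      measurable_pi_apply k).comp measurable_snd)).norm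
  have h1 : ∫⁻ x in {x : Fin (n + 1) → ℂ | ∀ i, ‖x i‖ ≤ K},
      ENNReal.ofReal (Real.log (1 / min 1 ‖x i - x j‖)) ≤
      ∫⁻ x in (MeasurableEquiv.piFinSuccAbove (fun _ : Fin (n + 1) => ℂ) i) ⁻¹'
        ((univ : Set ℂ) ×ˢ T), G (MeasurableEquiv.piFinSuccAbove (fun _ : Fin (n + 1) => ℂ) i x) := by
    have h2 : ∀ x : Fin (n + 1) → ℂ, ENNReal.ofReal (Real.log (1 / min 1 ‖x i - x j‖)) =
        G (MeasurableEquiv.piFinSuccAbove (fun _ : Fin (n + 1) => ℂ) i x) := by
      intro x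
      rw [hG, ← hk]
      rfl
    simp only [h2]
    refine lintegral_mono_set ?_
    intro x hx
    refine ⟨mem_univ _, ?_⟩
    rw [hT]
    intro k'
    exact hx _
  refine h1.trans ?_
  rw [hmp.setLIntegral_comp_preimage (MeasurableSet.univ.prod hTm) hGm, Measure.volume_eq_prod,
    ← Measure.prod_restrict, lintegral_prod_symm _ hGm.aemeasurable, Measure.restrict_univ]
  have h3 : ∀ y : Fin n → ℂ, ∫⁻ x : ℂ, G (x, y) ≤ ENNReal.ofReal C := by
    intro y
    rw [hG]
    exact hC (y k)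
  refine (lintegral_mono h3).trans ?_
  rw [lintegral_const, Measure.restrict_apply MeasurableSet.univ, univ_inter, hT]

/-
log_rho_le and linearity (ENNReal.ofReal of a sum of nonnegative terms, lintegral_finsetSum,
all functions measurable; all terms are nonnegative). Constant terms: the regions have finite volume.
Pair (i, j), i <> j: the integral over the box of log (1/min 1 |x i - x j|) is bounded by integrating
x i first (volume_preserving_piFinSuccAbove at the index i.castSucc; log_int, uniform in x j) and then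
the finite volume of the box of the other coordinates. Terms with c: log_c_int, uniform in z j.
-/
theorem log_rho_int {d : ℕ} {α : ℂ} (hα : ‖α‖ = 1) {K : ℝ} (hK : 1 ≤ K) : ∃ C : ℝ, 0 < C ∧
    ∫⁻ x in {x : V d | ∀ i, ‖x i‖ ≤ K}, ∫⁻ c in closedBall (0 : ℂ) K,
      ENNReal.ofReal (1 + Real.log (1 / rho α K x c)) ≤ ENNReal.ofReal C := by
  obtain ⟨C1, _, hC1⟩ := log_int
  obtain ⟨C2, _, hC2⟩ := log_c_int hα hK
  have hK0 : 0 ≤ K := by linarith
  obtain ⟨c0, hc0⟩ : ∃ c0 : ℝ, c0 = 1 + Real.log (16 * (d + 1) * K) := ⟨_, rfl⟩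
  have hc0n : 0 ≤ c0 := by
    have h1 : (1 : ℝ) ≤ 16 * (d + 1) * K := by
      have hd : (0 : ℝ) ≤ d := Nat.cast_nonneg d
      nlinarith
    have := Real.log_nonneg h1
    rw [hc0]
    linarith
  obtain ⟨D, hD⟩ : ∃ D : ENNReal, D = volume (closedBall (0 : ℂ) K) := ⟨_, rfl⟩
  have hDf : D < ⊤ := by rw [hD]; exact measure_closedBall_lt_top
  obtain ⟨f, hf⟩ : ∃ f : V d → ENNReal, f = fun x => ∑ p ∈ (Finset.univ : Finset (Fin d)).offDiag,
    ENNReal.ofReal (Real.log (1 / min 1 ‖x p.1.castSucc - x p.2.castSucc‖)) := ⟨_, rfl⟩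
  obtain ⟨g, hg⟩ : ∃ g : V d → Fin d → ℂ → ENNReal, g = fun x j c =>
    ENNReal.ofReal (Real.log (1 / min 1 ‖1 - x j.castSucc * (c - α)‖)) := ⟨_, rfl⟩
  have hpt : ∀ (x : V d) (c : ℂ), ENNReal.ofReal (1 + Real.log (1 / rho α K x c)) ≤
      (ENNReal.ofReal c0 + d * f x) + 2 * ∑ j, g x j c := by
    intro x c
    have h1 := log_rho_le α hK x c
    have hF : 0 ≤ ∑ p ∈ (Finset.univ : Finset (Fin d)).offDiag,
        Real.log (1 / min 1 ‖x p.1.castSucc - x p.2.castSucc‖) :=
      Finset.sum_nonneg fun p _ => rb_term_nonneg _ (norm_nonneg _)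
    have hG : 0 ≤ ∑ j : Fin d, Real.log (1 / min 1 ‖1 - x j.castSucc * (c - α)‖) :=
      Finset.sum_nonneg fun j _ => rb_term_nonneg _ (norm_nonneg _)
    have h2 : 1 + Real.log (1 / rho α K x c) ≤ (c0 + d * (∑ p ∈ (Finset.univ : Finset (Fin d)).offDiag,
        Real.log (1 / min 1 ‖x p.1.castSucc - x p.2.castSucc‖))) +
        2 * ∑ j : Fin d, Real.log (1 / min 1 ‖1 - x j.castSucc * (c - α)‖) := by
      rw [hc0]
      linarith
    refine (ENNReal.ofReal_le_ofReal h2).trans ?_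
    rw [ENNReal.ofReal_add (by positivity) (by positivity), ENNReal.ofReal_add hc0n (by positivity),
      ENNReal.ofReal_mul (Nat.cast_nonneg d), ENNReal.ofReal_mul (by norm_num : (0 : ℝ) ≤ 2),
      ENNReal.ofReal_natCast, ENNReal.ofReal_sum_of_nonneg
        (fun p _ => rb_term_nonneg _ (norm_nonneg _)),
      ENNReal.ofReal_sum_of_nonneg (fun p _ => rb_term_nonneg _ (norm_nonneg _)), hf, hg]
    norm_num
  have hgm : ∀ (x : V d) (j : Fin d), Measurable (g x j) := by
    intro x j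
    rw [hg]
    refine ENNReal.measurable_ofReal.comp (Real.measurable_log.comp (measurable_const.div ?_))
    refine measurable_const.min ?_
    exact (measurable_const.sub (measurable_const.mul (measurable_id.sub measurable_const))).norm
  have hin : ∀ x : V d, ∫⁻ c in closedBall (0 : ℂ) K,
      ENNReal.ofReal (1 + Real.log (1 / rho α K x c)) ≤
      (ENNReal.ofReal c0 * D + 2 * (d * ENNReal.ofReal C2)) + (d * D) * f x := by
    intro x
    refine (lintegral_mono fun c => hpt x c).trans ?_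
    rw [lintegral_add_left measurable_const, lintegral_const,
      Measure.restrict_apply MeasurableSet.univ, univ_inter, ← hD,
      lintegral_const_mul _ (Finset.measurable_fun_sum _ fun j _ => hgm x j),
      lintegral_finsetSum _ fun j _ => hgm x j]
    have h1 : ∑ j, ∫⁻ c in closedBall (0 : ℂ) K, g x j c ≤ d * ENNReal.ofReal C2 := by
      have h2 : ∀ j ∈ (Finset.univ : Finset (Fin d)), ∫⁻ c in closedBall (0 : ℂ) K, g x j c ≤
          ENNReal.ofReal C2 := by
        intro j _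
        rw [hg]
        exact hC2 _
      refine (Finset.sum_le_sum h2).trans ?_
      rw [Finset.sum_const, Finset.card_univ, Fintype.card_fin, nsmul_eq_mul]
    calc (ENNReal.ofReal c0 + d * f x) * D + 2 * ∑ j, ∫⁻ c in closedBall (0 : ℂ) K, g x j c
        ≤ (ENNReal.ofReal c0 + d * f x) * D + 2 * (d * ENNReal.ofReal C2) := by gcongr
      _ = (ENNReal.ofReal c0 * D + 2 * (d * ENNReal.ofReal C2)) + (d * D) * f x := by ring
  obtain ⟨S, hS⟩ : ∃ S : Set (V d), S = {x : V d | ∀ i, ‖x i‖ ≤ K} := ⟨_, rfl⟩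
  rw [← hS]
  have hSf : volume S < ⊤ := by rw [hS]; exact rb_box_finite (d + 1) hK0
  have hfm : ∀ p ∈ (Finset.univ : Finset (Fin d)).offDiag, Measurable fun x : V d =>
      ENNReal.ofReal (Real.log (1 / min 1 ‖x p.1.castSucc - x p.2.castSucc‖)) := by
    intro p _
    refine ENNReal.measurable_ofReal.comp (Real.measurable_log.comp (measurable_const.div ?_))
    refine measurable_const.min ?_
    exact ((show Measurable fun x : V d => x p.1.castSucc from measurable_pi_apply _).sub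
      (show Measurable fun x : V d => x p.2.castSucc from measurable_pi_apply _)).norm
  have hfint : ∫⁻ x in S, f x ≤ ((Finset.univ : Finset (Fin d)).offDiag.card : ENNReal) *
      (ENNReal.ofReal C1 * volume {y : Fin d → ℂ | ∀ i, ‖y i‖ ≤ K}) := by
    rw [hf, lintegral_finsetSum _ hfm]
    have h2 : ∀ p ∈ (Finset.univ : Finset (Fin d)).offDiag, ∫⁻ x in S,
        ENNReal.ofReal (Real.log (1 / min 1 ‖x p.1.castSucc - x p.2.castSucc‖)) ≤
        ENNReal.ofReal C1 * volume {y : Fin d → ℂ | ∀ i, ‖y i‖ ≤ K} := by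
      intro p hp
      rw [hS]
      refine rb_pair hC1 d _ _ ?_ K
      intro h
      exact (Finset.mem_offDiag.1 hp).2.2 (Fin.castSucc_injective d h)
    refine (Finset.sum_le_sum h2).trans ?_
    rw [Finset.sum_const, nsmul_eq_mul]
  obtain ⟨Z, hZ⟩ : ∃ Z : ENNReal, Z = (ENNReal.ofReal c0 * D + 2 * (d * ENNReal.ofReal C2)) *
    volume S + (d * D) * (((Finset.univ : Finset (Fin d)).offDiag.card : ENNReal) *
      (ENNReal.ofReal C1 * volume {y : Fin d → ℂ | ∀ i, ‖y i‖ ≤ K})) := ⟨_, rfl⟩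
  have hZf : Z ≠ ⊤ := by
    rw [hZ]
    have hT := rb_box_finite d hK0
    refine ENNReal.add_ne_top.2 ⟨ENNReal.mul_ne_top (ENNReal.add_ne_top.2
      ⟨ENNReal.mul_ne_top ENNReal.ofReal_ne_top hDf.ne, ENNReal.mul_ne_top (by norm_num)
        (ENNReal.mul_ne_top (ENNReal.natCast_ne_top _) ENNReal.ofReal_ne_top)⟩) hSf.ne, ?_⟩
    exact ENNReal.mul_ne_top (ENNReal.mul_ne_top (ENNReal.natCast_ne_top _) hDf.ne)
      (ENNReal.mul_ne_top (ENNReal.natCast_ne_top _)
        (ENNReal.mul_ne_top ENNReal.ofReal_ne_top hT.ne))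
  have hmain : ∫⁻ x in S, ∫⁻ c in closedBall (0 : ℂ) K,
      ENNReal.ofReal (1 + Real.log (1 / rho α K x c)) ≤ Z := by
    refine (lintegral_mono fun x => hin x).trans ?_
    rw [lintegral_add_left measurable_const, lintegral_const,
      Measure.restrict_apply MeasurableSet.univ, univ_inter,
      lintegral_const_mul _ (by rw [hf]; exact Finset.measurable_fun_sum _ hfm), hZ]
    gcongr
  refine ⟨Z.toReal + 1, by positivity, hmain.trans ?_⟩
  calc Z = ENNReal.ofReal Z.toReal := (ENNReal.ofReal_toReal hZf).symm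
    _ ≤ ENNReal.ofReal (Z.toReal + 1) := ENNReal.ofReal_le_ofReal (by linarith)

end Pool.Agent.H84.SR
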