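import Pool.Agent.H84.SR.VolA
import Pool.Agent.H84.SR.RhoB

/-!
# The measure of the bad region
-/

set_option autoImplicit false

open MeasureTheory Metric Set

namespace Pool.Agent.H84.SR

/-
TT is defined by finitely many closed or open conditions on continuous functions (rho_cont).
-/
theorem TT_meas {d : ℕ} (α : ℂ) (K δ : ℝ) : MeasurableSet (TT (d := d) α K δ) := by
  have h1 : MeasurableSet {a : V d × V d | ∀ i, ‖a.1 i‖ ≤ K} := by
    rw [Set.ofPred_forall]
    exact MeasurableSet.iInter fun i => (isClosed_le (by fun_prop) continuous_const).measurableSet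
  have h2 : MeasurableSet {a : V d × V d | ∀ i, ‖a.2 i‖ ≤ K} := by
    rw [Set.ofPred_forall]
    exact MeasurableSet.iInter fun i => (isClosed_le (by fun_prop) continuous_const).measurableSet
  have h3 : MeasurableSet {a : V d × V d |
      ‖a.1 (Fin.last d)‖ ^ (2 * d) * ∏ j : Fin d, ‖a.2 j.castSucc‖ ≤ δ} :=
    (isClosed_le (by fun_prop) continuous_const).measurableSet
  have hr : Continuous fun a : V d × V d => rho α K a.1 (a.2 (Fin.last d)) :=
    (rho_cont α K).comp (f := fun a : V d × V d => (a.1, a.2 (Fin.last d))) (by fun_prop)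
  have h4 : MeasurableSet {a : V d × V d | ∃ k : Fin d, a.2 k.castSucc = 0 ∨
      rho α K a.1 (a.2 (Fin.last d)) < ‖a.2 k.castSucc‖} := by
    rw [Set.ofPred_exists]
    refine MeasurableSet.iUnion fun k => ?_
    have h5 : MeasurableSet {a : V d × V d | a.2 k.castSucc = 0} :=
      (isClosed_eq (by fun_prop) continuous_const).measurableSet
    have h6 : MeasurableSet {a : V d × V d |
        rho α K a.1 (a.2 (Fin.last d)) < ‖a.2 k.castSucc‖} :=
      (isOpen_lt hr (by fun_prop)).measurableSet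
    exact h5.union h6
  exact h1.inter (h2.inter (h3.inter h4))

/-- the fibre over `c` -/
private theorem est_w {n : ℕ} {K C t r : ℝ}
    (hC : ∀ (k : Fin (n + 2)) (t ρ : ℝ), 0 < t → 0 < ρ → ρ ≤ 1 →
      volume {w ∈ GG (n + 2) K t | ρ < ‖w k‖} ≤
        ENNReal.ofReal (C * t ^ 2 * (1 + max 0 (Real.log (K / t))) ^ n *
          (1 + Real.log (1 / ρ)))) (ht : 0 < t) (hr : 0 < r) (hr1 : r ≤ 1) :
    volume {w ∈ GG (n + 2) K t | ∃ k : Fin (n + 2), w k = 0 ∨ r < ‖w k‖} ≤
      ENNReal.ofReal (((n : ℝ) + 2) * (C * t ^ 2 * (1 + max 0 (Real.log (K / t))) ^ n *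
        (1 + Real.log (1 / r)))) := by
  have hsub : {w ∈ GG (n + 2) K t | ∃ k : Fin (n + 2), w k = 0 ∨ r < ‖w k‖} ⊆
      ⋃ k : Fin (n + 2), ({w ∈ GG (n + 2) K t | w k = 0} ∪
        {w ∈ GG (n + 2) K t | r < ‖w k‖}) := by
    rintro w ⟨hw, k, hk⟩
    rw [mem_iUnion]
    refine ⟨k, ?_⟩
    rcases hk with hk | hk
    · exact Or.inl ⟨hw, hk⟩
    · exact Or.inr ⟨hw, hk⟩
  refine (measure_mono hsub).trans ((measure_iUnion_fintype_le _ _).trans ?_)
  have h1 : ∀ k ∈ (Finset.univ : Finset (Fin (n + 2))),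
      volume ({w ∈ GG (n + 2) K t | w k = 0} ∪ {w ∈ GG (n + 2) K t | r < ‖w k‖}) ≤
      ENNReal.ofReal (C * t ^ 2 * (1 + max 0 (Real.log (K / t))) ^ n *
        (1 + Real.log (1 / r))) := by
    intro k _
    refine (measure_union_le _ _).trans ?_
    have h2 : volume {w ∈ GG (n + 2) K t | w k = 0} = 0 := vol_zero (n + 1) K t k
    rw [h2, zero_add]
    exact hC k t r ht hr hr1
  refine (Finset.sum_le_sum h1).trans ?_
  rw [Finset.sum_const, Finset.card_univ, Fintype.card_fin, nsmul_eq_mul,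
    ENNReal.ofReal_mul (by positivity : (0 : ℝ) ≤ (n : ℝ) + 2)]
  have h3 : ((n + 2 : ℕ) : ENNReal) = ENNReal.ofReal ((n : ℝ) + 2) := by
    rw [← ENNReal.ofReal_natCast]
    push_cast
    rfl
  rw [h3]

/-
Fix x with q = x (last d) <> 0, |q| <= K, and such that rho > 0 for almost every c. Split
y = (c, w), c = y (last d), w j = y j.castSucc (volume_preserving_piFinSuccAbove at Fin.last d,
Fin.succAbove_last). For fixed c with rho > 0 the w with (x, y) ∈ TT lie in
GG d K t, t = δ/|q|^(2d), and for some k w k = 0 (null, vol_zero) or rho < |w k|: with d = n + 2,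
vol_up2 gives at most d C t^2 (1 + max 0 (log (K/t)))^(d-2) (1 + log (1/rho)) (rho <= 1).
Multiply by |q|^(4d+2): |q|^(4d+2) t^2 = |q|^2 δ^2 <= K^2 δ^2, and K/t = K |q|^(2d)/δ <= K^(2d+1)/δ, so
1 + max 0 (log (K/t)) <= 1 + (2d+1) log K + log (1/δ) <= C' log (1/δ) as δ <= 1/2.
-/
theorem est_fibre {d : ℕ} (hd : 2 ≤ d) {α : ℂ} {K : ℝ} (hK : 1 ≤ K) : ∃ C : ℝ, 0 < C ∧
    ∀ δ : ℝ, 0 < δ → δ ≤ 1 / 2 → ∀ x : V d, ‖x (Fin.last d)‖ ≤ K → x (Fin.last d) ≠ 0 →
      (∀ᵐ c : ℂ, 0 < rho α K x c) →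
      ENNReal.ofReal (‖x (Fin.last d)‖ ^ (4 * d + 2)) *
          volume {y : V d | (x, y) ∈ TT (d := d) α K δ} ≤
        ENNReal.ofReal (C * δ ^ 2 * (Real.log (1 / δ)) ^ (d - 2)) *
          ∫⁻ c in closedBall (0 : ℂ) K, ENNReal.ofReal (1 + Real.log (1 / rho α K x c)) := by
  obtain ⟨n, rfl⟩ : ∃ n, d = n + 2 := ⟨d - 2, by omega⟩
  obtain ⟨C, hC0, hC⟩ := vol_up2 n hK
  have hK0 : 0 < K := by linarith
  have hlK : 0 ≤ Real.log K := Real.log_nonneg hK
  set C2 : ℝ := 2 * (1 + (2 * ((n : ℝ) + 2) + 1) * Real.log K) + 1 with hC2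
  have hC2p : 0 < C2 := by positivity
  refine ⟨((n : ℝ) + 2) * C * K ^ 2 * C2 ^ n, by positivity, ?_⟩
  intro δ hδ hδ2 x hxK hx0 hae
  set q : ℝ := ‖x (Fin.last (n + 2))‖ with hq
  have hq0 : 0 < q := norm_pos_iff.2 hx0
  set t : ℝ := δ / q ^ (2 * (n + 2)) with ht
  have ht0 : 0 < t := by positivity
  set M : ℝ := 1 + max 0 (Real.log (K / t)) with hM
  have hM0 : 0 < M := by
    have := le_max_left 0 (Real.log (K / t))
    linarith
  -- the fibre as a set in the product
  set S : Set (ℂ × (Fin (n + 2) → ℂ)) := {p | ‖p.1‖ ≤ K ∧ p.2 ∈ {w ∈ GG (n + 2) K t |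
    ∃ k : Fin (n + 2), w k = 0 ∨ rho α K x p.1 < ‖w k‖}} with hS
  have hrc : Continuous fun c : ℂ => rho α K x c :=
    (rho_cont α K).comp (f := fun c : ℂ => (x, c)) (by fun_prop)
  have hSm : MeasurableSet S := by
    have h1 : MeasurableSet {p : ℂ × (Fin (n + 2) → ℂ) | ‖p.1‖ ≤ K} :=
      (isClosed_le (by fun_prop) continuous_const).measurableSet
    have h2 : MeasurableSet {p : ℂ × (Fin (n + 2) → ℂ) | p.2 ∈ GG (n + 2) K t} :=
      measurable_snd (GG_meas (n + 2) K t)
    have h4 : MeasurableSet {p : ℂ × (Fin (n + 2) → ℂ) | ∃ k : Fin (n + 2), p.2 k = 0 ∨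
        rho α K x p.1 < ‖p.2 k‖} := by
      rw [Set.ofPred_exists]
      refine MeasurableSet.iUnion fun k => ?_
      have h5 : MeasurableSet {p : ℂ × (Fin (n + 2) → ℂ) | p.2 k = 0} :=
        (isClosed_eq (by fun_prop) continuous_const).measurableSet
      have h6 : MeasurableSet {p : ℂ × (Fin (n + 2) → ℂ) | rho α K x p.1 < ‖p.2 k‖} :=
        (isOpen_lt (hrc.comp continuous_fst) (by fun_prop)).measurableSet
      exact h5.union h6
    exact h1.inter (h2.inter h4)
  have hmp := volume_preserving_piFinSuccAbove (fun _ : Fin (n + 2 + 1) => ℂ)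
    (Fin.last (n + 2))
  have hsub : {y : V (n + 2) | (x, y) ∈ TT (d := n + 2) α K δ} ⊆
      (MeasurableEquiv.piFinSuccAbove (fun _ : Fin (n + 2 + 1) => ℂ) (Fin.last (n + 2))) ⁻¹' S := by
    intro y hy
    have h1 : ((MeasurableEquiv.piFinSuccAbove (fun _ : Fin (n + 2 + 1) => ℂ)
      (Fin.last (n + 2))) y).1 = y (Fin.last (n + 2)) := rfl
    have h2 : ∀ j, ((MeasurableEquiv.piFinSuccAbove (fun _ : Fin (n + 2 + 1) => ℂ)
        (Fin.last (n + 2))) y).2 j = y j.castSucc := by
      intro j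
      rw [← Fin.succAbove_last]
      rfl
    obtain ⟨_, hy2, hy3, k, hk⟩ := hy
    rw [mem_preimage, hS]
    refine ⟨?_, ⟨?_, ?_⟩, k, ?_⟩
    · rw [h1]
      exact hy2 _
    · intro j
      rw [h2]
      exact hy2 _
    · simp only [h2]
      rw [ht, le_div_iff₀ (by positivity), mul_comm]
      exact hy3
    · rw [h1, h2]
      exact hk
  have hvol : volume {y : V (n + 2) | (x, y) ∈ TT (d := n + 2) α K δ} ≤
      ENNReal.ofReal (((n : ℝ) + 2) * (C * t ^ 2 * M ^ n)) *
        ∫⁻ c in closedBall (0 : ℂ) K, ENNReal.ofReal (1 + Real.log (1 / rho α K x c)) := by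
    refine (measure_mono hsub).trans ?_
    rw [hmp.measure_preimage hSm.nullMeasurableSet, Measure.volume_eq_prod,
      Measure.prod_apply hSm, ← lintegral_const_mul' _ _ ENNReal.ofReal_ne_top,
      ← lintegral_indicator measurableSet_closedBall]
    refine lintegral_mono_ae ?_
    filter_upwards [hae] with c hc
    by_cases hcK : c ∈ closedBall (0 : ℂ) K
    · rw [Set.indicator_of_mem hcK, ← ENNReal.ofReal_mul (by positivity)]
      have hr1 := rho_le_one α hK x c
      have h1 : Prod.mk c ⁻¹' S ⊆ {w ∈ GG (n + 2) K t |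
          ∃ k : Fin (n + 2), w k = 0 ∨ rho α K x c < ‖w k‖} := by
        intro w hw
        exact hw.2
      refine (measure_mono h1).trans ((est_w hC ht0 hc hr1).trans (le_of_eq ?_))
      rw [← hM]
      congr 1
      ring
    · rw [Set.indicator_of_notMem hcK]
      have h1 : Prod.mk c ⁻¹' S = ∅ := by
        ext w
        rw [mem_preimage, mem_empty_iff_false, iff_false]
        intro hw
        apply hcK
        rw [mem_closedBall, dist_zero_right]
        exact hw.1
      rw [h1, measure_empty]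
  calc ENNReal.ofReal (q ^ (4 * (n + 2) + 2)) *
        volume {y : V (n + 2) | (x, y) ∈ TT (d := n + 2) α K δ}
      ≤ ENNReal.ofReal (q ^ (4 * (n + 2) + 2)) *
        (ENNReal.ofReal (((n : ℝ) + 2) * (C * t ^ 2 * M ^ n)) *
        ∫⁻ c in closedBall (0 : ℂ) K, ENNReal.ofReal (1 + Real.log (1 / rho α K x c))) := by
        gcongr
    _ = ENNReal.ofReal (q ^ (4 * (n + 2) + 2) * (((n : ℝ) + 2) * (C * t ^ 2 * M ^ n))) *
        ∫⁻ c in closedBall (0 : ℂ) K, ENNReal.ofReal (1 + Real.log (1 / rho α K x c)) := by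
        rw [ENNReal.ofReal_mul (by positivity : (0 : ℝ) ≤ q ^ (4 * (n + 2) + 2))]
        exact (mul_assoc _ _ _).symm
    _ ≤ _ := by
        refine mul_le_mul_left (ENNReal.ofReal_le_ofReal ?_) _
        have e1 : q ^ (4 * (n + 2) + 2) * (((n : ℝ) + 2) * (C * t ^ 2 * M ^ n)) =
            ((n : ℝ) + 2) * C * q ^ 2 * δ ^ 2 * M ^ n := by
          rw [ht]
          have : (q ^ (2 * (n + 2))) ≠ 0 := by positivity
          have e2 : q ^ (4 * (n + 2) + 2) = (q ^ (2 * (n + 2))) ^ 2 * q ^ 2 := by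
            rw [← pow_mul, ← pow_add]
            congr 1
            ring
          rw [e2]
          field_simp
        rw [e1]
        have hlδ : 1 / 2 ≤ Real.log (1 / δ) := by
          have h1 : Real.log 2 ≤ Real.log (1 / δ) := by
            refine Real.log_le_log (by norm_num) ?_
            rw [le_div_iff₀ hδ]
            linarith
          have h2 := Real.log_two_gt_d9
          linarith
        have hM2 : M ≤ C2 * Real.log (1 / δ) := by
          have h1 : Real.log (K / t) ≤ (2 * ((n : ℝ) + 2) + 1) * Real.log K +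
              Real.log (1 / δ) := by
            have e3 : K / t = K * q ^ (2 * (n + 2)) * (1 / δ) := by
              rw [ht]
              field_simp
            have e4 : Real.log (K / t) ≤ Real.log (K * K ^ (2 * (n + 2)) * (1 / δ)) := by
              rw [e3]
              refine Real.log_le_log (by positivity) ?_
              have := pow_le_pow_left₀ hq0.le hxK (2 * (n + 2))
              gcongr
            rw [Real.log_mul (by positivity) (by positivity),
              Real.log_mul (by positivity) (by positivity), Real.log_pow] at e4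
            push_cast at e4
            linarith
          have h2 : 0 ≤ (2 * ((n : ℝ) + 2) + 1) * Real.log K := by positivity
          have h3 : max 0 (Real.log (K / t)) ≤ (2 * ((n : ℝ) + 2) + 1) * Real.log K +
              Real.log (1 / δ) := max_le (by linarith) h1
          rw [hM, hC2]
          nlinarith
        have h4 : M ^ n ≤ (C2 * Real.log (1 / δ)) ^ n := pow_le_pow_left₀ hM0.le hM2 n
        have h5 : q ^ 2 ≤ K ^ 2 := pow_le_pow_left₀ hq0.le hxK 2
        have hlδ0 : 0 ≤ Real.log (1 / δ) := by linarith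
        calc ((n : ℝ) + 2) * C * q ^ 2 * δ ^ 2 * M ^ n
            ≤ ((n : ℝ) + 2) * C * K ^ 2 * δ ^ 2 * (C2 * Real.log (1 / δ)) ^ n := by gcongr
          _ = ((n : ℝ) + 2) * C * K ^ 2 * C2 ^ n * δ ^ 2 *
              Real.log (1 / δ) ^ (n + 2 - 2) := by
              rw [mul_pow, Nat.add_sub_cancel]
              ring

/-
Tonelli: the left side is the integral over x of |q|^(4d+2) * volume of the fibre; the fibre is empty
unless all |x i| <= K; almost every x has q <> 0 and rho > 0 for almost every c (rho_pos_ae);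
est_fibre and log_rho_int.
-/
theorem est {d : ℕ} (hd : 2 ≤ d) {α : ℂ} (hα : ‖α‖ = 1) {K : ℝ} (hK : 1 ≤ K) :
    ∃ C : ℝ, 0 < C ∧ ∀ δ : ℝ, 0 < δ → δ ≤ 1 / 2 →
      ∫⁻ a in TT (d := d) α K δ, ENNReal.ofReal (‖a.1 (Fin.last d)‖ ^ (4 * d + 2)) ≤
        ENNReal.ofReal (C * δ ^ 2 * (Real.log (1 / δ)) ^ (d - 2)) := by
  obtain ⟨C1, hC1, H1⟩ := est_fibre hd (α := α) hK
  obtain ⟨C2, hC2, H2⟩ := log_rho_int (d := d) hα hK
  refine ⟨C1 * C2, by positivity, fun δ hδ hδ2 => ?_⟩
  have hTm := TT_meas (d := d) α K δ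
  have hlδ : 0 ≤ Real.log (1 / δ) := by
    refine Real.log_nonneg ?_
    rw [le_div_iff₀ hδ]
    linarith
  have hbox : MeasurableSet {x : V d | ∀ i, ‖x i‖ ≤ K} := by
    rw [Set.ofPred_forall]
    exact MeasurableSet.iInter fun i => (isClosed_le (by fun_prop) continuous_const).measurableSet
  rw [← lintegral_indicator hTm, Measure.volume_eq_prod, lintegral_prod _ (by
    refine (Measurable.indicator ?_ hTm).aemeasurable
    fun_prop)]
  have h1 : ∀ x : V d, ∫⁻ y : V d, (TT (d := d) α K δ).indicator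
      (fun a => ENNReal.ofReal (‖a.1 (Fin.last d)‖ ^ (4 * d + 2))) (x, y) =
      ENNReal.ofReal (‖x (Fin.last d)‖ ^ (4 * d + 2)) *
        volume {y : V d | (x, y) ∈ TT (d := d) α K δ} := by
    intro x
    have hm : MeasurableSet {y : V d | (x, y) ∈ TT (d := d) α K δ} := measurable_prodMk_left hTm
    rw [← lintegral_indicator_const hm]
    refine lintegral_congr fun y => ?_
    by_cases hy : (x, y) ∈ TT (d := d) α K δ
    · rw [Set.indicator_of_mem hy, Set.indicator_of_mem (by exact hy)]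
    · rw [Set.indicator_of_notMem hy, Set.indicator_of_notMem (by exact hy)]
  simp_rw [h1]
  have h2 : ∫⁻ x : V d, ENNReal.ofReal (‖x (Fin.last d)‖ ^ (4 * d + 2)) *
        volume {y : V d | (x, y) ∈ TT (d := d) α K δ} ≤
      ∫⁻ x in {x : V d | ∀ i, ‖x i‖ ≤ K},
        ENNReal.ofReal (C1 * δ ^ 2 * (Real.log (1 / δ)) ^ (d - 2)) *
          ∫⁻ c in closedBall (0 : ℂ) K, ENNReal.ofReal (1 + Real.log (1 / rho α K x c)) := by
    rw [← lintegral_indicator hbox]
    refine lintegral_mono_ae ?_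
    have hne : ∀ᵐ x : V d, x (Fin.last d) ≠ 0 :=
      Measure.ae_eval_ne (μ := fun _ : Fin (d + 1) => (volume : Measure ℂ)) (Fin.last d) 0
    filter_upwards [rho_pos_ae (d := d) α hK, hne] with x hx hx0
    by_cases hxK : x ∈ {x : V d | ∀ i, ‖x i‖ ≤ K}
    · rw [Set.indicator_of_mem hxK]
      exact H1 δ hδ hδ2 x (hxK _) hx0 hx
    · rw [Set.indicator_of_notMem hxK]
      have : {y : V d | (x, y) ∈ TT (d := d) α K δ} = ∅ := by
        ext y
        rw [mem_empty_iff_false, iff_false]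
        intro hy
        exact hxK hy.1
      rw [this, measure_empty, mul_zero]
  refine h2.trans ?_
  rw [lintegral_const_mul' _ _ ENNReal.ofReal_ne_top]
  calc _ ≤ ENNReal.ofReal (C1 * δ ^ 2 * (Real.log (1 / δ)) ^ (d - 2)) * ENNReal.ofReal C2 := by
        gcongr
    _ = _ := by
        rw [← ENNReal.ofReal_mul (by positivity)]
        congr 1
        ring

end Pool.Agent.H84.SR
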