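import Pool.Agent.H84.SR.EstB
import Pool.Agent.H84.SR.Est

/-!
# The measure of the second region: the estimate
-/

set_option autoImplicit false

open MeasureTheory Metric Set Filter Topology

namespace Pool.Agent.H84.SR

/-- the fibre over `c` -/
private theorem ea_w {n : ℕ} {K C t r : ℝ}
    (hC : ∀ (k j : Fin (n + 2)), j ≠ k → ∀ (t ρ : ℝ) (τ : ℂ → ℝ), 0 < t → 0 < ρ → ρ ≤ 1 →
      Measurable τ → (∀ᵐ a, 0 < τ a) → (∀ a, τ a ≤ 1) →
      volume {w ∈ GG (n + 2) K t | ρ < ‖w k‖ ∧ τ (w k) ≤ ‖w j‖} ≤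
        ENNReal.ofReal (C * t ^ 2 * (1 + max 0 (Real.log (K / t))) ^ n) *
          ∫⁻ a in {a : ℂ | ρ < ‖a‖ ∧ ‖a‖ ≤ K},
            ENNReal.ofReal ((‖a‖⁻¹) ^ 2 * min 1 ((1 + Real.log (1 / τ a) + Real.log (1 / ρ)) /
              (1 + max 0 (Real.log (K / t))))))
    (ht : 0 < t) (hr : 0 < r) (hr1 : r ≤ 1) (τ : Fin (n + 2) → ℂ → ℝ)
    (hτm : ∀ k, Measurable (τ k)) (hτ0 : ∀ k, ∀ᵐ a, 0 < τ k a) (hτ1 : ∀ k a, τ k a ≤ 1) :
    volume {w ∈ GG (n + 2) K t | (∃ k, w k = 0) ∨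
        ∃ k, r < ‖w k‖ ∧ ∃ j, j ≠ k ∧ τ k (w k) ≤ ‖w j‖} ≤
      ENNReal.ofReal (((n : ℝ) + 2) * (C * t ^ 2 * (1 + max 0 (Real.log (K / t))) ^ n)) *
        ∑ k, ∫⁻ a in {a : ℂ | r < ‖a‖ ∧ ‖a‖ ≤ K},
            ENNReal.ofReal ((‖a‖⁻¹) ^ 2 * min 1 ((1 + Real.log (1 / τ k a) +
              Real.log (1 / r)) / (1 + max 0 (Real.log (K / t))))) := by
  obtain ⟨I, hI⟩ : ∃ I : Fin (n + 2) → ENNReal, I = fun k =>
      ∫⁻ a in {a : ℂ | r < ‖a‖ ∧ ‖a‖ ≤ K},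
            ENNReal.ofReal ((‖a‖⁻¹) ^ 2 * min 1 ((1 + Real.log (1 / τ k a) +
              Real.log (1 / r)) / (1 + max 0 (Real.log (K / t))))) := ⟨_, rfl⟩
  obtain ⟨A, hA⟩ : ∃ A : ENNReal, A =
      ENNReal.ofReal (C * t ^ 2 * (1 + max 0 (Real.log (K / t))) ^ n) := ⟨_, rfl⟩
  have hIk : ∀ k, ∫⁻ a in {a : ℂ | r < ‖a‖ ∧ ‖a‖ ≤ K},
            ENNReal.ofReal ((‖a‖⁻¹) ^ 2 * min 1 ((1 + Real.log (1 / τ k a) +
              Real.log (1 / r)) / (1 + max 0 (Real.log (K / t))))) = I k := by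
    intro k
    rw [hI]
  have hsub : {w ∈ GG (n + 2) K t | (∃ k, w k = 0) ∨
        ∃ k, r < ‖w k‖ ∧ ∃ j, j ≠ k ∧ τ k (w k) ≤ ‖w j‖} ⊆
      (⋃ k : Fin (n + 2), {w ∈ GG (n + 2) K t | w k = 0}) ∪
        ⋃ k : Fin (n + 2), ⋃ j : Fin (n + 2),
          {w ∈ GG (n + 2) K t | j ≠ k ∧ r < ‖w k‖ ∧ τ k (w k) ≤ ‖w j‖} := by
    rintro w ⟨hw, hk⟩
    rcases hk with ⟨k, hk⟩ | ⟨k, h1, j, h2, h3⟩
    · exact Or.inl (mem_iUnion.2 ⟨k, hw, hk⟩)
    · exact Or.inr (mem_iUnion.2 ⟨k, mem_iUnion.2 ⟨j, hw, h2, h1, h3⟩⟩)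
  have h0 : volume (⋃ k : Fin (n + 2), {w ∈ GG (n + 2) K t | w k = 0}) = 0 := by
    rw [measure_iUnion_null_iff]
    intro k
    exact vol_zero (n + 1) K t k
  have h1 : ∀ k j : Fin (n + 2),
      volume {w ∈ GG (n + 2) K t | j ≠ k ∧ r < ‖w k‖ ∧ τ k (w k) ≤ ‖w j‖} ≤ A * I k := by
    intro k j
    by_cases hjk : j = k
    · have : {w ∈ GG (n + 2) K t | j ≠ k ∧ r < ‖w k‖ ∧ τ k (w k) ≤ ‖w j‖} = ∅ := by
        ext w
        rw [mem_empty_iff_false, iff_false]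
        rintro ⟨-, h, -⟩
        exact h hjk
      rw [this, measure_empty]
      exact bot_le
    · have h2 := hC k j hjk t r (τ k) ht hr hr1 (hτm k) (hτ0 k) (hτ1 k)
      rw [hIk, ← hA] at h2
      refine (measure_mono ?_).trans h2
      rintro w ⟨hw, -, h3⟩
      exact ⟨hw, h3⟩
  refine (measure_mono hsub).trans ((measure_union_le _ _).trans ?_)
  rw [h0, zero_add]
  refine (measure_iUnion_fintype_le _ _).trans ?_
  have h2 : ∀ k ∈ (Finset.univ : Finset (Fin (n + 2))), volume (⋃ j : Fin (n + 2),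
          {w ∈ GG (n + 2) K t | j ≠ k ∧ r < ‖w k‖ ∧ τ k (w k) ≤ ‖w j‖}) ≤
      ENNReal.ofReal ((n : ℝ) + 2) * (A * I k) := by
    intro k _
    refine (measure_iUnion_fintype_le _ _).trans ((Finset.sum_le_sum
      (fun j _ => h1 k j)).trans (le_of_eq ?_))
    rw [Finset.sum_const, Finset.card_univ, Fintype.card_fin, nsmul_eq_mul]
    congr 1
    rw [← ENNReal.ofReal_natCast]
    push_cast
    rfl
  refine (Finset.sum_le_sum h2).trans (le_of_eq ?_)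
  simp only [hIk]
  rw [← Finset.mul_sum, ← Finset.mul_sum, ENNReal.ofReal_mul (by positivity), hA]
  exact (mul_assoc _ _ _).symm

/-- the numerical estimate -/
private theorem ea_num {n : ℕ} {K C δ q : ℝ} (hK : 1 ≤ K) (hC0 : 0 < C) (hδ : 0 < δ)
    (hδ2 : δ ≤ 1 / 2) (hq0 : 0 < q) (hxK : q ≤ K) :
    q ^ (4 * (n + 2) + 2) * (((n : ℝ) + 2) * (C * (δ / q ^ (2 * (n + 2))) ^ 2 *
      (1 + max 0 (Real.log (K / (δ / q ^ (2 * (n + 2)))))) ^ n)) ≤
    ((n : ℝ) + 2) * C * K ^ 2 * (2 * (1 + (2 * ((n : ℝ) + 2) + 1) * Real.log K) + 1) ^ n *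
      δ ^ 2 * Real.log (1 / δ) ^ (n + 2 - 2) := by
  have hK0 : 0 < K := by linarith
  have hlK : 0 ≤ Real.log K := Real.log_nonneg hK
  obtain ⟨C2, hC2⟩ : ∃ C2 : ℝ, C2 = 2 * (1 + (2 * ((n : ℝ) + 2) + 1) * Real.log K) + 1 :=
    ⟨_, rfl⟩
  have hC2p : 0 < C2 := by
    rw [hC2]
    positivity
  rw [← hC2]
  obtain ⟨t, ht⟩ : ∃ t : ℝ, t = δ / q ^ (2 * (n + 2)) := ⟨_, rfl⟩
  rw [← ht]
  have ht0 : 0 < t := by
    rw [ht]
    positivity
  obtain ⟨M, hM⟩ : ∃ M : ℝ, M = 1 + max 0 (Real.log (K / t)) := ⟨_, rfl⟩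
  rw [← hM]
  have hM0 : 0 < M := by
    have := le_max_left 0 (Real.log (K / t))
    linarith
  have e1 : q ^ (4 * (n + 2) + 2) * (((n : ℝ) + 2) * (C * t ^ 2 * M ^ n)) =
      ((n : ℝ) + 2) * C * q ^ 2 * δ ^ 2 * M ^ n := by
    rw [ht]
    have : (q ^ (2 * (n + 2))) ≠ 0 := by positivity
    have e2 : q ^ (4 * (n + 2) + 2) = (q ^ (2 * (n + 2))) ^ 2 * q ^ 2 := by
      rw [← pow_mul, ← pow_add]
      congr 1
      ring
    rw [e2]
    field_simp
  rw [e1]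
  have hlδ : 1 / 2 ≤ Real.log (1 / δ) := by
    have h1 : Real.log 2 ≤ Real.log (1 / δ) := by
      refine Real.log_le_log (by norm_num) ?_
      rw [le_div_iff₀ hδ]
      linarith
    have h2 := Real.log_two_gt_d9
    linarith
  have hM2 : M ≤ C2 * Real.log (1 / δ) := by
    have h1 : Real.log (K / t) ≤ (2 * ((n : ℝ) + 2) + 1) * Real.log K +
        Real.log (1 / δ) := by
      have e3 : K / t = K * q ^ (2 * (n + 2)) * (1 / δ) := by
        rw [ht]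
        field_simp
      have e4 : Real.log (K / t) ≤ Real.log (K * K ^ (2 * (n + 2)) * (1 / δ)) := by
        rw [e3]
        refine Real.log_le_log (by positivity) ?_
        have := pow_le_pow_left₀ hq0.le hxK (2 * (n + 2))
        gcongr
      rw [Real.log_mul (by positivity) (by positivity),
        Real.log_mul (by positivity) (by positivity), Real.log_pow] at e4
      push_cast at e4
      linarith
    have h2 : 0 ≤ (2 * ((n : ℝ) + 2) + 1) * Real.log K := by positivity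
    have h3 : max 0 (Real.log (K / t)) ≤ (2 * ((n : ℝ) + 2) + 1) * Real.log K +
        Real.log (1 / δ) := max_le (by linarith) h1
    rw [hM, hC2]
    nlinarith
  have h4 : M ^ n ≤ (C2 * Real.log (1 / δ)) ^ n := pow_le_pow_left₀ hM0.le hM2 n
  have h5 : q ^ 2 ≤ K ^ 2 := pow_le_pow_left₀ hq0.le hxK 2
  have hlδ0 : 0 ≤ Real.log (1 / δ) := by linarith
  calc ((n : ℝ) + 2) * C * q ^ 2 * δ ^ 2 * M ^ n
      ≤ ((n : ℝ) + 2) * C * K ^ 2 * δ ^ 2 * (C2 * Real.log (1 / δ)) ^ n := by gcongr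
    _ = ((n : ℝ) + 2) * C * K ^ 2 * C2 ^ n * δ ^ 2 *
        Real.log (1 / δ) ^ (n + 2 - 2) := by
        rw [mul_pow, Nat.add_sub_cancel]
        ring

/-- one summand -/
private noncomputable def ea_g {d : ℕ} (α : ℂ) (K δ : ℝ) (k : Fin d) (a : V d × ℂ × ℂ) :
    ENNReal :=
  (Reg (d := d) α K).indicator (fun a => ENNReal.ofReal (Th α K δ k a)) a

private theorem ea_g_meas {d : ℕ} (α : ℂ) (K δ : ℝ) (k : Fin d) :
    Measurable (ea_g (d := d) α K δ k) := by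
  unfold ea_g
  exact (ENNReal.measurable_ofReal.comp (Th_meas α K δ k)).indicator (Reg_meas α K)

/-- the density, extended by zero -/
private noncomputable def ea_G {d : ℕ} (α : ℂ) (K δ : ℝ) (a : V d × ℂ × ℂ) : ENNReal :=
  ∑ k : Fin d, ea_g α K δ k a

private theorem ea_G_meas {d : ℕ} (α : ℂ) (K δ : ℝ) : Measurable (ea_G (d := d) α K δ) := by
  unfold ea_G
  exact Finset.measurable_sum _ (fun k _ => ea_g_meas α K δ k)

private theorem ea_G_int {d : ℕ} (α : ℂ) (K δ : ℝ) :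
    ∫⁻ x : V d, ∫⁻ c : ℂ, ∫⁻ w : ℂ, ea_G α K δ (x, c, w) =
      ∑ k : Fin d, ∫⁻ a in Reg α K, ENNReal.ofReal (Th α K δ k a) := by
  have hm := ea_G_meas (d := d) α K δ
  have h1 : ∫⁻ a : V d × ℂ × ℂ, ea_G α K δ a =
      ∑ k : Fin d, ∫⁻ a in Reg α K, ENNReal.ofReal (Th α K δ k a) := by
    unfold ea_G
    rw [lintegral_finsetSum _ (fun k _ => ea_g_meas α K δ k)]
    refine Finset.sum_congr rfl (fun k _ => ?_)
    unfold ea_g
    rw [lintegral_indicator (Reg_meas α K)]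
  rw [← h1]
  have h2 : ∫⁻ a : V d × ℂ × ℂ, ea_G α K δ a =
      ∫⁻ x : V d, ∫⁻ p : ℂ × ℂ, ea_G α K δ (x, p) := by
    rw [Measure.volume_eq_prod, lintegral_prod _ hm.aemeasurable]
  rw [h2]
  refine lintegral_congr (fun x => ?_)
  have hmx : Measurable fun p : ℂ × ℂ => ea_G α K δ (x, p) := hm.comp measurable_prodMk_left
  rw [Measure.volume_eq_prod, lintegral_prod _ hmx.aemeasurable]

/-- one slice -/
private theorem ea_slice {d : ℕ} (α : ℂ) (K δ : ℝ) {x : V d} (hx : ∀ i, ‖x i‖ ≤ K) {c : ℂ}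
    (hc : ‖c‖ ≤ K) :
    ∑ k, ∫⁻ a in {a : ℂ | rho α K x c < ‖a‖ ∧ ‖a‖ ≤ K},
      ENNReal.ofReal (Th α K δ k (x, c, a)) = ∫⁻ w : ℂ, ea_G α K δ (x, c, w) := by
  have hms : MeasurableSet {a : ℂ | rho α K x c < ‖a‖ ∧ ‖a‖ ≤ K} :=
    (measurableSet_lt measurable_const measurable_norm).inter
      (measurableSet_le measurable_norm measurable_const)
  have hg : Measurable fun w : ℂ => ((x, c, w) : V d × ℂ × ℂ) :=
    measurable_prodMk_left.comp measurable_prodMk_left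
  have hgk : ∀ k : Fin d, Measurable fun w : ℂ => ea_g α K δ k (x, c, w) := fun k =>
    (ea_g_meas α K δ k).comp hg
  unfold ea_G
  rw [lintegral_finsetSum _ (fun k _ => hgk k)]
  refine Finset.sum_congr rfl (fun k _ => ?_)
  rw [← lintegral_indicator hms]
  refine lintegral_congr (fun w => ?_)
  unfold ea_g
  by_cases hw : w ∈ {a : ℂ | rho α K x c < ‖a‖ ∧ ‖a‖ ≤ K}
  · have hw2 : ((x, c, w) : V d × ℂ × ℂ) ∈ Reg (d := d) α K := ⟨hx, hc, hw.1, hw.2⟩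
    rw [indicator_of_mem hw, indicator_of_mem hw2]
  · have hw2 : ((x, c, w) : V d × ℂ × ℂ) ∉ Reg (d := d) α K := fun h => hw ⟨h.2.2.1, h.2.2.2⟩
    rw [indicator_of_notMem hw, indicator_of_notMem hw2]

/-- the fibre over `x` -/
private theorem ea_fibre {d : ℕ} (hd : 2 ≤ d) {α : ℂ} {K : ℝ} (hK : 1 ≤ K) : ∃ C : ℝ, 0 < C ∧
    ∀ δ : ℝ, 0 < δ → δ ≤ 1 / 2 → ∀ x : V d, (∀ i, ‖x i‖ ≤ K) → x (Fin.last d) ≠ 0 →
      (∀ᵐ c : ℂ, 0 < rho α K x c) → (∀ᵐ c : ℂ, ∀ k : Fin d, ∀ᵐ w : ℂ, 0 < tau α K k x c w) →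
      ENNReal.ofReal (‖x (Fin.last d)‖ ^ (4 * d + 2)) *
          volume {y : V d | (x, y) ∈ TT2 (d := d) α K δ} ≤
        ENNReal.ofReal (C * δ ^ 2 * (Real.log (1 / δ)) ^ (d - 2)) *
          ∫⁻ c : ℂ, ∫⁻ w : ℂ, ea_G α K δ (x, c, w) := by
  obtain ⟨n, rfl⟩ : ∃ n, d = n + 2 := ⟨d - 2, by omega⟩
  obtain ⟨C, hC0, hC⟩ := vol_up3 n hK
  have hK0 : 0 < K := by linarith
  have hlK : 0 ≤ Real.log K := Real.log_nonneg hK
  refine ⟨((n : ℝ) + 2) * C * K ^ 2 *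
    (2 * (1 + (2 * ((n : ℝ) + 2) + 1) * Real.log K) + 1) ^ n, by positivity, ?_⟩
  intro δ hδ hδ2 x hx hx0 hae haet
  obtain ⟨q, hq⟩ : ∃ q : ℝ, q = ‖x (Fin.last (n + 2))‖ := ⟨_, rfl⟩
  have hxK : q ≤ K := by
    rw [hq]
    exact hx _
  rw [← hq]
  have hq0 : 0 < q := by
    rw [hq]
    exact norm_pos_iff.2 hx0
  obtain ⟨t, ht⟩ : ∃ t : ℝ, t = δ / q ^ (2 * (n + 2)) := ⟨_, rfl⟩
  have ht0 : 0 < t := by
    rw [ht]
    positivity
  have hKt : K / t = K * ‖x (Fin.last (n + 2))‖ ^ (2 * (n + 2)) / δ := by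
    rw [ht, ← hq]
    field_simp
  -- the fibre as a set in the product
  obtain ⟨S, hS⟩ : ∃ S : Set (ℂ × (Fin (n + 2) → ℂ)), S = {p | ‖p.1‖ ≤ K ∧
    p.2 ∈ {w ∈ GG (n + 2) K t | (∃ k, w k = 0) ∨ ∃ k, rho α K x p.1 < ‖w k‖ ∧
      ∃ j, j ≠ k ∧ tau α K k x p.1 (w k) ≤ ‖w j‖}} := ⟨_, rfl⟩
  have hmp := volume_preserving_piFinSuccAbove (fun _ : Fin (n + 2 + 1) => ℂ)
    (Fin.last (n + 2))
  have hrc : Continuous fun c : ℂ => rho α K x c :=
    (rho_cont α K).comp (f := fun c : ℂ => (x, c)) (by fun_prop)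
  have hSm : MeasurableSet S := by
    have h1 : MeasurableSet {p : ℂ × (Fin (n + 2) → ℂ) | ‖p.1‖ ≤ K} :=
      (isClosed_le (by fun_prop) continuous_const).measurableSet
    have h2 : MeasurableSet {p : ℂ × (Fin (n + 2) → ℂ) | p.2 ∈ GG (n + 2) K t} :=
      measurable_snd (GG_meas (n + 2) K t)
    have h4 : MeasurableSet {p : ℂ × (Fin (n + 2) → ℂ) | ∃ k : Fin (n + 2), p.2 k = 0} := by
      rw [Set.ofPred_exists]
      exact MeasurableSet.iUnion fun k =>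
        (isClosed_eq (by fun_prop) continuous_const).measurableSet
    have h5 : MeasurableSet {p : ℂ × (Fin (n + 2) → ℂ) | ∃ k, rho α K x p.1 < ‖p.2 k‖ ∧
      ∃ j, j ≠ k ∧ tau α K k x p.1 (p.2 k) ≤ ‖p.2 j‖} := by
      rw [Set.ofPred_exists]
      refine MeasurableSet.iUnion fun k => ?_
      have h6 : MeasurableSet {p : ℂ × (Fin (n + 2) → ℂ) | rho α K x p.1 < ‖p.2 k‖} :=
        (isOpen_lt (hrc.comp continuous_fst) (by fun_prop)).measurableSet
      have h7 : MeasurableSet {p : ℂ × (Fin (n + 2) → ℂ) | ∃ j, j ≠ k ∧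
          tau α K k x p.1 (p.2 k) ≤ ‖p.2 j‖} := by
        rw [Set.ofPred_exists]
        refine MeasurableSet.iUnion fun j => ?_
        have h8 : Measurable fun p : ℂ × (Fin (n + 2) → ℂ) => tau α K k x p.1 (p.2 k) :=
          (tau_meas α K k).comp (f := fun p : ℂ × (Fin (n + 2) → ℂ) => (x, p.1, p.2 k))
            (Continuous.measurable (by fun_prop))
        have h9 : MeasurableSet {p : ℂ × (Fin (n + 2) → ℂ) |
            tau α K k x p.1 (p.2 k) ≤ ‖p.2 j‖} :=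
          measurableSet_le h8 (Continuous.measurable (by fun_prop))
        exact (MeasurableSet.const (j ≠ k)).inter h9
      exact h6.inter h7
    rw [hS]
    exact h1.inter (h2.inter (h4.union h5))
  have hsub : {y : V (n + 2) | (x, y) ∈ TT2 (d := n + 2) α K δ} ⊆
      (MeasurableEquiv.piFinSuccAbove (fun _ : Fin (n + 2 + 1) => ℂ) (Fin.last (n + 2))) ⁻¹' S := by
    intro y hy
    have h1 : ((MeasurableEquiv.piFinSuccAbove (fun _ : Fin (n + 2 + 1) => ℂ)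
      (Fin.last (n + 2))) y).1 = y (Fin.last (n + 2)) := rfl
    have h2 : ∀ j, ((MeasurableEquiv.piFinSuccAbove (fun _ : Fin (n + 2 + 1) => ℂ)
        (Fin.last (n + 2))) y).2 j = y j.castSucc := by
      intro j
      rw [← Fin.succAbove_last]
      rfl
    obtain ⟨_, hy2, hy3, hk⟩ := hy
    rw [mem_preimage, hS]
    refine ⟨?_, ⟨?_, ?_⟩, ?_⟩
    · rw [h1]
      exact hy2 _
    · intro j
      rw [h2]
      exact hy2 _
    · simp only [h2]
      rw [ht, le_div_iff₀ (by positivity), mul_comm, hq]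
      exact hy3
    · rcases hk with ⟨k, hk⟩ | ⟨k, hk1, j, hj, hk2⟩
      · exact Or.inl ⟨k, by rw [h2]; exact hk⟩
      · refine Or.inr ⟨k, ?_, j, hj, ?_⟩
        · rw [h1, h2]
          exact hk1
        · rw [h1, h2, h2]
          exact hk2
  have hvol : volume {y : V (n + 2) | (x, y) ∈ TT2 (d := n + 2) α K δ} ≤
      ENNReal.ofReal (((n : ℝ) + 2) * (C * t ^ 2 * (1 + max 0 (Real.log (K / t))) ^ n)) *
        ∫⁻ c : ℂ, ∫⁻ w : ℂ, ea_G α K δ (x, c, w) := by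
    refine (measure_mono hsub).trans ?_
    rw [hmp.measure_preimage hSm.nullMeasurableSet, Measure.volume_eq_prod,
      Measure.prod_apply hSm, ← lintegral_const_mul' _ _ ENNReal.ofReal_ne_top]
    refine lintegral_mono_ae ?_
    filter_upwards [hae, haet] with c hc hct
    by_cases hcK : ‖c‖ ≤ K
    · have hr1 := rho_le_one α hK x c
      have h1 : Prod.mk c ⁻¹' S ⊆ {w ∈ GG (n + 2) K t | (∃ k, w k = 0) ∨
          ∃ k, rho α K x c < ‖w k‖ ∧ ∃ j, j ≠ k ∧ tau α K k x c (w k) ≤ ‖w j‖} := by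
        intro w hw
        rw [mem_preimage, hS] at hw
        exact hw.2
      have hτm : ∀ k : Fin (n + 2), Measurable fun w : ℂ => tau α K k x c w := fun k =>
        (tau_meas α K k).comp (f := fun w : ℂ => (x, c, w)) (Continuous.measurable (by fun_prop))
      refine (measure_mono h1).trans ((ea_w hC ht0 hc hr1 (fun k w => tau α K k x c w) hτm hct
        (fun k w => tau_le_one α K k x c w)).trans (le_of_eq ?_))
      rw [← ea_slice α K δ hx hcK]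
      unfold Th
      rw [hKt]
    · have h1 : Prod.mk c ⁻¹' S = ∅ := by
        ext w
        rw [mem_preimage, mem_empty_iff_false, iff_false, hS]
        intro hw
        exact hcK hw.1
      rw [h1, measure_empty]
      exact bot_le
  calc ENNReal.ofReal (q ^ (4 * (n + 2) + 2)) *
        volume {y : V (n + 2) | (x, y) ∈ TT2 (d := n + 2) α K δ}
      ≤ ENNReal.ofReal (q ^ (4 * (n + 2) + 2)) *
        (ENNReal.ofReal (((n : ℝ) + 2) * (C * t ^ 2 * (1 + max 0 (Real.log (K / t))) ^ n)) *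
        ∫⁻ c : ℂ, ∫⁻ w : ℂ, ea_G α K δ (x, c, w)) := by
        gcongr
    _ = ENNReal.ofReal (q ^ (4 * (n + 2) + 2) *
        (((n : ℝ) + 2) * (C * t ^ 2 * (1 + max 0 (Real.log (K / t))) ^ n))) *
        ∫⁻ c : ℂ, ∫⁻ w : ℂ, ea_G α K δ (x, c, w) := by
        rw [ENNReal.ofReal_mul (by positivity : (0 : ℝ) ≤ q ^ (4 * (n + 2) + 2))]
        exact (mul_assoc _ _ _).symm
    _ ≤ _ := by
        refine mul_le_mul_left (ENNReal.ofReal_le_ofReal ?_) _
        rw [ht]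
        exact ea_num hK hC0 hδ hδ2 hq0 hxK

/-
As est_fibre and est (H84/SR/Est), with vol_up3 in place of vol_up2. Fix x in the box with
q = x (last d) <> 0; split y = (c, w); for almost every c rho > 0 and tau α K k x c w > 0 for almost
every w (tau_pos_ae and Fubini, for almost every x). For fixed (x, c) the w with (x, y) ∈ TT2 lie in
GG d K t, t = δ/|q|^(2d), d = n + 2, and either some w k = 0 (null, vol_zero) or for some k <> j
rho < |w k| and tau (w k) <= |w j|. vol_up3, sum over the pairs (k, j) (at most d for each k).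
|q|^(4d+2) t^2 <= K^2 δ^2 and 1 + max 0 (log (K/t)) <= C' log (1/δ) as in est_fibre; K/t = K |q|^(2d)/δ
is exactly the argument in Th. Tonelli.
-/
theorem est2a {d : ℕ} (hd : 2 ≤ d) {α : ℂ} (hα : ‖α‖ = 1) {K : ℝ} (hK : 1 ≤ K) :
    ∃ C : ℝ, 0 < C ∧ ∀ δ : ℝ, 0 < δ → δ ≤ 1 / 2 →
      ∫⁻ a in TT2 (d := d) α K δ, ENNReal.ofReal (‖a.1 (Fin.last d)‖ ^ (4 * d + 2)) ≤
        ENNReal.ofReal (C * δ ^ 2 * (Real.log (1 / δ)) ^ (d - 2)) *
          ∑ k : Fin d, ∫⁻ a in Reg α K, ENNReal.ofReal (Th α K δ k a) := by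
  obtain ⟨C1, hC1, H1⟩ := ea_fibre hd (α := α) hK
  refine ⟨C1, hC1, fun δ hδ hδ2 => ?_⟩
  have hTm := TT2_meas (d := d) α K δ
  rw [← ea_G_int, ← lintegral_const_mul' _ _ ENNReal.ofReal_ne_top,
    ← lintegral_indicator hTm, Measure.volume_eq_prod, lintegral_prod _ (by
    refine (Measurable.indicator ?_ hTm).aemeasurable
    fun_prop)]
  have h1 : ∀ x : V d, ∫⁻ y : V d, (TT2 (d := d) α K δ).indicator
      (fun a => ENNReal.ofReal (‖a.1 (Fin.last d)‖ ^ (4 * d + 2))) (x, y) =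
      ENNReal.ofReal (‖x (Fin.last d)‖ ^ (4 * d + 2)) *
        volume {y : V d | (x, y) ∈ TT2 (d := d) α K δ} := by
    intro x
    have hm : MeasurableSet {y : V d | (x, y) ∈ TT2 (d := d) α K δ} := measurable_prodMk_left hTm
    rw [← lintegral_indicator_const hm]
    refine lintegral_congr fun y => ?_
    by_cases hy : (x, y) ∈ TT2 (d := d) α K δ
    · rw [Set.indicator_of_mem hy, Set.indicator_of_mem (by exact hy)]
    · rw [Set.indicator_of_notMem hy, Set.indicator_of_notMem (by exact hy)]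
  simp_rw [h1]
  refine lintegral_mono_ae ?_
  have hne : ∀ᵐ x : V d, x (Fin.last d) ≠ 0 :=
    Measure.ae_eval_ne (μ := fun _ : Fin (d + 1) => (volume : Measure ℂ)) (Fin.last d) 0
  have htau : ∀ᵐ x : V d, ∀ᵐ c : ℂ, ∀ k : Fin d, ∀ᵐ w : ℂ, 0 < tau α K k x c w := by
    have h2 : ∀ k : Fin d, ∀ᵐ x : V d, ∀ᵐ c : ℂ, ∀ᵐ w : ℂ, 0 < tau α K k x c w := by
      intro k
      have h3 := Measure.ae_ae_of_ae_prod (tau_pos_ae hd α hK k)
      filter_upwards [h3] with x hx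
      exact Measure.ae_ae_of_ae_prod hx
    filter_upwards [ae_all_iff.2 h2] with x hx
    exact ae_all_iff.2 hx
  filter_upwards [rho_pos_ae (d := d) α hK, hne, htau] with x hx hx0 hxt
  by_cases hxK : ∀ i, ‖x i‖ ≤ K
  · exact H1 δ hδ hδ2 x hxK hx0 hx hxt
  · have : {y : V d | (x, y) ∈ TT2 (d := d) α K δ} = ∅ := by
      ext y
      rw [mem_empty_iff_false, iff_false]
      intro hy
      exact hxK hy.1
    rw [this, measure_empty, mul_zero]
    exact bot_le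

end Pool.Agent.H84.SR
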