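import Pool.Agent.H84.SR.Main
import Pool.Agent.H84.SR.Cover2
import Pool.Agent.H84.SR.EstA

/-!
# The proportion of the maps that are not hyperbolic is `o(1 / log (1 / δ))`
-/

set_option autoImplicit false

open MeasureTheory Metric Set Polynomial Filter Topology

namespace Pool.Agent.H84.SR

open Pool.Agent.H44.Fatou Pool.Agent.H32.BT

/-
As vol_Y in H84/SR/Main, with cover2, TT2 and est2a: volume (Y d α δ) <= ofReal (C δ^2 L^(d-2)) * S δ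
for 0 < δ <= 1/2, where S δ = sum_k of the integrals, which tends to 0 by est2b.
-/
theorem vol_Y2 {d : ℕ} (hd : 2 ≤ d) {α : ℂ} (hα : ‖α‖ = 1) : ∃ (C : ℝ) (S : ℝ → ENNReal),
    0 < C ∧ Tendsto S (𝓝[>] 0) (𝓝 0) ∧ ∀ δ : ℝ, 0 < δ → δ ≤ 1 / 2 →
      volume (Y d α δ) ≤
        ENNReal.ofReal (C * δ ^ 2 * (Real.log (1 / δ)) ^ (d - 2)) * S δ := by
  obtain ⟨K, hK, hcov⟩ := cover2 hd hα
  obtain ⟨C1, hC1, hest⟩ := est2a hd hα hK
  obtain ⟨C2, hC2, hlin⟩ := lin_bound α d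
  refine ⟨C2 * C1, fun δ => ∑ k : Fin d, ∫⁻ a in Reg α K, ENNReal.ofReal (Th α K δ k a),
    by positivity, ?_, fun δ hδ hδ2 => ?_⟩
  · have h1 : Tendsto (fun δ : ℝ => ∑ k : Fin d,
        ∫⁻ a in Reg α K, ENNReal.ofReal (Th α K δ k a)) (𝓝[>] 0) (𝓝 (∑ _k : Fin d, 0)) :=
      tendsto_finsetSum _ fun k _ => est2b hα hK k
    rwa [Finset.sum_const_zero] at h1
  set Y' : Set (E d) := {v ∈ Y d α δ | (fr α d (pol v.2)).coeff d ≠ 0 ∧
    (fr α d (pol v.2)).roots.Nodup} with hY'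
  have h1 : volume (Y d α δ) ≤ volume Y' := by
    have h2 := ae_generic_fr α (d := d) (by omega)
    apply measure_mono_ae
    filter_upwards [h2] with v hv hvY
    exact ⟨hvY, hv⟩
  have h3 := hlin Y'
  have h4 : volume (fr2 α d '' Y') ≤
      ∫⁻ a in TT2 (d := d) α K δ, ENNReal.ofReal (‖a.1 (Fin.last d)‖ ^ (4 * d + 2)) := by
    apply jac (TT2_meas α K δ)
    rintro _ ⟨v, ⟨hv, hv1, hv2⟩, rfl⟩
    obtain ⟨x, y, hxy, hq, hinj, hmk, hev⟩ := hcov δ v hv hv1 hv2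
    exact ⟨x, y, hxy, hq, hinj, hmk, hev⟩
  calc volume (Y d α δ) ≤ volume Y' := h1
    _ ≤ ENNReal.ofReal C2 * volume (fr2 α d '' Y') := h3
    _ ≤ ENNReal.ofReal C2 *
        (ENNReal.ofReal (C1 * δ ^ 2 * (Real.log (1 / δ)) ^ (d - 2)) *
          ∑ k : Fin d, ∫⁻ a in Reg α K, ENNReal.ofReal (Th α K δ k a)) := by
        gcongr
        exact h4.trans (hest δ hδ hδ2)
    _ = _ := by
        rw [← mul_assoc, ← ENNReal.ofReal_mul hC2.le]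
        congr 2
        ring

/-
As up in H84/SR/Main: finite sum over the frames.
-/
theorem up2 {d : ℕ} (hd : 2 ≤ d) : ∃ S : ℝ → ENNReal, Tendsto S (𝓝[>] 0) (𝓝 0) ∧
    ∀ δ : ℝ, 0 < δ → δ ≤ 1 / 2 →
      volume {v : E d | ‖v‖ ≤ 1 ∧ rs v ≤ δ ∧ ¬ HypDeg d (pol v.1) (pol v.2)} ≤
        ENNReal.ofReal (δ ^ 2 * (Real.log (1 / δ)) ^ (d - 2)) * S δ := by
  obtain ⟨s, hs, hcov⟩ := bad_cover (d := d) (by omega)
  have h1 : ∀ α : ℂ, ‖α‖ = 1 → ∃ (C : ℝ) (S : ℝ → ENNReal),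
      0 < C ∧ Tendsto S (𝓝[>] 0) (𝓝 0) ∧ ∀ δ : ℝ, 0 < δ → δ ≤ 1 / 2 →
      volume (Y d α δ) ≤
        ENNReal.ofReal (C * δ ^ 2 * (Real.log (1 / δ)) ^ (d - 2)) * S δ :=
    fun α hα => vol_Y2 hd hα
  choose! C S hC using h1
  have hs' : ∀ α ∈ s, ‖α⁻¹‖ = 1 := by
    intro α hα
    rw [norm_inv, hs α hα, inv_one]
  refine ⟨fun δ => ∑ α ∈ s, (ENNReal.ofReal (C α) * S α δ +
    ENNReal.ofReal (C α⁻¹) * S α⁻¹ δ), ?_, fun δ hδ hδ2 => ?_⟩
  · have h2 : Tendsto (fun δ => ∑ α ∈ s, (ENNReal.ofReal (C α) * S α δ +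
        ENNReal.ofReal (C α⁻¹) * S α⁻¹ δ)) (𝓝[>] (0 : ℝ)) (𝓝 (∑ α ∈ s,
          (ENNReal.ofReal (C α) * 0 + ENNReal.ofReal (C α⁻¹) * 0))) := by
      refine tendsto_finsetSum _ fun α hα => ?_
      exact (ENNReal.Tendsto.const_mul (hC α (hs α hα)).2.1 (Or.inr ENNReal.ofReal_ne_top)).add
        (ENNReal.Tendsto.const_mul (hC _ (hs' α hα)).2.1 (Or.inr ENNReal.ofReal_ne_top))
    simpa using h2
  have hpre : ∀ S : Set (E d), volume (inv2 d ⁻¹' S) ≤ volume S := by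
    intro S
    calc volume (inv2 d ⁻¹' S) ≤ volume (inv2 d ⁻¹' toMeasurable volume S) :=
          measure_mono (preimage_mono (subset_toMeasurable _ _))
      _ = volume (toMeasurable volume S) :=
          (inv2_mp d).measure_preimage (measurableSet_toMeasurable _ _).nullMeasurableSet
      _ = volume S := measure_toMeasurable _
  set F : ℝ := δ ^ 2 * (Real.log (1 / δ)) ^ (d - 2) with hF
  have e1 : volume (⋃ α ∈ s, Y d α δ) ≤
      ∑ α ∈ s, ENNReal.ofReal F * (ENNReal.ofReal (C α) * S α δ) := by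
    refine (measure_biUnion_finset_le _ _).trans (Finset.sum_le_sum fun α hα => ?_)
    have h2 := (hC α (hs α hα)).2.2 δ hδ hδ2
    rw [mul_assoc, ENNReal.ofReal_mul (hC α (hs α hα)).1.le] at h2
    refine h2.trans (le_of_eq ?_)
    ring
  have e2 : volume (⋃ α ∈ s, inv2 d ⁻¹' (Y d α⁻¹ δ)) ≤
      ∑ α ∈ s, ENNReal.ofReal F * (ENNReal.ofReal (C α⁻¹) * S α⁻¹ δ) := by
    refine (measure_biUnion_finset_le _ _).trans (Finset.sum_le_sum fun α hα => ?_)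
    have h2 := (hC _ (hs' α hα)).2.2 δ hδ hδ2
    rw [mul_assoc, ENNReal.ofReal_mul (hC _ (hs' α hα)).1.le] at h2
    refine (hpre _).trans (h2.trans (le_of_eq ?_))
    ring
  calc volume {v : E d | ‖v‖ ≤ 1 ∧ rs v ≤ δ ∧ ¬ HypDeg d (pol v.1) (pol v.2)}
      ≤ volume ((⋃ α ∈ s, Y d α δ) ∪ ⋃ α ∈ s, inv2 d ⁻¹' (Y d α⁻¹ δ)) :=
        measure_mono (hcov δ)
    _ ≤ volume (⋃ α ∈ s, Y d α δ) + volume (⋃ α ∈ s, inv2 d ⁻¹' (Y d α⁻¹ δ)) :=
        measure_union_le _ _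
    _ ≤ (∑ α ∈ s, ENNReal.ofReal F * (ENNReal.ofReal (C α) * S α δ)) +
          ∑ α ∈ s, ENNReal.ofReal F * (ENNReal.ofReal (C α⁻¹) * S α⁻¹ δ) :=
        add_le_add e1 e2
    _ = ENNReal.ofReal F * ∑ α ∈ s, (ENNReal.ofReal (C α) * S α δ +
          ENNReal.ofReal (C α⁻¹) * S α⁻¹ δ) := by
        rw [← Finset.sum_add_distrib, Finset.mul_sum]
        exact Finset.sum_congr rfl fun α _ => by rw [mul_add]

/-
up2 and low (H84/SR/LowB): the quotient is at most S δ / ofReal c.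
-/
theorem main2 {d : ℕ} (hd : 2 ≤ d) : Tendsto (fun δ : ℝ => ENNReal.ofReal (Real.log (1 / δ)) *
    volume {v : E d | ‖v‖ ≤ 1 ∧ rs v ≤ δ ∧ ¬ HypDeg d (pol v.1) (pol v.2)} /
      volume {v : E d | ‖v‖ ≤ 1 ∧ rs v ≤ δ}) (𝓝[>] 0) (𝓝 0) := by
  obtain ⟨S, hS, hup⟩ := up2 hd
  obtain ⟨c, hc, hlow⟩ := low (d := d) (by omega)
  have hc0 : ENNReal.ofReal c ≠ 0 := by
    rw [Ne, ENNReal.ofReal_eq_zero, not_le]
    exact hc
  have hlim : Tendsto (fun δ => S δ / ENNReal.ofReal c) (𝓝[>] (0 : ℝ)) (𝓝 0) := by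
    have h1 := ENNReal.Tendsto.div_const (b := ENNReal.ofReal c) hS (Or.inr hc0)
    rwa [ENNReal.zero_div] at h1
  have hev : ∀ᶠ δ : ℝ in 𝓝[>] 0, 0 < δ ∧ δ ≤ 1 / 2 := by
    filter_upwards [Ioc_mem_nhdsGT (show (0 : ℝ) < 1 / 2 by norm_num)] with δ hδ
    exact hδ
  refine tendsto_of_tendsto_of_tendsto_of_le_of_le' tendsto_const_nhds hlim
    (Eventually.of_forall fun δ => zero_le) ?_
  filter_upwards [hev] with δ hδ
  obtain ⟨hδ0, hδ2⟩ := hδ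
  have hL : 0 < Real.log (1 / δ) := by
    apply Real.log_pos
    rw [lt_div_iff₀ hδ0]
    linarith
  set F : ℝ := δ ^ 2 * (Real.log (1 / δ)) ^ (d - 1) with hF
  have hF0 : 0 < F := by positivity
  have hF1 : ENNReal.ofReal F ≠ 0 := by
    rw [Ne, ENNReal.ofReal_eq_zero, not_le]
    exact hF0
  have h1 : ENNReal.ofReal (Real.log (1 / δ)) *
      volume {v : E d | ‖v‖ ≤ 1 ∧ rs v ≤ δ ∧ ¬ HypDeg d (pol v.1) (pol v.2)} ≤
        ENNReal.ofReal F * S δ := by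
    calc ENNReal.ofReal (Real.log (1 / δ)) *
        volume {v : E d | ‖v‖ ≤ 1 ∧ rs v ≤ δ ∧ ¬ HypDeg d (pol v.1) (pol v.2)}
        ≤ ENNReal.ofReal (Real.log (1 / δ)) *
          (ENNReal.ofReal (δ ^ 2 * (Real.log (1 / δ)) ^ (d - 2)) * S δ) := by
          gcongr
          exact hup δ hδ0 hδ2
      _ = ENNReal.ofReal F * S δ := by
          rw [← mul_assoc, ← ENNReal.ofReal_mul hL.le]
          congr 2
          have h2 : d - 1 = d - 2 + 1 := by omega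
          rw [hF, h2, pow_succ]
          ring
  have h2 : ENNReal.ofReal F * ENNReal.ofReal c ≤ volume {v : E d | ‖v‖ ≤ 1 ∧ rs v ≤ δ} := by
    refine le_trans (le_of_eq ?_) (hlow δ hδ0 hδ2)
    rw [← ENNReal.ofReal_mul hF0.le]
    congr 1
    rw [hF]
    ring
  calc ENNReal.ofReal (Real.log (1 / δ)) *
      volume {v : E d | ‖v‖ ≤ 1 ∧ rs v ≤ δ ∧ ¬ HypDeg d (pol v.1) (pol v.2)} /
        volume {v : E d | ‖v‖ ≤ 1 ∧ rs v ≤ δ}
      ≤ ENNReal.ofReal F * S δ / (ENNReal.ofReal F * ENNReal.ofReal c) :=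
        ENNReal.div_le_div h1 h2
    _ = S δ / ENNReal.ofReal c :=
        ENNReal.mul_div_mul_left _ _ hF1 ENNReal.ofReal_ne_top

end Pool.Agent.H84.SR
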