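import Pool.Agent.H84.SR.MobGen
import Mathlib.MeasureTheory.Measure.Haar.Disintegration

/-!
# Almost all limit pairs are robust
-/

set_option autoImplicit false

open Filter Topology Polynomial Metric Set MeasureTheory

namespace Pool.Agent.H84.SR

open Pool.Agent.H44.Fatou Pool.Agent.H32.BT

private theorem ar_haar : (volume : Measure (ℂ × ℂ)).IsAddHaarMeasure :=
  inferInstanceAs (((volume : Measure ℂ).prod (volume : Measure ℂ)).IsAddHaarMeasure)

private theorem ar_split {d : ℕ} (k : Fin (d + 1)) {W : Set (V d)} (hW : MeasurableSet W)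
    (h : ∀ᵐ z : ℂ, ∀ᵐ x' : Fin d → ℂ, Fin.insertNth (α := fun _ => ℂ) k z x' ∈ W) :
    ∀ᵐ x : V d, x ∈ W := by
  have hmp := volume_preserving_piFinSuccAbove (fun _ : Fin (d + 1) => ℂ) k
  set e := MeasurableEquiv.piFinSuccAbove (fun _ : Fin (d + 1) => ℂ) k with he
  have hQ : ∀ᵐ p : ℂ × (Fin d → ℂ), e.symm p ∈ W :=
    (Measure.ae_prod_iff_ae_ae (μ := (volume : Measure ℂ))
      (ν := (volume : Measure (Fin d → ℂ)))
      (p := fun p : ℂ × (Fin d → ℂ) => e.symm p ∈ W) (e.symm.measurable hW)).2 h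
  have h3 := hmp.quasiMeasurePreserving.ae hQ
  filter_upwards [h3] with x hx
  rw [MeasurableEquiv.symm_apply_apply] at hx
  exact hx

private theorem ar_meas {d : ℕ} (k : Fin d) :
    MeasurableSet {a : V d × ℂ × ℂ | lim0 a.1 k a.2.1 a.2.2 ∉ closure (NH d)} :=
  (isClosed_closure.preimage (lim0_cont k)).measurableSet.compl

private theorem ar_meas1 {d : ℕ} (k : Fin d) (c' b : ℂ) :
    MeasurableSet {x : V d | lim0 x k c' b ∉ closure (NH d)} := by
  have h1 : Continuous (fun x : V d => ((x, c', b) : V d × ℂ × ℂ)) :=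
    continuous_id.prodMk continuous_const
  exact h1.measurable (ar_meas k)

private theorem ar_meas2 {d : ℕ} (k : Fin d) (x : V d) :
    MeasurableSet {p : ℂ × ℂ | lim0 x k p.1 p.2 ∉ closure (NH d)} := by
  have h1 : Continuous (fun p : ℂ × ℂ => ((x, p) : V d × ℂ × ℂ)) :=
    continuous_const.prodMk continuous_id
  exact h1.measurable (ar_meas k)

private theorem ar_sub {W : Set (ℂ × ℂ)} (hW : MeasurableSet W) (h : ∀ᵐ p : ℂ × ℂ, p ∈ W)
    {D : ℂ} (hD : D ≠ 0) (α : ℂ) : ∀ᵐ p : ℂ × ℂ, (p.1 - α, p.2 / D) ∈ W := by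
  set L : ℂ × ℂ →ₗ[ℝ] ℂ × ℂ := LinearMap.prodMap LinearMap.id (LinearMap.mulLeft ℝ D⁻¹) with hL
  have hsurj : Function.Surjective L := by
    intro p
    refine ⟨(p.1, D * p.2), ?_⟩
    rw [hL]
    ext
    · simp
    · simp [inv_mul_cancel_left₀ hD]
  have := ar_haar
  have hmt : Measurable (fun p : ℂ × ℂ => p - (α, 0)) := measurable_id.sub_const _
  have h2 : ∀ᵐ p : ℂ × ℂ, p ∈ (fun p : ℂ × ℂ => p - (α, 0)) ⁻¹' W :=
    (measurePreserving_sub_right (volume : Measure (ℂ × ℂ))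
      ((α, 0) : ℂ × ℂ)).quasiMeasurePreserving.ae h
  have h4 := (ae_comp_linearMap_mem_iff L (volume : Measure (ℂ × ℂ))
    (volume : Measure (ℂ × ℂ)) hsurj (hmt hW)).2 h2
  filter_upwards [h4] with p hp
  have h5 : L p - (α, 0) = (p.1 - α, p.2 / D) := by
    rw [hL]
    ext <;> simp [div_eq_inv_mul]
  rw [← h5]
  exact hp

private theorem ar_line {c' b s : ℂ} (hc : c' ≠ 0) (hs : s ≠ 0) :
    ∀ᵐ z : ℂ, ((1 + b - c' * z) / s).im ≠ 0 := by
  set L : ℂ →ₗ[ℝ] ℝ := Complex.imLm ∘ₗ (LinearMap.mulLeft ℝ (c' / s)) with hL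
  have hsurj : Function.Surjective L := by
    intro t
    refine ⟨(s / c') * (t * Complex.I), ?_⟩
    rw [hL]
    simp only [LinearMap.comp_apply, LinearMap.mulLeft_apply, Complex.imLm_coe]
    have : c' / s * (s / c' * (t * Complex.I)) = t * Complex.I := by
      field_simp
    rw [this]
    simp
  have h1 := (ae_comp_linearMap_mem_iff L (volume : Measure ℂ) (volume : Measure ℝ) hsurj
    (s := {((1 + b) / s).im}ᶜ) (measurableSet_singleton _).compl).2
    (compl_mem_ae_iff.2 (by simp))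
  filter_upwards [h1] with z hz h2
  apply hz
  rw [Set.mem_singleton_iff, hL]
  simp only [LinearMap.comp_apply, LinearMap.mulLeft_apply, Complex.imLm_coe]
  have h3 : (1 + b - c' * z) / s = (1 + b) / s - c' / s * z := by ring
  rw [h3, Complex.sub_im] at h2
  linarith

private theorem ar_fix {d : ℕ} {S : Set ℂ} (hS : S.Countable) (i : Fin d) :
    ∀ᵐ x : Fin d → ℂ, x i ∉ S :=
  (Measure.quasiMeasurePreserving_eval (fun _ : Fin d => (volume : Measure ℂ)) i).ae
    (hS.ae_notMem _)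

private theorem ar_pair {d : ℕ} {R : ℂ → Set ℂ} (hR : ∀ y, (R y).Countable)
    (hm : MeasurableSet {p : ℂ × ℂ | p.2 ∈ R p.1}) {i j : Fin d} (hij : i ≠ j) :
    ∀ᵐ x : Fin d → ℂ, x j ∉ R (x i) := by
  set L : (Fin d → ℂ) →ₗ[ℝ] ℂ × ℂ := (LinearMap.proj i).prod (LinearMap.proj j) with hL
  have hsurj : Function.Surjective L := by
    intro p
    refine ⟨Function.update (Function.update 0 i p.1) j p.2, ?_⟩
    rw [hL]
    ext <;> simp [Function.update_of_ne hij]
  have h1 : ∀ᵐ p : ℂ × ℂ, p ∈ {p : ℂ × ℂ | p.2 ∈ R p.1}ᶜ := by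
    refine (Measure.ae_prod_iff_ae_ae (μ := (volume : Measure ℂ)) (ν := (volume : Measure ℂ))
      (p := fun p => p ∈ {p : ℂ × ℂ | p.2 ∈ R p.1}ᶜ) hm.compl).2 ?_
    refine ae_of_all _ (fun y => ?_)
    exact (hR y).ae_notMem _
  have := ar_haar
  have h2 := (ae_comp_linearMap_mem_iff L (volume : Measure (Fin d → ℂ))
    (volume : Measure (ℂ × ℂ)) hsurj hm.compl).2 h1
  exact h2

private theorem ar_gen {d : ℕ} {S : Set ℂ} {R : ℂ → Set ℂ} (hS : S.Countable)
    (hR : ∀ y, (R y).Countable) (hm : MeasurableSet {p : ℂ × ℂ | p.2 ∈ R p.1}) :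
    ∀ᵐ x : Fin d → ℂ, (∀ i, x i ∉ S) ∧ ∀ i j, i ≠ j → x j ∉ R (x i) := by
  have h1 : ∀ᵐ x' : Fin d → ℂ, ∀ i, x' i ∉ S := ae_all_iff.2 (fun i => ar_fix hS i)
  have h2 : ∀ᵐ x' : Fin d → ℂ, ∀ i j, i ≠ j → x' j ∉ R (x' i) := by
    refine ae_all_iff.2 (fun i => ae_all_iff.2 (fun j => ?_))
    by_cases hij : i = j
    · exact ae_of_all _ (fun _ h => absurd hij h)
    · filter_upwards [ar_pair hR hm hij] with x' hx' _
      exact hx'
  exact h1.and h2

private theorem ar_slice {d : ℕ} (hd : 2 ≤ d) (k : Fin d) {c' b : ℂ} (hc : c' ≠ 0) (hb : b ≠ 0) :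
    ∀ᵐ x : V d, lim0 x k c' b ∉ closure (NH d) := by
  obtain ⟨s, hs⟩ : ∃ s : ℂ, s ^ 2 = b := IsAlgClosed.exists_pow_nat_eq b (n := 2) (by norm_num)
  have hs0 : s ≠ 0 := by
    rintro rfl
    apply hb
    rw [← hs]
    ring
  refine ar_split k.castSucc (ar_meas1 k c' b) ?_
  filter_upwards [ar_line (b := b) hc hs0] with z hz
  obtain ⟨S, R, hS, hR, hRm, hgen⟩ := rob_generic hd hc hb hs hz
  filter_upwards [ar_gen hS hR hRm] with x' hx'
  obtain ⟨h1, h2⟩ := hx'
  have hex : ∀ i : Fin d, i ≠ k → ∃ i' : Fin d, k.castSucc.succAbove i' = i.castSucc := by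
    intro i hi
    apply Fin.exists_succAbove_eq
    intro h
    exact hi (Fin.castSucc_injective _ h)
  apply hgen _ k (Fin.insertNth_apply_same _ _ _)
  · intro i hi
    obtain ⟨i', hi'⟩ := hex i hi
    rw [← hi', Fin.insertNth_apply_succAbove]
    exact h1 i'
  · intro i j hi hj hij
    obtain ⟨i', hi'⟩ := hex i hi
    obtain ⟨j', hj'⟩ := hex j hj
    rw [← hi', ← hj', Fin.insertNth_apply_succAbove, Fin.insertNth_apply_succAbove]
    apply h2
    intro h
    apply hij
    apply Fin.castSucc_injective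
    rw [← hi', ← hj', h]

/-
The set G of the good (x, c', b) is open (preimage of an open set under the continuous lim0_cont), so
measurable. Split x at the index k.castSucc (volume_preserving_piFinSuccAbove): x = (z, x').
For fixed c' <> 0 and b <> 0, s with s^2 = b, and almost every z the imaginary part of
(1 + b - c' z)/s is not zero (ae_comp_linearMap_mem_iff). Then rob_generic gives S, R and for almost
every x' the generic conditions hold.
-/
theorem lim_good_ae {d : ℕ} (hd : 2 ≤ d) (k : Fin d) :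
    ∀ᵐ a : V d × ℂ × ℂ, lim0 a.1 k a.2.1 a.2.2 ∉ closure (NH d) := by
  have hmeas := ar_meas k
  have h1 : ∀ᵐ p : ℂ × ℂ, ∀ᵐ x : V d, lim0 x k p.1 p.2 ∉ closure (NH d) := by
    have h2 : ∀ᵐ p : ℂ × ℂ, p.1 ≠ 0 :=
      (Measure.quasiMeasurePreserving_fst (μ := (volume : Measure ℂ))
        (ν := (volume : Measure ℂ))).ae (Measure.ae_ne _ 0)
    have h3 : ∀ᵐ p : ℂ × ℂ, p.2 ≠ 0 :=
      (Measure.quasiMeasurePreserving_snd (μ := (volume : Measure ℂ))
        (ν := (volume : Measure ℂ))).ae (Measure.ae_ne _ 0)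
    filter_upwards [h2, h3] with p h2 h3
    exact ar_slice hd k h2 h3
  have h4 := (Measure.ae_ae_comm (μ := (volume : Measure (V d))) (ν := (volume : Measure (ℂ × ℂ)))
    (p := fun x p => lim0 x k p.1 p.2 ∉ closure (NH d)) hmeas).2 h1
  exact (Measure.ae_prod_iff_ae_ae hmeas).2 h4

private theorem ar_sep {d : ℕ} : ∀ᵐ x : V d, 0 < sep x := by
  have h1 : ∀ p : Fin d × Fin d, ∀ᵐ x : V d, p.1 ≠ p.2 → x p.1.castSucc ≠ x p.2.castSucc := by
    intro p
    by_cases hp : p.1 = p.2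
    · exact ae_of_all _ (fun _ h => absurd hp h)
    have hp' : p.1.castSucc ≠ p.2.castSucc := fun h => hp (Fin.castSucc_injective _ h)
    have h2 := ar_pair (d := d + 1) (R := fun y => {y}) (fun y => Set.countable_singleton y)
      (by
        have he : {p : ℂ × ℂ | p.2 ∈ ({p.1} : Set ℂ)} = {p : ℂ × ℂ | p.2 = p.1} := by
          ext p
          simp
        rw [he]
        exact measurableSet_eq_fun measurable_snd measurable_fst) hp'
    filter_upwards [h2] with x hx _ h
    exact hx h.symm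
  have h3 : ∀ᵐ x : V d, ∀ p : Fin d × Fin d, p.1 ≠ p.2 → x p.1.castSucc ≠ x p.2.castSucc :=
    ae_all_iff.2 h1
  filter_upwards [h3] with x hx
  unfold sep
  apply Finset.prod_pos
  intro p hp
  rw [Finset.mem_offDiag] at hp
  exact lt_min one_pos (norm_pos_iff.2 (sub_ne_zero.2 (hx p hp.2.2)))

/-
If NH d is empty tau = 1. Otherwise tau > 0 iff the infDist is positive (iff the point is not in the
closure) and sep x > 0. From lim_good_ae: for almost every x, almost every (c', b) the point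
is good (Measure.ae_ae_of_ae_prod); sep x > 0 for almost every x (different z i); for such x the
substitution b = w / prod (a nonzero constant) and c' = c - α preserve null sets. Back to the product
by measurability (tau_meas; Measure.ae_prod_iff_ae_ae).
-/
theorem tau_pos_ae {d : ℕ} (hd : 2 ≤ d) (α : ℂ) {K : ℝ} (hK : 1 ≤ K) (k : Fin d) :
    ∀ᵐ a : V d × ℂ × ℂ, 0 < tau α K k a.1 a.2.1 a.2.2 := by
  by_cases hne : (NH d).Nonempty
  swap
  · refine ae_of_all _ (fun a => ?_)
    unfold tau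
    rw [if_neg hne]
    exact one_pos
  have hmeas : MeasurableSet {a : V d × ℂ × ℂ | 0 < tau α K k a.1 a.2.1 a.2.2} :=
    measurableSet_lt measurable_const (tau_meas α K k)
  refine (Measure.ae_prod_iff_ae_ae hmeas).2 ?_
  have h1 := Measure.ae_ae_of_ae_prod (lim_good_ae hd k)
  filter_upwards [h1, ar_sep] with x h1 hsep
  obtain ⟨D, hD⟩ : ∃ D : ℂ, D = ∏ i ∈ Finset.univ.erase k, (x k.castSucc - x i.castSucc) :=
    ⟨_, rfl⟩
  have hD0 : D ≠ 0 := by
    have h2 := hsep.trans_le (sep_le x k)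
    rw [← norm_prod, ← hD] at h2
    exact norm_pos_iff.1 h2
  have h4 := ar_sub (ar_meas2 k x) h1 hD0 α
  filter_upwards [h4] with p hp
  have hp' : lim0 x k (p.1 - α) (p.2 / D) ∉ closure (NH d) := hp
  unfold tau
  rw [if_pos hne, ← hD]
  apply lt_min one_pos
  have h6 : 0 < infDist (lim0 x k (p.1 - α) (p.2 / D)) (NH d) := by
    rcases (infDist_nonneg (x := lim0 x k (p.1 - α) (p.2 / D)) (s := NH d)).lt_or_eq with h | h
    · exact h
    · exact absurd ((mem_closure_iff_infDist_zero hne).2 h.symm) hp'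
  have h7 : (0 : ℝ) < d := by
    have : 0 < d := by omega
    exact_mod_cast this
  have h8 : (0 : ℝ) < 1 + K := by linarith
  positivity

end Pool.Agent.H84.SR
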