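import Mathlib

/-!
# Integrals over annuli and logarithmic integrals in the plane
-/

set_option autoImplicit false

open MeasureTheory Metric Set

namespace Pool.Agent.H84.SR

/-- integration of a radial function in polar coordinates -/
theorem lintegral_radial (g : ℝ → ENNReal) (hg : Measurable g) :
    ∫⁻ w : ℂ, g ‖w‖ =
      ENNReal.ofReal (2 * Real.pi) * ∫⁻ r in Ioi (0 : ℝ), ENNReal.ofReal r * g r := by
  rw [← Complex.lintegral_comp_polarCoord_symm (fun w : ℂ => g ‖w‖)]
  have htar : polarCoord.target = Ioi (0 : ℝ) ×ˢ Ioo (-Real.pi) Real.pi := rfl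
  have h1 : (∫⁻ p in polarCoord.target,
      ENNReal.ofReal p.1 • g ‖Complex.polarCoord.symm p‖) =
      ∫⁻ p in Ioi (0 : ℝ) ×ˢ Ioo (-Real.pi) Real.pi, ENNReal.ofReal p.1 * g p.1 := by
    rw [htar]
    refine setLIntegral_congr_fun (measurableSet_Ioi.prod measurableSet_Ioo) (fun p hp => ?_)
    have hp1 : 0 < p.1 := hp.1
    simp only [Complex.norm_polarCoord_symm, abs_of_pos hp1, smul_eq_mul]
  rw [h1, Measure.volume_eq_prod, ← Measure.prod_restrict]
  rw [lintegral_prod _ (by fun_prop)]
  have h2 : ∀ r : ℝ, ∫⁻ _θ in Ioo (-Real.pi) Real.pi, ENNReal.ofReal r * g r =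
      ENNReal.ofReal (2 * Real.pi) * (ENNReal.ofReal r * g r) := by
    intro r
    rw [lintegral_const, Measure.restrict_apply_univ, Real.volume_Ioo, mul_comm]
    congr 2
    ring
  simp only [h2]
  rw [lintegral_const_mul _ (by fun_prop)]

/-
Polar coordinates: the integral is 2 π ∫_a^b r^(-2) r dr. Use lintegral_fun_norm_addHaar /
integral_fun_norm_addHaar (Mathlib.MeasureTheory.Constructions.HaarToSphere) with
volume (ball 0 1) = π (Complex.volume_ball), or Complex.lintegral_comp_polarCoord_symm.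
-/
theorem annulus {a b : ℝ} (ha : 0 < a) (hab : a ≤ b) :
    ∫⁻ w in {w : ℂ | a < ‖w‖ ∧ ‖w‖ ≤ b}, ENNReal.ofReal ((‖w‖⁻¹) ^ 2) =
      ENNReal.ofReal (2 * Real.pi * Real.log (b / a)) := by
  have hms : MeasurableSet {w : ℂ | a < ‖w‖ ∧ ‖w‖ ≤ b} :=
    (measurableSet_lt measurable_const measurable_norm).inter
      (measurableSet_le measurable_norm measurable_const)
  rw [← lintegral_indicator hms]
  have h1 : ({w : ℂ | a < ‖w‖ ∧ ‖w‖ ≤ b}.indicator
      (fun w : ℂ => ENNReal.ofReal ((‖w‖⁻¹) ^ 2))) =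
      fun w : ℂ => (Ioc a b).indicator (fun r : ℝ => ENNReal.ofReal ((r⁻¹) ^ 2)) ‖w‖ := by
    funext w
    by_cases hw : a < ‖w‖ ∧ ‖w‖ ≤ b
    · rw [indicator_of_mem (show w ∈ {w : ℂ | a < ‖w‖ ∧ ‖w‖ ≤ b} from hw),
        indicator_of_mem (show ‖w‖ ∈ Ioc a b from hw)]
    · rw [indicator_of_notMem (show w ∉ {w : ℂ | a < ‖w‖ ∧ ‖w‖ ≤ b} from hw),
        indicator_of_notMem (show ‖w‖ ∉ Ioc a b from hw)]
  rw [h1, lintegral_radial _ (Measurable.indicator (by fun_prop) measurableSet_Ioc)]
  have h2 : ∀ r : ℝ, ENNReal.ofReal r *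
      (Ioc a b).indicator (fun r : ℝ => ENNReal.ofReal ((r⁻¹) ^ 2)) r =
      (Ioc a b).indicator (fun r : ℝ => ENNReal.ofReal (r⁻¹)) r := by
    intro r
    by_cases hr : r ∈ Ioc a b
    · rw [indicator_of_mem hr, indicator_of_mem hr, ← ENNReal.ofReal_mul (by linarith [hr.1])]
      congr 1
      have : r ≠ 0 := by linarith [hr.1]
      field_simp
    · rw [indicator_of_notMem hr, indicator_of_notMem hr, mul_zero]
  simp only [h2]
  rw [← lintegral_indicator measurableSet_Ioi, indicator_indicator,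
    inter_eq_right.mpr (show Ioc a b ⊆ Ioi 0 from fun x hx => lt_trans ha hx.1),
    lintegral_indicator measurableSet_Ioc]
  have hint : IntegrableOn (fun r : ℝ => r⁻¹) (Ioc a b) volume := by
    have h := (intervalIntegral.intervalIntegrable_inv (a := a) (b := b) (μ := volume)
      (f := fun x => x) (fun x hx => by
        rw [uIcc_of_le hab] at hx
        have := hx.1
        linarith) continuousOn_id)
    exact (intervalIntegrable_iff_integrableOn_Ioc_of_le hab).1 h
  rw [← ofReal_integral_eq_lintegral_ofReal hint]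
  · rw [← intervalIntegral.integral_of_le hab, integral_inv_of_pos ha (lt_of_lt_of_le ha hab),
      ← ENNReal.ofReal_mul (by positivity)]
  · filter_upwards [ae_restrict_mem measurableSet_Ioc] with r hr
    exact inv_nonneg.mpr (by linarith [hr.1])

/-
The function is bounded by the function 1_(‖w - y‖ <= 1) log (1/‖w - y‖) (0 when the norm is > 1);
by translation invariance the integral over ℂ is that of 1_(‖w‖ <= 1) log (1/‖w‖), which in polar
coordinates is 2 π ∫_0^1 r log(1/r) dr = π/2; C = 2 (or any bound, e.g. log (1/r) <= 1/r gives 2π).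
-/
theorem log_int : ∃ C : ℝ, 0 < C ∧ ∀ y : ℂ,
    ∫⁻ w : ℂ, ENNReal.ofReal (Real.log (1 / min 1 ‖w - y‖)) ≤ ENNReal.ofReal C := by
  refine ⟨2 * Real.pi, by positivity, fun y => ?_⟩
  have h0 : (∫⁻ w : ℂ, ENNReal.ofReal (Real.log (1 / min 1 ‖w - y‖))) =
      ∫⁻ w : ℂ, ENNReal.ofReal (Real.log (1 / min 1 ‖w‖)) :=
    lintegral_sub_right_eq_self
      (fun w : ℂ => ENNReal.ofReal (Real.log (1 / min 1 ‖w‖))) y
  rw [h0, lintegral_radial (fun r => ENNReal.ofReal (Real.log (1 / min 1 r))) (by fun_prop)]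
  have h1 : (∫⁻ r in Ioi (0 : ℝ), ENNReal.ofReal r *
      ENNReal.ofReal (Real.log (1 / min 1 r))) ≤ 1 := by
    calc (∫⁻ r in Ioi (0 : ℝ), ENNReal.ofReal r * ENNReal.ofReal (Real.log (1 / min 1 r)))
        ≤ ∫⁻ r in Ioi (0 : ℝ), (Ioc (0 : ℝ) 1).indicator (fun _ => (1 : ENNReal)) r := by
          refine setLIntegral_mono (Measurable.indicator measurable_const measurableSet_Ioc) ?_
          intro r hr
          have hr0 : 0 < r := hr
          by_cases h1 : r ≤ 1
          · rw [indicator_of_mem (show r ∈ Ioc (0 : ℝ) 1 from ⟨hr0, h1⟩), min_eq_right h1,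
              ← ENNReal.ofReal_mul hr0.le]
            rw [← ENNReal.ofReal_one]
            apply ENNReal.ofReal_le_ofReal
            have h2 : Real.log (1 / r) ≤ 1 / r - 1 :=
              Real.log_le_sub_one_of_pos (by positivity)
            have h3 : r * Real.log (1 / r) ≤ r * (1 / r) :=
              mul_le_mul_of_nonneg_left (by linarith) hr0.le
            have h4 : r * (1 / r) = 1 := by field_simp
            linarith
          · rw [indicator_of_notMem (show r ∉ Ioc (0 : ℝ) 1 from fun h => h1 h.2),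
              min_eq_left (by linarith)]
            simp
      _ ≤ ∫⁻ r : ℝ, (Ioc (0 : ℝ) 1).indicator (fun _ => (1 : ENNReal)) r :=
          setLIntegral_le_lintegral _ _
      _ = 1 := by
          rw [lintegral_indicator measurableSet_Ioc]
          simp
  calc ENNReal.ofReal (2 * Real.pi) * _ ≤ ENNReal.ofReal (2 * Real.pi) * 1 := by gcongr
    _ = ENNReal.ofReal (2 * Real.pi) := mul_one _

end Pool.Agent.H84.SR
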