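import Mathlib

/-!
# Elementary inequalities for `c + ∑ ε j / (y - z j)`
-/

set_option autoImplicit false

open Metric

namespace Pool.Agent.H84.SR

/-- the map near `c` -/
noncomputable def gg {d : ℕ} (z ε : Fin d → ℂ) (α c u : ℂ) : ℂ :=
  c + ∑ j, ε j * (u - α) / (1 - z j * (u - α))

/-
If all |y - z j| >= m/2 the sum is at most E * 2/m. Otherwise there is k with |y - z k| < m/2 and
then |y - z j| >= m/2 for j <> k; h0 gives |ε k| / |y - z k|^2 <= sum_(j <> k) |ε j| * 4/m^2, so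
|ε k| / |y - z k| <= (4 E / m^2) (m/2) = 2 E / m, and the other terms contribute at most
(2/m) sum_(j <> k) |ε j| <= 2 E / m.
-/
theorem crit_bound {d : ℕ} {z ε : Fin d → ℂ} {y : ℂ} {m : ℝ} (hm : 0 < m)
    (hsep : ∀ i j, i ≠ j → m ≤ ‖z i - z j‖) (hy : ∀ j, y ≠ z j)
    (h0 : ∑ j, ε j / (y - z j) ^ 2 = 0) :
    ‖∑ j, ε j / (y - z j)‖ ≤ 4 * (∑ j, ‖ε j‖) / m := by
  have hE : 0 ≤ ∑ j, ‖ε j‖ := Finset.sum_nonneg fun j _ => norm_nonneg _
  have hfar : ∀ S : Finset (Fin d), (∀ j ∈ S, m / 2 ≤ ‖y - z j‖) →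
      ‖∑ j ∈ S, ε j / (y - z j)‖ ≤ (∑ j ∈ S, ‖ε j‖) * (2 / m) := by
    intro S hS
    refine (norm_sum_le _ _).trans ?_
    rw [Finset.sum_mul]
    refine Finset.sum_le_sum fun j hj => ?_
    rw [norm_div, div_eq_mul_inv]
    refine mul_le_mul_of_nonneg_left ?_ (norm_nonneg _)
    have h1 := inv_anti₀ (by positivity : 0 < m / 2) (hS j hj)
    rwa [inv_div] at h1
  by_cases hc : ∀ j, m / 2 ≤ ‖y - z j‖
  · refine (hfar Finset.univ (fun j _ => hc j)).trans ?_
    rw [mul_div_assoc', div_le_div_iff_of_pos_right hm]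
    linarith
  · push Not at hc
    obtain ⟨k, hk⟩ := hc
    have hoth : ∀ j, j ≠ k → m / 2 ≤ ‖y - z j‖ := by
      intro j hj
      have h1 := hsep j k hj
      have h2 : ‖z j - z k‖ ≤ ‖y - z k‖ + ‖y - z j‖ := by
        have : z j - z k = (y - z k) - (y - z j) := by ring
        rw [this]
        exact norm_sub_le _ _
      linarith
    have hyk : 0 < ‖y - z k‖ := norm_pos_iff.2 (sub_ne_zero.2 (hy k))
    set S : Finset (Fin d) := Finset.univ.erase k with hS
    have hSm : ∀ j ∈ S, m / 2 ≤ ‖y - z j‖ := fun j hj => hoth j (Finset.ne_of_mem_erase hj)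
    have e0 : ε k / (y - z k) ^ 2 + ∑ j ∈ S, ε j / (y - z j) ^ 2 = 0 := by
      rw [hS, Finset.add_sum_erase Finset.univ (fun j => ε j / (y - z j) ^ 2) (Finset.mem_univ k)]
      exact h0
    have e1 : ε k / (y - z k) + ∑ j ∈ S, ε j / (y - z j) = ∑ j, ε j / (y - z j) := by
      rw [hS, Finset.add_sum_erase Finset.univ (fun j => ε j / (y - z j)) (Finset.mem_univ k)]
    have e2 : ‖ε k‖ + ∑ j ∈ S, ‖ε j‖ = ∑ j, ‖ε j‖ := by
      rw [hS, Finset.add_sum_erase Finset.univ (fun j => ‖ε j‖) (Finset.mem_univ k)]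
    have hE' : 0 ≤ ∑ j ∈ S, ‖ε j‖ := Finset.sum_nonneg fun j _ => norm_nonneg _
    have h3 : ‖∑ j ∈ S, ε j / (y - z j) ^ 2‖ ≤ (∑ j ∈ S, ‖ε j‖) * (4 / m ^ 2) := by
      refine (norm_sum_le _ _).trans ?_
      rw [Finset.sum_mul]
      refine Finset.sum_le_sum fun j hj => ?_
      rw [norm_div, norm_pow, div_eq_mul_inv]
      refine mul_le_mul_of_nonneg_left ?_ (norm_nonneg _)
      have h1 : (m / 2) ^ 2 ≤ ‖y - z j‖ ^ 2 :=
        pow_le_pow_left₀ (by positivity) (hSm j hj) 2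
      have h2 := inv_anti₀ (by positivity : 0 < (m / 2) ^ 2) h1
      refine h2.trans (le_of_eq ?_)
      field_simp
      norm_num
    have h4 : ‖ε k / (y - z k) ^ 2‖ ≤ (∑ j ∈ S, ‖ε j‖) * (4 / m ^ 2) := by
      rw [eq_neg_of_add_eq_zero_left e0, norm_neg]
      exact h3
    have h5 : ‖ε k / (y - z k)‖ ≤ (∑ j ∈ S, ‖ε j‖) * (2 / m) := by
      have e3 : ε k / (y - z k) = ε k / (y - z k) ^ 2 * (y - z k) := by
        have := norm_pos_iff.1 hyk
        field_simp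
      rw [e3, norm_mul]
      calc ‖ε k / (y - z k) ^ 2‖ * ‖y - z k‖ ≤ ((∑ j ∈ S, ‖ε j‖) * (4 / m ^ 2)) * (m / 2) :=
            mul_le_mul h4 hk.le hyk.le (by positivity)
        _ = (∑ j ∈ S, ‖ε j‖) * (2 / m) := by
            field_simp
            norm_num
    rw [← e1]
    refine (norm_add_le _ _).trans ((add_le_add h5 (hfar S hSm)).trans ?_)
    rw [← e2]
    have h6 := norm_nonneg (ε k)
    have h7 : (∑ j ∈ S, ‖ε j‖) * (2 / m) + (∑ j ∈ S, ‖ε j‖) * (2 / m) =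
        4 * (∑ j ∈ S, ‖ε j‖) / m := by
      ring
    rw [h7, div_le_div_iff_of_pos_right hm]
    linarith

/-
r = m2/(2K) <= 1/2. For u in closedBall c r: |1 - z j (u - α)| >= m2 - K r = m2/2, and
|u - α| <= 5/2. So |gg u - c| <= E (5/2) (2/m2) = 5 E/m2 <= 5 m m2/(16 K) < r. Next
(u-α)/D(u) - (w-α)/D(w) = (u - w)/(D(u) D(w)) for D(u) = 1 - z(u-α), so the Lipschitz constant is at
most E * 4/m2^2 <= m/(4K) <= 1/4. Last: 4 E/m <= m2^2/(4K) <= m2/(2K).
-/
theorem trap_num {d : ℕ} {z ε : Fin d → ℂ} {α c : ℂ} {K m m2 : ℝ} (hK : 1 ≤ K) (hα : ‖α‖ ≤ 1)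
    (hc : ‖c‖ ≤ 1) (hz : ∀ j, ‖z j‖ ≤ K) (hm : 0 < m) (hm1 : m ≤ 1) (hm2 : 0 < m2) (hm21 : m2 ≤ 1)
    (hD : ∀ j, m2 ≤ ‖1 - z j * (c - α)‖) (hE : ∑ j, ‖ε j‖ ≤ m * m2 ^ 2 / (16 * K)) :
    (∀ u ∈ closedBall c (m2 / (2 * K)), (∀ j, 1 - z j * (u - α) ≠ 0) ∧
      gg z ε α c u ∈ ball c (m2 / (2 * K))) ∧
    (∀ u ∈ closedBall c (m2 / (2 * K)), ∀ w ∈ closedBall c (m2 / (2 * K)),
      ‖gg z ε α c u - gg z ε α c w‖ ≤ 1 / 2 * ‖u - w‖) ∧
    4 * (∑ j, ‖ε j‖) / m ≤ m2 / (2 * K) := by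
  have hK0 : 0 < K := by linarith
  set E : ℝ := ∑ j, ‖ε j‖ with hEdef
  have hE0 : 0 ≤ E := Finset.sum_nonneg fun j _ => norm_nonneg _
  have hden : ∀ u ∈ closedBall c (m2 / (2 * K)), ∀ j, m2 / 2 ≤ ‖1 - z j * (u - α)‖ := by
    intro u hu j
    rw [mem_closedBall, dist_eq_norm] at hu
    have h1 : 1 - z j * (c - α) = (1 - z j * (u - α)) + z j * (u - c) := by ring
    have h2 := norm_add_le (1 - z j * (u - α)) (z j * (u - c))
    rw [← h1, norm_mul] at h2
    have h3 : ‖z j‖ * ‖u - c‖ ≤ K * (m2 / (2 * K)) :=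
      mul_le_mul (hz j) hu (norm_nonneg _) hK0.le
    have h4 : K * (m2 / (2 * K)) = m2 / 2 := by
      field_simp
    have h5 := hD j
    linarith
  have hne : ∀ u ∈ closedBall c (m2 / (2 * K)), ∀ j, 1 - z j * (u - α) ≠ 0 := by
    intro u hu j
    rw [← norm_pos_iff]
    have := hden u hu j
    linarith
  have hr1 : m2 / (2 * K) ≤ 1 / 2 := by
    rw [div_le_iff₀ (by positivity)]
    nlinarith
  have hEm : E * (16 * K) ≤ m * m2 ^ 2 := by
    rwa [le_div_iff₀ (by positivity)] at hE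
  refine ⟨fun u hu => ⟨hne u hu, ?_⟩, fun u hu w hw => ?_, ?_⟩
  · have hu' := hu
    rw [mem_closedBall, dist_eq_norm] at hu'
    have huα : ‖u - α‖ ≤ 5 / 2 := by
      have h1 : u - α = (u - c) + (c - α) := by ring
      have h2 := norm_add_le (u - c) (c - α)
      rw [← h1] at h2
      have h3 := norm_sub_le c α
      linarith
    rw [mem_ball, dist_eq_norm]
    have h1 : gg z ε α c u - c = ∑ j, ε j * (u - α) / (1 - z j * (u - α)) := by
      unfold gg
      ring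
    rw [h1]
    have h2 : ‖∑ j, ε j * (u - α) / (1 - z j * (u - α))‖ ≤ E * (5 / m2) := by
      refine (norm_sum_le _ _).trans ?_
      rw [hEdef, Finset.sum_mul]
      refine Finset.sum_le_sum fun j _ => ?_
      rw [norm_div, norm_mul, mul_div_assoc]
      refine mul_le_mul_of_nonneg_left ?_ (norm_nonneg _)
      have h3 := hden u hu j
      rw [div_le_div_iff₀ (by linarith) hm2]
      nlinarith [norm_nonneg (u - α)]
    refine lt_of_le_of_lt h2 ?_
    rw [mul_div_assoc', div_lt_div_iff₀ hm2 (by positivity)]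
    have h3 : E * 5 * (2 * K) = (E * (16 * K)) * (10 / 16) := by ring
    rw [h3]
    have h4 : (E * (16 * K)) * (10 / 16) ≤ (m * m2 ^ 2) * (10 / 16) :=
      mul_le_mul_of_nonneg_right hEm (by norm_num)
    have h5 : m * m2 ^ 2 ≤ m2 * m2 := by
      rw [pow_two]
      calc m * (m2 * m2) ≤ 1 * (m2 * m2) := mul_le_mul_of_nonneg_right hm1 (by positivity)
        _ = m2 * m2 := one_mul _
    have h6 : 0 < m2 * m2 := by positivity
    linarith
  · have h1 : gg z ε α c u - gg z ε α c w =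
        ∑ j, ε j * ((u - w) / ((1 - z j * (u - α)) * (1 - z j * (w - α)))) := by
      unfold gg
      rw [add_sub_add_left_eq_sub, ← Finset.sum_sub_distrib]
      refine Finset.sum_congr rfl fun j _ => ?_
      have h2 := hne u hu j
      have h3 := hne w hw j
      have h4 : u - w = (u - α) * (1 - z j * (w - α)) - (w - α) * (1 - z j * (u - α)) := by ring
      rw [h4]
      generalize 1 - z j * (u - α) = Du at h2 ⊢
      generalize 1 - z j * (w - α) = Dw at h3 ⊢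
      field_simp
    rw [h1]
    have h2 : ‖∑ j, ε j * ((u - w) / ((1 - z j * (u - α)) * (1 - z j * (w - α))))‖ ≤
        E * (‖u - w‖ * (4 / m2 ^ 2)) := by
      refine (norm_sum_le _ _).trans ?_
      rw [hEdef, Finset.sum_mul]
      refine Finset.sum_le_sum fun j _ => ?_
      rw [norm_mul, norm_div, norm_mul, div_eq_mul_inv ‖u - w‖]
      refine mul_le_mul_of_nonneg_left ?_ (norm_nonneg _)
      refine mul_le_mul_of_nonneg_left ?_ (norm_nonneg _)
      have h3 : (m2 / 2) * (m2 / 2) ≤ ‖1 - z j * (u - α)‖ * ‖1 - z j * (w - α)‖ :=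
        mul_le_mul (hden u hu j) (hden w hw j) (by positivity) (norm_nonneg _)
      refine (inv_anti₀ (by positivity) h3).trans (le_of_eq ?_)
      field_simp
      norm_num
    refine h2.trans ?_
    have h3 : E * (‖u - w‖ * (4 / m2 ^ 2)) = (E * (4 / m2 ^ 2)) * ‖u - w‖ := by ring
    rw [h3]
    refine mul_le_mul_of_nonneg_right ?_ (norm_nonneg _)
    rw [mul_div_assoc', div_le_iff₀ (by positivity)]
    have h4 : E * 16 ≤ E * (16 * K) := by
      refine mul_le_mul_of_nonneg_left ?_ hE0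
      linarith
    have h5 : m * m2 ^ 2 ≤ 1 * m2 ^ 2 := mul_le_mul_of_nonneg_right hm1 (by positivity)
    linarith
  · rw [div_le_div_iff₀ hm (by positivity)]
    have h1 : 4 * E * (2 * K) = (E * (16 * K)) * (1 / 2) := by ring
    rw [h1]
    have h2 : (E * (16 * K)) * (1 / 2) ≤ (m * m2 ^ 2) * (1 / 2) :=
      mul_le_mul_of_nonneg_right hEm (by norm_num)
    have h3 : m * m2 ^ 2 ≤ m2 * m := by
      rw [pow_two]
      calc m * (m2 * m2) = (m * m2) * m2 := by ring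
        _ ≤ (m * m2) * 1 := mul_le_mul_of_nonneg_left hm21 (by positivity)
        _ = m2 * m := by ring
    have h4 : 0 < m2 * m := by positivity
    linarith

end Pool.Agent.H84.SR
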