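import Pool.Agent.H84.SR.PFrac
import Pool.Agent.H84.SR.Num

/-!
# Back from the frame `α`
-/

set_option autoImplicit false

open Filter Topology Polynomial Metric Set

namespace Pool.Agent.H84.SR

open Pool.Agent.H44.Fatou Pool.Agent.H32.BT

/-
cj_back α (H32/BT/Cj) applied to P = A, Q = B: cj1 α d A B = fr α d B = mk x (rfl up to hx) and
cj2 α d A B = reflect d ((A - C α * B).comp (X + C α)) = fr α d A - C α * fr α d B (reflect is
additive and commutes with C α *, reflect_add, reflect_C_mul; comp too). Coprimality of mk x and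
fr α d A - C α * mk x: a common root is a root of mk x, i.e. some z j (mk_eval, hq), and there
(fr α d A)(z j) <> 0 (use Polynomial.isCoprime_iff_aeval_ne_zero_of_isAlgClosed as in H32/BT/Cj).
Maximum of the degrees: (mk x).natDegree = d (mk_natDegree hq) and both are <= d
(fr_natDegree, natDegree_sub_le).
-/
theorem cj2_eq (α : ℂ) (d : ℕ) (A B : Polynomial ℂ) :
    cj2 α d A B = fr α d A - C α * fr α d B := by
  unfold cj2 fr
  rw [sub_comp, mul_comp, C_comp, reflect_sub, reflect_C_mul]

theorem back_cj {d : ℕ} {α : ℂ} {A B : Polynomial ℂ} (hA : A.natDegree ≤ d)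
    (hB : B.natDegree ≤ d) {x : V d} (hx : fr α d B = mk x) (hq : x (Fin.last d) ≠ 0)
    (hw : ∀ j : Fin d, (fr α d A).eval (x j.castSucc) ≠ 0) :
    IsCoprime (cj1 α d A B) (cj2 α d A B) ∧
      max (cj1 α d A B).natDegree (cj2 α d A B).natDegree = d := by
  have e1 : cj1 α d A B = mk x := hx
  have e2 : cj2 α d A B = fr α d A - C α * mk x := by
    rw [cj2_eq, hx]
  rw [e1, e2]
  constructor
  · rw [Polynomial.isCoprime_iff_aeval_ne_zero_of_isAlgClosed ℂ ℂ]
    intro z
    rw [coe_aeval_eq_eval]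
    by_contra hcon
    push Not at hcon
    obtain ⟨h1, h2⟩ := hcon
    rw [eval_sub, eval_mul, h1, mul_zero, sub_zero] at h2
    rw [mk_eval] at h1
    have h3 := (mul_eq_zero.1 h1).resolve_left hq
    rw [Finset.prod_eq_zero_iff] at h3
    obtain ⟨j, _, hj⟩ := h3
    have hz : z = x j.castSucc := sub_eq_zero.1 hj
    exact hw j (hz ▸ h2)
  · apply le_antisymm
    · refine max_le (mk_natDegree_le x) ((natDegree_sub_le _ _).trans (max_le ?_ ?_))
      · exact fr_natDegree α hA
      · exact (natDegree_C_mul_le _ _).trans (mk_natDegree_le x)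
    · exact le_max_of_le_left (mk_natDegree hq).ge

theorem back {d : ℕ} {α : ℂ} {A B : Polynomial ℂ} (hA : A.natDegree ≤ d)
    (hB : B.natDegree ≤ d) {x : V d} (hx : fr α d B = mk x) (hq : x (Fin.last d) ≠ 0)
    (hw : ∀ j : Fin d, (fr α d A).eval (x j.castSucc) ≠ 0) :
    IsCoprime A B ∧ max A.natDegree B.natDegree = d := by
  obtain ⟨h1, h2⟩ := back_cj hA hB hx hq hw
  exact cj_back α hA hB h1 h2

/-
u = α: B.eval α = (fr α d B).coeff d = x (last d) (fr_coeff_top, mk_coeff_top), A.eval α = c q and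
gg ... α = c. For u <> α: w = (u - α)⁻¹ is different from all z j because 1 - z j (u - α) <> 0, so
fr_eval, mk_eval give B.eval u <> 0, and A.eval u / B.eval u = (fr α d A).eval w / (mk x).eval w
(cancel (u-α)^d), then pfrac (hc from fr_coeff_top), and ε/(w - z) = ε (u-α)/(1 - z (u-α)).
-/
theorem rat_gg {d : ℕ} {α c : ℂ} {A B : Polynomial ℂ} (hA : A.natDegree ≤ d)
    (hB : B.natDegree ≤ d) {x : V d} (hx : fr α d B = mk x)
    (hinj : Function.Injective fun j : Fin d => x j.castSucc) (hq : x (Fin.last d) ≠ 0)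
    (hc : A.eval α = c * x (Fin.last d)) {u : ℂ}
    (hu : ∀ j : Fin d, 1 - x j.castSucc * (u - α) ≠ 0) :
    B.eval u ≠ 0 ∧
      A.eval u / B.eval u = gg (fun j => x j.castSucc) (eps x (fr α d A)) α c u := by
  by_cases hu0 : u = α
  · subst hu0
    have h1 : B.eval u = x (Fin.last d) := by
      rw [← fr_coeff_top u d B, hx, mk_coeff_top]
    rw [h1]
    refine ⟨hq, ?_⟩
    rw [hc, mul_div_cancel_right₀ _ hq]
    unfold gg
    simp
  · have hua : u - α ≠ 0 := sub_ne_zero.2 hu0
    have hw : ∀ j : Fin d, (u - α)⁻¹ ≠ x j.castSucc := by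
      intro j hj
      apply hu j
      rw [← hj, inv_mul_cancel₀ hua, sub_self]
    have hB1 : B.eval u = (mk x).eval (u - α)⁻¹ * (u - α) ^ d := by
      rw [fr_eval α hB hu0, hx]
    have hA1 : A.eval u = (fr α d A).eval (u - α)⁻¹ * (u - α) ^ d := fr_eval α hA hu0
    have hmk : (mk x).eval (u - α)⁻¹ ≠ 0 := by
      rw [mk_eval]
      refine mul_ne_zero hq (Finset.prod_ne_zero_iff.2 fun j _ => sub_ne_zero.2 (hw j))
    have hp : (u - α) ^ d ≠ 0 := pow_ne_zero d hua
    refine ⟨by rw [hB1]; exact mul_ne_zero hmk hp, ?_⟩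
    rw [hA1, hB1, mul_div_mul_right _ _ hp,
      pfrac hinj hq (fr_natDegree α hA) (by rw [fr_coeff_top]; exact hc) hw]
    unfold gg
    congr 1
    refine Finset.sum_congr rfl fun j _ => ?_
    have h1 := hu j
    have h2 : (u - α)⁻¹ - x j.castSucc = (1 - x j.castSucc * (u - α)) / (u - α) := by
      field_simp
    rw [h2, div_div_eq_mul_div]

end Pool.Agent.H84.SR
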