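import Pool.Agent.H84.SR.Defs

/-!
# Bounds for roots and values
-/

set_option autoImplicit false

open Filter Topology Polynomial Metric Set

namespace Pool.Agent.H84.SR

open Pool.Agent.H44.Fatou Pool.Agent.H32.BT

/-
Cauchy: if |z| > 1 + K0 were a root of mk x, then |q| |z|^d <= sum_(i < d) K0 |q| |z|^i
= K0 |q| (|z|^d - 1)/(|z| - 1) < |q| |z|^d, a contradiction.
-/
theorem root_bound {d : ℕ} {x : V d} {K0 : ℝ} (hK0 : 0 ≤ K0)
    (h : ∀ i, ‖(mk x).coeff i‖ ≤ K0 * ‖x (Fin.last d)‖) (hq : x (Fin.last d) ≠ 0) (j : Fin d) :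
    ‖x j.castSucc‖ ≤ 1 + K0 := by
  have hne : mk x ≠ 0 := by
    intro h0
    apply hq
    rw [← mk_coeff_top x, h0, coeff_zero]
  have hroot : (mk x).IsRoot (x j.castSucc) := by
    rw [IsRoot.def, mk_eval]
    refine mul_eq_zero_of_right _ (Finset.prod_eq_zero (Finset.mem_univ j) (sub_self _))
  have h1 := IsRoot.norm_lt_cauchyBound hne hroot
  have hlc : (mk x).leadingCoeff = x (Fin.last d) := by
    rw [leadingCoeff, mk_natDegree hq, mk_coeff_top]
  have hq' : (0 : NNReal) < ‖x (Fin.last d)‖₊ := nnnorm_pos.2 hq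
  have h2 : cauchyBound (mk x) ≤ ⟨K0, hK0⟩ + 1 := by
    unfold cauchyBound
    refine add_le_add_left ?_ 1
    rw [hlc, div_le_iff₀ hq']
    refine Finset.sup_le fun i _ => ?_
    exact h i
  have h3 : ‖x j.castSucc‖₊ ≤ ⟨K0, hK0⟩ + 1 := h1.le.trans h2
  have h4 : (‖x j.castSucc‖₊ : ℝ) ≤ ((⟨K0, hK0⟩ + 1 : NNReal) : ℝ) := by exact_mod_cast h3
  rw [coe_nnnorm] at h4
  refine h4.trans (le_of_eq ?_)
  have h5 : ((⟨K0, hK0⟩ + 1 : NNReal) : ℝ) = K0 + 1 := rfl
  rw [h5, add_comm]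

/-
Coefficients: |(fr α d P).coeff i| <= shM α d * r if all |P.coeff i| <= r (sh_bound, reflect_bound in
H32/BT/Cj). With q = x (last d) = (mk x).coeff d = (fr α d (pol v.2)).coeff d = (pol v.2).eval α and
‖v‖ <= |q| all coefficients of fr α d (pol v.2) and fr α d (pol v.1) are at most S |q|, S = shM α d.
So |z j| <= 1 + S (root_bound), |q| <= sum |v.2 i| |α|^i <= d + 1, and for j < d
|evl x (cf d (fr α d (pol v.1))) j| = |(fr α d (pol v.1)).eval (z j)| <= (d+1) S |q| (2 + S)^d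
(pol_cf, eval_bound in H44/Fatou/Trap), for the last index it is |(pol v.1).eval α| <= |q|.
Take K = (d + 2) (1 + S) (2 + S)^d or any larger number.
-/
theorem exists_K (d : ℕ) {α : ℂ} (hα : ‖α‖ = 1) : ∃ K : ℝ, 1 ≤ K ∧ ∀ v : E d, ‖v‖ ≤ 1 →
    ‖v‖ ≤ ‖(pol v.2).eval α‖ → ‖(pol v.1).eval α‖ ≤ ‖(pol v.2).eval α‖ →
    ∀ x : V d, mk x = fr α d (pol v.2) → x (Fin.last d) ≠ 0 →
      (∀ i, ‖x i‖ ≤ K) ∧
      ∀ i, ‖evl x (cf d (fr α d (pol v.1))) i‖ ≤ K * ‖x (Fin.last d)‖ := by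
  set S : ℝ := shM α d with hSdef
  have hS : 0 < S := shM_pos α d
  have hd0 : (0 : ℝ) ≤ d := Nat.cast_nonneg d
  have hP1 : (1 : ℝ) ≤ (2 + S) ^ d := one_le_pow₀ (by linarith)
  have hP2 : (2 : ℝ) ^ d ≤ (2 + S) ^ d := pow_le_pow_left₀ (by norm_num) (by linarith) d
  set K : ℝ := (d + 2) * (1 + S) * (2 + S) ^ d with hK
  have hK1 : 1 + S ≤ K := by
    rw [hK]
    calc 1 + S = 1 * (1 + S) * 1 := by ring
      _ ≤ (d + 2) * (1 + S) * (2 + S) ^ d := by
        refine mul_le_mul ?_ hP1 zero_le_one (by positivity)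
        exact mul_le_mul_of_nonneg_right (by linarith) (by linarith)
  have hK2 : (d + 1 : ℝ) * S * (2 + S) ^ d ≤ K := by
    rw [hK]
    refine mul_le_mul_of_nonneg_right ?_ (by positivity)
    exact mul_le_mul (by linarith) (by linarith) hS.le (by linarith)
  have hK3 : (d + 1 : ℝ) * 2 ^ d ≤ K := by
    rw [hK]
    refine mul_le_mul ?_ hP2 (by positivity) (by positivity)
    nlinarith
  refine ⟨K, by linarith, ?_⟩
  intro v hv hv2 hv1 x hx hq
  have hqe : x (Fin.last d) = (pol v.2).eval α := by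
    rw [← mk_coeff_top x, hx, fr_coeff_top]
  have c1 : ∀ i, ‖(pol v.1).coeff i‖ ≤ ‖x (Fin.last d)‖ := by
    intro i
    rw [pol_coeff, hqe]
    split_ifs with h
    · exact ((norm_le_pi_norm v.1 _).trans (norm_fst_le v)).trans hv2
    · rw [norm_zero]
      exact norm_nonneg _
  have c2 : ∀ i, ‖(pol v.2).coeff i‖ ≤ ‖x (Fin.last d)‖ := by
    intro i
    rw [pol_coeff, hqe]
    split_ifs with h
    · exact ((norm_le_pi_norm v.2 _).trans (norm_snd_le v)).trans hv2
    · rw [norm_zero]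
      exact norm_nonneg _
  have f1 : ∀ i, ‖(fr α d (pol v.1)).coeff i‖ ≤ S * ‖x (Fin.last d)‖ := by
    intro i
    exact reflect_bound (fun j => sh_bound α (pol_natDegree v.1) (norm_nonneg _) c1 j) i
  have f2 : ∀ i, ‖(mk x).coeff i‖ ≤ S * ‖x (Fin.last d)‖ := by
    intro i
    rw [hx]
    exact reflect_bound (fun j => sh_bound α (pol_natDegree v.2) (norm_nonneg _) c2 j) i
  have hroot : ∀ j : Fin d, ‖x j.castSucc‖ ≤ 1 + S := fun j => root_bound hS.le f2 hq j
  constructor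
  · intro i
    refine Fin.lastCases ?_ (fun j => ?_) i
    · rw [hqe]
      have h1 : ∀ i, ‖(pol v.2).coeff i‖ ≤ 1 := by
        intro i
        rw [pol_coeff]
        split_ifs with h
        · exact ((norm_le_pi_norm v.2 _).trans (norm_snd_le v)).trans hv
        · rw [norm_zero]
          exact zero_le_one
      have h2 := eval_bound (pol_natDegree v.2) h1 α
      rw [hα, mul_one] at h2
      have h3 : (1 : ℝ) + 1 = 2 := by norm_num
      rw [h3] at h2
      exact h2.trans hK3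
    · exact (hroot j).trans hK1
  · intro i
    refine Fin.lastCases ?_ (fun j => ?_) i
    · rw [evl_last]
      show ‖(fr α d (pol v.1)).coeff ((Fin.last d : Fin (d + 1)) : ℕ)‖ ≤ _
      rw [Fin.val_last, fr_coeff_top]
      calc ‖(pol v.1).eval α‖ ≤ ‖(pol v.2).eval α‖ := hv1
        _ = 1 * ‖x (Fin.last d)‖ := by rw [hqe, one_mul]
        _ ≤ K * ‖x (Fin.last d)‖ := mul_le_mul_of_nonneg_right (by linarith) (norm_nonneg _)
    · rw [evl_castSucc, pol_cf (fr_natDegree α (pol_natDegree v.1))]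
      have h1 := eval_bound (fr_natDegree α (pol_natDegree v.1)) f1 (x j.castSucc)
      refine h1.trans ?_
      have h2 : (1 + ‖x j.castSucc‖) ^ d ≤ (2 + S) ^ d := by
        refine pow_le_pow_left₀ (by positivity) ?_ d
        have := hroot j
        linarith
      calc (d + 1 : ℝ) * (S * ‖x (Fin.last d)‖) * (1 + ‖x j.castSucc‖) ^ d
          ≤ (d + 1 : ℝ) * (S * ‖x (Fin.last d)‖) * (2 + S) ^ d :=
            mul_le_mul_of_nonneg_left h2 (by positivity)
        _ = ((d + 1 : ℝ) * S * (2 + S) ^ d) * ‖x (Fin.last d)‖ := by ring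
        _ ≤ K * ‖x (Fin.last d)‖ := mul_le_mul_of_nonneg_right hK2 (norm_nonneg _)

end Pool.Agent.H84.SR
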