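import Pool.Agent.H84.SR.Defs

/-!
# Almost every polynomial of degree at most `d` has `d` different roots
-/

set_option autoImplicit false

open Filter Topology Polynomial Metric Set MeasureTheory

namespace Pool.Agent.H84.SR

open Pool.Agent.H44.Fatou Pool.Agent.H32.BT

/-- the resultant of `pol b` and its derivative -/
private noncomputable def gnr {d : ℕ} (b : V d) : ℂ :=
  resultant (pol b) (derivative (pol b)) d (d - 1)

private theorem gn_coeff_cont {d : ℕ} (k : ℕ) : Continuous fun b : V d => (pol b).coeff k := by
  simp only [pol_coeff]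
  split_ifs with h
  · exact continuous_apply _
  · exact continuous_const

private theorem gnr_cont {d : ℕ} : Continuous (gnr (d := d)) := by
  unfold gnr resultant
  apply Continuous.matrix_det
  apply continuous_matrix
  intro i j
  refine Fin.addCases (fun j₁ => ?_) (fun j₁ => ?_) j
  · simp only [sylvester, Matrix.of_apply, Fin.addCases_left]
    split_ifs
    · simp only [coeff_derivative]
      exact (gn_coeff_cont _).mul continuous_const
    · exact continuous_const
  · simp only [sylvester, Matrix.of_apply, Fin.addCases_right]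
    split_ifs
    · exact gn_coeff_cont _
    · exact continuous_const

private theorem gn_top {d : ℕ} (b : V d) : (pol b).coeff d = b (Fin.last d) := by
  rw [pol_coeff, dif_pos (Nat.lt_succ_self d)]
  rfl

private theorem gn_deg {d : ℕ} {b : V d} (hb : b (Fin.last d) ≠ 0) : (pol b).natDegree = d := by
  apply le_antisymm (pol_natDegree b)
  apply le_natDegree_of_ne_zero
  rw [gn_top]
  exact hb

private theorem gnr_iff {d : ℕ} (hd : 1 ≤ d) {b : V d} (hb : b (Fin.last d) ≠ 0) :
    gnr b = 0 ↔ ¬ IsCoprime (pol b) (derivative (pol b)) := by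
  have h1 := gn_deg hb
  have h2 : (derivative (pol b)).natDegree = d - 1 := by
    rw [natDegree_derivative, h1]
  have h3 : gnr b = resultant (pol b) (derivative (pol b)) := by
    unfold gnr
    rw [h1, h2]
  have h4 : pol b ≠ 0 := by
    intro h
    rw [h, natDegree_zero] at h1
    omega
  rw [h3, resultant_eq_zero_iff]
  exact ⟨fun h => h.2, fun h => ⟨Or.inl h4, h⟩⟩

/-- the line in the direction of the constant coefficient -/
private noncomputable def gnL (d : ℕ) : ℂ →ₗ[ℂ] V d := LinearMap.single ℂ (fun _ => ℂ) 0

private theorem gn_pol_line {d : ℕ} (y : V d) (c : ℂ) : pol (y + gnL d c) = pol y + C c := by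
  ext i
  rw [pol_coeff, coeff_add, pol_coeff, coeff_C]
  by_cases hi : i < d + 1
  · rw [dif_pos hi, dif_pos hi, Pi.add_apply]
    congr 1
    unfold gnL
    rw [LinearMap.single_apply, Pi.single_apply]
    by_cases h0 : i = 0
    · rw [if_pos h0, if_pos]
      ext
      exact h0
    · rw [if_neg h0, if_neg]
      intro h
      exact h0 (congrArg Fin.val h)
  · rw [dif_neg hi, dif_neg hi, if_neg (by omega), add_zero]

private theorem gn_haar (d : ℕ) : (volume : Measure (V d)).IsAddHaarMeasure := by
  rw [volume_pi]
  infer_instance

private theorem gn_hyp {d : ℕ} : ∀ᵐ b : V d, b (Fin.last d) ≠ 0 := by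
  have := gn_haar d
  let f : V d →ₗ[ℝ] ℂ := (LinearMap.proj (R := ℂ) (Fin.last d)).restrictScalars ℝ
  have h1 : LinearMap.ker f ≠ ⊤ := by
    intro h
    have h2 : (fun _ => 1 : V d) ∈ LinearMap.ker f := by rw [h]; trivial
    exact one_ne_zero (LinearMap.mem_ker.mp h2 : (1 : ℂ) = 0)
  have h2 := Measure.addHaar_submodule (volume : Measure (V d)) (LinearMap.ker f) h1
  rw [ae_iff]
  have h3 : {a : V d | ¬ a (Fin.last d) ≠ 0} = (LinearMap.ker f : Set (V d)) := by
    ext a
    rw [Set.mem_ofPred_eq, not_not]
    rfl
  rw [h3]
  exact h2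

private theorem gn_res {d : ℕ} (hd : 1 ≤ d) :
    ∀ᵐ b : V d, b ∈ {b : V d | b (Fin.last d) = 0 ∨ gnr b ≠ 0} := by
  have := gn_haar d
  have hmeas : MeasurableSet {b : V d | b (Fin.last d) = 0 ∨ gnr b ≠ 0} := by
    apply MeasurableSet.union
    · exact (isClosed_eq (continuous_apply _) continuous_const).measurableSet
    · exact (isOpen_ne_fun gnr_cont continuous_const).measurableSet
  refine ae_mem_of_ae_add_linearMap_mem (gnL d) (volume : Measure ℂ) (volume : Measure (V d))
    hmeas ?_
  intro y
  have hlast : ∀ c, (y + gnL d c) (Fin.last d) = y (Fin.last d) := by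
    intro c
    have h1 := gn_top (y + gnL d c)
    rw [gn_pol_line, coeff_add, gn_top, coeff_C, if_neg (by omega), add_zero] at h1
    exact h1.symm
  by_cases hy : y (Fin.last d) = 0
  · refine Filter.Eventually.of_forall fun c => Or.inl ?_
    rw [hlast, hy]
  · have hD : derivative (pol y) ≠ 0 := by
      intro h
      have h1 := congrArg (fun P => P.coeff (d - 1)) h
      simp only [coeff_derivative, coeff_zero] at h1
      have h2 : d - 1 + 1 = d := by omega
      rw [h2, gn_top] at h1
      rcases mul_eq_zero.mp h1 with h3 | h3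
      · exact hy h3
      · have h4 : ((d - 1 : ℕ) : ℂ) + 1 = ((d : ℕ) : ℂ) := by
          rw [← h2]
          push_cast
          simp
        rw [h4] at h3
        have h5 : d = 0 := by exact_mod_cast h3
        omega
    have hfin : (((derivative (pol y)).roots.toFinset.image
        (fun z => -(pol y).eval z) : Finset ℂ) : Set ℂ).Countable := Finset.countable_toSet _
    filter_upwards [hfin.ae_notMem (volume : Measure ℂ)] with c hc
    right
    intro h0
    have hne : (y + gnL d c) (Fin.last d) ≠ 0 := by rw [hlast]; exact hy
    rw [gnr_iff hd hne, gn_pol_line, derivative_add, derivative_C, add_zero,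
      isCoprime_iff_aeval_ne_zero_of_isAlgClosed ℂ ℂ] at h0
    push Not at h0
    obtain ⟨z, hz1, hz2⟩ := h0
    apply hc
    rw [Finset.mem_coe, Finset.mem_image]
    refine ⟨z, ?_, ?_⟩
    · rw [Multiset.mem_toFinset, mem_roots hD]
      simpa using hz2
    · have h6 : (pol y).eval z + c = 0 := by simpa using hz1
      linear_combination -h6

/-
Split the coordinate b 0 (MeasureTheory.volume_preserving_piFinSuccAbove (fun _ => ℂ) 0). For fixed
b 1, ..., b d with b d <> 0 the derivative D of pol b does not depend on b 0 and is nonzero (d >= 1),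
and if pol b has a multiple root y then D(y) = 0 and b 0 = - sum_(i >= 1) b i y^i: finitely many
values of b 0, a null set of ℂ. The set of all bad b is measurable or contained in a measurable null
set: the condition (pol b).roots.Nodup is equivalent, for b d <> 0, to discriminant <> 0, resp.
resultant (pol b) (derivative (pol b)) d (d-1) <> 0, a polynomial (so continuous) function of b
(Polynomial.resultant_eq_zero_iff or nodup_roots_iff_of_splits / separable). The hyperplane b d = 0 is
null (Measure.addHaar_submodule / pi). Other ways are fine (a similar null set lemma: H79/Eul/NiceNull,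
GenDeg, GenCop).
-/
theorem ae_generic {d : ℕ} (hd : 1 ≤ d) :
    ∀ᵐ b : V d, b (Fin.last d) ≠ 0 ∧ (pol b).roots.Nodup := by
  filter_upwards [gn_hyp (d := d), gn_res hd] with b h1 h2
  refine ⟨h1, ?_⟩
  rcases h2 with h2 | h2
  · exact absurd h2 h1
  · rw [Ne, gnr_iff hd h1, not_not] at h2
    exact nodup_roots h2


/-
R.natDegree = d, R splits over ℂ, so R.roots is a multiset of cardinality d without repetition; list
it as a function z : Fin d → ℂ (injective); R = C lead * prod (X - z j). x = Fin.snoc z (R.coeff d).
-/
theorem exists_mk {d : ℕ} {R : Polynomial ℂ} (hR : R.natDegree ≤ d) (h1 : R.coeff d ≠ 0)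
    (h2 : R.roots.Nodup) : ∃ x : V d, mk x = R ∧ x (Fin.last d) = R.coeff d ∧
      Function.Injective fun j : Fin d => x j.castSucc := by
  have hR0 : R ≠ 0 := by
    rintro rfl
    exact h1 (coeff_zero d)
  have hdeg : R.natDegree = d := le_antisymm hR (le_natDegree_of_ne_zero h1)
  have hsp : R.Splits := IsAlgClosed.splits R
  have hcard : R.roots.card = d := by rw [← hsp.natDegree_eq_card_roots, hdeg]
  have hlen : R.roots.toList.length = d := by rw [Multiset.length_toList, hcard]
  have hnd : R.roots.toList.Nodup := by
    rw [← Multiset.coe_nodup, Multiset.coe_toList]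
    exact h2
  set z : Fin d → ℂ := fun j => R.roots.toList.get (Fin.cast hlen.symm j) with hz
  have hzlist : List.ofFn z = R.roots.toList := by
    rw [hz]
    apply List.ext_get
    · rw [List.length_ofFn, hlen]
    · intro n h3 h4
      simp
  refine ⟨Fin.snoc (α := fun _ => ℂ) z (R.coeff d), ?_, ?_, ?_⟩
  · unfold mk
    rw [Fin.snoc_last]
    simp only [Fin.snoc_castSucc]
    have h5 : ∏ j : Fin d, (X - C (z j)) = (R.roots.map (X - C ·)).prod := by
      rw [← Multiset.coe_toList R.roots, ← hzlist, Multiset.map_coe, Multiset.prod_coe,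
        List.map_ofFn, List.prod_ofFn]
      rfl
    rw [h5]
    have h6 : R.leadingCoeff = R.coeff d := by
      unfold leadingCoeff
      rw [hdeg]
    rw [← h6]
    exact hsp.eq_prod_roots.symm
  · rw [Fin.snoc_last]
  · simp only [Fin.snoc_castSucc]
    intro i j hij
    have h7 := (List.nodup_iff_injective_get.mp hnd) hij
    have h8 := congrArg Fin.val h7
    ext
    exact h8


end Pool.Agent.H84.SR
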