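import Pool.Agent.H84.SR.Defs

/-!
# The resultant in the frame `α`
-/

set_option autoImplicit false

open Filter Topology Polynomial Metric Set

namespace Pool.Agent.H84.SR

open Pool.Agent.H44.Fatou Pool.Agent.H32.BT

private theorem rf_sign {n : ℕ} (σ : Equiv.Perm (Fin n)) :
    ‖((Equiv.Perm.sign σ : ℤ) : ℂ)‖ = 1 := by
  rcases Int.units_eq_one_or (Equiv.Perm.sign σ) with h | h
  · rw [h]; simp
  · rw [h]; simp

/-- `Fin.rev` inside the two blocks -/
private def rf_e (d : ℕ) : Equiv.Perm (Fin (d + d)) :=
  finSumFinEquiv.symm.trans ((Equiv.sumCongr Fin.revPerm Fin.revPerm).trans finSumFinEquiv)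

private theorem rf_e_left (d : ℕ) (j : Fin d) :
    rf_e d (Fin.castAdd d j) = Fin.castAdd d (Fin.rev j) := by
  simp [rf_e]

private theorem rf_e_right (d : ℕ) (j : Fin d) :
    rf_e d (Fin.natAdd d j) = Fin.natAdd d (Fin.rev j) := by
  unfold rf_e
  rw [Equiv.trans_apply, Equiv.trans_apply, finSumFinEquiv_symm_apply_natAdd]
  rfl

private theorem rf_syl {d : ℕ} (A B : Polynomial ℂ) :
    sylvester (reflect d A) (reflect d B) d d =
      (sylvester A B d d).submatrix Fin.revPerm (rf_e d) := by
  ext i j
  rw [Matrix.submatrix_apply]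
  refine Fin.addCases (fun j₁ => ?_) (fun j₁ => ?_) j
  · rw [rf_e_left]
    simp only [sylvester, Matrix.of_apply, Fin.addCases_left, Set.mem_Icc, Fin.revPerm_apply,
      Fin.val_rev]
    have hi := i.2
    have hj := j₁.2
    by_cases h : (j₁ : ℕ) ≤ i ∧ (i : ℕ) ≤ j₁ + d
    · rw [if_pos h, if_pos (by omega), coeff_reflect, revAt_le (by omega)]
      congr 1
      omega
    · rw [if_neg h, if_neg (by omega)]
  · rw [rf_e_right]
    simp only [sylvester, Matrix.of_apply, Fin.addCases_right, Set.mem_Icc, Fin.revPerm_apply,
      Fin.val_rev]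
    have hi := i.2
    have hj := j₁.2
    by_cases h : (j₁ : ℕ) ≤ i ∧ (i : ℕ) ≤ j₁ + d
    · rw [if_pos h, if_pos (by omega), coeff_reflect, revAt_le (by omega)]
      congr 1
      omega
    · rw [if_neg h, if_neg (by omega)]

private theorem rf_t1 (α : ℂ) {d : ℕ} {A B : Polynomial ℂ} (hA : A.natDegree = d)
    (hB : B.natDegree ≤ d) :
    resultant (A.comp (X + C α)) (B.comp (X + C α)) d d = resultant A B d d := by
  have hk : d = B.natDegree + (d - B.natDegree) := by omega
  generalize d - B.natDegree = k at hk
  have hAt : (taylor α A).natDegree = d := by rw [natDegree_taylor, hA]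
  have hBt : (taylor α B).natDegree = B.natDegree := natDegree_taylor B α
  have h1 : resultant A B d (B.natDegree + k) = A.coeff d ^ k * resultant A B d B.natDegree :=
    resultant_add_right_deg _ _ _ _ k le_rfl
  have h2 : resultant (taylor α A) (taylor α B) d (B.natDegree + k) =
      (taylor α A).coeff d ^ k * resultant (taylor α A) (taylor α B) d B.natDegree :=
    resultant_add_right_deg _ _ _ _ k hBt.le
  have h3 : (taylor α A).coeff d = A.coeff d := mob_coeff_comp α hA.le
  have h4 : resultant (taylor α A) (taylor α B) (taylor α A).natDegree (taylor α B).natDegree =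
    resultant A B A.natDegree B.natDegree := resultant_taylor A B α
  rw [hAt, hBt, hA] at h4
  rw [h3, h4, ← h1, ← hk] at h2
  exact h2

private theorem rf_comm (d : ℕ) (A B : Polynomial ℂ) :
    ‖resultant A B d d‖ = ‖resultant B A d d‖ := by
  rw [resultant_comm, norm_mul, norm_pow, norm_neg, norm_one, one_pow, one_mul]

/-
The Sylvester matrix of (reflect d A, reflect d B) (formal degrees d, d) is the Sylvester matrix of
(A, B) with the rows permuted by Fin.rev and the columns by Fin.rev inside each of the two blocks
(Fin.addCases): its (i, j) entry in the first block is (reflect d B).coeff (i - j) =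
B.coeff (d - (i - j)) for j <= i <= j + d. So the determinants agree up to the sign of a permutation:
(M.submatrix e1 e2).det = sign * M.det (Matrix.det_permute', det_submatrix_equiv_self) and
the norm of the sign is 1.
Alternative: both sides are continuous functions of the coefficients and for A, B with nonzero
coefficients of index 0 and d one can use the product formula resultant_eq_prod_eval.
-/
theorem rs_reflect {d : ℕ} {A B : Polynomial ℂ} (hA : A.natDegree ≤ d) (hB : B.natDegree ≤ d) :
    ‖resultant (reflect d A) (reflect d B) d d‖ = ‖resultant A B d d‖ := by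
  unfold resultant
  rw [rf_syl]
  have h1 : (sylvester A B d d).submatrix Fin.revPerm (rf_e d) =
      ((sylvester A B d d).submatrix Fin.revPerm id).submatrix id (rf_e d) := by
    rw [Matrix.submatrix_submatrix]
    rfl
  rw [h1, Matrix.det_permute', Matrix.det_permute, norm_mul, norm_mul]
  have h2 := rf_sign (rf_e d)
  have h3 := rf_sign (Fin.revPerm (n := d + d))
  rw [h2, h3, one_mul, one_mul]


/-
P.comp (X + C α) = taylor α P. If both natDegrees are < d both sides are 0
(resultant_eq_zero_of_lt_lt, natDegree_taylor). If A.natDegree = d: write d = B.natDegree + k for the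
second formal degree, resultant_add_right_deg gives the factor A.coeff d ^ k, the same for the
taylor polynomials (taylor does not change the coefficient of index d when natDegree <= d,
mob_coeff_comp), and resultant_taylor. If B.natDegree = d: the same with resultant_add_left_deg
(or resultant_comm).
-/
theorem rs_taylor (α : ℂ) {d : ℕ} {A B : Polynomial ℂ} (hA : A.natDegree ≤ d)
    (hB : B.natDegree ≤ d) :
    ‖resultant (A.comp (X + C α)) (B.comp (X + C α)) d d‖ = ‖resultant A B d d‖ := by
  rcases hA.lt_or_eq with h1 | h1
  · rcases hB.lt_or_eq with h2 | h2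
    · rw [resultant_eq_zero_of_lt_lt _ _ _ _ h1 h2, resultant_eq_zero_of_lt_lt]
      · rwa [natDegree_comp, natDegree_X_add_C, mul_one]
      · rwa [natDegree_comp, natDegree_X_add_C, mul_one]
    · rw [rf_comm, rf_comm d A, rf_t1 α h2 hA]
  · rw [rf_t1 α h1 hB]

theorem rs_fr (α : ℂ) {d : ℕ} {A B : Polynomial ℂ} (hA : A.natDegree ≤ d)
    (hB : B.natDegree ≤ d) :
    ‖resultant (fr α d A) (fr α d B) d d‖ = ‖resultant A B d d‖ := by
  unfold fr
  rw [rs_reflect (mob_deg1 α hA) (mob_deg1 α hB), rs_taylor α hA hB]

end Pool.Agent.H84.SR
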