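import Pool.Agent.H84.SR.Defs

/-!
# The resultant with `mk x`
-/

set_option autoImplicit false

open Filter Topology Polynomial Metric Set

namespace Pool.Agent.H84.SR

open Pool.Agent.H44.Fatou Pool.Agent.H32.BT

/-
resultant_comm, then resultant_eq_prod_eval with f = mk x (natDegree d by mk_natDegree hq, splits over
ℂ, leading coefficient x (last d), roots = the multiset of the x j.castSucc: roots_C_mul,
roots_multiset_prod_X_sub_C or Polynomial.roots_prod_X_sub_C) and g = P, n = d; norm of (-1)^(d*d) is 1.
-/
theorem rs_mk {d : ℕ} {x : V d} (hq : x (Fin.last d) ≠ 0) {P : Polynomial ℂ}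
    (hP : P.natDegree ≤ d) : ‖resultant P (mk x) d d‖ =
      ‖x (Fin.last d)‖ ^ d * ∏ j : Fin d, ‖P.eval (x j.castSucc)‖ := by
  have hd := mk_natDegree hq
  have h0 := resultant_eq_prod_eval (mk x) P d hP (IsAlgClosed.splits (mk x))
  rw [hd] at h0
  rw [resultant_comm, norm_mul, norm_pow, norm_neg, norm_one, one_pow, one_mul, h0, norm_mul,
    norm_pow]
  have hlc : (mk x).leadingCoeff = x (Fin.last d) := by
    rw [leadingCoeff, hd, mk_coeff_top]
  have hroots : (mk x).roots = (Finset.univ.val.map (fun j : Fin d => x j.castSucc)) := by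
    unfold mk
    rw [roots_C_mul _ hq]
    have h1 : ∏ j : Fin d, (X - C (x j.castSucc)) =
        (Multiset.map (fun a => X - C a)
          (Finset.univ.val.map (fun j : Fin d => x j.castSucc))).prod := by
      rw [Multiset.map_map]
      rfl
    rw [h1, roots_multiset_prod_X_sub_C]
  rw [hlc, hroots, Multiset.map_map]
  congr 1
  have h2 : (Multiset.map ((fun a => P.eval a) ∘ fun j : Fin d => x j.castSucc)
      Finset.univ.val).prod = ∏ j : Fin d, P.eval (x j.castSucc) := rfl
  have h3 : (Multiset.map ((eval · P) ∘ fun j : Fin d => x j.castSucc)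
      Finset.univ.val).prod = ∏ j : Fin d, P.eval (x j.castSucc) := rfl
  rw [h3, norm_prod]

end Pool.Agent.H84.SR
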