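import Pool.Agent.H84.SR.Crit
import Pool.Agent.H84.SR.ResFr
import Pool.Agent.H84.SR.ResMk
import Pool.Agent.H84.SR.Generic
import Pool.Agent.H84.SR.Bnd

/-!
# The bad pairs in coordinates
-/

set_option autoImplicit false

open Filter Topology Polynomial Metric Set

namespace Pool.Agent.H84.SR

open Pool.Agent.H44.Fatou Pool.Agent.H32.BT

/-
K from exists_K. exists_mk with R = fr α d (pol v.2) gives x (q = x (last d) = R.coeff d =
(pol v.2).eval α <> 0). Put P = fr α d (pol v.1), y i = evl x (cf d P) i / q.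
Membership in TT: the bounds are exists_K; |q|^(2d) prod |y j| = |q|^(2d) prod |P(z j)| / |q|^d =
|q|^d prod |P (z j)| = ‖resultant P (mk x) d d‖ (rs_mk) = rs v (rs_fr, unfold rs) <= δ (evl_castSucc,
pol_cf). If no k satisfied the last condition then all P(z j) <> 0 and |P(z j)| <= rho |q| with
c = y (last d) = (pol v.1).eval α / q, |c| <= 1, so crit (with A = pol v.1, B = pol v.2, hα.le) gives
HypDeg, contradiction.
-/
theorem cover {d : ℕ} (hd : 2 ≤ d) {α : ℂ} (hα : ‖α‖ = 1) : ∃ K : ℝ, 1 ≤ K ∧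
    ∀ δ : ℝ, ∀ v ∈ Y d α δ, (fr α d (pol v.2)).coeff d ≠ 0 → (fr α d (pol v.2)).roots.Nodup →
      ∃ x y : V d, (x, y) ∈ TT (d := d) α K δ ∧ x (Fin.last d) ≠ 0 ∧
        (Function.Injective fun j : Fin d => x j.castSucc) ∧
        cf d (fr α d (pol v.2)) = cf d (mk x) ∧
        ∀ i, evl x (cf d (fr α d (pol v.1))) i = x (Fin.last d) * y i := by
  obtain ⟨K, hK1, hK⟩ := exists_K d hα
  refine ⟨K, hK1, ?_⟩
  intro δ v hv hc hnd
  obtain ⟨hv1, hv2, hv3, hrs, hbad⟩ := hv
  have hA := pol_natDegree v.1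
  have hB := pol_natDegree v.2
  have hR := fr_natDegree α hB
  obtain ⟨x, hx, hxl, hinj⟩ := exists_mk hR hc hnd
  have hq : x (Fin.last d) ≠ 0 := by rw [hxl]; exact hc
  have hqn : 0 < ‖x (Fin.last d)‖ := norm_pos_iff.mpr hq
  obtain ⟨hb1, hb2⟩ := hK v hv1 hv2 hv3 x hx hq
  have hP : (fr α d (pol v.1)).natDegree ≤ d := fr_natDegree α hA
  have hqv : x (Fin.last d) = (pol v.2).eval α := by rw [hxl, fr_coeff_top]
  have hev : ∀ j : Fin d, evl x (cf d (fr α d (pol v.1))) j.castSucc =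
      (fr α d (pol v.1)).eval (x j.castSucc) := by
    intro j
    rw [evl_castSucc, pol_cf hP]
  have hevl : evl x (cf d (fr α d (pol v.1))) (Fin.last d) = (pol v.1).eval α := by
    rw [evl_last]
    exact fr_coeff_top α d (pol v.1)
  refine ⟨x, fun i => evl x (cf d (fr α d (pol v.1))) i / x (Fin.last d),
    ⟨hb1, ?_, ?_, ?_⟩, hq, hinj, by rw [hx], ?_⟩
  · intro i
    show ‖evl x (cf d (fr α d (pol v.1))) i / x (Fin.last d)‖ ≤ K
    rw [norm_div, div_le_iff₀ hqn]
    exact hb2 i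
  · show ‖x (Fin.last d)‖ ^ (2 * d) *
      ∏ j : Fin d, ‖evl x (cf d (fr α d (pol v.1))) j.castSucc / x (Fin.last d)‖ ≤ δ
    have h1 : ∏ j : Fin d, ‖evl x (cf d (fr α d (pol v.1))) j.castSucc / x (Fin.last d)‖ =
        (∏ j : Fin d, ‖(fr α d (pol v.1)).eval (x j.castSucc)‖) / ‖x (Fin.last d)‖ ^ d := by
      have h2 : ∏ _j : Fin d, ‖x (Fin.last d)‖ = ‖x (Fin.last d)‖ ^ d := by
        rw [Finset.prod_const, Finset.card_univ, Fintype.card_fin]
      rw [← h2, ← Finset.prod_div_distrib]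
      refine Finset.prod_congr rfl fun j _ => ?_
      rw [hev, norm_div]
    have h3 := rs_mk hq hP
    rw [hx, rs_fr α hA hB] at h3
    have h4 : ‖x (Fin.last d)‖ ^ d ≠ 0 := pow_ne_zero _ hqn.ne'
    rw [h1, two_mul, pow_add]
    have h5 : ‖x (Fin.last d)‖ ^ d * ‖x (Fin.last d)‖ ^ d *
        ((∏ j : Fin d, ‖(fr α d (pol v.1)).eval (x j.castSucc)‖) / ‖x (Fin.last d)‖ ^ d) =
        ‖x (Fin.last d)‖ ^ d * ∏ j : Fin d, ‖(fr α d (pol v.1)).eval (x j.castSucc)‖ := by
      field_simp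
    rw [h5, ← h3]
    exact hrs
  · by_contra hno
    push Not at hno
    apply hbad
    have hc1 : ‖(pol v.1).eval α / x (Fin.last d)‖ ≤ 1 := by
      rw [norm_div, div_le_one hqn, hqv]
      exact hv3
    refine crit hd hα.le hc1 hK1 hA hB hx.symm hinj hq (fun j => hb1 _) ?_ ?_ ?_
    · rw [div_mul_cancel₀ _ hq]
    · intro j h0
      apply (hno j).1
      show evl x (cf d (fr α d (pol v.1))) j.castSucc / x (Fin.last d) = 0
      rw [hev, h0, zero_div]
    · intro j
      have h6 := (hno j).2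
      simp only at h6
      rw [hev, hevl, norm_div, div_le_iff₀ hqn] at h6
      exact h6
  · intro i
    show evl x (cf d (fr α d (pol v.1))) i =
      x (Fin.last d) * (evl x (cf d (fr α d (pol v.1))) i / x (Fin.last d))
    rw [mul_div_cancel₀ _ hq]


end Pool.Agent.H84.SR
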