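import Pool.Agent.H84.SR.PFrac

/-!
# The threshold
-/

set_option autoImplicit false

open Filter Topology Polynomial Metric Set

namespace Pool.Agent.H84.SR

open Pool.Agent.H44.Fatou Pool.Agent.H32.BT

/-
m = minimum over i <> j of min 1 ‖z i - z j‖ (Finset.exists_min_image on univ.offDiag, nonempty as
2 <= d), m2 = minimum over j of min 1 ‖1 - z j (c - α)‖. rho > 0 forces all factors to be nonzero,
hence positive. All factors are <= 1, so the two products are at most the single factors m^d and m2^2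
(Finset.prod_le_one, Finset.mul_prod_erase / Finset.prod_le_prod_of_subset_of_le_one').
-/
private theorem th_prod_le {ι : Type} [DecidableEq ι] (s : Finset ι) (f : ι → ℝ)
    (h0 : ∀ i ∈ s, 0 ≤ f i) (h1 : ∀ i ∈ s, f i ≤ 1) {j : ι} (hj : j ∈ s) :
    ∏ i ∈ s, f i ≤ f j := by
  rw [← Finset.mul_prod_erase s f hj]
  apply mul_le_of_le_one_right (h0 j hj)
  exact Finset.prod_le_one (fun i hi => h0 i (Finset.mem_of_mem_erase hi))
    (fun i hi => h1 i (Finset.mem_of_mem_erase hi))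

theorem exists_m {d : ℕ} (hd : 2 ≤ d) {α c : ℂ} {K : ℝ} (hK : 1 ≤ K) {x : V d}
    (h : 0 < rho α K x c) : ∃ m m2 : ℝ, 0 < m ∧ m ≤ 1 ∧ 0 < m2 ∧ m2 ≤ 1 ∧
      (∀ i j : Fin d, i ≠ j → m ≤ ‖x i.castSucc - x j.castSucc‖) ∧
      (∀ j : Fin d, m2 ≤ ‖1 - x j.castSucc * (c - α)‖) ∧
      rho α K x c ≤ m ^ d * m2 ^ 2 / (16 * (d + 1) * K) := by
  classical
  set f : Fin d × Fin d → ℝ := fun p => min 1 ‖x p.1.castSucc - x p.2.castSucc‖ with hf
  set g : Fin d → ℝ := fun j => min 1 ‖1 - x j.castSucc * (c - α)‖ with hg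
  have hf0 : ∀ p, 0 ≤ f p := fun p => le_min zero_le_one (norm_nonneg _)
  have hf1 : ∀ p, f p ≤ 1 := fun p => min_le_left _ _
  have hg0 : ∀ p, 0 ≤ g p := fun p => le_min zero_le_one (norm_nonneg _)
  have hg1 : ∀ p, g p ≤ 1 := fun p => min_le_left _ _
  have hK0 : 0 < K := lt_of_lt_of_le one_pos hK
  have hden : (0 : ℝ) < 16 * (d + 1) * K := by positivity
  have hrho : rho α K x c = (∏ p ∈ (Finset.univ : Finset (Fin d)).offDiag, f p ^ d) *
      (∏ j : Fin d, g j ^ 2) / (16 * (d + 1) * K) := rfl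
  have hA0 : 0 ≤ ∏ p ∈ (Finset.univ : Finset (Fin d)).offDiag, f p ^ d :=
    Finset.prod_nonneg fun p _ => pow_nonneg (hf0 p) d
  have hB0 : 0 ≤ ∏ j : Fin d, g j ^ 2 := Finset.prod_nonneg fun p _ => pow_nonneg (hg0 p) 2
  have hAB : (∏ p ∈ (Finset.univ : Finset (Fin d)).offDiag, f p ^ d) *
      (∏ j : Fin d, g j ^ 2) ≠ 0 := by
    intro h0
    rw [hrho, h0, zero_div] at h
    exact lt_irrefl _ h
  have hA : (∏ p ∈ (Finset.univ : Finset (Fin d)).offDiag, f p ^ d) ≠ 0 := left_ne_zero_of_mul hAB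
  have hB : (∏ j : Fin d, g j ^ 2) ≠ 0 := right_ne_zero_of_mul hAB
  have hfpos : ∀ p ∈ (Finset.univ : Finset (Fin d)).offDiag, 0 < f p := by
    intro p hp
    refine lt_of_le_of_ne (hf0 p) ?_
    intro h0
    apply (Finset.prod_ne_zero_iff.mp hA) p hp
    rw [← h0]
    exact zero_pow (by omega)
  have hgpos : ∀ j, 0 < g j := by
    intro p
    refine lt_of_le_of_ne (hg0 p) ?_
    intro h0
    apply (Finset.prod_ne_zero_iff.mp hB) p (Finset.mem_univ p)
    rw [← h0]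
    exact zero_pow (by omega)
  have hne1 : (Finset.univ : Finset (Fin d)).offDiag.Nonempty := by
    refine ⟨(⟨0, by omega⟩, ⟨1, by omega⟩), ?_⟩
    rw [Finset.mem_offDiag]
    refine ⟨Finset.mem_univ _, Finset.mem_univ _, ?_⟩
    intro h0
    exact absurd (congrArg Fin.val h0) zero_ne_one
  obtain ⟨p0, hp0, hmin⟩ := Finset.exists_min_image _ f hne1
  have hne2 : (Finset.univ : Finset (Fin d)).Nonempty := ⟨⟨0, by omega⟩, Finset.mem_univ _⟩
  obtain ⟨j0, hj0, hmin2⟩ := Finset.exists_min_image _ g hne2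
  refine ⟨f p0, g j0, hfpos p0 hp0, hf1 p0, hgpos j0, hg1 j0, ?_, ?_, ?_⟩
  · intro i j hij
    have hmem : (i, j) ∈ (Finset.univ : Finset (Fin d)).offDiag := by
      rw [Finset.mem_offDiag]
      exact ⟨Finset.mem_univ _, Finset.mem_univ _, hij⟩
    exact (hmin (i, j) hmem).trans (min_le_right _ _)
  · intro j
    exact (hmin2 j (Finset.mem_univ j)).trans (min_le_right _ _)
  · rw [hrho]
    apply div_le_div_of_nonneg_right _ hden.le
    apply mul_le_mul _ _ hB0 (pow_nonneg (hf0 p0) d)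
    · exact th_prod_le _ (fun p => f p ^ d) (fun p _ => pow_nonneg (hf0 p) d)
        (fun p _ => pow_le_one₀ (hf0 p) (hf1 p)) hp0
    · exact th_prod_le _ (fun p => g p ^ 2) (fun p _ => pow_nonneg (hg0 p) 2)
        (fun p _ => pow_le_one₀ (hg0 p) (hg1 p)) hj0

/-
eps j = P(z j)/(q prod_(i <> j) (z j - z i)), the product of the d - 1 factors is at least m^(d-1) in
modulus, so |eps j| <= rho/m^(d-1) <= m m2^2/(16 (d+1) K). Sum over the d indices.
-/
theorem eps_small {d : ℕ} (hd : 2 ≤ d) {x : V d} {P : Polynomial ℂ} {K m m2 r : ℝ} (hK : 1 ≤ K)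
    (hm : 0 < m) (hm2 : 0 < m2)
    (hsep : ∀ i j : Fin d, i ≠ j → m ≤ ‖x i.castSucc - x j.castSucc‖)
    (hr : r ≤ m ^ d * m2 ^ 2 / (16 * (d + 1) * K)) (hq : x (Fin.last d) ≠ 0)
    (hw : ∀ j : Fin d, ‖P.eval (x j.castSucc)‖ ≤ r * ‖x (Fin.last d)‖) :
    ∑ j, ‖eps x P j‖ ≤ m * m2 ^ 2 / (16 * K) := by
  have hK0 : 0 < K := lt_of_lt_of_le one_pos hK
  have hden : (0 : ℝ) < 16 * (d + 1) * K := by positivity
  have hqn : 0 < ‖x (Fin.last d)‖ := norm_pos_iff.mpr hq
  have hone : ∀ j : Fin d, ‖eps x P j‖ ≤ m * m2 ^ 2 / (16 * (d + 1) * K) := by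
    intro j
    have hr0 : 0 ≤ r := by
      have h1 := (norm_nonneg _).trans (hw j)
      exact nonneg_of_mul_nonneg_left h1 hqn
    have hprod : m ^ (d - 1) ≤ ∏ i ∈ Finset.univ.erase j, ‖x j.castSucc - x i.castSucc‖ := by
      have h1 : ∏ i ∈ (Finset.univ.erase j : Finset (Fin d)), m = m ^ (d - 1) := by
        rw [Finset.prod_const, Finset.card_erase_of_mem (Finset.mem_univ j), Finset.card_univ,
          Fintype.card_fin]
      rw [← h1]
      apply Finset.prod_le_prod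
      · intro i _
        exact hm.le
      · intro i hi
        exact hsep j i (Finset.ne_of_mem_erase hi).symm
    have hmp : 0 < m ^ (d - 1) := pow_pos hm _
    have hpp := lt_of_lt_of_le hmp hprod
    unfold eps
    rw [norm_div, norm_mul, norm_prod, div_le_iff₀ (mul_pos hqn hpp)]
    have h2 : m ^ d = m * m ^ (d - 1) := by
      rw [← pow_succ']
      congr 1
      omega
    have h3 : r ≤ m * m2 ^ 2 / (16 * (d + 1) * K) * m ^ (d - 1) := by
      refine hr.trans (le_of_eq ?_)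
      rw [h2]
      ring
    have h4 : 0 ≤ m * m2 ^ 2 / (16 * (d + 1) * K) := by positivity
    calc ‖P.eval (x j.castSucc)‖ ≤ r * ‖x (Fin.last d)‖ := hw j
      _ ≤ m * m2 ^ 2 / (16 * (d + 1) * K) * m ^ (d - 1) * ‖x (Fin.last d)‖ :=
        mul_le_mul_of_nonneg_right h3 hqn.le
      _ ≤ m * m2 ^ 2 / (16 * (d + 1) * K) *
          (∏ i ∈ Finset.univ.erase j, ‖x j.castSucc - x i.castSucc‖) * ‖x (Fin.last d)‖ :=
        mul_le_mul_of_nonneg_right (mul_le_mul_of_nonneg_left hprod h4) hqn.le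
      _ = _ := by ring
  calc ∑ j, ‖eps x P j‖ ≤ ∑ _j : Fin d, m * m2 ^ 2 / (16 * (d + 1) * K) :=
        Finset.sum_le_sum fun j _ => hone j
    _ = d * (m * m2 ^ 2 / (16 * (d + 1) * K)) := by
        rw [Finset.sum_const, Finset.card_univ, Fintype.card_fin, nsmul_eq_mul]
    _ ≤ (d + 1) * (m * m2 ^ 2 / (16 * (d + 1) * K)) := by
        apply mul_le_mul_of_nonneg_right _ (by positivity)
        linarith
    _ = m * m2 ^ 2 / (16 * K) := by
        have : (0 : ℝ) < (d : ℝ) + 1 := by positivity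
        field_simp

end Pool.Agent.H84.SR
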