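import Pool.Agent.H84.SR.Back
import Pool.Agent.H84.SR.Thr

/-!
# The criterion for hyperbolicity
-/

set_option autoImplicit false

open Filter Topology Polynomial OnePoint Metric Set

namespace Pool.Agent.H84.SR

open Pool.Agent.H44.Fatou Pool.Agent.H32.BT

/-
0 < |P(z 0)| <= rho * |q|, so rho > 0: exists_m gives m, m2; eps_small gives E <= m m2^2/(16 K);
trap_num gives the trap for F = gg ... on closedBall c (m2/(2K)), q = 1/2. By rat_gg
rat A B (u) = F u there (rat_coe_of_ne). H44 trap (H44/Fatou/Trap) gives an attracting fixed point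
to which all points of the closed ball converge: for f = rat A B every w in closedBall is Att f w
(IsSink with n = 1).
Coprimality and degree: back. For HypMap f use exists_mob α (H32/BT/Mob): φ with
G (φ x) = φ (f x), G = rat (cj1 α d A B) (cj2 α d A B), and hypMap_conj φ: it is enough that HypMap G.
Let y be critical for G.
 y = ∞: G ∞ = G (φ α) = φ (f α) and f α = (c : OnePoint) (rat_gg with u = α), c in the ball. So
 Att G (G ∞) by att_conj, and Att G ∞ by att_map (H32/BT/Top, G continuous by rat_continuous back_cj).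
 y in C: crit_coe gives (Wr (cj1) (cj2)).eval y = 0; cj1 = mk x, cj2 = P - α mk x (cj2_eq),
 P = fr α d A, so Wr P (mk x) vanishes at y (Wr (M) (P - a M) = - Wr P M by ring: Wr P Q = P' Q - P Q').
 wr_root: y is not a z j; wr_eval: sum eps/(y - z j)^2 = 0 ((mk x)(y) <> 0); crit_bound:
 h = P(y)/(mk x)(y) = c + sum eps/(y - z j) (pfrac) satisfies |h - c| <= 4E/m <= m2/(2K). So h is in
 the closed ball and Att f h. G y = [mk x(y) : P(y) - α mk x(y)] = φ h (rat_coe, pt; if h = α both
 are ∞: P(y) - α mk x(y) = (h - α) mk x(y); the values of φ are given by exists_mob). Hence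
 Att G (G y) (att_conj) and Att G y (att_map).
-/
theorem crit {d : ℕ} (hd : 2 ≤ d) {α c : ℂ} (hα : ‖α‖ ≤ 1) (hc1 : ‖c‖ ≤ 1) {K : ℝ} (hK : 1 ≤ K)
    {A B : Polynomial ℂ} (hA : A.natDegree ≤ d) (hB : B.natDegree ≤ d) {x : V d}
    (hx : fr α d B = mk x) (hinj : Function.Injective fun j : Fin d => x j.castSucc)
    (hq : x (Fin.last d) ≠ 0) (hz : ∀ j : Fin d, ‖x j.castSucc‖ ≤ K)
    (hc : A.eval α = c * x (Fin.last d))
    (hw : ∀ j : Fin d, (fr α d A).eval (x j.castSucc) ≠ 0)
    (hw2 : ∀ j : Fin d, ‖(fr α d A).eval (x j.castSucc)‖ ≤ rho α K x c * ‖x (Fin.last d)‖) :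
    HypDeg d A B := by
  have hd0 : 0 < d := by omega
  have hqpos : 0 < ‖x (Fin.last d)‖ := norm_pos_iff.2 hq
  have hrho : 0 < rho α K x c := by
    have h1 : 0 < ‖(fr α d A).eval (x (⟨0, hd0⟩ : Fin d).castSucc)‖ :=
      norm_pos_iff.2 (hw ⟨0, hd0⟩)
    have h2 := hw2 ⟨0, hd0⟩
    have h3 : 0 < rho α K x c * ‖x (Fin.last d)‖ := lt_of_lt_of_le h1 h2
    exact pos_of_mul_pos_left h3 hqpos.le
  obtain ⟨m, m2, hm, hm1, hm2, hm21, hsep, hD, hrle⟩ := exists_m hd hK hrho
  have hPd : (fr α d A).natDegree ≤ d := fr_natDegree α hA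
  have hPc : (fr α d A).coeff d = c * x (Fin.last d) := by rw [fr_coeff_top, hc]
  have hE := eps_small hd hK hm hm2 hsep hrle hq hw2
  obtain ⟨ht1, ht2, ht3⟩ := trap_num (z := fun j : Fin d => x j.castSucc)
    (ε := eps x (fr α d A)) (α := α) (c := c) hK hα hc1 hz hm hm1 hm2 hm21 hD hE
  have hr : 0 < m2 / (2 * K) := by positivity
  obtain ⟨hcop, hdeg⟩ := back hA hB hx hq hw
  have hfF : ∀ u ∈ closedBall c (m2 / (2 * K)),
      rat A B (u : OnePoint ℂ) =
        ((gg (fun j => x j.castSucc) (eps x (fr α d A)) α c u : ℂ) : OnePoint ℂ) := by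
    intro u hu
    obtain ⟨h1, h2⟩ := rat_gg hA hB hx hinj hq hc (u := u) (ht1 u hu).1
    rw [← h2]
    exact rat_coe_of_ne h1
  obtain ⟨z0, h1, h2, h3⟩ := trap hr (by norm_num : (0 : ℝ) ≤ 1 / 2) (by norm_num) hfF
    (fun u hu => (ht1 u hu).2) ht2
  have hsink : IsSink (rat A B) z0 1 := by
    refine ⟨one_pos, h1, ?_⟩
    obtain ⟨U, hU, hU2⟩ := h2
    refine ⟨U, hU, fun w hw' => ?_⟩
    simpa only [one_mul] using hU2 w hw'
  have hatt : ∀ w ∈ closedBall c (m2 / (2 * K)), Att (rat A B) (w : OnePoint ℂ) := by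
    intro w hw'
    refine ⟨z0, 1, hsink, ?_⟩
    simpa only [one_mul] using h3 w hw'
  obtain ⟨φ, hφ1, hφ2, hφ3, hφ⟩ := exists_mob α
  obtain ⟨hcop', hdeg', hconj⟩ := hφ d A B hcop hdeg (by omega)
  refine ⟨hcop, hdeg, ?_⟩
  rw [← hypMap_conj φ hconj]
  have hfcont := rat_continuous hcop
  have hGcont := rat_continuous hcop'
  have hcj1 : cj1 α d A B = mk x := hx
  have hcj2 : cj2 α d A B = fr α d A - C α * mk x := by rw [cj2_eq, hx]
  intro y hy
  induction y using OnePoint.rec with
  | infty =>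
    rw [← hφ2, att_conj φ hconj, ← att_map hfcont]
    have h4 : ∀ j : Fin d, 1 - x j.castSucc * (α - α) ≠ 0 := by
      intro j
      rw [sub_self, mul_zero, sub_zero]
      exact one_ne_zero
    obtain ⟨h5, h6⟩ := rat_gg hA hB hx hinj hq hc (u := α) h4
    have h7 : gg (fun j => x j.castSucc) (eps x (fr α d A)) α c α = c := by
      unfold gg
      simp
    rw [h7] at h6
    rw [rat_coe_of_ne h5, h6]
    exact hatt c (mem_closedBall_self hr.le)
  | coe y =>
    have h4 := crit_coe hy
    rw [hcj1, hcj2] at h4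
    have h5 : (Wr (fr α d A) (mk x)).eval y = 0 := by
      have e : Wr (mk x) (fr α d A - C α * mk x) = - Wr (fr α d A) (mk x) := by
        unfold Wr
        rw [derivative_sub, derivative_C_mul]
        ring
      rw [e, eval_neg, neg_eq_zero] at h4
      exact h4
    have hyz : ∀ j : Fin d, y ≠ x j.castSucc := by
      intro j hj
      exact wr_root hinj hq (hw j) (hj ▸ h5)
    have hM : (mk x).eval y ≠ 0 := by
      rw [mk_eval]
      refine mul_ne_zero hq (Finset.prod_ne_zero_iff.2 (fun j _ => ?_))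
      exact sub_ne_zero.2 (hyz j)
    have h6 := wr_eval hinj hq hPd hyz
    rw [h5] at h6
    have h7 : ∑ j, eps x (fr α d A) j / (y - x j.castSucc) ^ 2 = 0 := by
      rcases mul_eq_zero.1 h6.symm with h | h
      · exact absurd h (neg_ne_zero.2 (pow_ne_zero 2 hM))
      · exact h
    have h8 := crit_bound (z := fun j : Fin d => x j.castSucc) (ε := eps x (fr α d A))
      hm hsep hyz h7
    have h9 := pfrac hinj hq hPd hPc hyz
    set h := (fr α d A).eval y / (mk x).eval y with hh
    have h10 : h ∈ closedBall c (m2 / (2 * K)) := by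
      rw [mem_closedBall, dist_eq_norm, h9, add_sub_cancel_left]
      exact h8.trans ht3
    have h11 : rat (cj1 α d A B) (cj2 α d A B) (y : OnePoint ℂ) = φ (h : OnePoint ℂ) := by
      rw [rat_coe, hcj1, hcj2, eval_sub, eval_mul, eval_C]
      have e : (fr α d A).eval y = h * (mk x).eval y := by
        rw [hh, div_mul_cancel₀ _ hM]
      rw [e, ← sub_mul]
      by_cases hα' : h = α
      · rw [hα', sub_self, zero_mul, hφ2]
        unfold pt
        rw [if_pos rfl]
      · rw [hφ1 h hα']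
        unfold pt
        rw [if_neg (mul_ne_zero (sub_ne_zero.2 hα') hM)]
        congr 1
        have : h - α ≠ 0 := sub_ne_zero.2 hα'
        field_simp
    rw [← att_map hGcont, h11, att_conj φ hconj]
    exact hatt h h10

end Pool.Agent.H84.SR
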