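import Mathlib
import Pool.Agent.H32.BT.Cj
import Pool.Agent.H32.BT.Top

/-!
# Rational maps of small resultant: definitions

Coordinates: a pair `(A, B)` of polynomials of degree at most `d`, given by coefficient vectors.
In the frame `z = α + 1 / u` the pair becomes `(fr α d A, fr α d B)`, whose leading coefficients
are `A(α), B(α)`. If `fr α d B = mk x = q ∏ (X - z j)` with `x = (z, q)`, the pair is described by
`x` and `y = (P(z j) / q, p / q)` where `P = fr α d A` has leading coefficient `p`.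
-/

set_option autoImplicit false

open Filter Topology Polynomial Metric Set MeasureTheory

namespace Pool.Agent.H84.SR

open Pool.Agent.H44.Fatou Pool.Agent.H32.BT

/-- coefficient vectors of polynomials of degree at most `d` -/
abbrev V (d : ℕ) : Type := Fin (d + 1) → ℂ

/-- pairs of coefficient vectors -/
abbrev E (d : ℕ) : Type := V d × V d

/-- the polynomial with given coefficients -/
noncomputable def pol {d : ℕ} (v : V d) : Polynomial ℂ := ∑ i, C (v i) * X ^ (i : ℕ)

/-- the polynomial `u ^ d P(α + 1 / u)` -/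
noncomputable def fr (α : ℂ) (d : ℕ) (P : Polynomial ℂ) : Polynomial ℂ :=
  reflect d (P.comp (X + C α))

/-- `q ∏ (X - z j)` where `x = (z, q)` -/
noncomputable def mk {d : ℕ} (x : V d) : Polynomial ℂ :=
  C (x (Fin.last d)) * ∏ j : Fin d, (X - C (x j.castSucc))

/-- the values of `p` at the points `z j`, and its leading coefficient -/
noncomputable def evl {d : ℕ} (x p : V d) : V d :=
  fun i => if (i : ℕ) < d then (pol p).eval (x i) else p i

/-- the Vandermonde determinant of the points `z j` -/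
noncomputable def vd {d : ℕ} (x : V d) : ℂ :=
  (Matrix.vandermonde (fun j : Fin d => x j.castSucc)).det

/-- absolute value of the resultant (of formal degrees `d, d`) -/
noncomputable def rs {d : ℕ} (v : E d) : ℝ := ‖resultant (pol v.1) (pol v.2) d d‖

/-- `A / B` is a hyperbolic rational map of degree exactly `d` -/
def HypDeg (d : ℕ) (A B : Polynomial ℂ) : Prop :=
  IsCoprime A B ∧ max A.natDegree B.natDegree = d ∧ HypMap (rat A B)

/-- the threshold: if all `|P(z j)| ≤ rho * |q|` then the map is hyperbolic -/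
noncomputable def rho {d : ℕ} (α : ℂ) (K : ℝ) (x : V d) (c : ℂ) : ℝ :=
  (∏ p ∈ (Finset.univ : Finset (Fin d)).offDiag,
      min 1 ‖x p.1.castSucc - x p.2.castSucc‖ ^ d) *
    (∏ j : Fin d, min 1 ‖1 - x j.castSucc * (c - α)‖ ^ 2) / (16 * (d + 1) * K)

/-- the region in the coordinates `(x, y)` containing the maps that are not hyperbolic -/
def TT {d : ℕ} (α : ℂ) (K δ : ℝ) : Set (V d × V d) :=
  {a | (∀ i, ‖a.1 i‖ ≤ K) ∧ (∀ i, ‖a.2 i‖ ≤ K) ∧
    ‖a.1 (Fin.last d)‖ ^ (2 * d) * ∏ j : Fin d, ‖a.2 j.castSucc‖ ≤ δ ∧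
    ∃ k : Fin d, a.2 k.castSucc = 0 ∨ rho α K a.1 (a.2 (Fin.last d)) < ‖a.2 k.castSucc‖}

/-- product region -/
def GG (n : ℕ) (K t : ℝ) : Set (Fin n → ℂ) := {w | (∀ j, ‖w j‖ ≤ K) ∧ ∏ j, ‖w j‖ ≤ t}

/-- the bad pairs seen in the frame `α` -/
def Y (d : ℕ) (α : ℂ) (δ : ℝ) : Set (E d) :=
  {v | ‖v‖ ≤ 1 ∧ ‖v‖ ≤ ‖(pol v.2).eval α‖ ∧ ‖(pol v.1).eval α‖ ≤ ‖(pol v.2).eval α‖ ∧
    rs v ≤ δ ∧ ¬ HypDeg d (pol v.1) (pol v.2)}

/-! ### small facts -/

theorem pol_coeff {d : ℕ} (v : V d) (i : ℕ) :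
    (pol v).coeff i = if h : i < d + 1 then v ⟨i, h⟩ else 0 := by
  unfold pol
  rw [finsetSum_coeff]
  simp only [coeff_C_mul, coeff_X_pow]
  split_ifs with h
  · rw [Finset.sum_eq_single (⟨i, h⟩ : Fin (d + 1))]
    · simp
    · intro b _ hb
      rw [if_neg, mul_zero]
      intro h1
      apply hb
      ext
      exact h1.symm
    · intro h1
      exact absurd (Finset.mem_univ _) h1
  · apply Finset.sum_eq_zero
    intro b _
    rw [if_neg, mul_zero]
    intro h1
    apply h
    rw [h1]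
    exact b.2

theorem pol_natDegree {d : ℕ} (v : V d) : (pol v).natDegree ≤ d := by
  rw [natDegree_le_iff_coeff_eq_zero]
  intro N hN
  rw [pol_coeff, dif_neg (by omega)]

theorem cf_pol {d : ℕ} (v : V d) : cf d (pol v) = v := by
  ext i
  show (pol v).coeff i = v i
  rw [pol_coeff, dif_pos i.2]

theorem pol_cf {d : ℕ} {P : Polynomial ℂ} (h : P.natDegree ≤ d) : pol (cf d P) = P := by
  ext i
  rw [pol_coeff]
  split_ifs with h1
  · rfl
  · rw [coeff_eq_zero_of_natDegree_lt (by omega)]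

theorem pol_eval {d : ℕ} (v : V d) (z : ℂ) : (pol v).eval z = ∑ i, v i * z ^ (i : ℕ) := by
  unfold pol
  rw [eval_finsetSum]
  simp

theorem evl_castSucc {d : ℕ} (x p : V d) (j : Fin d) :
    evl x p j.castSucc = (pol p).eval (x j.castSucc) := by
  unfold evl
  rw [if_pos]
  exact j.2

theorem evl_last {d : ℕ} (x p : V d) : evl x p (Fin.last d) = p (Fin.last d) := by
  unfold evl
  rw [if_neg]
  simp

theorem fr_natDegree (α : ℂ) {d : ℕ} {P : Polynomial ℂ} (h : P.natDegree ≤ d) :
    (fr α d P).natDegree ≤ d := natDegree_reflect_le' (mob_deg1 α h)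

theorem fr_coeff_top (α : ℂ) (d : ℕ) (P : Polynomial ℂ) : (fr α d P).coeff d = P.eval α :=
  mob_coeff_top α d P

theorem fr_eval (α : ℂ) {d : ℕ} {P : Polynomial ℂ} (h : P.natDegree ≤ d) {z : ℂ} (hz : z ≠ α) :
    P.eval z = (fr α d P).eval (z - α)⁻¹ * (z - α) ^ d := mob_eval α h hz

theorem mk_eval {d : ℕ} (x : V d) (u : ℂ) :
    (mk x).eval u = x (Fin.last d) * ∏ j : Fin d, (u - x j.castSucc) := by
  unfold mk
  rw [eval_mul, eval_C, eval_prod]
  simp

theorem mk_coeff_top {d : ℕ} (x : V d) : (mk x).coeff d = x (Fin.last d) := by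
  unfold mk
  have h : (∏ j : Fin d, (X - C (x j.castSucc))).Monic := monic_prod_X_sub_C _ _
  have h2 : (∏ j : Fin d, (X - C (x j.castSucc))).natDegree = d := by
    rw [natDegree_prod_of_monic _ _ (fun j _ => monic_X_sub_C _)]
    simp
  rw [coeff_C_mul]
  have h3 : (∏ j : Fin d, (X - C (x j.castSucc))).coeff d = 1 := by
    have := h.coeff_natDegree
    rwa [h2] at this
  rw [h3, mul_one]

theorem mk_natDegree_le {d : ℕ} (x : V d) : (mk x).natDegree ≤ d := by
  unfold mk
  refine (natDegree_C_mul_le _ _).trans ?_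
  rw [natDegree_prod_of_monic _ _ (fun j _ => monic_X_sub_C _)]
  simp

theorem mk_natDegree {d : ℕ} {x : V d} (h : x (Fin.last d) ≠ 0) : (mk x).natDegree = d := by
  apply le_antisymm (mk_natDegree_le x)
  apply le_natDegree_of_ne_zero
  rw [mk_coeff_top]
  exact h

theorem rho_nonneg {d : ℕ} (α : ℂ) {K : ℝ} (hK : 0 ≤ K) (x : V d) (c : ℂ) :
    0 ≤ rho α K x c := by
  unfold rho
  apply div_nonneg
  · apply mul_nonneg
    · exact Finset.prod_nonneg (fun p _ => by positivity)
    · exact Finset.prod_nonneg (fun p _ => by positivity)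
  · positivity

end Pool.Agent.H84.SR
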