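import Pool.Agent.H84.SR.Defs

/-!
# The determinant of the evaluation map
-/

set_option autoImplicit false

open Filter Topology Polynomial Metric Set

namespace Pool.Agent.H84.SR

open Pool.Agent.H44.Fatou Pool.Agent.H32.BT

theorem evl_add {d : ℕ} (x p r : V d) : evl x (p + r) = evl x p + evl x r := by
  ext i
  rw [Pi.add_apply]
  unfold evl
  split_ifs with h
  · rw [pol_eval, pol_eval, pol_eval, ← Finset.sum_add_distrib]
    exact Finset.sum_congr rfl fun j _ => by rw [Pi.add_apply, add_mul]
  · rfl

theorem evl_smul {d : ℕ} (x : V d) (a : ℂ) (p : V d) : evl x (a • p) = a • evl x p := by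
  ext i
  rw [Pi.smul_apply]
  unfold evl
  split_ifs with h
  · rw [pol_eval, pol_eval, smul_eq_mul, Finset.mul_sum]
    exact Finset.sum_congr rfl fun j _ => by rw [Pi.smul_apply, smul_eq_mul, mul_assoc]
  · rfl

/-- evaluation at the points `z j`, as a linear map -/
noncomputable def evL {d : ℕ} (x : V d) : V d →ₗ[ℂ] V d where
  toFun := evl x
  map_add' := evl_add x
  map_smul' := evl_smul x

theorem evL_apply {d : ℕ} (x p : V d) : evL x p = evl x p := rfl

/-
The matrix M of evL x (LinearMap.toMatrix', det_toMatrix') is M i j = (x i)^j for i < d and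
M (last) j = if j = last then 1 else 0. Expand along the last row (Matrix.det_succ_row M (last d)):
only j = last contributes, with sign (-1)^(d + d) and minor the Vandermonde matrix
(Fin.succAbove_last).
-/
theorem det_evL {d : ℕ} (x : V d) : LinearMap.det (evL x) = vd x := by
  classical
  rw [← LinearMap.det_toMatrix']
  have hent : ∀ i j : Fin (d + 1), LinearMap.toMatrix' (evL x) i j =
      if (i : ℕ) < d then x i ^ (j : ℕ) else if i = j then 1 else 0 := by
    intro i j
    rw [LinearMap.toMatrix'_apply, evL_apply]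
    unfold evl
    split_ifs with h1 h2
    · rw [pol_eval, Finset.sum_eq_single j]
      · simp
      · intro b _ hb
        simp [hb]
      · intro h
        exact absurd (Finset.mem_univ j) h
    · rw [h2]
      simp
    · simp [h2]
  rw [Matrix.det_succ_row _ (Fin.last d), Finset.sum_eq_single (Fin.last d)]
  · rw [hent, if_neg (by simp), if_pos rfl, mul_one, Fin.succAbove_last]
    have h1 : ((-1 : ℂ)) ^ (((Fin.last d : Fin (d + 1)) : ℕ) + ((Fin.last d : Fin (d + 1)) : ℕ)) =
        1 := by
      rw [← two_mul, pow_mul]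
      simp
    rw [h1, one_mul]
    unfold vd
    congr 1
    ext i j
    rw [Matrix.submatrix_apply, hent, Matrix.vandermonde_apply, if_pos]
    · rfl
    · exact i.2
  · intro j _ hj
    rw [hent, if_neg (by simp), if_neg (fun h => hj h.symm), mul_zero, zero_mul]
  · intro h
    exact absurd (Finset.mem_univ _) h

/-
Matrix.det_vandermonde_ne_zero_iff
-/
theorem vd_ne_zero {d : ℕ} {x : V d} :
    vd x ≠ 0 ↔ Function.Injective fun j : Fin d => x j.castSucc := by
  unfold vd
  exact Matrix.det_vandermonde_ne_zero_iff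

/-
Matrix.det_vandermonde: vd x = prod_i prod_(j in Ioi i) (z j - z i). The product of |z j - z k| over
all ordered pairs j <> k is the square of the product over i < j.
-/
theorem vd_sq {d : ℕ} (x : V d) :
    ∏ j : Fin d, ∏ k ∈ Finset.univ.erase j, ‖x j.castSucc - x k.castSucc‖ = ‖vd x‖ ^ 2 := by
  classical
  have h0 : ‖vd x‖ = ∏ i : Fin d, ∏ j ∈ Finset.Ioi i, ‖x j.castSucc - x i.castSucc‖ := by
    unfold vd
    rw [Matrix.det_vandermonde, norm_prod]
    exact Finset.prod_congr rfl fun i _ => norm_prod _ _
  have h1 : ∀ j : Fin d, ∏ k ∈ Finset.univ.erase j, ‖x j.castSucc - x k.castSucc‖ =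
      (∏ k ∈ Finset.Ioi j, ‖x j.castSucc - x k.castSucc‖) *
        ∏ k ∈ Finset.Iio j, ‖x j.castSucc - x k.castSucc‖ := by
    intro j
    rw [← Finset.prod_union]
    · refine Finset.prod_congr ?_ fun _ _ => rfl
      ext k
      rw [Finset.mem_erase, Finset.mem_union, Finset.mem_Ioi, Finset.mem_Iio]
      constructor
      · rintro ⟨hk, -⟩
        exact (lt_or_gt_of_ne hk).symm
      · rintro (hk | hk)
        · exact ⟨hk.ne', Finset.mem_univ _⟩
        · exact ⟨hk.ne, Finset.mem_univ _⟩
    · rw [Finset.disjoint_left]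
      intro k hk hk2
      rw [Finset.mem_Ioi] at hk
      rw [Finset.mem_Iio] at hk2
      exact lt_asymm hk hk2
  rw [Finset.prod_congr rfl (fun j _ => h1 j), Finset.prod_mul_distrib, pow_two, h0]
  congr 1
  · exact Finset.prod_congr rfl fun j _ => Finset.prod_congr rfl fun k _ => norm_sub_rev _ _
  · rw [Finset.prod_comm' (s := Finset.univ) (t := fun j : Fin d => Finset.Iio j)
      (t' := Finset.univ) (s' := fun k : Fin d => Finset.Ioi k)]
    intro j k
    simp

/-- `vd` is continuous -/
theorem vd_cont {d : ℕ} : Continuous (vd : V d → ℂ) := by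
  have h : (vd : V d → ℂ) = fun x =>
      ∏ i : Fin d, ∏ j ∈ Finset.Ioi i, (x j.castSucc - x i.castSucc) := by
    funext x
    unfold vd
    rw [Matrix.det_vandermonde]
  rw [h]
  fun_prop

end Pool.Agent.H84.SR
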