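import Pool.Agent.H84.SR.DetEv

/-!
# The Jacobian determinant of the map (roots, leading coefficient) to coefficients
-/

set_option autoImplicit false

open Filter Topology Polynomial Metric Set

namespace Pool.Agent.H84.SR

open Pool.Agent.H44.Fatou Pool.Agent.H32.BT

/-- the coefficients of a product of linear factors are differentiable -/
private theorem coeff_prod_diff {d : ℕ} (s : Finset (Fin d)) : ∀ n : ℕ,
    Differentiable ℂ (fun y : V d => (∏ j ∈ s, (X - C (y j.castSucc))).coeff n) := by
  classical
  induction s using Finset.induction_on with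
  | empty =>
    intro n
    simp only [Finset.prod_empty]
    exact differentiable_const _
  | insert a s ha ih =>
    intro n
    have h1 : (fun y : V d => (∏ j ∈ insert a s, (X - C (y j.castSucc))).coeff n) =
        fun y : V d => (X * ∏ j ∈ s, (X - C (y j.castSucc))).coeff n -
          y a.castSucc * (∏ j ∈ s, (X - C (y j.castSucc))).coeff n := by
      funext y
      rw [Finset.prod_insert ha, sub_mul, coeff_sub, coeff_C_mul]
    rw [h1]
    have h2 : Differentiable ℂ (fun y : V d => y a.castSucc *
        (∏ j ∈ s, (X - C (y j.castSucc))).coeff n) :=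
      (differentiable_apply _).mul (ih n)
    cases n with
    | zero =>
      simp only [coeff_X_mul_zero]
      exact (differentiable_const _).sub h2
    | succ n =>
      simp only [coeff_X_mul]
      exact (ih n).sub h2

private theorem root_diff {d : ℕ} : Differentiable ℂ (fun y : V d => cf d (mk y)) := by
  rw [differentiable_pi]
  intro i
  have h1 : (fun y : V d => cf d (mk y) i) = fun y : V d => y (Fin.last d) *
      (∏ j : Fin d, (X - C (y j.castSucc))).coeff i := by
    funext y
    show (mk y).coeff i = _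
    unfold mk
    rw [coeff_C_mul]
  rw [h1]
  exact (differentiable_apply _).mul (coeff_prod_diff _ _)

/-- evaluation at a point as a linear functional -/
private noncomputable def evU (d : ℕ) (u : ℂ) : V d →ₗ[ℂ] ℂ where
  toFun v := (pol v).eval u
  map_add' v w := by
    rw [pol_eval, pol_eval, pol_eval, ← Finset.sum_add_distrib]
    exact Finset.sum_congr rfl fun j _ => by rw [Pi.add_apply, add_mul]
  map_smul' a v := by
    rw [pol_eval, pol_eval, RingHom.id_apply, smul_eq_mul, Finset.mul_sum]
    exact Finset.sum_congr rfl fun j _ => by rw [Pi.smul_apply, smul_eq_mul, mul_assoc]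

theorem root_deriv {d : ℕ} (x : V d) : ∃ L : V d →L[ℂ] V d,
    HasFDerivAt (fun y : V d => cf d (mk y)) L x ∧
    (∀ (h : V d) (j : Fin d), evl x (L h) j.castSucc =
      -(x (Fin.last d)) * (∏ k ∈ Finset.univ.erase j, (x j.castSucc - x k.castSucc)) *
        h j.castSucc) ∧
    ∀ h : V d, evl x (L h) (Fin.last d) = h (Fin.last d) := by
  classical
  have hF := (root_diff x).hasFDerivAt
  set L := fderiv ℂ (fun y : V d => cf d (mk y)) x with hL
  refine ⟨L, hF, ?_, ?_⟩
  · intro h j
    rw [evl_castSucc]
    set u := x j.castSucc with hu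
    have h1 : HasFDerivAt (fun y : V d => (evU d u).toContinuousLinearMap (cf d (mk y)))
        ((evU d u).toContinuousLinearMap.comp L) x :=
      (evU d u).toContinuousLinearMap.hasFDerivAt.comp x hF
    have h2 : (fun y : V d => (evU d u).toContinuousLinearMap (cf d (mk y))) =
        fun y : V d => y (Fin.last d) * ∏ k : Fin d, (u - y k.castSucc) := by
      funext y
      show (pol (cf d (mk y))).eval u = _
      rw [pol_cf (mk_natDegree_le y), mk_eval]
    have h3 : HasFDerivAt (fun y : V d => ∏ k : Fin d, (u - y k.castSucc))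
        (∑ k : Fin d, (∏ l ∈ Finset.univ.erase k, (u - x l.castSucc)) •
          (-(ContinuousLinearMap.proj (R := ℂ) (φ := fun _ : Fin (d + 1) => ℂ) k.castSucc))) x := by
      refine HasFDerivAt.finsetProd (fun k _ => ?_)
      exact (ContinuousLinearMap.proj (R := ℂ) (φ := fun _ : Fin (d + 1) => ℂ)
        k.castSucc).hasFDerivAt.const_sub u
    have h4 := (ContinuousLinearMap.proj (R := ℂ) (φ := fun _ : Fin (d + 1) => ℂ)
      (Fin.last d)).hasFDerivAt (x := x) |>.mul h3
    rw [h2] at h1
    have h5 := h1.unique h4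
    have h6 := congrArg (fun M : V d →L[ℂ] ℂ => M h) h5
    have h7 : ((evU d u).toContinuousLinearMap.comp L) h = (pol (L h)).eval u := rfl
    have h8 : ∏ k : Fin d, (u - x k.castSucc) = 0 :=
      Finset.prod_eq_zero (Finset.mem_univ j) (by rw [hu, sub_self])
    simp only [h7, h8] at h6
    rw [h6]
    simp only [add_apply, smul_apply,
      sum_apply, neg_apply,
      ContinuousLinearMap.proj_apply, smul_eq_mul, zero_mul, add_zero]
    rw [Finset.sum_eq_single j]
    · ring
    · intro k _ hk
      rw [Finset.prod_eq_zero (i := j)]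
      · ring
      · exact Finset.mem_erase.2 ⟨hk.symm, Finset.mem_univ _⟩
      · rw [hu, sub_self]
    · intro h9
      exact absurd (Finset.mem_univ _) h9
  · intro h
    rw [evl_last]
    have h1 : HasFDerivAt (fun y : V d => (ContinuousLinearMap.proj (R := ℂ)
        (φ := fun _ : Fin (d + 1) => ℂ) (Fin.last d)) (cf d (mk y)))
        ((ContinuousLinearMap.proj (R := ℂ) (φ := fun _ : Fin (d + 1) => ℂ)
          (Fin.last d)).comp L) x :=
      (ContinuousLinearMap.proj (R := ℂ) (φ := fun _ : Fin (d + 1) => ℂ)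
        (Fin.last d)).hasFDerivAt.comp x hF
    have h2 : (fun y : V d => (ContinuousLinearMap.proj (R := ℂ)
        (φ := fun _ : Fin (d + 1) => ℂ) (Fin.last d)) (cf d (mk y))) =
        fun y : V d => (ContinuousLinearMap.proj (R := ℂ)
        (φ := fun _ : Fin (d + 1) => ℂ) (Fin.last d)) y := by
      funext y
      show (mk y).coeff d = y (Fin.last d)
      exact mk_coeff_top y
    rw [h2] at h1
    have h5 := h1.unique (ContinuousLinearMap.proj (R := ℂ)
        (φ := fun _ : Fin (d + 1) => ℂ) (Fin.last d)).hasFDerivAt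
    exact congrArg (fun M : V d →L[ℂ] ℂ => M h) h5

/-
evL x ∘ L is diagonal with entries - q prod_(k <> j) (z j - z k) (j < d) and 1, so its determinant has
modulus |q|^d ‖vd x‖^2 (vd_sq). On the other hand it is det (evL x) * det L = vd x * det L (det_evL,
LinearMap.det_comp). Divide by vd x <> 0.
-/
theorem det_root {d : ℕ} {x : V d} (hx : vd x ≠ 0) : ∃ L : V d →L[ℂ] V d,
    HasFDerivAt (fun y : V d => cf d (mk y)) L x ∧
    ‖LinearMap.det (L : V d →ₗ[ℂ] V d)‖ = ‖x (Fin.last d)‖ ^ d * ‖vd x‖ := by
  classical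
  obtain ⟨L, hL, h1, h2⟩ := root_deriv x
  refine ⟨L, hL, ?_⟩
  set D : Fin (d + 1) → ℂ := Fin.lastCases (motive := fun _ => ℂ) 1
    (fun j => -(x (Fin.last d)) * (∏ k ∈ Finset.univ.erase j, (x j.castSucc - x k.castSucc)))
    with hD
  have e1 : LinearMap.det (evL x ∘ₗ (L : V d →ₗ[ℂ] V d)) = ∏ i, D i := by
    rw [← LinearMap.det_toMatrix']
    have e2 : LinearMap.toMatrix' (evL x ∘ₗ (L : V d →ₗ[ℂ] V d)) = Matrix.diagonal D := by
      rw [← LinearMap.toMatrix'_toLin' (Matrix.diagonal D)]
      congr 1
      apply LinearMap.ext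
      intro h
      ext i
      rw [Matrix.toLin'_apply, Matrix.mulVec_diagonal]
      show evl x (L h) i = D i * h i
      refine Fin.lastCases ?_ (fun j => ?_) i
      · rw [h2, hD, Fin.lastCases_last, one_mul]
      · rw [h1, hD, Fin.lastCases_castSucc]
    rw [e2, Matrix.det_diagonal]
  rw [LinearMap.det_comp, det_evL] at e1
  have e3 : ‖∏ i, D i‖ = ‖x (Fin.last d)‖ ^ d * ‖vd x‖ ^ 2 := by
    rw [Fin.prod_univ_castSucc, norm_mul, norm_prod, ← vd_sq]
    have e4 : D (Fin.last d) = 1 := by rw [hD, Fin.lastCases_last]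
    have e5 : ∀ j : Fin d, ‖D j.castSucc‖ = ‖x (Fin.last d)‖ *
        ∏ k ∈ Finset.univ.erase j, ‖x j.castSucc - x k.castSucc‖ := by
      intro j
      rw [hD, Fin.lastCases_castSucc, norm_mul, norm_neg, norm_prod]
    simp only [e4, e5, norm_one, mul_one]
    rw [Finset.prod_mul_distrib, Finset.prod_const, Finset.card_univ, Fintype.card_fin]
  have e6 := congrArg norm e1
  rw [e3, norm_mul] at e6
  have hpos : ‖vd x‖ ≠ 0 := norm_ne_zero_iff.2 hx
  have e7 : ‖vd x‖ * ‖LinearMap.det (L : V d →ₗ[ℂ] V d)‖ =
      ‖vd x‖ * (‖x (Fin.last d)‖ ^ d * ‖vd x‖) := by rw [e6]; ring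
  exact mul_left_cancel₀ hpos e7

end Pool.Agent.H84.SR
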