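import Pool.Agent.H84.SR.VolC
import Pool.Agent.H84.SR.RhoB
import Pool.Agent.H84.SR.AeRob

/-!
# The measure of the second region
-/

set_option autoImplicit false

open MeasureTheory Metric Set Filter Topology

namespace Pool.Agent.H84.SR

/-- the region of the parameters `(x, c, w)`, `w` the large coordinate -/
def Reg {d : ℕ} (α : ℂ) (K : ℝ) : Set (V d × ℂ × ℂ) :=
  {a | (∀ i, ‖a.1 i‖ ≤ K) ∧ ‖a.2.1‖ ≤ K ∧ rho α K a.1 a.2.1 < ‖a.2.2‖ ∧ ‖a.2.2‖ ≤ K}

/-- the density -/
noncomputable def Th {d : ℕ} (α : ℂ) (K δ : ℝ) (k : Fin d) (a : V d × ℂ × ℂ) : ℝ :=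
  (‖a.2.2‖⁻¹) ^ 2 * min 1
    ((1 + Real.log (1 / tau α K k a.1 a.2.1 a.2.2) + Real.log (1 / rho α K a.1 a.2.1)) /
      (1 + max 0 (Real.log (K * ‖a.1 (Fin.last d)‖ ^ (2 * d) / δ))))

private theorem eb_rho {d : ℕ} (α : ℂ) (K : ℝ) :
    Continuous fun a : V d × ℂ × ℂ => rho α K a.1 a.2.1 :=
  (rho_cont α K).comp (f := fun a : V d × ℂ × ℂ => (a.1, a.2.1)) (by fun_prop)

theorem Reg_meas {d : ℕ} (α : ℂ) (K : ℝ) : MeasurableSet (Reg (d := d) α K) := by
  have h1 : MeasurableSet {a : V d × ℂ × ℂ | ∀ i, ‖a.1 i‖ ≤ K} := by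
    rw [Set.ofPred_forall]
    exact MeasurableSet.iInter fun i => (isClosed_le (by fun_prop) continuous_const).measurableSet
  have h2 : MeasurableSet {a : V d × ℂ × ℂ | ‖a.2.1‖ ≤ K} :=
    (isClosed_le (by fun_prop) continuous_const).measurableSet
  have h3 : MeasurableSet {a : V d × ℂ × ℂ | rho α K a.1 a.2.1 < ‖a.2.2‖} :=
    (isOpen_lt (eb_rho α K) (by fun_prop)).measurableSet
  have h4 : MeasurableSet {a : V d × ℂ × ℂ | ‖a.2.2‖ ≤ K} :=
    (isClosed_le (by fun_prop) continuous_const).measurableSet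
  exact h1.inter (h2.inter (h3.inter h4))

theorem Th_meas {d : ℕ} (α : ℂ) (K δ : ℝ) (k : Fin d) : Measurable (Th α K δ k) := by
  unfold Th
  have h1 : Measurable fun a : V d × ℂ × ℂ => ‖a.2.2‖ := by fun_prop
  have h2 : Measurable fun a : V d × ℂ × ℂ => ‖a.1 (Fin.last d)‖ :=
    Continuous.measurable (by fun_prop)
  have h3 := tau_meas (d := d) α K k
  have h4 : Measurable fun a : V d × ℂ × ℂ => rho α K a.1 a.2.1 := (eb_rho α K).measurable
  refine (h1.inv.pow_const 2).mul (measurable_const.min (Measurable.div ?_ ?_))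
  · exact ((measurable_const.add (Real.measurable_log.comp (measurable_const.div h3))).add
      (Real.measurable_log.comp (measurable_const.div h4)))
  · exact measurable_const.add (measurable_const.max (Real.measurable_log.comp
      ((measurable_const.mul (h2.pow_const _)).div_const _)))

theorem TT2_meas {d : ℕ} (α : ℂ) (K δ : ℝ) : MeasurableSet (TT2 (d := d) α K δ) := by
  have h1 : MeasurableSet {a : V d × V d | ∀ i, ‖a.1 i‖ ≤ K} := by
    rw [Set.ofPred_forall]
    exact MeasurableSet.iInter fun i => (isClosed_le (by fun_prop) continuous_const).measurableSet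
  have h2 : MeasurableSet {a : V d × V d | ∀ i, ‖a.2 i‖ ≤ K} := by
    rw [Set.ofPred_forall]
    exact MeasurableSet.iInter fun i => (isClosed_le (by fun_prop) continuous_const).measurableSet
  have h3 : MeasurableSet {a : V d × V d |
      ‖a.1 (Fin.last d)‖ ^ (2 * d) * ∏ j : Fin d, ‖a.2 j.castSucc‖ ≤ δ} :=
    (isClosed_le (by fun_prop) continuous_const).measurableSet
  have hr : Continuous fun a : V d × V d => rho α K a.1 (a.2 (Fin.last d)) :=
    (rho_cont α K).comp (f := fun a : V d × V d => (a.1, a.2 (Fin.last d))) (by fun_prop)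
  have h4 : MeasurableSet {a : V d × V d | ∃ k : Fin d, a.2 k.castSucc = 0} := by
    rw [Set.ofPred_exists]
    exact MeasurableSet.iUnion fun k => (isClosed_eq (by fun_prop) continuous_const).measurableSet
  have h5 : MeasurableSet {a : V d × V d | ∃ k : Fin d,
      rho α K a.1 (a.2 (Fin.last d)) < ‖a.2 k.castSucc‖ ∧
        ∃ j : Fin d, j ≠ k ∧
          tau α K k a.1 (a.2 (Fin.last d)) (a.2 k.castSucc) ≤ ‖a.2 j.castSucc‖} := by
    rw [Set.ofPred_exists]
    refine MeasurableSet.iUnion fun k => ?_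
    have h6 : MeasurableSet {a : V d × V d |
        rho α K a.1 (a.2 (Fin.last d)) < ‖a.2 k.castSucc‖} :=
      (isOpen_lt hr (by fun_prop)).measurableSet
    have h7 : MeasurableSet {a : V d × V d | ∃ j : Fin d, j ≠ k ∧
          tau α K k a.1 (a.2 (Fin.last d)) (a.2 k.castSucc) ≤ ‖a.2 j.castSucc‖} := by
      rw [Set.ofPred_exists]
      refine MeasurableSet.iUnion fun j => ?_
      have h8 : MeasurableSet {a : V d × V d |
          tau α K k a.1 (a.2 (Fin.last d)) (a.2 k.castSucc) ≤ ‖a.2 j.castSucc‖} := by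
        have h9 : Measurable fun a : V d × V d =>
            tau α K k a.1 (a.2 (Fin.last d)) (a.2 k.castSucc) :=
          (tau_meas α K k).comp (f := fun a : V d × V d =>
            (a.1, a.2 (Fin.last d), a.2 k.castSucc)) (Continuous.measurable (by fun_prop))
        exact measurableSet_le h9 (Continuous.measurable (by fun_prop))
      by_cases hjk : j = k
      · have : {a : V d × V d | j ≠ k ∧
          tau α K k a.1 (a.2 (Fin.last d)) (a.2 k.castSucc) ≤ ‖a.2 j.castSucc‖} = ∅ := by
          ext a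
          constructor
          · rintro ⟨h, -⟩
            exact absurd hjk h
          · intro h
            exact h.elim
        rw [this]
        exact MeasurableSet.empty
      · have : {a : V d × V d | j ≠ k ∧
          tau α K k a.1 (a.2 (Fin.last d)) (a.2 k.castSucc) ≤ ‖a.2 j.castSucc‖} =
          {a : V d × V d |
          tau α K k a.1 (a.2 (Fin.last d)) (a.2 k.castSucc) ≤ ‖a.2 j.castSucc‖} := by
          ext a
          constructor
          · rintro ⟨-, h⟩
            exact h
          · intro h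
            exact ⟨hjk, h⟩
        rw [this]
        exact h8
    exact h6.inter h7
  exact h1.inter (h2.inter (h3.inter (h4.union h5)))

/-- the bound is integrable -/
private theorem eb_fin {d : ℕ} {α : ℂ} (hα : ‖α‖ = 1) {K : ℝ} (hK : 1 ≤ K) :
    ∫⁻ a in Reg (d := d) α K, ENNReal.ofReal ((‖a.2.2‖⁻¹) ^ 2) ≠ ⊤ := by
  obtain ⟨C, hC, hint⟩ := log_rho_int (d := d) hα hK
  obtain ⟨B, hB⟩ : ∃ B : Set (V d), B = {x : V d | ∀ i, ‖x i‖ ≤ K} := ⟨_, rfl⟩
  rw [← hB] at hint
  have hBm : MeasurableSet B := by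
    rw [hB, Set.ofPred_forall]
    exact MeasurableSet.iInter fun i => (isClosed_le (by fun_prop) continuous_const).measurableSet
  obtain ⟨C1, hC1⟩ : ∃ C1 : ℝ, C1 = 2 * Real.pi * (1 + Real.log K) := ⟨_, rfl⟩
  have hlK : 0 ≤ Real.log K := Real.log_nonneg hK
  have hC1p : 0 < C1 := by
    rw [hC1]
    positivity
  have hbm : Measurable fun a : V d × ℂ × ℂ => ENNReal.ofReal ((‖a.2.2‖⁻¹) ^ 2) :=
    ENNReal.measurable_ofReal.comp (by fun_prop)
  have hgm : Measurable ((Reg (d := d) α K).indicator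
      (fun a : V d × ℂ × ℂ => ENNReal.ofReal ((‖a.2.2‖⁻¹) ^ 2))) :=
    hbm.indicator (Reg_meas α K)
  rw [← lintegral_indicator (Reg_meas α K), Measure.volume_eq_prod,
    lintegral_prod _ hgm.aemeasurable]
  have key : ∀ᵐ x : V d, ∫⁻ p : ℂ × ℂ, (Reg (d := d) α K).indicator
      (fun a : V d × ℂ × ℂ => ENNReal.ofReal ((‖a.2.2‖⁻¹) ^ 2)) (x, p) ≤
      B.indicator (fun x => ENNReal.ofReal C1 * ∫⁻ c in closedBall (0 : ℂ) K,
        ENNReal.ofReal (1 + Real.log (1 / rho α K x c))) x := by
    filter_upwards [rho_pos_ae (d := d) α hK] with x hx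
    by_cases hxB : x ∈ B
    · rw [indicator_of_mem hxB]
      have hgx : Measurable fun p : ℂ × ℂ => (Reg (d := d) α K).indicator
          (fun a : V d × ℂ × ℂ => ENNReal.ofReal ((‖a.2.2‖⁻¹) ^ 2)) (x, p) :=
        hgm.comp measurable_prodMk_left
      rw [Measure.volume_eq_prod, lintegral_prod _ hgx.aemeasurable,
        ← lintegral_const_mul' _ _ ENNReal.ofReal_ne_top, ← lintegral_indicator
        isClosed_closedBall.measurableSet]
      apply lintegral_mono_ae
      filter_upwards [hx] with c hc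
      by_cases hcb : c ∈ closedBall (0 : ℂ) K
      · rw [indicator_of_mem hcb]
        have h1 : ∫⁻ w : ℂ, (Reg (d := d) α K).indicator
            (fun a : V d × ℂ × ℂ => ENNReal.ofReal ((‖a.2.2‖⁻¹) ^ 2)) (x, c, w) ≤
            ∫⁻ w in {w : ℂ | rho α K x c < ‖w‖ ∧ ‖w‖ ≤ K}, ENNReal.ofReal ((‖w‖⁻¹) ^ 2) := by
          have hms : MeasurableSet {w : ℂ | rho α K x c < ‖w‖ ∧ ‖w‖ ≤ K} :=
            (measurableSet_lt measurable_const measurable_norm).inter
              (measurableSet_le measurable_norm measurable_const)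
          rw [← lintegral_indicator hms]
          apply lintegral_mono
          intro w
          by_cases hw : ((x, c, w) : V d × ℂ × ℂ) ∈ Reg (d := d) α K
          · have hw2 : w ∈ {w : ℂ | rho α K x c < ‖w‖ ∧ ‖w‖ ≤ K} := ⟨hw.2.2.1, hw.2.2.2⟩
            show (Reg (d := d) α K).indicator _ _ ≤ _
            rw [indicator_of_mem hw, indicator_of_mem hw2]
          · show (Reg (d := d) α K).indicator _ _ ≤ _
            rw [indicator_of_notMem hw]
            exact bot_le
        refine h1.trans ?_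
        rw [annulus hc ((rho_le_one α hK x c).trans hK), ← ENNReal.ofReal_mul hC1p.le]
        apply ENNReal.ofReal_le_ofReal
        have h2 : Real.log (K / rho α K x c) = Real.log K + Real.log (1 / rho α K x c) := by
          rw [Real.log_div (by linarith) hc.ne', Real.log_div one_ne_zero hc.ne', Real.log_one]
          ring
        have h3 : 0 ≤ Real.log (1 / rho α K x c) := by
          apply Real.log_nonneg
          rw [one_le_div hc]
          exact rho_le_one α hK x c
        rw [h2, hC1]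
        have h4 : Real.log K + Real.log (1 / rho α K x c) ≤
            (1 + Real.log K) * (1 + Real.log (1 / rho α K x c)) := by nlinarith
        calc 2 * Real.pi * (Real.log K + Real.log (1 / rho α K x c)) ≤
            2 * Real.pi * ((1 + Real.log K) * (1 + Real.log (1 / rho α K x c))) :=
              mul_le_mul_of_nonneg_left h4 (by positivity)
          _ = _ := by ring
      · rw [indicator_of_notMem hcb]
        have h1 : ∀ w : ℂ, (Reg (d := d) α K).indicator
            (fun a : V d × ℂ × ℂ => ENNReal.ofReal ((‖a.2.2‖⁻¹) ^ 2)) (x, c, w) = 0 := by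
          intro w
          rw [indicator_of_notMem]
          intro hw
          apply hcb
          rw [mem_closedBall_zero_iff]
          exact hw.2.1
        simp only [h1]
        rw [lintegral_zero]
    · rw [indicator_of_notMem hxB]
      have h1 : ∀ p : ℂ × ℂ, (Reg (d := d) α K).indicator
          (fun a : V d × ℂ × ℂ => ENNReal.ofReal ((‖a.2.2‖⁻¹) ^ 2)) (x, p) = 0 := by
        intro p
        rw [indicator_of_notMem]
        intro hw
        apply hxB
        rw [hB]
        exact hw.1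
      simp only [h1]
      rw [lintegral_zero]
  have h5 : ∫⁻ x : V d, ∫⁻ p : ℂ × ℂ, (Reg (d := d) α K).indicator
      (fun a : V d × ℂ × ℂ => ENNReal.ofReal ((‖a.2.2‖⁻¹) ^ 2)) (x, p) ≤
      ENNReal.ofReal C1 * ENNReal.ofReal C := by
    refine (lintegral_mono_ae key).trans ?_
    rw [lintegral_indicator hBm, lintegral_const_mul' _ _ ENNReal.ofReal_ne_top]
    gcongr
  exact ne_top_of_le_ne_top (ENNReal.mul_ne_top ENNReal.ofReal_ne_top ENNReal.ofReal_ne_top) h5

/-
The integral over Reg of |w|^(-2) is the integral over x, c of 2π log (K/rho) (annulus; rho > 0 almost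
everywhere, rho_pos_ae, rho_le_one), at most 2 π (1 + log K) times the integral in log_rho_int: finite.
For almost every a (q = a.1 (last d) <> 0) Th α K δ k a -> 0 as δ -> 0+: the denominator tends to
infinity (K |q|^(2d)/δ -> infinity), the numerator does not depend on δ, and 0 <= Th (tau, rho <= 1, so
the logarithms are >= 0; note Real.log (1/0) = 0). Th <= |w|^(-2).
tendsto_lintegral_filter_of_dominated_convergence (Filter 𝓝[>] 0 is countably generated).
-/
theorem est2b {d : ℕ} {α : ℂ} (hα : ‖α‖ = 1) {K : ℝ} (hK : 1 ≤ K) (k : Fin d) :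
    Tendsto (fun δ : ℝ => ∫⁻ a in Reg α K, ENNReal.ofReal (Th α K δ k a)) (𝓝[>] 0) (𝓝 0) := by
  have h0 : ∫⁻ a in Reg (d := d) α K, (0 : ENNReal) = 0 := lintegral_zero
  rw [← h0]
  refine tendsto_lintegral_filter_of_dominated_convergence
    (fun a : V d × ℂ × ℂ => ENNReal.ofReal ((‖a.2.2‖⁻¹) ^ 2)) ?_ ?_ (eb_fin hα hK) ?_
  · filter_upwards with δ
    exact ENNReal.measurable_ofReal.comp (Th_meas α K δ k)
  · filter_upwards with δ
    filter_upwards with a
    apply ENNReal.ofReal_le_ofReal
    unfold Th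
    calc (‖a.2.2‖⁻¹) ^ 2 * min 1 _ ≤ (‖a.2.2‖⁻¹) ^ 2 * 1 :=
          mul_le_mul_of_nonneg_left (min_le_left _ _) (by positivity)
      _ = _ := mul_one _
  · have hq : ∀ᵐ a : V d × ℂ × ℂ, a.1 (Fin.last d) ≠ 0 := by
      have h1 : ∀ᵐ x : V d, x (Fin.last d) ≠ 0 := by
        have h2 := Measure.ae_eval_ne (μ := fun _ : Fin (d + 1) => (volume : Measure ℂ))
          (Fin.last d) 0
        exact h2
      rw [Measure.volume_eq_prod]
      exact Measure.quasiMeasurePreserving_fst.ae h1
    filter_upwards [ae_restrict_of_ae hq] with a ha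
    have hK0 : 0 < K := by linarith
    have hc : 0 < K * ‖a.1 (Fin.last d)‖ ^ (2 * d) := by
      have := norm_pos_iff.2 ha
      positivity
    obtain ⟨c, hcd⟩ : ∃ c, c = K * ‖a.1 (Fin.last d)‖ ^ (2 * d) := ⟨_, rfl⟩
    obtain ⟨A, hA⟩ : ∃ A, A = 1 + Real.log (1 / tau α K k a.1 a.2.1 a.2.2) +
      Real.log (1 / rho α K a.1 a.2.1) := ⟨_, rfl⟩
    rw [← hcd] at hc
    have e1 : Tendsto (fun δ : ℝ => c / δ) (𝓝[>] 0) atTop := by
      have := tendsto_inv_nhdsGT_zero (𝕜 := ℝ)
      exact this.const_mul_atTop hc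
    have e2 : Tendsto (fun δ : ℝ => 1 + max 0 (Real.log (c / δ))) (𝓝[>] 0) atTop := by
      have e3 := Real.tendsto_log_atTop.comp e1
      refine tendsto_atTop_mono (fun δ => ?_) e3
      show Real.log (c / δ) ≤ 1 + max 0 (Real.log (c / δ))
      have := le_max_right 0 (Real.log (c / δ))
      linarith
    have e4 : Tendsto (fun δ : ℝ => A / (1 + max 0 (Real.log (c / δ)))) (𝓝[>] 0) (𝓝 0) :=
      e2.const_div_atTop A
    have e5 : Tendsto (fun δ : ℝ => (‖a.2.2‖⁻¹) ^ 2 * min 1
        (A / (1 + max 0 (Real.log (c / δ))))) (𝓝[>] 0) (𝓝 ((‖a.2.2‖⁻¹) ^ 2 * min 1 0)) :=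
      (tendsto_const_nhds.min e4).const_mul _
    rw [min_eq_right zero_le_one, mul_zero] at e5
    have e6 := (ENNReal.continuous_ofReal.tendsto 0).comp e5
    rw [ENNReal.ofReal_zero] at e6
    rw [hA, hcd] at e6
    exact e6

end Pool.Agent.H84.SR
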