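import Pool.Agent.H84.SR.ResFr

/-!
# Choice of the frame, and the symmetry `z → 1 / z`
-/

set_option autoImplicit false

open MeasureTheory Metric Set Polynomial

namespace Pool.Agent.H84.SR

open Pool.Agent.H44.Fatou Pool.Agent.H32.BT

private theorem frames_geom {ω : ℂ} {N : ℕ} (h : ω ^ N = 1) (h1 : ω ≠ 1) :
    ∑ j ∈ Finset.range N, ω ^ j = 0 := by
  have h2 := geom_sum_mul ω N
  rw [h, sub_self] at h2
  exact (mul_eq_zero.1 h2).resolve_right (sub_ne_zero.2 h1)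

private theorem frames_inv {d : ℕ} {ζ : ℂ} (hζ : IsPrimitiveRoot ζ (d + 1)) (v : V d)
    (i : Fin (d + 1)) :
    ∑ j ∈ Finset.range (d + 1), (pol v).eval (ζ ^ j) * (ζ ^ j) ^ (d + 1 - (i : ℕ)) =
      (d + 1 : ℂ) * v i := by
  have hi := i.2
  have h1 : ∀ j ∈ Finset.range (d + 1),
      (pol v).eval (ζ ^ j) * (ζ ^ j) ^ (d + 1 - (i : ℕ)) =
      ∑ k : Fin (d + 1), v k * (ζ ^ ((k : ℕ) + (d + 1 - (i : ℕ)))) ^ j := by
    intro j _
    rw [pol_eval, Finset.sum_mul]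
    apply Finset.sum_congr rfl
    intro k _
    rw [mul_assoc, ← pow_add, ← pow_mul, ← pow_mul, mul_comm j]
  rw [Finset.sum_congr rfl h1, Finset.sum_comm, Finset.sum_eq_single i]
  · rw [← Finset.mul_sum]
    have h2 : (i : ℕ) + (d + 1 - (i : ℕ)) = d + 1 := by omega
    rw [h2, hζ.pow_eq_one]
    simp
    ring
  · intro k _ hk
    rw [← Finset.mul_sum, frames_geom, mul_zero]
    · rw [← pow_mul, mul_comm, pow_mul, hζ.pow_eq_one, one_pow]
    · intro h3
      have h4 := (hζ.pow_eq_one_iff_dvd _).1 h3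
      have hk2 := k.2
      apply hk
      ext
      obtain ⟨c, hc⟩ := h4
      have hc1 : c = 1 := by
        rcases Nat.lt_or_ge c 1 with h5 | h5
        · interval_cases c
          omega
        · rcases Nat.lt_or_ge c 2 with h6 | h6
          · omega
          · exfalso
            have : (d + 1) * 2 ≤ (d + 1) * c := Nat.mul_le_mul_left _ h6
            omega
      rw [hc1] at hc
      omega
  · intro h
    exact absurd (Finset.mem_univ i) h

/-
s = the (d+1)-th roots of unity. v i = (1/(d+1)) sum over α in s of (pol v)(α) α^(-i) (orthogonality: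
the sum over α of α^(j - i) is 0 for 0 <= i, j <= d, i <> j; pol_eval), so |v i| <= max |(pol v)(α)|.
-/
theorem exists_frames (d : ℕ) : ∃ s : Finset ℂ, (∀ α ∈ s, ‖α‖ = 1) ∧
    ∀ v : V d, ∃ α ∈ s, ‖v‖ ≤ ‖(pol v).eval α‖ := by
  obtain ⟨ζ, hζ⟩ : ∃ ζ : ℂ, IsPrimitiveRoot ζ (d + 1) :=
    ⟨_, Complex.isPrimitiveRoot_exp (d + 1) (Nat.succ_ne_zero d)⟩
  have hn : ‖ζ‖ = 1 := hζ.norm'_eq_one (Nat.succ_ne_zero d)
  have hnj : ∀ j : ℕ, ‖ζ ^ j‖ = 1 := fun j => by rw [norm_pow, hn, one_pow]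
  refine ⟨(Finset.range (d + 1)).image (fun j => ζ ^ j), ?_, ?_⟩
  · intro α hα
    rw [Finset.mem_image] at hα
    obtain ⟨j, _, rfl⟩ := hα
    exact hnj j
  · intro v
    obtain ⟨j0, hj0, hmax⟩ := Finset.exists_max_image (Finset.range (d + 1))
      (fun j => ‖(pol v).eval (ζ ^ j)‖) ⟨0, Finset.mem_range.2 (Nat.succ_pos d)⟩
    refine ⟨ζ ^ j0, Finset.mem_image_of_mem _ hj0, ?_⟩
    rw [pi_norm_le_iff_of_nonneg (norm_nonneg _)]
    intro i
    have h1 := frames_inv hζ v i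
    have h2 : ‖((d : ℂ) + 1) * v i‖ ≤ ((d : ℝ) + 1) * ‖(pol v).eval (ζ ^ j0)‖ := by
      rw [← h1]
      refine (norm_sum_le _ _).trans ?_
      have h3 : ∀ j ∈ Finset.range (d + 1),
          ‖(pol v).eval (ζ ^ j) * (ζ ^ j) ^ (d + 1 - (i : ℕ))‖ ≤ ‖(pol v).eval (ζ ^ j0)‖ := by
        intro j hj
        rw [norm_mul, norm_pow, hnj, one_pow, mul_one]
        exact hmax j hj
      refine (Finset.sum_le_sum h3).trans (le_of_eq ?_)
      rw [Finset.sum_const, Finset.card_range, nsmul_eq_mul]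
      push_cast
      ring
    rw [norm_mul] at h2
    have h4 : ‖(d : ℂ) + 1‖ = (d : ℝ) + 1 := by
      have : (d : ℂ) + 1 = ((d + 1 : ℕ) : ℂ) := by push_cast; rfl
      rw [this, Complex.norm_natCast]
      push_cast
      rfl
    rw [h4] at h2
    have h5 : (0 : ℝ) < (d : ℝ) + 1 := by positivity
    exact le_of_mul_le_mul_left h2 h5

/-- coefficients in the opposite order -/
def rv (d : ℕ) (v : V d) : V d := fun i => v (Fin.rev i)

theorem pol_rv {d : ℕ} (v : V d) : pol (rv d v) = reflect d (pol v) := by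
  ext i
  rw [pol_coeff, coeff_reflect]
  by_cases h : i < d + 1
  · rw [dif_pos h, revAt_le (by omega), pol_coeff, dif_pos (by omega)]
    unfold rv
    congr 1
    ext
    rw [Fin.val_rev]
    simp
  · rw [dif_neg h, revAt_eq_self_of_lt (by omega), pol_coeff, dif_neg h]

/-- the pair of `1 / f (1 / z)` -/
def inv2 (d : ℕ) (v : E d) : E d := (rv d v.2, rv d v.1)

/-
|reflect d P (1/α)| = |α|^(-d) |P(α)| (eval_reflect in H44/Fatou/Basic)
-/
theorem rv_eval {d : ℕ} (v : V d) {α : ℂ} (hα : ‖α‖ = 1) :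
    ‖(pol (rv d v)).eval α⁻¹‖ = ‖(pol v).eval α‖ := by
  have h0 : α ≠ 0 := by
    intro h
    rw [h, norm_zero] at hα
    exact zero_ne_one hα
  rw [pol_rv, eval_reflect (pol_natDegree v) h0, norm_mul, norm_pow, hα, one_pow, mul_one]

private theorem frames_rv_norm {d : ℕ} (v : V d) : ‖rv d v‖ = ‖v‖ := by
  apply le_antisymm
  · rw [pi_norm_le_iff_of_nonneg (norm_nonneg _)]
    intro i
    exact norm_le_pi_norm v (Fin.rev i)
  · rw [pi_norm_le_iff_of_nonneg (norm_nonneg _)]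
    intro i
    have h := norm_le_pi_norm (rv d v) (Fin.rev i)
    unfold rv at h
    rw [Fin.rev_rev] at h
    exact h

theorem inv2_norm {d : ℕ} (v : E d) : ‖inv2 d v‖ = ‖v‖ := by
  unfold inv2
  rw [Prod.norm_def, Prod.norm_def, frames_rv_norm, frames_rv_norm, max_comm]

/-
rs_reflect and resultant_comm.
-/
theorem inv2_rs {d : ℕ} (v : E d) : rs (inv2 d v) = rs v := by
  unfold rs inv2
  simp only
  rw [pol_rv, pol_rv, rs_reflect (pol_natDegree _) (pol_natDegree _), resultant_comm, norm_mul,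
    norm_pow, norm_neg, norm_one, one_pow, one_mul]

/-
Conjugation by 1/z: cj1 0 d A B = reflect d B, cj2 0 d A B = reflect d A (comp (X + C 0) = id).
exists_mob 0 and hypMap_conj give HypDeg d A B -> HypDeg d (reflect d B) (reflect d A); cj_back gives
the converse for coprimality and degree (and reflect d is an involution on degree <= d).
-/
theorem inv2_hyp {d : ℕ} (hd : 1 ≤ d) (v : E d) :
    HypDeg d (pol (inv2 d v).1) (pol (inv2 d v).2) ↔ HypDeg d (pol v.1) (pol v.2) := by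
  have e1 : pol (inv2 d v).1 = cj1 0 d (pol v.1) (pol v.2) := by
    unfold inv2 cj1
    simp only
    rw [pol_rv, C_0, add_zero, comp_X]
  have e2 : pol (inv2 d v).2 = cj2 0 d (pol v.1) (pol v.2) := by
    unfold inv2 cj2
    simp only
    rw [pol_rv, C_0, add_zero, comp_X, zero_mul, sub_zero]
  rw [e1, e2]
  obtain ⟨φ, -, -, -, hφ⟩ := exists_mob 0
  constructor
  · rintro ⟨h1, h2, h3⟩
    obtain ⟨h4, h5⟩ := cj_back 0 (pol_natDegree v.1) (pol_natDegree v.2) h1 h2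
    obtain ⟨-, -, h6⟩ := hφ d _ _ h4 h5 hd
    exact ⟨h4, h5, (hypMap_conj φ h6).1 h3⟩
  · rintro ⟨h1, h2, h3⟩
    obtain ⟨h4, h5, h6⟩ := hφ d _ _ h1 h2 hd
    exact ⟨h4, h5, (hypMap_conj φ h6).2 h3⟩

private theorem frames_rv_mp (d : ℕ) : MeasurePreserving (rv d) volume volume := by
  have h := volume_measurePreserving_piCongrLeft (fun _ : Fin (d + 1) => ℂ)
    (Fin.revPerm (n := d + 1))
  have e : (MeasurableEquiv.piCongrLeft (fun _ : Fin (d + 1) => ℂ) (Fin.revPerm (n := d + 1)) :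
      V d → V d) = rv d := by
    funext v i
    obtain ⟨j, rfl⟩ := (Fin.revPerm (n := d + 1)).surjective i
    rw [MeasurableEquiv.coe_piCongrLeft, Equiv.piCongrLeft_apply_apply]
    unfold rv
    rw [Fin.revPerm_apply, Fin.rev_rev]
  rw [← e]
  exact h

/-
Permutation of coordinates and swap: volume_measurePreserving_piCongrLeft (Fin.revPerm),
Measure.measurePreserving_swap, MeasurePreserving.prod.
-/
theorem inv2_mp (d : ℕ) : MeasurePreserving (inv2 d) volume volume := by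
  have h1 : MeasurePreserving (Prod.map (rv d) (rv d)) (volume.prod volume) (volume.prod volume) :=
    (frames_rv_mp d).prod (frames_rv_mp d)
  exact h1.comp Measure.measurePreserving_swap

/-
Let v be in the left side. ‖v‖ = max ‖v.1‖ ‖v.2‖. Take α from exists_frames for the component with the
larger norm. If |A(α)| <= |B(α)| (A = pol v.1, B = pol v.2) then ‖v‖ <= |B(α)| and v ∈ Y d α δ.
Otherwise ‖v‖ <= |A(α)| and inv2 d v ∈ Y d α⁻¹ δ (rv_eval, inv2_norm, inv2_rs, inv2_hyp).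
-/
theorem bad_cover {d : ℕ} (hd : 1 ≤ d) : ∃ s : Finset ℂ, (∀ α ∈ s, ‖α‖ = 1) ∧ ∀ δ : ℝ,
    {v : E d | ‖v‖ ≤ 1 ∧ rs v ≤ δ ∧ ¬ HypDeg d (pol v.1) (pol v.2)} ⊆
      (⋃ α ∈ s, Y d α δ) ∪ ⋃ α ∈ s, inv2 d ⁻¹' (Y d α⁻¹ δ) := by
  obtain ⟨s, hs, hfr⟩ := exists_frames d
  refine ⟨s, hs, ?_⟩
  rintro δ v ⟨h1, h2, h3⟩
  have h4 : ∃ α ∈ s, ‖v‖ ≤ max ‖(pol v.1).eval α‖ ‖(pol v.2).eval α‖ := by
    rw [Prod.norm_def]
    rcases le_total ‖v.1‖ ‖v.2‖ with h | h
    · obtain ⟨α, hα, h5⟩ := hfr v.2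
      refine ⟨α, hα, ?_⟩
      rw [max_eq_right h]
      exact h5.trans (le_max_right _ _)
    · obtain ⟨α, hα, h5⟩ := hfr v.1
      refine ⟨α, hα, ?_⟩
      rw [max_eq_left h]
      exact h5.trans (le_max_left _ _)
  obtain ⟨α, hα, h5⟩ := h4
  rcases le_total ‖(pol v.1).eval α‖ ‖(pol v.2).eval α‖ with h | h
  · left
    rw [max_eq_right h] at h5
    exact mem_iUnion₂.2 ⟨α, hα, h1, h5, h, h2, h3⟩
  · right
    rw [max_eq_left h] at h5
    refine mem_iUnion₂.2 ⟨α, hα, ?_⟩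
    show ‖inv2 d v‖ ≤ 1 ∧ ‖inv2 d v‖ ≤ ‖(pol (inv2 d v).2).eval α⁻¹‖ ∧
      ‖(pol (inv2 d v).1).eval α⁻¹‖ ≤ ‖(pol (inv2 d v).2).eval α⁻¹‖ ∧
      rs (inv2 d v) ≤ δ ∧ ¬ HypDeg d (pol (inv2 d v).1) (pol (inv2 d v).2)
    rw [inv2_norm, inv2_rs, inv2_hyp hd]
    have e1 : ‖(pol (inv2 d v).2).eval α⁻¹‖ = ‖(pol v.1).eval α‖ := rv_eval v.1 (hs α hα)
    have e2 : ‖(pol (inv2 d v).1).eval α⁻¹‖ = ‖(pol v.2).eval α‖ := rv_eval v.2 (hs α hα)
    rw [e1, e2]
    exact ⟨h1, h5, h, h2, h3⟩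

end Pool.Agent.H84.SR
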