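import Pool.Agent.H84.SR.DetRoot

/-!
# Change of variables
-/

set_option autoImplicit false

open Filter Topology Polynomial Metric Set MeasureTheory

namespace Pool.Agent.H84.SR

open Pool.Agent.H44.Fatou Pool.Agent.H32.BT

/-
LinearMap.det_restrictScalars and Algebra.norm_complex_eq (normSq).
-/
theorem det_real {M : Type*} [AddCommGroup M] [Module ℂ M] [Module.Finite ℂ M]
    (f : M →ₗ[ℂ] M) : |LinearMap.det (f.restrictScalars ℝ)| = ‖LinearMap.det f‖ ^ 2 := by
  rw [LinearMap.det_restrictScalars, Algebra.norm_complex_eq]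
  show |Complex.normSq (LinearMap.det f)| = _
  rw [Complex.normSq_eq_norm_sq, abs_of_nonneg (by positivity)]

/-
The fibre: F = {y | (x, y) ∈ T}, measurable. {p | (x, evl x p / q) ∈ T} is the preimage of F under the
ℂ-linear map (1/q) evL x, whose real determinant has absolute value ‖vd x‖^2 / |q|^(2 (d+1)) (det_real,
det_evL, LinearMap.det_smul with finrank ℂ (V d) = d + 1); Measure.addHaar_preimage_linearMap.
-/
theorem fibre {d : ℕ} {x : V d} (hq : x (Fin.last d) ≠ 0) (hx : vd x ≠ 0) (F : Set (V d)) :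
    volume {p : V d | (fun i => evl x p i / x (Fin.last d)) ∈ F} =
      ENNReal.ofReal (‖x (Fin.last d)‖ ^ (2 * (d + 1)) / ‖vd x‖ ^ 2) * volume F := by
  set q := x (Fin.last d) with hqdef
  set g : V d →ₗ[ℂ] V d := q⁻¹ • evL x with hg
  have h1 : {p : V d | (fun i => evl x p i / q) ∈ F} = (g.restrictScalars ℝ) ⁻¹' F := by
    ext p
    have e : (g.restrictScalars ℝ) p = fun i => evl x p i / q := by
      funext i
      show q⁻¹ * evl x p i = evl x p i / q
      rw [div_eq_inv_mul]
    rw [Set.mem_preimage, e]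
    rfl
  have h2 : ‖LinearMap.det g‖ = ‖vd x‖ / ‖q‖ ^ (d + 1) := by
    rw [hg, LinearMap.det_smul, det_evL, norm_mul, norm_pow, norm_inv, Module.finrank_fin_fun,
      inv_pow, div_eq_inv_mul]
  have hq' : ‖q‖ ≠ 0 := norm_ne_zero_iff.2 hq
  have hx' : ‖vd x‖ ≠ 0 := norm_ne_zero_iff.2 hx
  have h3 : |LinearMap.det (g.restrictScalars ℝ)| = (‖vd x‖ / ‖q‖ ^ (d + 1)) ^ 2 := by
    rw [det_real, h2]
  have h4 : LinearMap.det (g.restrictScalars ℝ) ≠ 0 := by
    intro h5
    rw [h5, abs_zero] at h3
    have : (‖vd x‖ / ‖q‖ ^ (d + 1)) ^ 2 ≠ 0 := pow_ne_zero _ (div_ne_zero hx' (pow_ne_zero _ hq'))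
    exact this h3.symm
  rw [h1, Measure.addHaar_preimage_linearMap volume h4, abs_inv, h3]
  congr 2
  rw [div_pow, inv_div, ← pow_mul]
  congr 2
  ring

private theorem evl_cont {d : ℕ} (i : Fin (d + 1)) :
    Continuous (fun a : V d × V d => evl a.1 a.2 i) := by
  unfold evl
  split_ifs with h
  · simp only [pol_eval]
    fun_prop
  · fun_prop

/-
Ψ : V d × V d → E d, Ψ (x, p) = (p, cf d (mk x)), and
T' = {(x, p) | x last <> 0, vd x <> 0, (x, evl x p / x last) ∈ T}, measurable. S ⊆ Ψ '' T': for v ∈ S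
take (x, v.1), evl x v.1 i / q = y i. On T' Ψ has the real derivative swap ∘ (L × id) (det_root), with
absolute value of the determinant |det_ℝ L| = (|q|^d ‖vd x‖)^2 (det_real; a block matrix; e.g.
LinearMap.det_prodMap, and the swap is a linear isometry of determinant ±1; or apply the next step to
Ψ' (x, p) = (cf d (mk x), p) and use that Prod.swap is measure preserving).
addHaar_image_le_lintegral_abs_det_fderiv:
 vol S <= ∫ over T' of |q|^(2d) ‖vd x‖^2 = ∫ dx |q|^(2d) ‖vd x‖^2 vol {p | (x,p) ∈ T'} (lintegral_prod)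
 = ∫ dx over (q <> 0, vd x <> 0) |q|^(2d) ‖vd x‖^2 |q|^(2d+2) / ‖vd x‖^2 vol {y | (x,y) ∈ T} (fibre)
 <= ∫ over T of |q|^(4d+2).
-/
theorem jac {d : ℕ} {T : Set (V d × V d)} (hT : MeasurableSet T) {S : Set (E d)}
    (h : ∀ v ∈ S, ∃ x y : V d, (x, y) ∈ T ∧ x (Fin.last d) ≠ 0 ∧
      (Function.Injective fun j : Fin d => x j.castSucc) ∧ v.2 = cf d (mk x) ∧
      ∀ i, evl x v.1 i = x (Fin.last d) * y i) :
    volume S ≤ ∫⁻ a in T, ENNReal.ofReal (‖a.1 (Fin.last d)‖ ^ (4 * d + 2)) := by
  classical
  set T' : Set (V d × V d) := {a | a.1 (Fin.last d) ≠ 0 ∧ vd a.1 ≠ 0 ∧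
    (a.1, fun i => evl a.1 a.2 i / a.1 (Fin.last d)) ∈ T} with hT'
  have m1 : MeasurableSet {a : V d × V d | a.1 (Fin.last d) ≠ 0} := by
    have : Measurable (fun a : V d × V d => a.1 (Fin.last d)) := by fun_prop
    exact this (measurableSet_singleton 0).compl
  have m2 : MeasurableSet {a : V d × V d | vd a.1 ≠ 0} := by
    have : Measurable (fun a : V d × V d => vd a.1) := (vd_cont.comp continuous_fst).measurable
    exact this (measurableSet_singleton 0).compl
  have m3 : MeasurableSet {a : V d × V d | (a.1, fun i => evl a.1 a.2 i / a.1 (Fin.last d)) ∈ T} := by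
    have : Measurable (fun a : V d × V d => (a.1, fun i => evl a.1 a.2 i / a.1 (Fin.last d))) := by
      refine measurable_fst.prodMk (measurable_pi_lambda _ (fun i => ?_))
      exact (evl_cont i).measurable.div (by fun_prop)
    exact this hT
  have hT'm : MeasurableSet T' := m1.inter (m2.inter m3)
  set Ψ : V d × V d → V d × V d := fun a => (cf d (mk a.1), a.2) with hΨ
  have hder : ∀ a : V d × V d, ∃ L : V d × V d →L[ℝ] V d × V d, a ∈ T' →
      HasFDerivWithinAt Ψ L T' a ∧
      |L.det| = ‖a.1 (Fin.last d)‖ ^ (2 * d) * ‖vd a.1‖ ^ 2 := by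
    intro a
    by_cases ha : a ∈ T'
    · obtain ⟨L, hL, hdet⟩ := det_root ha.2.1
      have hL' : HasFDerivAt (fun y : V d => cf d (mk y)) (L.restrictScalars ℝ) a.1 :=
        hL.restrictScalars ℝ
      have h1 : HasFDerivAt Ψ ((L.restrictScalars ℝ).prodMap (ContinuousLinearMap.id ℝ (V d))) a :=
        HasFDerivAt.prodMap a hL' (hasFDerivAt_id a.2)
      refine ⟨_, fun _ => ⟨h1.hasFDerivWithinAt, ?_⟩⟩
      have h2 : (((L.restrictScalars ℝ).prodMap (ContinuousLinearMap.id ℝ (V d)) :
          V d × V d →L[ℝ] V d × V d) : V d × V d →ₗ[ℝ] V d × V d) =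
          LinearMap.prodMap ((L : V d →ₗ[ℂ] V d).restrictScalars ℝ) LinearMap.id := rfl
      rw [ContinuousLinearMap.det, h2, LinearMap.det_prodMap, LinearMap.det_id, mul_one, det_real,
        hdet, mul_pow, ← pow_mul, mul_comm d 2]
    · exact ⟨0, fun h => absurd h ha⟩
  choose Lf hLf using hder
  have hsub : Prod.swap ⁻¹' S ⊆ Ψ '' T' := by
    rintro ⟨v2, v1⟩ hv
    have hv' : (v1, v2) ∈ S := hv
    obtain ⟨x, y, h1, h2, h3, h4, h5⟩ := h (v1, v2) hv'
    refine ⟨(x, v1), ⟨h2, vd_ne_zero.2 h3, ?_⟩, ?_⟩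
    · have e : (fun i => evl x v1 i / x (Fin.last d)) = y := by
        funext i
        rw [h5 i, mul_div_cancel_left₀ _ h2]
      show (x, fun i => evl x v1 i / x (Fin.last d)) ∈ T
      rw [e]
      exact h1
    · show (cf d (mk x), v1) = (v2, v1)
      rw [← h4]
  have hvol : volume S = volume (Prod.swap ⁻¹' S : Set (V d × V d)) := by
    have h1 : MeasurePreserving (MeasurableEquiv.prodComm : V d × V d ≃ᵐ V d × V d)
        (volume.prod volume) (volume.prod volume) := Measure.measurePreserving_swap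
    exact (h1.measure_preimage_equiv S).symm
  set g : V d → ENNReal := fun x => ENNReal.ofReal (‖x (Fin.last d)‖ ^ (2 * d) * ‖vd x‖ ^ 2)
    with hg
  set G : V d → ENNReal := fun x => ENNReal.ofReal (‖x (Fin.last d)‖ ^ (4 * d + 2)) with hG
  have hgm : Measurable g := by
    have : Continuous (fun x : V d => ‖x (Fin.last d)‖ ^ (2 * d) * ‖vd x‖ ^ 2) := by
      have := vd_cont (d := d)
      fun_prop
    exact this.measurable.ennreal_ofReal
  have hGm : Measurable G := by
    have : Continuous (fun x : V d => ‖x (Fin.last d)‖ ^ (4 * d + 2)) := by fun_prop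
    exact this.measurable.ennreal_ofReal
  have step : ∀ (f : V d → ENNReal) (W : Set (V d × V d)), Measurable f → MeasurableSet W →
      ∫⁻ a in W, f a.1 = ∫⁻ x : V d, f x * volume {p : V d | (x, p) ∈ W} := by
    intro f W hf hW
    rw [← lintegral_indicator hW]
    have h1 : Measurable (W.indicator (fun a : V d × V d => f a.1)) :=
      (hf.comp measurable_fst).indicator hW
    rw [Measure.volume_eq_prod, lintegral_prod _ h1.aemeasurable]
    apply lintegral_congr
    intro x
    have h2 : (fun p : V d => W.indicator (fun a : V d × V d => f a.1) (x, p)) =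
        ({p : V d | (x, p) ∈ W}).indicator (fun _ => f x) := by
      funext p
      by_cases hp : (x, p) ∈ W
      · rw [Set.indicator_of_mem hp, Set.indicator_of_mem (by exact hp)]
      · rw [Set.indicator_of_notMem hp, Set.indicator_of_notMem (by exact hp)]
    rw [h2]
    exact lintegral_indicator_const (measurable_prodMk_left hW) (f x)
  have hHaar : (volume : Measure (V d × V d)).IsAddHaarMeasure := by
    rw [Measure.volume_eq_prod]
    exact Measure.prod.instIsAddHaarMeasure _ _
  calc volume S = volume (Prod.swap ⁻¹' S : Set (V d × V d)) := hvol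
    _ ≤ volume (Ψ '' T') := measure_mono hsub
    _ ≤ ∫⁻ a in T', ENNReal.ofReal |(Lf a).det| :=
        addHaar_image_le_lintegral_abs_det_fderiv volume hT'm (fun a ha => (hLf a ha).1)
    _ = ∫⁻ a in T', g a.1 := by
        apply setLIntegral_congr_fun hT'm
        intro a ha
        show ENNReal.ofReal |(Lf a).det| = g a.1
        rw [(hLf a ha).2]
    _ = ∫⁻ x : V d, g x * volume {p : V d | (x, p) ∈ T'} := step g T' hgm hT'm
    _ ≤ ∫⁻ x : V d, G x * volume {y : V d | (x, y) ∈ T} := by
        apply lintegral_mono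
        intro x
        by_cases hx : x (Fin.last d) ≠ 0 ∧ vd x ≠ 0
        · have e : {p : V d | (x, p) ∈ T'} =
              {p : V d | (fun i => evl x p i / x (Fin.last d)) ∈ {y : V d | (x, y) ∈ T}} := by
            ext p
            constructor
            · intro hp
              exact hp.2.2
            · intro hp
              exact ⟨hx.1, hx.2, hp⟩
          show g x * volume {p : V d | (x, p) ∈ T'} ≤ G x * volume {y : V d | (x, y) ∈ T}
          rw [e, fibre hx.1 hx.2, ← mul_assoc, hg, hG]
          simp only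
          rw [← ENNReal.ofReal_mul (by positivity)]
          apply le_of_eq
          congr 2
          have h1 : ‖vd x‖ ≠ 0 := norm_ne_zero_iff.2 hx.2
          field_simp
          ring
        · have e : {p : V d | (x, p) ∈ T'} = ∅ := by
            rw [Set.eq_empty_iff_forall_notMem]
            intro p hp
            exact hx ⟨hp.1, hp.2.1⟩
          show g x * volume {p : V d | (x, p) ∈ T'} ≤ G x * volume {y : V d | (x, y) ∈ T}
          rw [e, measure_empty, mul_zero]
          exact bot_le
    _ = ∫⁻ a in T, G a.1 := (step G T hGm hT).symm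

end Pool.Agent.H84.SR
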