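import Pool.Agent.H84.SR.LDefs

/-!
# Areas of the exceptional parameters
-/

set_option autoImplicit false

open MeasureTheory Metric Set Polynomial

namespace Pool.Agent.H84.SR

open Pool.Agent.H44.Fatou Pool.Agent.H32.BT

/-
On |z| <= 1 the function max |A(z)| |B(z)| has a positive minimum 2 β0 (coprime, compactness).
-/
theorem leaf_min {A B : Polynomial ℂ} (hcop : IsCoprime A B) : ∃ β : ℝ, 0 < β ∧ ∀ z : ℂ,
    ‖z‖ ≤ 1 → 2 * β ≤ max ‖A.eval z‖ ‖B.eval z‖ := by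
  have hcont : Continuous fun z : ℂ => max ‖A.eval z‖ ‖B.eval z‖ :=
    (A.continuous.norm).max (B.continuous.norm)
  obtain ⟨z0, _, hz0⟩ := (isCompact_closedBall (0 : ℂ) 1).exists_isMinOn
    ⟨0, mem_closedBall_self zero_le_one⟩ hcont.continuousOn
  have hpos : 0 < max ‖A.eval z0‖ ‖B.eval z0‖ := by
    by_contra hcon
    push Not at hcon
    have hA : A.eval z0 = 0 := norm_le_zero_iff.1 ((le_max_left _ _).trans hcon)
    have hB : B.eval z0 = 0 := norm_le_zero_iff.1 ((le_max_right _ _).trans hcon)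
    obtain ⟨u, v, huv⟩ := hcop
    have h1 := congrArg (Polynomial.eval z0) huv
    rw [eval_add, eval_mul, eval_mul, hA, hB, eval_one] at h1
    simp at h1
  refine ⟨max ‖A.eval z0‖ ‖B.eval z0‖ / 2, by positivity, fun z hz => ?_⟩
  have h1 : z ∈ closedBall (0 : ℂ) 1 := by
    rw [mem_closedBall_zero_iff]
    exact hz
  have h2 := hz0 h1
  have h3 : max ‖A.eval z0‖ ‖B.eval z0‖ ≤ max ‖A.eval z‖ ‖B.eval z‖ := h2
  linarith

private theorem vol_ball_eq (a : ℂ) (r : ℝ) (hr : 0 ≤ r) :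
    volume (ball a r) = ENNReal.ofReal (Real.pi * r ^ 2) := by
  rw [Complex.volume_ball, mul_comm, ENNReal.ofReal_mul Real.pi_pos.le, ENNReal.ofReal_pow hr]
  congr 1
  rw [ENNReal.ofReal_eq_coe_nnreal Real.pi_pos.le]
  rfl

private theorem leaf_area_aux {a b : ℂ} {β s : ℝ} (hβ : 0 < β) (hs : 0 ≤ s)
    (hab : 2 * β ≤ max ‖a‖ ‖b‖) :
    volume {t : ℂ | ‖t‖ ≤ 1 ∧ ‖a + t * b‖ < s} ≤ ENNReal.ofReal (Real.pi * (s / β) ^ 2) := by
  by_cases hb : β ≤ ‖b‖
  · have hb0 : b ≠ 0 := by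
      intro h
      rw [h, norm_zero] at hb
      linarith
    rw [← vol_ball_eq (-(a / b)) (s / β) (by positivity)]
    refine measure_mono ?_
    rintro t ⟨_, ht⟩
    rw [mem_ball, dist_eq_norm, sub_neg_eq_add]
    have h1 : a + t * b = b * (t + a / b) := by
      field_simp
      ring
    rw [h1, norm_mul] at ht
    rw [lt_div_iff₀ hβ]
    have h2 : ‖t + a / b‖ * β ≤ ‖b‖ * ‖t + a / b‖ := by
      rw [mul_comm]
      exact mul_le_mul_of_nonneg_right hb (norm_nonneg _)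
    linarith
  · push Not at hb
    have ha : 2 * β ≤ ‖a‖ := by
      rcases le_max_iff.1 hab with h | h
      · exact h
      · linarith
    by_cases hsβ : β < s
    · have h1 : volume {t : ℂ | ‖t‖ ≤ 1 ∧ ‖a + t * b‖ < s} ≤ volume (closedBall (0 : ℂ) 1) := by
        refine measure_mono ?_
        rintro t ⟨ht, _⟩
        rw [mem_closedBall_zero_iff]
        exact ht
      refine h1.trans ?_
      rw [Complex.volume_closedBall]
      have h2 : ENNReal.ofReal (1 : ℝ) ^ 2 * (NNReal.pi : ENNReal) = ENNReal.ofReal Real.pi := by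
        rw [ENNReal.ofReal_one, one_pow, one_mul, ENNReal.ofReal_eq_coe_nnreal Real.pi_pos.le]
        rfl
      rw [h2]
      refine ENNReal.ofReal_le_ofReal ?_
      have h3 : 1 ≤ s / β := by
        rw [le_div_iff₀ hβ]
        linarith
      have h4 : 1 ≤ (s / β) ^ 2 := one_le_pow₀ h3
      have := Real.pi_pos
      nlinarith
    · have h1 : {t : ℂ | ‖t‖ ≤ 1 ∧ ‖a + t * b‖ < s} = ∅ := by
        rw [eq_empty_iff_forall_notMem]
        rintro t ⟨ht, ht'⟩
        have h2 : ‖a‖ - ‖t * b‖ ≤ ‖a + t * b‖ := by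
          have := norm_sub_norm_le a (-(t * b))
          rw [norm_neg, sub_neg_eq_add] at this
          exact this
        have h3 : ‖t * b‖ ≤ β := by
          rw [norm_mul]
          calc ‖t‖ * ‖b‖ ≤ 1 * β := mul_le_mul ht hb.le (norm_nonneg _) zero_le_one
            _ = β := one_mul _
        linarith
      rw [h1, measure_empty]
      simp

/-
Each v contributes a disc of radius C sqrt k: area π C^2 k. Last condition: if |B(c0)| >= β the t lie
in a disc of radius C sqrt k/|B(c0)|: area <= π C^2 k/β^2. If |B(c0)| < β then |A(c0)| >= 2β and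
|A(c0) + t B(c0)| >= β, so C sqrt k > β and the area is at most π <= π C^2 k/β^2.
-/
theorem leaf_area {A B : Polynomial ℂ} (hcop : IsCoprime A B) (d : ℕ) (C : ℝ) :
    ∃ C' : ℝ, 0 < C' ∧ ∀ c0 : ℂ, ‖c0‖ ≤ 1 → ∀ k : ℝ, 0 ≤ k →
      volume {t : ℂ | ‖t‖ ≤ 1 ∧ ((∃ v ∈ cvs d A B, ‖t + v‖ < C * Real.sqrt k) ∨
        ‖A.eval c0 + t * B.eval c0‖ < C * Real.sqrt k)} ≤ ENNReal.ofReal (C' * k) := by
  obtain ⟨β, hβ, hmin⟩ := leaf_min hcop
  have hpi := Real.pi_pos
  refine ⟨(cvs d A B).card * (Real.pi * C ^ 2) + Real.pi * C ^ 2 / β ^ 2 + 1, by positivity,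
    fun c0 hc0 k hk => ?_⟩
  obtain ⟨s, hs⟩ : ∃ s : ℝ, s = |C| * Real.sqrt k := ⟨_, rfl⟩
  have hs0 : 0 ≤ s := by rw [hs]; positivity
  have hs2 : s ^ 2 = C ^ 2 * k := by
    rw [hs, mul_pow, sq_abs, Real.sq_sqrt hk]
  have hCs : C * Real.sqrt k ≤ s := by
    rw [hs]
    exact mul_le_mul_of_nonneg_right (le_abs_self C) (Real.sqrt_nonneg k)
  have hsub : {t : ℂ | ‖t‖ ≤ 1 ∧ ((∃ v ∈ cvs d A B, ‖t + v‖ < C * Real.sqrt k) ∨
        ‖A.eval c0 + t * B.eval c0‖ < C * Real.sqrt k)} ⊆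
      (⋃ v ∈ cvs d A B, ball (-v) s) ∪
        {t : ℂ | ‖t‖ ≤ 1 ∧ ‖A.eval c0 + t * B.eval c0‖ < s} := by
    rintro t ⟨ht, ⟨v, hv, hv2⟩ | h2⟩
    · left
      rw [mem_iUnion₂]
      refine ⟨v, hv, ?_⟩
      rw [mem_ball, dist_eq_norm, sub_neg_eq_add]
      linarith
    · right
      exact ⟨ht, by linarith⟩
  refine (measure_mono hsub).trans ((measure_union_le _ _).trans ?_)
  have h1 : volume (⋃ v ∈ cvs d A B, ball (-v) s) ≤
      ENNReal.ofReal ((cvs d A B).card * (Real.pi * C ^ 2) * k) := by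
    refine (measure_biUnion_finset_le _ _).trans ?_
    have h2 : ∀ v ∈ cvs d A B, volume (ball (-v) s) ≤ ENNReal.ofReal (Real.pi * C ^ 2 * k) := by
      intro v _
      rw [vol_ball_eq _ _ hs0, hs2]
      exact le_of_eq (by rw [mul_assoc])
    refine (Finset.sum_le_sum h2).trans ?_
    rw [Finset.sum_const, nsmul_eq_mul, ← ENNReal.ofReal_natCast, ← ENNReal.ofReal_mul
      (Nat.cast_nonneg _)]
    exact le_of_eq (by rw [← mul_assoc])
  have h2 := leaf_area_aux hβ hs0 (hmin c0 hc0)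
  refine (add_le_add h1 h2).trans ?_
  rw [← ENNReal.ofReal_add (by positivity) (by positivity)]
  refine ENNReal.ofReal_le_ofReal ?_
  have h3 : Real.pi * (s / β) ^ 2 = Real.pi * C ^ 2 / β ^ 2 * k := by
    rw [div_pow, hs2]
    ring
  rw [h3]
  nlinarith

end Pool.Agent.H84.SR
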