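import Pool.Agent.H84.SR.LDefs
import Pool.Agent.H44.Fatou.Coset

/-!
# A criterion for the hyperbolicity of `m ∘ (A / B)`
-/

set_option autoImplicit false

open MeasureTheory Metric Set Polynomial OnePoint

namespace Pool.Agent.H84.SR

open Pool.Agent.H44.Fatou Pool.Agent.H32.BT

theorem leaf_bdd (P : Polynomial ℂ) : ∃ β : ℝ, 0 ≤ β ∧ ∀ z : ℂ, ‖z‖ ≤ 2 → ‖P.eval z‖ ≤ β := by
  have hc : IsCompact (closedBall (0 : ℂ) 2) := isCompact_closedBall _ _
  obtain ⟨M, hM⟩ := hc.exists_bound_of_continuousOn (f := fun z => P.eval z)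
    P.continuous.continuousOn
  refine ⟨max M 0, le_max_right _ _, fun z hz => (hM z ?_).trans (le_max_left _ _)⟩
  rw [mem_closedBall, dist_zero_right]
  exact hz

theorem leaf_lip (P : Polynomial ℂ) : ∃ L : ℝ, 0 ≤ L ∧ ∀ z w : ℂ, ‖z‖ ≤ 2 → ‖w‖ ≤ 2 →
    ‖P.eval z - P.eval w‖ ≤ L * ‖z - w‖ := by
  obtain ⟨L, hL, h⟩ := leaf_bdd (derivative P)
  refine ⟨L, hL, fun z w hz hw => ?_⟩
  have hs : Convex ℝ (closedBall (0 : ℂ) 2) := convex_closedBall _ _
  have hz' : z ∈ closedBall (0 : ℂ) 2 := by rw [mem_closedBall, dist_zero_right]; exact hz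
  have hw' : w ∈ closedBall (0 : ℂ) 2 := by rw [mem_closedBall, dist_zero_right]; exact hw
  refine hs.norm_image_sub_le_of_norm_deriv_le (𝕜 := ℂ) (f := fun z => P.eval z)
    (fun x _ => P.differentiableAt) (fun x hx => ?_) hw' hz'
  rw [mem_closedBall, dist_zero_right] at hx
  rw [Polynomial.deriv]
  exact h x hx

/-
Constants: β >= 1 bounds |A|, |B| on |z| <= 2, L >= β is a Lipschitz constant of A, B on |z| <= 2 and
of A + t B for |t| <= 1 (e.g. twice the one of A and B).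
-/
theorem leaf_const (A B : Polynomial ℂ) : ∃ β L : ℝ, 1 ≤ β ∧ β ≤ L ∧
    (∀ z : ℂ, ‖z‖ ≤ 2 → ‖A.eval z‖ ≤ β ∧ ‖B.eval z‖ ≤ β) ∧
    ∀ z w : ℂ, ‖z‖ ≤ 2 → ‖w‖ ≤ 2 → ‖A.eval z - A.eval w‖ ≤ L / 2 * ‖z - w‖ ∧
      ‖B.eval z - B.eval w‖ ≤ L / 2 * ‖z - w‖ := by
  obtain ⟨b1, hb1, h1⟩ := leaf_bdd A
  obtain ⟨b2, hb2, h2⟩ := leaf_bdd B
  obtain ⟨l1, hl1, h3⟩ := leaf_lip A
  obtain ⟨l2, hl2, h4⟩ := leaf_lip B
  refine ⟨1 + b1 + b2, 2 * (l1 + l2) + (1 + b1 + b2), by linarith, by linarith, ?_, ?_⟩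
  · intro z hz
    exact ⟨(h1 z hz).trans (by linarith), (h2 z hz).trans (by linarith)⟩
  · intro z w hz hw
    refine ⟨(h3 z w hz hw).trans ?_, (h4 z w hz hw).trans ?_⟩ <;>
    · apply mul_le_mul_of_nonneg_right _ (norm_nonneg _)
      linarith

/-- the polynomials -/
theorem leaf_alg {A B : Polynomial ℂ} {m : M4} (hc : m.2.1 ≠ 0) (z : ℂ)
    (hz : A.eval z + m.2.2 / m.2.1 * B.eval z ≠ 0) :
    (de A B m).eval z ≠ 0 ∧ (nu A B m).eval z / (de A B m).eval z =
      m.1.1 / m.2.1 - dt m / m.2.1 ^ 2 * B.eval z / (A.eval z + m.2.2 / m.2.1 * B.eval z) := by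
  have h1 : (de A B m).eval z = m.2.1 * (A.eval z + m.2.2 / m.2.1 * B.eval z) := by
    unfold de
    rw [eval_add, eval_mul, eval_mul, eval_C, eval_C]
    field_simp
  have h2 : (nu A B m).eval z = m.1.1 * A.eval z + m.1.2 * B.eval z := by
    unfold nu
    rw [eval_add, eval_mul, eval_mul, eval_C, eval_C]
  have h3 : (de A B m).eval z ≠ 0 := by rw [h1]; exact mul_ne_zero hc hz
  refine ⟨h3, ?_⟩
  rw [div_eq_iff h3, h1, h2, sub_mul]
  have e1 : dt m / m.2.1 ^ 2 * B.eval z / (A.eval z + m.2.2 / m.2.1 * B.eval z) *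
      (m.2.1 * (A.eval z + m.2.2 / m.2.1 * B.eval z)) = dt m / m.2.1 * B.eval z := by
    generalize A.eval z + m.2.2 / m.2.1 * B.eval z = D at hz ⊢
    field_simp
  rw [e1]
  unfold dt
  field_simp
  ring

theorem leaf_coprime {A B : Polynomial ℂ} (hcop : IsCoprime A B) {m : M4} (hm : dt m ≠ 0) :
    IsCoprime (nu A B m) (de A B m) := by
  obtain ⟨a, b, hab⟩ := hcop
  -- dt A = e nu - b de, dt B = a de - c nu
  refine ⟨C (dt m)⁻¹ * (a * C m.2.2 - b * C m.2.1), C (dt m)⁻¹ * (b * C m.1.1 - a * C m.1.2), ?_⟩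
  have h1 : (C (dt m)⁻¹ : Polynomial ℂ) * C (dt m) = 1 := by
    rw [← C_mul, inv_mul_cancel₀ hm, C_1]
  have h2 : (C (dt m) : Polynomial ℂ) = C m.1.1 * C m.2.2 - C m.1.2 * C m.2.1 := by
    unfold dt
    rw [C_sub, C_mul, C_mul]
  unfold nu de
  calc _ = C (dt m)⁻¹ * (C m.1.1 * C m.2.2 - C m.1.2 * C m.2.1) * (a * A + b * B) := by ring
    _ = 1 := by rw [← h2, h1, hab, one_mul]

theorem leaf_coeff (A B : Polynomial ℂ) (m : M4) (n : ℕ) :
    (nu A B m).coeff n = m.1.1 * A.coeff n + m.1.2 * B.coeff n ∧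
    (de A B m).coeff n = m.2.1 * A.coeff n + m.2.2 * B.coeff n := by
  unfold nu de
  simp only [coeff_add, coeff_C_mul, and_self]

theorem leaf_deg {d : ℕ} {A B : Polynomial ℂ} (hcop : IsCoprime A B)
    (hdeg : max A.natDegree B.natDegree = d) {m : M4} (hm : dt m ≠ 0) :
    max (nu A B m).natDegree (de A B m).natDegree = d := by
  have hA : A.natDegree ≤ d := hdeg ▸ le_max_left _ _
  have hB : B.natDegree ≤ d := hdeg ▸ le_max_right _ _
  apply le_antisymm
  · apply max_le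
    · unfold nu
      exact (natDegree_add_le _ _).trans
        (max_le ((natDegree_C_mul_le _ _).trans hA) ((natDegree_C_mul_le _ _).trans hB))
    · unfold de
      exact (natDegree_add_le _ _).trans
        (max_le ((natDegree_C_mul_le _ _).trans hA) ((natDegree_C_mul_le _ _).trans hB))
  · by_contra hlt
    push Not at hlt
    obtain ⟨h1, h2⟩ := leaf_coeff A B m d
    have h3 : (nu A B m).coeff d = 0 :=
      coeff_eq_zero_of_natDegree_lt (lt_of_le_of_lt (le_max_left _ _) hlt)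
    have h4 : (de A B m).coeff d = 0 :=
      coeff_eq_zero_of_natDegree_lt (lt_of_le_of_lt (le_max_right _ _) hlt)
    rw [h3] at h1
    rw [h4] at h2
    have h5 := coeff_dg hcop
    unfold dg at h5
    rw [hdeg] at h5
    have e1 : dt m * A.coeff d = 0 := by
      unfold dt
      linear_combination (-m.2.2) * h1 + m.1.2 * h2
    have e2 : dt m * B.coeff d = 0 := by
      unfold dt
      linear_combination (m.2.1) * h1 - m.1.1 * h2
    rcases h5 with h | h
    · exact (mul_ne_zero hm h) e1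
    · exact (mul_ne_zero hm h) e2

theorem leaf_wr (A B : Polynomial ℂ) (m : M4) (z : ℂ) :
    (Wr (nu A B m) (de A B m)).eval z = dt m * (Wr A B).eval z := by
  unfold Wr nu de dt
  simp only [derivative_add, derivative_C_mul, eval_sub, eval_mul, eval_add, eval_C]
  ring

theorem leaf_diff {κ t c0 a b a' b' : ℂ} (h : a + t * b ≠ 0) (h' : a' + t * b' ≠ 0) :
    (c0 - κ * b / (a + t * b)) - (c0 - κ * b' / (a' + t * b')) =
      κ * (b' * (a - a') - (b - b') * a') / ((a + t * b) * (a' + t * b')) := by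
  rw [sub_sub_sub_cancel_left, div_sub_div _ _ h' h,
    div_eq_div_iff (mul_ne_zero h' h) (mul_ne_zero h h')]
  ring

theorem leaf_num {k β L η δ : ℝ} (hη : 0 < η) (hδ : 0 ≤ δ) (h : 256 * (β * L) * k ≤ η * η) :
    k * (β * L * δ) / (η / 2 * (η / 2)) ≤ 1 / 2 * δ := by
  rw [div_le_iff₀ (mul_pos (half_pos hη) (half_pos hη))]
  have h1 := mul_le_mul_of_nonneg_right h hδ
  have h2 : 0 ≤ η * η * δ := mul_nonneg (mul_self_nonneg η) hδ
  linarith

theorem leaf_num2 {k β L η : ℝ} (hη : 0 < η) (hL : 0 < L) (hβ : 0 < β) (hk : 0 < k)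
    (h : 256 * (β * L) * k ≤ η * η) : k * β / (η / 2) < η / (2 * L) := by
  rw [div_lt_div_iff₀ (half_pos hη) (mul_pos two_pos hL)]
  have h1 := mul_pos (mul_pos hβ hL) hk
  linarith

theorem leaf_num3 {C S L η : ℝ} (hC : 0 < C) (hL : 0 < L) (hS : 0 < S) (h : C * S ≤ η)
    (hCL : 2 * L ≤ C * C) : S / C ≤ η / (2 * L) := by
  rw [div_le_div_iff₀ hC (mul_pos two_pos hL)]
  have h1 := mul_le_mul_of_nonneg_left h hC.le
  have h2 := mul_le_mul_of_nonneg_right hCL hS.le
  linarith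

/-- a value of the composed map at a point where `[A : B] = [x : y]` -/
theorem leaf_val {m : M4} (hc : m.2.1 ≠ 0)
    {R r : ℝ} (hr0 : 0 ≤ r) (hR : ‖dt m / m.2.1 ^ 2‖ / R ≤ r) (hR0 : 0 < R) {x y : ℂ}
    (hxy : x ≠ 0 ∨ y ≠ 0)
    (hv : y ≠ 0 → R ≤ ‖m.2.2 / m.2.1 + x / y‖) :
    ∃ w ∈ closedBall (m.1.1 / m.2.1) r,
      pt (m.1.1 * x + m.1.2 * y) (m.2.1 * x + m.2.2 * y) = (w : OnePoint ℂ) := by
  by_cases hy : y = 0
  · have hx : x ≠ 0 := by
      rcases hxy with h | h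
      · exact h
      · exact absurd hy h
    refine ⟨m.1.1 / m.2.1, mem_closedBall_self hr0, ?_⟩
    rw [hy, mul_zero, mul_zero, add_zero, add_zero]
    unfold pt
    rw [if_neg (mul_ne_zero hc hx), mul_div_mul_right _ _ hx]
  · have h1 := hv hy
    have h2 : m.2.2 / m.2.1 + x / y ≠ 0 := by
      intro h0
      rw [h0, norm_zero] at h1
      linarith
    have h3 : m.2.1 * x + m.2.2 * y = m.2.1 * y * (m.2.2 / m.2.1 + x / y) := by
      field_simp
      ring
    have h4 : m.2.1 * x + m.2.2 * y ≠ 0 := by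
      rw [h3]
      exact mul_ne_zero (mul_ne_zero hc hy) h2
    refine ⟨(m.1.1 * x + m.1.2 * y) / (m.2.1 * x + m.2.2 * y), ?_, ?_⟩
    · have e : (m.1.1 * x + m.1.2 * y) / (m.2.1 * x + m.2.2 * y) - m.1.1 / m.2.1 =
          - (dt m / m.2.1 ^ 2 / (m.2.2 / m.2.1 + x / y)) := by
        have h6 : m.2.2 / m.2.1 + x / y = (m.2.1 * x + m.2.2 * y) / (m.2.1 * y) := by
          rw [div_add_div _ _ hc hy]
          congr 1
          ring
        rw [h6, div_sub_div _ _ h4 hc, div_div_div_eq, ← neg_div,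
          div_eq_div_iff (mul_ne_zero h4 hc) (mul_ne_zero (pow_ne_zero 2 hc) h4)]
        unfold dt
        ring
      rw [mem_closedBall, dist_eq_norm, e, norm_neg, norm_div]
      refine le_trans ?_ hR
      exact div_le_div_of_nonneg_left (norm_nonneg _) hR0 h1
    · unfold pt
      rw [if_neg h4]

/-
Let c = m.2.1, c0 = m.1.1/c, t = m.2.2/c, κ = dt m/c^2 (nonzero), k = |κ|, S = sqrt k, |c0|, |t| <= 1.
As polynomials de = C c * (A + C t * B), nu = C c * (C c0 * (A + C t * B) - C κ * B) (since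
m.1.2 = (a e - dt m)/c = c c0 t - c κ). C = 16 β L (>= 16).
Coprime: A, B coprime and the matrix invertible. max of the degrees = d: the coefficients of index d
are the image of (A.coeff d, B.coeff d) <> 0 (coeff_dg) under an invertible matrix, and both degrees
are <= d.
Put η = |A(c0) + t B(c0)| >= C S > 0, r = η/(2L) <= 1 (η <= 2β). On closedBall c0 r (|z| <= 2):
|A + t B|(z) >= η - L r = η/2, f(z) = c0 - κ B(z)/(A + tB)(z), |f(z) - c0| <= k β 2/η < r because
C^2 k <= η^2 and C^2 > 4 L β. Lipschitz constant: B(z)A(w) - B(w)A(z) =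
(B(z)-B(w))A(w) - B(w)(A(z)-A(w)), so at most k β L 4/η^2 <= 1/2.
H44 hyp_of_trap-like: use Pool.Agent.H44.Fatou.trap for f = rat (nu) (de) and Att as in
H84/SR/Crit (or hyp_of_trap with hyp_iff): every critical point y is mapped in one step into the
closed ball: y in C: crit_coe gives Wr (nu) (de) (y) = 0 and Wr (nu) (de) = C (dt m) * Wr A B
(ring), so y is a root of Wr A B (nonzero: H44/Fatou/Coset wr_ne_zero), B(y) = 0: f(y) = c0.
B(y) <> 0: v = A(y)/B(y) in cvs, f(y) = c0 - κ/(v + t), |κ/(v+t)| <= k/(C S) = S/C <= η/C^2 <= r.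
y = infinity: rat_infty, the same with the coefficients of index d.
-/
theorem leaf_crit {d : ℕ} (hd : 2 ≤ d) {A B : Polynomial ℂ} (hcop : IsCoprime A B)
    (hdeg : max A.natDegree B.natDegree = d) : ∃ C : ℝ, 1 ≤ C ∧ ∀ m : M4, m.2.1 ≠ 0 →
      ‖m.1.1‖ ≤ ‖m.2.1‖ → ‖m.2.2‖ ≤ ‖m.2.1‖ → dt m ≠ 0 →
      (∀ v ∈ cvs d A B, C * Real.sqrt (‖dt m‖ / ‖m.2.1‖ ^ 2) ≤ ‖m.2.2 / m.2.1 + v‖) →
      C * Real.sqrt (‖dt m‖ / ‖m.2.1‖ ^ 2) ≤
        ‖A.eval (m.1.1 / m.2.1) + m.2.2 / m.2.1 * B.eval (m.1.1 / m.2.1)‖ →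
      HypDeg d (nu A B m) (de A B m) := by
  obtain ⟨β, L, hβ, hβL, hbd, hlip⟩ := leaf_const A B
  have hL1 : 1 ≤ L := hβ.trans hβL
  have hβL1 : 1 ≤ β * L := one_le_mul_of_one_le_of_one_le hβ hL1
  refine ⟨16 * (β * L), by linarith, ?_⟩
  intro m hc hac hec hm hv hη
  set c0 : ℂ := m.1.1 / m.2.1 with hc0
  set t : ℂ := m.2.2 / m.2.1 with ht
  set κ : ℂ := dt m / m.2.1 ^ 2 with hκ
  have hcn : 0 < ‖m.2.1‖ := norm_pos_iff.2 hc
  have hc01 : ‖c0‖ ≤ 1 := by
    rw [hc0, norm_div, div_le_one hcn]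
    exact hac
  have ht1 : ‖t‖ ≤ 1 := by
    rw [ht, norm_div, div_le_one hcn]
    exact hec
  have hκ0 : κ ≠ 0 := div_ne_zero hm (pow_ne_zero 2 hc)
  have hκn : ‖κ‖ = ‖dt m‖ / ‖m.2.1‖ ^ 2 := by rw [hκ, norm_div, norm_pow]
  rw [← hκn] at hv hη
  set k : ℝ := ‖κ‖ with hk
  have hkpos : 0 < k := norm_pos_iff.2 hκ0
  set S : ℝ := Real.sqrt k with hS
  have hSpos : 0 < S := Real.sqrt_pos.2 hkpos
  have hSS : S * S = k := Real.mul_self_sqrt hkpos.le
  set C : ℝ := 16 * (β * L) with hC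
  have hC16 : 16 ≤ C := by rw [hC]; linarith
  have hCpos : 0 < C := by linarith
  set η : ℝ := ‖A.eval c0 + t * B.eval c0‖ with hηdef
  have hηpos : 0 < η := lt_of_lt_of_le (mul_pos hCpos hSpos) hη
  have hηβ : η ≤ 2 * β := by
    obtain ⟨h1, h2⟩ := hbd c0 (by linarith)
    calc η ≤ ‖A.eval c0‖ + ‖t * B.eval c0‖ := norm_add_le _ _
      _ ≤ β + 1 * β := by
        rw [norm_mul]
        gcongr
      _ = 2 * β := by ring
  have hCk : C * C * k ≤ η * η := by
    rw [← hSS]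
    calc C * C * (S * S) = (C * S) * (C * S) := by ring
      _ ≤ η * η := mul_self_le_mul_self (by positivity) hη
  set r : ℝ := η / (2 * L) with hr
  have hLpos : 0 < L := by linarith
  have hrpos : 0 < r := by positivity
  have hr1 : r ≤ 1 := by
    rw [hr, div_le_one (by positivity)]
    linarith
  have hLr : L * r = η / 2 := by
    rw [hr]
    field_simp
  -- lower bound for the denominator
  have hball : ∀ z ∈ closedBall c0 r, ‖z‖ ≤ 2 := by
    intro z hz
    rw [mem_closedBall, dist_eq_norm] at hz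
    calc ‖z‖ = ‖(z - c0) + c0‖ := by rw [sub_add_cancel]
      _ ≤ ‖z - c0‖ + ‖c0‖ := norm_add_le _ _
      _ ≤ 2 := by linarith
  have hden : ∀ z ∈ closedBall c0 r, η / 2 ≤ ‖A.eval z + t * B.eval z‖ := by
    intro z hz
    have hz2 := hball z hz
    have hc2 : ‖c0‖ ≤ 2 := by linarith
    obtain ⟨h1, h2⟩ := hlip z c0 hz2 hc2
    rw [mem_closedBall, dist_eq_norm] at hz
    have h3 : ‖(A.eval z + t * B.eval z) - (A.eval c0 + t * B.eval c0)‖ ≤ η / 2 := by
      calc ‖(A.eval z + t * B.eval z) - (A.eval c0 + t * B.eval c0)‖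
          = ‖(A.eval z - A.eval c0) + t * (B.eval z - B.eval c0)‖ := by congr 1; ring
        _ ≤ ‖A.eval z - A.eval c0‖ + ‖t * (B.eval z - B.eval c0)‖ := norm_add_le _ _
        _ ≤ L / 2 * ‖z - c0‖ + 1 * (L / 2 * ‖z - c0‖) := by
          rw [norm_mul]
          gcongr
        _ = L * ‖z - c0‖ := by ring
        _ ≤ L * r := by gcongr
        _ = η / 2 := hLr
    have h4 : η ≤ ‖A.eval z + t * B.eval z‖ + η / 2 := by
      calc η = ‖(A.eval z + t * B.eval z) -
            ((A.eval z + t * B.eval z) - (A.eval c0 + t * B.eval c0))‖ := by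
            rw [hηdef]; congr 1; ring
        _ ≤ ‖A.eval z + t * B.eval z‖ +
            ‖(A.eval z + t * B.eval z) - (A.eval c0 + t * B.eval c0)‖ := norm_sub_le _ _
        _ ≤ ‖A.eval z + t * B.eval z‖ + η / 2 := by gcongr
    linarith
  have hden0 : ∀ z ∈ closedBall c0 r, A.eval z + t * B.eval z ≠ 0 := by
    intro z hz h0
    have := hden z hz
    rw [h0, norm_zero] at this
    linarith
  have hcop' := leaf_coprime hcop hm
  have hdeg' := leaf_deg hcop hdeg hm
  refine ⟨hcop', hdeg', (hyp_iff hcop' (by omega)).1 ?_⟩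
  have hCC : 256 * (β * L) * (β * L) * k ≤ η * η := by
    rw [hC] at hCk
    calc 256 * (β * L) * (β * L) * k = 16 * (β * L) * (16 * (β * L)) * k := by ring
      _ ≤ η * η := hCk
  have hβ0 : 0 < β := by linarith
  have hBL256 : 256 * (β * L) * k ≤ η * η := by
    refine le_trans ?_ hCC
    have h0 : 0 ≤ 256 * (β * L) * k := by positivity
    nlinarith [h0]
  refine hyp_of_trap hcop' (F := fun z => c0 - κ * B.eval z / (A.eval z + t * B.eval z))
    (a := c0) (r := r) (q := 1 / 2) hrpos (by norm_num) (by norm_num) ?_ ?_ ?_ ?_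
  · intro z hz
    obtain ⟨h1, h2⟩ := leaf_alg (A := A) (B := B) hc z (hden0 z hz)
    rw [rat_coe_of_ne h1, h2]
  · intro z hz
    have h1 := hden z hz
    have h2 := (hbd z (hball z hz)).2
    rw [mem_ball, dist_eq_norm]
    calc ‖c0 - κ * B.eval z / (A.eval z + t * B.eval z) - c0‖
        = ‖κ * B.eval z / (A.eval z + t * B.eval z)‖ := by
          rw [← norm_neg]; congr 1; ring
      _ = k * ‖B.eval z‖ / ‖A.eval z + t * B.eval z‖ := by rw [norm_div, norm_mul]
      _ ≤ k * β / (η / 2) := by gcongr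
      _ < r := leaf_num2 hηpos hLpos hβ0 hkpos hBL256
  · intro z hz w hw
    have hz1 := hden z hz
    have hw1 := hden w hw
    have hz2 := hball z hz
    have hw2 := hball w hw
    obtain ⟨l1, l2⟩ := hlip z w hz2 hw2
    obtain ⟨b1, b2⟩ := hbd w hw2
    have e : (c0 - κ * B.eval z / (A.eval z + t * B.eval z)) -
        (c0 - κ * B.eval w / (A.eval w + t * B.eval w)) =
        κ * (B.eval w * (A.eval z - A.eval w) - (B.eval z - B.eval w) * A.eval w) /
          ((A.eval z + t * B.eval z) * (A.eval w + t * B.eval w)) :=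
      leaf_diff (hden0 z hz) (hden0 w hw)
    show ‖(c0 - κ * B.eval z / (A.eval z + t * B.eval z)) -
        (c0 - κ * B.eval w / (A.eval w + t * B.eval w))‖ ≤ _
    rw [e, norm_div, norm_mul κ, norm_mul (A.eval z + t * B.eval z)]
    have h3 : ‖B.eval w * (A.eval z - A.eval w) - (B.eval z - B.eval w) * A.eval w‖ ≤
        β * L * ‖z - w‖ := by
      calc _ ≤ ‖B.eval w * (A.eval z - A.eval w)‖ + ‖(B.eval z - B.eval w) * A.eval w‖ :=
            norm_sub_le _ _
        _ = ‖B.eval w‖ * ‖A.eval z - A.eval w‖ + ‖B.eval z - B.eval w‖ * ‖A.eval w‖ := by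
            rw [norm_mul, norm_mul]
        _ ≤ β * (L / 2 * ‖z - w‖) + (L / 2 * ‖z - w‖) * β := by gcongr
        _ = β * L * ‖z - w‖ := by ring
    calc ‖κ‖ * ‖B.eval w * (A.eval z - A.eval w) - (B.eval z - B.eval w) * A.eval w‖ /
          (‖A.eval z + t * B.eval z‖ * ‖A.eval w + t * B.eval w‖)
        ≤ k * (β * L * ‖z - w‖) / (η / 2 * (η / 2)) := by
          gcongr
      _ ≤ 1 / 2 * ‖z - w‖ := leaf_num hηpos (norm_nonneg _) hBL256
  · intro y hy
    refine ⟨1, ?_⟩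
    have hR0 : 0 < C * S := mul_pos hCpos hSpos
    have hRr : ‖dt m / m.2.1 ^ 2‖ / (C * S) ≤ r := by
      rw [← hκ, ← hk, ← hSS]
      calc S * S / (C * S) = S / C := by
            field_simp
        _ ≤ r := leaf_num3 hCpos hLpos hSpos hη (by
            rw [hC]
            nlinarith [hβL1, hβ, hLpos])
    induction y using OnePoint.rec with
    | infty =>
      have h1 : dg (nu A B m) (de A B m) = d := hdeg'
      have h2 : dg A B = d := hdeg
      have h3 := coeff_dg hcop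
      rw [h2] at h3
      obtain ⟨w, hw1, hw2⟩ := leaf_val hc hrpos.le hRr hR0 h3
        (fun hy0 => hv _ (by unfold cvs; exact Finset.mem_insert_self _ _))
      refine ⟨w, hw1, ?_⟩
      rw [Function.iterate_one, rat_infty, h1, (leaf_coeff A B m d).1, (leaf_coeff A B m d).2]
      exact hw2
    | coe y =>
      have h4 := crit_coe hy
      rw [leaf_wr] at h4
      have h5 : (Wr A B).eval y = 0 := (mul_eq_zero.1 h4).resolve_left hm
      have hW : Wr A B ≠ 0 := wr_ne_zero hcop (by omega)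
      obtain ⟨w, hw1, hw2⟩ := leaf_val hc hrpos.le hRr hR0
        (coprime_eval hcop y)
        (fun hy0 => hv _ (by
          unfold cvs
          apply Finset.mem_insert_of_mem
          rw [Finset.mem_image]
          refine ⟨y, ?_, rfl⟩
          rw [Multiset.mem_toFinset, mem_roots hW]
          exact h5))
      refine ⟨w, hw1, ?_⟩
      rw [Function.iterate_one, rat_coe]
      unfold nu de
      rw [eval_add, eval_add, eval_mul, eval_mul, eval_mul, eval_mul, eval_C, eval_C, eval_C,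
        eval_C]
      exact hw2

end Pool.Agent.H84.SR
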