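import Pool.Agent.H84.SR.Defs

/-!
# Postcomposition of a rational map with a random linear fractional map: definitions
-/

set_option autoImplicit false

open MeasureTheory Metric Set Polynomial

namespace Pool.Agent.H84.SR

open Pool.Agent.H44.Fatou Pool.Agent.H32.BT

/-- two by two matrices `((a, b), (c, e))` -/
abbrev M4 : Type := (ℂ × ℂ) × (ℂ × ℂ)

/-- the determinant -/
def dt (m : M4) : ℂ := m.1.1 * m.2.2 - m.1.2 * m.2.1

/-- numerator of `m ∘ (A / B)` -/
noncomputable def nu (A B : Polynomial ℂ) (m : M4) : Polynomial ℂ := C m.1.1 * A + C m.1.2 * B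

/-- denominator of `m ∘ (A / B)` -/
noncomputable def de (A B : Polynomial ℂ) (m : M4) : Polynomial ℂ := C m.2.1 * A + C m.2.2 * B

/-- the finite critical values of `A / B` (and the value at infinity; harmless junk if `B` vanishes) -/
noncomputable def cvs (d : ℕ) (A B : Polynomial ℂ) : Finset ℂ :=
  insert (A.coeff d / B.coeff d) ((Wr A B).roots.toFinset.image fun y => A.eval y / B.eval y)

end Pool.Agent.H84.SR
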