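import Pool.Agent.H84.SR.LVol

/-!
# Random postcomposition: every rational map
-/

set_option autoImplicit false

open MeasureTheory Metric Set Polynomial

namespace Pool.Agent.H84.SR

open Pool.Agent.H44.Fatou Pool.Agent.H32.BT

namespace LMainAux

theorem cj1_zero (d : ℕ) (A B : Polynomial ℂ) : cj1 0 d A B = reflect d B := by
  unfold cj1
  rw [C_0, add_zero, comp_X]

theorem cj2_zero (d : ℕ) (A B : Polynomial ℂ) : cj2 0 d A B = reflect d A := by
  unfold cj2
  rw [C_0, add_zero, comp_X, zero_mul, sub_zero]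

/-- exchanges the columns -/
noncomputable def swc : M4 ≃ᵐ M4 := MeasurableEquiv.prodCongr MeasurableEquiv.prodComm MeasurableEquiv.prodComm

/-- exchanges the rows -/
noncomputable def swr : M4 ≃ᵐ M4 := MeasurableEquiv.prodComm

theorem swc_apply (m : M4) : swc m = ((m.1.2, m.1.1), (m.2.2, m.2.1)) := rfl
theorem swr_apply (m : M4) : swr m = (m.2, m.1) := rfl

theorem swc_mp : MeasurePreserving swc (volume : Measure M4) volume := by
  have h : MeasurePreserving (Prod.swap : ℂ × ℂ → ℂ × ℂ) (volume : Measure (ℂ × ℂ)) volume :=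
    Measure.measurePreserving_swap
  exact h.prod h

theorem swr_mp : MeasurePreserving swr (volume : Measure M4) volume :=
  Measure.measurePreserving_swap

theorem norm_swc (m : M4) : ‖swc m‖ = ‖m‖ := by
  rw [swc_apply, Prod.norm_def, Prod.norm_def, Prod.norm_def, Prod.norm_def, Prod.norm_def,
    Prod.norm_def]
  simp only [max_comm]

theorem norm_swr (m : M4) : ‖swr m‖ = ‖m‖ := by
  rw [swr_apply, Prod.norm_def m, Prod.norm_def (m.2, m.1), max_comm]

theorem dt_swc (m : M4) : ‖dt (swc m)‖ = ‖dt m‖ := by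
  rw [swc_apply]
  unfold dt
  rw [← norm_neg]
  congr 1
  ring

theorem dt_swr (m : M4) : ‖dt (swr m)‖ = ‖dt m‖ := by
  rw [swr_apply]
  unfold dt
  rw [← norm_neg]
  congr 1
  ring

theorem nu_swc (A B : Polynomial ℂ) (m : M4) : nu B A (swc m) = nu A B m := by
  rw [swc_apply]
  unfold nu
  ring

theorem de_swc (A B : Polynomial ℂ) (m : M4) : de B A (swc m) = de A B m := by
  rw [swc_apply]
  unfold de
  ring

theorem nu_swr (d : ℕ) (A B : Polynomial ℂ) (m : M4) :
    nu (reflect d A) (reflect d B) (swr m) = reflect d (de A B m) := by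
  rw [swr_apply]
  unfold nu de
  rw [reflect_add, reflect_C_mul, reflect_C_mul]

theorem de_swr (d : ℕ) (A B : Polynomial ℂ) (m : M4) :
    de (reflect d A) (reflect d B) (swr m) = reflect d (nu A B m) := by
  rw [swr_apply]
  unfold nu de
  rw [reflect_add, reflect_C_mul, reflect_C_mul]

theorem nu_deg {d : ℕ} {A B : Polynomial ℂ} (hA : A.natDegree ≤ d) (hB : B.natDegree ≤ d)
    (m : M4) : (nu A B m).natDegree ≤ d :=
  (natDegree_add_le _ _).trans (max_le ((natDegree_C_mul_le _ _).trans hA)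
    ((natDegree_C_mul_le _ _).trans hB))

theorem de_deg {d : ℕ} {A B : Polynomial ℂ} (hA : A.natDegree ≤ d) (hB : B.natDegree ≤ d)
    (m : M4) : (de A B m).natDegree ≤ d :=
  (natDegree_add_le _ _).trans (max_le ((natDegree_C_mul_le _ _).trans hA)
    ((natDegree_C_mul_le _ _).trans hB))

/-- the set of `leaf_vol` -/
def LL (d : ℕ) (A B : Polynomial ℂ) (δ : ℝ) : Set M4 :=
  {m : M4 | ‖m‖ ≤ 1 ∧ ‖m.1.1‖ ≤ ‖m.2.1‖ ∧ ‖m.1.2‖ ≤ ‖m.2.1‖ ∧ ‖m.2.2‖ ≤ ‖m.2.1‖ ∧
        ‖dt m‖ ≤ δ ∧ ¬ HypDeg d (nu A B m) (de A B m)}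

end LMainAux

open LMainAux

/-
cj1 0 d A B = reflect d B, cj2 0 d A B = reflect d A (Q.comp (X + C 0) = Q): exists_mob 0,
hypMap_conj, cj_back 0; reflect d is an involution (reflect_reflect / reflect_involutive).
-/
theorem hyp_reflect {d : ℕ} (hd : 1 ≤ d) {A B : Polynomial ℂ} (hA : A.natDegree ≤ d)
    (hB : B.natDegree ≤ d) :
    HypDeg d (reflect d B) (reflect d A) ↔ HypDeg d A B := by
  obtain ⟨φ, -, -, -, hφ⟩ := exists_mob 0
  have key : ∀ hcop : IsCoprime A B, ∀ hdeg : max A.natDegree B.natDegree = d,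
      IsCoprime (reflect d B) (reflect d A) ∧
      max (reflect d B).natDegree (reflect d A).natDegree = d ∧
      (HypMap (rat (reflect d B) (reflect d A)) ↔ HypMap (rat A B)) := by
    intro hcop hdeg
    have h := hφ d A B hcop hdeg hd
    rw [cj1_zero, cj2_zero] at h
    exact ⟨h.1, h.2.1, hypMap_conj φ h.2.2⟩
  constructor
  · rintro ⟨h1, h2, h3⟩
    have hb := cj_back 0 hA hB (by rw [cj1_zero, cj2_zero]; exact h1)
      (by rw [cj1_zero, cj2_zero]; exact h2)
    exact ⟨hb.1, hb.2, ((key hb.1 hb.2).2.2).1 h3⟩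
  · rintro ⟨h1, h2, h3⟩
    obtain ⟨k1, k2, k3⟩ := key h1 h2
    exact ⟨k1, k2, k3.2 h3⟩

theorem cop_reflect {d : ℕ} {A B : Polynomial ℂ} (hcop : IsCoprime A B)
    (hdeg : max A.natDegree B.natDegree = d) : IsCoprime (reflect d A) (reflect d B) ∧
      max (reflect d A).natDegree (reflect d B).natDegree = d := by
  have h1 := mob_coprime 0 hcop hdeg
  have h2 := mob_degree 0 hcop hdeg
  rw [cj1_zero, cj2_zero] at h1 h2
  exact ⟨h1.symm, by rw [max_comm]; exact h2⟩

/-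
The largest entry is one of the four. Lower left: leaf_vol for (A, B). Lower right: exchange the
columns and A, B: with m' = ((b, a), (e, c)) one has nu B A m' = nu A B m, de B A m' = de A B m:
leaf_vol for (B, A). Upper left: with A' = reflect d A, B' = reflect d B and m'' = ((c, e), (a, b)):
nu A' B' m'' = reflect d (de A B m), de A' B' m'' = reflect d (nu A B m) (reflect_add, reflect_C_mul)
and hyp_reflect: leaf_vol for (A', B'). Upper right: both. The norms of dt are unchanged. The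
coordinate permutations are measure preserving equivalences (Measure.measurePreserving_swap and
products of it; volume of a preimage of an arbitrary set under a measurable equivalence).
-/
theorem leaf_up {d : ℕ} (hd : 2 ≤ d) {A B : Polynomial ℂ} (hcop : IsCoprime A B)
    (hdeg : max A.natDegree B.natDegree = d) : ∃ C : ℝ, 0 < C ∧ ∀ δ : ℝ, 0 < δ →
      volume {m : M4 | ‖m‖ ≤ 1 ∧ ‖dt m‖ ≤ δ ∧ ¬ HypDeg d (nu A B m) (de A B m)} ≤
        ENNReal.ofReal (C * δ ^ 3) := by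
  have hA : A.natDegree ≤ d := hdeg ▸ le_max_left _ _
  have hB : B.natDegree ≤ d := hdeg ▸ le_max_right _ _
  obtain ⟨hcop', hdeg'⟩ := cop_reflect hcop hdeg
  obtain ⟨C1, hC1, h1⟩ := leaf_vol hd hcop hdeg
  obtain ⟨C2, hC2, h2⟩ := leaf_vol hd hcop.symm (by rw [max_comm]; exact hdeg)
  obtain ⟨C3, hC3, h3⟩ := leaf_vol hd hcop' hdeg'
  obtain ⟨C4, hC4, h4⟩ := leaf_vol hd hcop'.symm (by rw [max_comm]; exact hdeg')
  refine ⟨C1 + C2 + C3 + C4, by positivity, fun δ hδ => ?_⟩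
  have hsub : {m : M4 | ‖m‖ ≤ 1 ∧ ‖dt m‖ ≤ δ ∧ ¬ HypDeg d (nu A B m) (de A B m)} ⊆
      LL d A B δ ∪ swc ⁻¹' (LL d B A δ) ∪ swr ⁻¹' (LL d (reflect d A) (reflect d B) δ) ∪
        swr ⁻¹' (swc ⁻¹' (LL d (reflect d B) (reflect d A) δ)) := by
    rintro m ⟨hm1, hm2, hm3⟩
    have hy : HypDeg d (reflect d (de A B m)) (reflect d (nu A B m)) ↔
        HypDeg d (nu A B m) (de A B m) :=
      hyp_reflect (by omega) (nu_deg hA hB m) (de_deg hA hB m)
    -- the largest entry
    have hmax : (‖m.1.1‖ ≤ ‖m.2.1‖ ∧ ‖m.1.2‖ ≤ ‖m.2.1‖ ∧ ‖m.2.2‖ ≤ ‖m.2.1‖) ∨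
        (‖m.1.2‖ ≤ ‖m.2.2‖ ∧ ‖m.1.1‖ ≤ ‖m.2.2‖ ∧ ‖m.2.1‖ ≤ ‖m.2.2‖) ∨
        (‖m.2.1‖ ≤ ‖m.1.1‖ ∧ ‖m.2.2‖ ≤ ‖m.1.1‖ ∧ ‖m.1.2‖ ≤ ‖m.1.1‖) ∨
        (‖m.2.2‖ ≤ ‖m.1.2‖ ∧ ‖m.2.1‖ ≤ ‖m.1.2‖ ∧ ‖m.1.1‖ ≤ ‖m.1.2‖) := by
      rcases le_total ‖m.1.1‖ ‖m.2.1‖ with a | a <;> rcases le_total ‖m.1.2‖ ‖m.2.2‖ with b | b
      · rcases le_total ‖m.2.1‖ ‖m.2.2‖ with c | c
        · exact Or.inr (Or.inl ⟨b, a.trans c, c⟩)
        · exact Or.inl ⟨a, b.trans c, c⟩
      · rcases le_total ‖m.2.1‖ ‖m.1.2‖ with c | c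
        · exact Or.inr (Or.inr (Or.inr ⟨b, c, a.trans c⟩))
        · exact Or.inl ⟨a, c, b.trans c⟩
      · rcases le_total ‖m.1.1‖ ‖m.2.2‖ with c | c
        · exact Or.inr (Or.inl ⟨b, c, a.trans c⟩)
        · exact Or.inr (Or.inr (Or.inl ⟨a, c, b.trans c⟩))
      · rcases le_total ‖m.1.1‖ ‖m.1.2‖ with c | c
        · exact Or.inr (Or.inr (Or.inr ⟨b, a.trans c, c⟩))
        · exact Or.inr (Or.inr (Or.inl ⟨a, b.trans c, c⟩))
    rcases hmax with h | h | h | h
    · exact Or.inl (Or.inl (Or.inl ⟨hm1, h.1, h.2.1, h.2.2, hm2, hm3⟩))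
    · refine Or.inl (Or.inl (Or.inr ?_))
      rw [mem_preimage]
      refine ⟨by rw [norm_swc]; exact hm1, h.1, h.2.1, h.2.2, by rw [dt_swc]; exact hm2, ?_⟩
      rw [nu_swc, de_swc]
      exact hm3
    · refine Or.inl (Or.inr ?_)
      rw [mem_preimage]
      refine ⟨by rw [norm_swr]; exact hm1, h.1, h.2.1, h.2.2, by rw [dt_swr]; exact hm2, ?_⟩
      rw [nu_swr, de_swr, hy]
      exact hm3
    · refine Or.inr ?_
      rw [mem_preimage, mem_preimage]
      refine ⟨by rw [norm_swc, norm_swr]; exact hm1, h.1, h.2.1, h.2.2,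
        by rw [dt_swc, dt_swr]; exact hm2, ?_⟩
      rw [nu_swc, de_swc, nu_swr, de_swr, hy]
      exact hm3
  refine (measure_mono hsub).trans ?_
  refine (measure_union_le _ _).trans ?_
  have e4 : volume (swr ⁻¹' (swc ⁻¹' (LL d (reflect d B) (reflect d A) δ))) ≤
      ENNReal.ofReal (C4 * δ ^ 3) := by
    rw [swr_mp.measure_preimage_equiv, swc_mp.measure_preimage_equiv]
    exact h4 δ hδ
  have e3 : volume (swr ⁻¹' (LL d (reflect d A) (reflect d B) δ)) ≤
      ENNReal.ofReal (C3 * δ ^ 3) := by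
    rw [swr_mp.measure_preimage_equiv]
    exact h3 δ hδ
  have e2 : volume (swc ⁻¹' (LL d B A δ)) ≤ ENNReal.ofReal (C2 * δ ^ 3) := by
    rw [swc_mp.measure_preimage_equiv]
    exact h2 δ hδ
  have e1 : volume (LL d A B δ) ≤ ENNReal.ofReal (C1 * δ ^ 3) := h1 δ hδ
  have e5 : ENNReal.ofReal ((C1 + C2 + C3 + C4) * δ ^ 3) = ENNReal.ofReal (C1 * δ ^ 3) +
      ENNReal.ofReal (C2 * δ ^ 3) + ENNReal.ofReal (C3 * δ ^ 3) + ENNReal.ofReal (C4 * δ ^ 3) := by
    rw [← ENNReal.ofReal_add (by positivity) (by positivity),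
      ← ENNReal.ofReal_add (by positivity) (by positivity),
      ← ENNReal.ofReal_add (by positivity) (by positivity)]
    congr 1
    ring
  rw [e5]
  exact add_le_add ((measure_union_le _ _).trans (add_le_add ((measure_union_le _ _).trans
    (add_le_add e1 e2)) e3)) e4

namespace LMainAux

/-- lower bound of the measure of a set in a product -/
theorem prod_low {α β : Type} [MeasureSpace α] [MeasureSpace β] [SFinite (volume : Measure β)]
    [SFinite (volume : Measure α)]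
    {T : Set (α × β)} (hT : MeasurableSet T) {U : Set α} (hU : MeasurableSet U) {K : ENNReal}
    (h : ∀ a ∈ U, K ≤ volume (Prod.mk a ⁻¹' T)) : K * volume U ≤ volume T := by
  have h1 : (volume : Measure (α × β)) T = ∫⁻ a, volume (Prod.mk a ⁻¹' T) := by
    rw [Measure.volume_eq_prod, Measure.prod_apply hT]
  rw [h1]
  calc K * volume U = ∫⁻ _ in U, K := by rw [setLIntegral_const]
    _ ≤ ∫⁻ a in U, volume (Prod.mk a ⁻¹' T) := setLIntegral_mono' hU h
    _ ≤ ∫⁻ a, volume (Prod.mk a ⁻¹' T) := setLIntegral_le_lintegral _ _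

end LMainAux

/-
For |a|, |e| <= 1/2, 1/2 <= |c| <= 1 and fixed (a, c, e) every b with |a e - b c| <= δ (<= 1/4) has
|b| <= (1/4 + 1/4)/(1/2) = 1, and these b form a disc of radius δ/|c| >= δ: area >= π δ^2.
-/
theorem leaf_low : ∃ c : ℝ, 0 < c ∧ ∀ δ : ℝ, 0 < δ → δ ≤ 1 / 4 →
    ENNReal.ofReal (c * δ ^ 2) ≤ volume {m : M4 | ‖m‖ ≤ 1 ∧ ‖dt m‖ ≤ δ} := by
  refine ⟨1 / 256, by norm_num, fun δ hδ hδ4 => ?_⟩
  set S : Set M4 := {m : M4 | ‖m‖ ≤ 1 ∧ ‖dt m‖ ≤ δ} with hS
  -- the swapped set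
  have hsw : volume (swr ⁻¹' S) = volume S := swr_mp.measure_preimage_equiv S
  have hcl : IsClosed (swr ⁻¹' S) := by
    have : swr ⁻¹' S = {m : M4 | ‖m‖ ≤ 1} ∩ {m : M4 | ‖dt m‖ ≤ δ} := by
      ext m
      simp only [mem_preimage, hS, mem_ofPred_eq, mem_inter_iff]
      rw [norm_swr, dt_swr]
    rw [this]
    unfold dt
    exact (isClosed_le (by fun_prop) (by fun_prop)).inter (isClosed_le (by fun_prop) (by fun_prop))
  have hpi : (1 : ENNReal) ≤ (NNReal.pi : ENNReal) := by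
    rw [ENNReal.one_le_coe_iff]
    have : (1 : ℝ) ≤ (NNReal.pi : ℝ) := by
      rw [NNReal.coe_real_pi]
      linarith [Real.pi_gt_three]
    exact_mod_cast this
  have hball : ∀ (z : ℂ) (r : ℝ), ENNReal.ofReal r ^ 2 ≤ volume (closedBall z r) := by
    intro z r
    rw [Complex.volume_closedBall]
    calc ENNReal.ofReal r ^ 2 = ENNReal.ofReal r ^ 2 * 1 := (mul_one _).symm
      _ ≤ _ := by gcongr
  -- slices
  have hsl : ∀ p : ℂ × ℂ, p ∈ closedBall (3 / 4 : ℂ) (1 / 4) ×ˢ closedBall (0 : ℂ) (1 / 2) →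
      ENNReal.ofReal δ ^ 2 * ENNReal.ofReal (1 / 2) ^ 2 ≤ volume (Prod.mk p ⁻¹' (swr ⁻¹' S)) := by
    rintro ⟨c, e⟩ ⟨hc, he⟩
    rw [mem_closedBall, dist_eq_norm] at hc
    rw [mem_closedBall, dist_zero_right] at he
    have h34 : ‖(3 / 4 : ℂ)‖ = 3 / 4 := by
      rw [norm_div]
      norm_num
    have hc1 : ‖c‖ ≤ 1 := by
      have : c = (c - 3 / 4) + 3 / 4 := by ring
      rw [this]
      refine (norm_add_le _ _).trans ?_
      rw [h34]
      linarith
    have hc2 : 1 / 2 ≤ ‖c‖ := by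
      have h1 : (3 / 4 : ℂ) = c - (c - 3 / 4) := by ring
      have h2 : ‖(3 / 4 : ℂ)‖ ≤ ‖c‖ + ‖c - 3 / 4‖ := by
        conv_lhs => rw [h1]
        exact norm_sub_le _ _
      rw [h34] at h2
      linarith
    have hc0 : c ≠ 0 := by
      rintro rfl
      rw [norm_zero] at hc2
      norm_num at hc2
    have hmeas : MeasurableSet (Prod.mk (c, e) ⁻¹' (swr ⁻¹' S)) :=
      measurable_prodMk_left hcl.measurableSet
    calc ENNReal.ofReal δ ^ 2 * ENNReal.ofReal (1 / 2) ^ 2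
        ≤ ENNReal.ofReal δ ^ 2 * volume (closedBall (0 : ℂ) (1 / 2)) := by
          gcongr
          exact hball _ _
      _ ≤ volume (Prod.mk (c, e) ⁻¹' (swr ⁻¹' S)) := by
          refine prod_low (β := ℂ) (α := ℂ) hmeas isClosed_closedBall.measurableSet ?_
          intro a ha
          rw [mem_closedBall, dist_zero_right] at ha
          refine (hball (a * e / c) δ).trans (measure_mono ?_)
          intro b hb
          rw [mem_closedBall, dist_eq_norm] at hb
          have hcpos : 0 < ‖c‖ := norm_pos_iff.2 hc0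
          have hac : ‖a * e / c‖ ≤ 1 / 2 := by
            rw [norm_div, norm_mul, div_le_iff₀ hcpos]
            have := norm_nonneg a
            have := norm_nonneg e
            nlinarith
          have hbn : ‖b‖ ≤ 1 := by
            have : b = (b - a * e / c) + a * e / c := by ring
            rw [this]
            refine (norm_add_le _ _).trans ?_
            linarith
          have hdt : ‖a * e - b * c‖ ≤ δ := by
            have : a * e - b * c = - (c * (b - a * e / c)) := by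
              field_simp
              ring
            rw [this, norm_neg, norm_mul]
            calc ‖c‖ * ‖b - a * e / c‖ ≤ 1 * δ := by
                  apply mul_le_mul hc1 hb (norm_nonneg _) zero_le_one
              _ = δ := one_mul δ
          change swr ((c, e), (a, b)) ∈ S
          rw [swr_apply]
          refine ⟨?_, hdt⟩
          rw [Prod.norm_def, Prod.norm_def, Prod.norm_def]
          refine max_le (max_le ?_ hbn) (max_le hc1 ?_)
          · exact ha.trans (by norm_num)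
          · exact he.trans (by norm_num)
  have h1 := prod_low (α := ℂ × ℂ) (β := ℂ × ℂ) hcl.measurableSet
    (isClosed_closedBall.measurableSet.prod isClosed_closedBall.measurableSet :
      MeasurableSet (closedBall (3 / 4 : ℂ) (1 / 4) ×ˢ closedBall (0 : ℂ) (1 / 2))) hsl
  rw [hsw] at h1
  refine le_trans ?_ h1
  have h2 : (volume : Measure (ℂ × ℂ)) (closedBall (3 / 4 : ℂ) (1 / 4) ×ˢ closedBall (0 : ℂ) (1 / 2)) =
      volume (closedBall (3 / 4 : ℂ) (1 / 4)) * volume (closedBall (0 : ℂ) (1 / 2)) := by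
    rw [Measure.volume_eq_prod, Measure.prod_prod]
  rw [h2]
  calc ENNReal.ofReal (1 / 256 * δ ^ 2)
      = ENNReal.ofReal δ ^ 2 * ENNReal.ofReal (1 / 2) ^ 2 *
        (ENNReal.ofReal (1 / 4) ^ 2 * ENNReal.ofReal (1 / 2) ^ 2) := by
        rw [← ENNReal.ofReal_pow hδ.le, ← ENNReal.ofReal_pow (by norm_num),
          ← ENNReal.ofReal_pow (by norm_num), ← ENNReal.ofReal_mul (by positivity),
          ← ENNReal.ofReal_mul (by positivity), ← ENNReal.ofReal_mul (by positivity)]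
        congr 1
        ring
    _ ≤ _ := by
        gcongr
        · exact hball _ _
        · exact hball _ _

/-
δ <= 1/4: leaf_up and leaf_low. δ > 1/4: the left set is contained in the right one and C δ >= 1 if
C >= 4.
-/
theorem leaf_main {d : ℕ} (hd : 2 ≤ d) {A B : Polynomial ℂ} (hcop : IsCoprime A B)
    (hdeg : max A.natDegree B.natDegree = d) : ∃ C : ℝ, 0 < C ∧ ∀ δ : ℝ, 0 < δ →
      volume {m : M4 | ‖m‖ ≤ 1 ∧ ‖dt m‖ ≤ δ ∧ ¬ HypDeg d (nu A B m) (de A B m)} ≤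
        ENNReal.ofReal (C * δ) * volume {m : M4 | ‖m‖ ≤ 1 ∧ ‖dt m‖ ≤ δ} := by
  obtain ⟨C1, hC1, h1⟩ := leaf_up hd hcop hdeg
  obtain ⟨c, hc, h2⟩ := leaf_low
  refine ⟨C1 / c + 4, by positivity, fun δ hδ => ?_⟩
  rcases le_or_gt δ (1 / 4) with h | h
  · refine (h1 δ hδ).trans ?_
    calc ENNReal.ofReal (C1 * δ ^ 3) ≤ ENNReal.ofReal ((C1 / c + 4) * δ * (c * δ ^ 2)) := by
          apply ENNReal.ofReal_le_ofReal
          have : (C1 / c + 4) * δ * (c * δ ^ 2) = C1 * δ ^ 3 + 4 * c * δ ^ 3 := by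
            field_simp
          rw [this]
          have : 0 ≤ 4 * c * δ ^ 3 := by positivity
          linarith
      _ = ENNReal.ofReal ((C1 / c + 4) * δ) * ENNReal.ofReal (c * δ ^ 2) :=
          ENNReal.ofReal_mul (by positivity)
      _ ≤ _ := by
          gcongr
          exact h2 δ hδ h
  · have h3 : (1 : ENNReal) ≤ ENNReal.ofReal ((C1 / c + 4) * δ) := by
      rw [← ENNReal.ofReal_one]
      apply ENNReal.ofReal_le_ofReal
      have : 0 < C1 / c := by positivity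
      nlinarith
    calc volume {m : M4 | ‖m‖ ≤ 1 ∧ ‖dt m‖ ≤ δ ∧ ¬ HypDeg d (nu A B m) (de A B m)}
        ≤ 1 * volume {m : M4 | ‖m‖ ≤ 1 ∧ ‖dt m‖ ≤ δ} := by
          rw [one_mul]
          exact measure_mono fun m hm => ⟨hm.1, hm.2.1⟩
      _ ≤ _ := by gcongr

end Pool.Agent.H84.SR
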