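import Pool.Agent.H84.SR.LCrit
import Pool.Agent.H84.SR.LArea

/-!
# The volume of the bad matrices
-/

set_option autoImplicit false

open MeasureTheory Metric Set Polynomial

namespace Pool.Agent.H84.SR

open Pool.Agent.H44.Fatou Pool.Agent.H32.BT

/-- the exceptional matrices, when the lower left entry is the largest one -/
def LB (d : ℕ) (A B : Polynomial ℂ) (C δ : ℝ) : Set M4 :=
  {m | ‖m.2.1‖ ≤ 1 ∧ ‖m.1.1‖ ≤ ‖m.2.1‖ ∧ ‖m.2.2‖ ≤ ‖m.2.1‖ ∧ ‖dt m‖ ≤ δ ∧
    ((∃ v ∈ cvs d A B, ‖m.2.2 / m.2.1 + v‖ < C * Real.sqrt (‖dt m‖ / ‖m.2.1‖ ^ 2)) ∨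
      ‖A.eval (m.1.1 / m.2.1) + m.2.2 / m.2.1 * B.eval (m.1.1 / m.2.1)‖ <
        C * Real.sqrt (‖dt m‖ / ‖m.2.1‖ ^ 2))}

/-
All functions are measurable.
-/
theorem LB_meas (d : ℕ) (A B : Polynomial ℂ) (C δ : ℝ) : MeasurableSet (LB d A B C δ) := by
  have hdt : Measurable (dt : M4 → ℂ) := by
    unfold dt
    fun_prop
  have hA : Measurable (fun z : ℂ => A.eval z) := A.continuous.measurable
  have hB : Measurable (fun z : ℂ => B.eval z) := B.continuous.measurable
  have ha : Measurable (fun m : M4 => m.1.1) := by fun_prop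
  have hc : Measurable (fun m : M4 => m.2.1) := by fun_prop
  have he : Measurable (fun m : M4 => m.2.2) := by fun_prop
  have hac : Measurable (fun m : M4 => m.1.1 / m.2.1) := ha.div hc
  have hec : Measurable (fun m : M4 => m.2.2 / m.2.1) := he.div hc
  have hs : Measurable (fun m : M4 => C * Real.sqrt (‖dt m‖ / ‖m.2.1‖ ^ 2)) := by
    have h1 : Measurable (fun m : M4 => ‖dt m‖ / ‖m.2.1‖ ^ 2) :=
      hdt.norm.div (hc.norm.pow_const 2)
    exact (h1.sqrt).const_mul C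
  have h5 : MeasurableSet {m : M4 | ∃ v ∈ cvs d A B,
      ‖m.2.2 / m.2.1 + v‖ < C * Real.sqrt (‖dt m‖ / ‖m.2.1‖ ^ 2)} := by
    have : {m : M4 | ∃ v ∈ cvs d A B,
      ‖m.2.2 / m.2.1 + v‖ < C * Real.sqrt (‖dt m‖ / ‖m.2.1‖ ^ 2)} =
      ⋃ v ∈ cvs d A B, {m : M4 | ‖m.2.2 / m.2.1 + v‖ <
        C * Real.sqrt (‖dt m‖ / ‖m.2.1‖ ^ 2)} := by
      ext m
      simp
    rw [this]
    exact Finset.measurableSet_biUnion _ fun v _ =>
      measurableSet_lt (hec.add_const v).norm hs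
  have h6 : MeasurableSet {m : M4 | ‖A.eval (m.1.1 / m.2.1) + m.2.2 / m.2.1 *
      B.eval (m.1.1 / m.2.1)‖ < C * Real.sqrt (‖dt m‖ / ‖m.2.1‖ ^ 2)} :=
    measurableSet_lt ((hA.comp hac).add (hec.mul (hB.comp hac))).norm hs
  exact (measurableSet_le hc.norm measurable_const).inter
    ((measurableSet_le ha.norm hc.norm).inter ((measurableSet_le he.norm hc.norm).inter
    ((measurableSet_le hdt.norm measurable_const).inter (h5.union h6))))

/-- multiplication by a complex number scales the area -/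
theorem lv_map {c : ℂ} (hc : c ≠ 0) :
    Measure.map (fun z : ℂ => c * z) volume = ENNReal.ofReal (‖c‖ ^ 2)⁻¹ • volume := by
  have hd : LinearMap.det (LinearMap.mul ℝ ℂ c) = ‖c‖ ^ 2 := by
    have h1 : Algebra.norm ℝ c = Complex.normSq c := Algebra.norm_complex_apply c
    rw [Algebra.norm_apply] at h1
    rw [← Complex.normSq_eq_norm_sq, ← h1]
    rfl
  have hne : LinearMap.det (LinearMap.mul ℝ ℂ c) ≠ 0 := by
    rw [hd]
    exact pow_ne_zero 2 (norm_ne_zero_iff.2 hc)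
  have h := Measure.map_linearMap_addHaar_eq_smul_addHaar (volume : Measure ℂ) hne
  have e : (fun z : ℂ => c * z) = ⇑(LinearMap.mul ℝ ℂ c) := rfl
  rw [e, h, hd, abs_of_nonneg (by positivity)]

theorem lv_int {c : ℂ} (hc : c ≠ 0) {g : ℂ → ENNReal} (hg : Measurable g) :
    ∫⁻ z, g (c * z) = ENNReal.ofReal (‖c‖ ^ 2)⁻¹ * ∫⁻ z, g z := by
  have h := lintegral_map (μ := (volume : Measure ℂ)) hg (measurable_const_mul c)
  have h2 : (∫⁻ z, g (c * z)) = ∫⁻ z, g z ∂(Measure.map (fun z : ℂ => c * z) volume) := h.symm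
  rw [h2, lv_map hc, lintegral_smul_measure]
  rfl

/-- Fubini in the order c, a, e, b -/
theorem lv_fub {F : M4 → ENNReal} (hF : Measurable F) :
    ∫⁻ m, F m = ∫⁻ c, ∫⁻ a, ∫⁻ e, ∫⁻ b, F ((a, b), (c, e)) := by
  have h1 : ∫⁻ m, F m = ∫⁻ q : ℂ × ℂ, ∫⁻ p : ℂ × ℂ, F (p, q) := by
    rw [Measure.volume_eq_prod (ℂ × ℂ) (ℂ × ℂ)]
    exact lintegral_prod_symm' F hF
  rw [h1]
  have hm1 : Measurable (fun q : ℂ × ℂ => ∫⁻ p : ℂ × ℂ, F (p, q)) := hF.lintegral_prod_left'
  have h3 : ∫⁻ q : ℂ × ℂ, ∫⁻ p : ℂ × ℂ, F (p, q) = ∫⁻ c, ∫⁻ e, ∫⁻ p : ℂ × ℂ, F (p, (c, e)) :=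
    lintegral_prod (μ := (volume : Measure ℂ)) (ν := (volume : Measure ℂ))
      (fun q : ℂ × ℂ => ∫⁻ p : ℂ × ℂ, F (p, q)) hm1.aemeasurable
  rw [h3]
  refine lintegral_congr fun c => ?_
  have h2 : ∀ e : ℂ, ∫⁻ p : ℂ × ℂ, F (p, (c, e)) = ∫⁻ a, ∫⁻ b, F ((a, b), (c, e)) := by
    intro e
    have hm2 : Measurable (fun p : ℂ × ℂ => F (p, (c, e))) := by fun_prop
    exact lintegral_prod (μ := (volume : Measure ℂ)) (ν := (volume : Measure ℂ)) _
      hm2.aemeasurable
  rw [lintegral_congr h2]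
  refine lintegral_lintegral_swap ?_
  have hm3 : Measurable (fun z : (ℂ × ℂ) × ℂ => F ((z.1.2, z.2), (c, z.1.1))) := by fun_prop
  exact (hm3.lintegral_prod_right').aemeasurable

/-- the set of `(Δ, t)` -/
def LS (d : ℕ) (A B : Polynomial ℂ) (C δ : ℝ) (a c : ℂ) : Set (ℂ × ℂ) :=
  {p | ‖c‖ ≤ 1 ∧ ‖a‖ ≤ ‖c‖ ∧ ‖p.2‖ ≤ 1 ∧ ‖p.1‖ ≤ δ ∧
    ((∃ v ∈ cvs d A B, ‖p.2 + v‖ < C * Real.sqrt (‖p.1‖ / ‖c‖ ^ 2)) ∨
      ‖A.eval (a / c) + p.2 * B.eval (a / c)‖ < C * Real.sqrt (‖p.1‖ / ‖c‖ ^ 2))}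

theorem LS_meas (d : ℕ) (A B : Polynomial ℂ) (C δ : ℝ) (a c : ℂ) :
    MeasurableSet (LS d A B C δ a c) := by
  have h1 : Measurable (fun p : ℂ × ℂ => p.1) := measurable_fst
  have h2 : Measurable (fun p : ℂ × ℂ => p.2) := measurable_snd
  have hs : Measurable (fun p : ℂ × ℂ => C * Real.sqrt (‖p.1‖ / ‖c‖ ^ 2)) :=
    ((h1.norm.div_const _).sqrt).const_mul C
  have h5 : MeasurableSet {p : ℂ × ℂ | ∃ v ∈ cvs d A B,
      ‖p.2 + v‖ < C * Real.sqrt (‖p.1‖ / ‖c‖ ^ 2)} := by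
    have : {p : ℂ × ℂ | ∃ v ∈ cvs d A B,
      ‖p.2 + v‖ < C * Real.sqrt (‖p.1‖ / ‖c‖ ^ 2)} =
      ⋃ v ∈ cvs d A B, {p : ℂ × ℂ | ‖p.2 + v‖ < C * Real.sqrt (‖p.1‖ / ‖c‖ ^ 2)} := by
      ext m
      simp
    rw [this]
    exact Finset.measurableSet_biUnion _ fun v _ =>
      measurableSet_lt (h2.add_const v).norm hs
  have h6 : MeasurableSet {p : ℂ × ℂ | ‖A.eval (a / c) + p.2 * B.eval (a / c)‖ <
      C * Real.sqrt (‖p.1‖ / ‖c‖ ^ 2)} :=
    measurableSet_lt ((h2.mul_const _).const_add _).norm hs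
  exact (MeasurableSet.const _).inter ((MeasurableSet.const _).inter
    ((measurableSet_le h2.norm measurable_const).inter
    ((measurableSet_le h1.norm measurable_const).inter (h5.union h6))))

theorem LB_iff {d : ℕ} {A B : Polynomial ℂ} {C δ : ℝ} {a c : ℂ} (hc : c ≠ 0) (b e : ℂ) :
    ((a, b), (c, e)) ∈ LB d A B C δ ↔ (a * e - b * c, e / c) ∈ LS d A B C δ a c := by
  have hc' : 0 < ‖c‖ := norm_pos_iff.2 hc
  have h1 : ‖e / c‖ ≤ 1 ↔ ‖e‖ ≤ ‖c‖ := by
    rw [norm_div, div_le_one hc']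
  unfold LB LS dt
  simp only [mem_setOf_eq, h1]

theorem lv_inner {d : ℕ} {A B : Polynomial ℂ} {C δ C' : ℝ} (hδ : 0 < δ) (hC' : 0 < C')
    (hC : ∀ c0 : ℂ, ‖c0‖ ≤ 1 → ∀ k : ℝ, 0 ≤ k →
      volume {t : ℂ | ‖t‖ ≤ 1 ∧ ((∃ v ∈ cvs d A B, ‖t + v‖ < C * Real.sqrt k) ∨
        ‖A.eval c0 + t * B.eval c0‖ < C * Real.sqrt k)} ≤ ENNReal.ofReal (C' * k))
    (a c : ℂ) (hc : c ≠ 0) :
    ∫⁻ e, ∫⁻ b, (LB d A B C δ).indicator 1 ((a, b), (c, e)) ≤
      (closedBall (0 : ℂ) 1).indicator (fun _ => (closedBall (0 : ℂ) ‖c‖).indicator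
        (fun _ => ENNReal.ofReal (C' * δ ^ 3 * Real.pi / ‖c‖ ^ 2)) a) c := by
  have hc' : 0 < ‖c‖ := norm_pos_iff.2 hc
  set G : ℂ × ℂ → ENNReal := (LS d A B C δ a c).indicator 1 with hG
  have hGm : Measurable G := measurable_one.indicator (LS_meas d A B C δ a c)
  have e1 : ∀ b e : ℂ, (LB d A B C δ).indicator (1 : M4 → ENNReal) ((a, b), (c, e)) =
      G (a * e - b * c, e / c) := by
    intro b e
    by_cases h : ((a, b), (c, e)) ∈ LB d A B C δ
    · rw [hG, indicator_of_mem h, indicator_of_mem ((LB_iff hc b e).1 h)]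
      rfl
    · rw [hG, indicator_of_notMem h, indicator_of_notMem (fun h' => h ((LB_iff hc b e).2 h'))]
  simp_rw [e1]
  have e2 : ∀ e : ℂ, ∫⁻ b, G (a * e - b * c, e / c) =
      ENNReal.ofReal (‖c‖ ^ 2)⁻¹ * ∫⁻ x, G (x, e / c) := by
    intro e
    have hg : Measurable (fun x : ℂ => G (x, e / c)) := by fun_prop
    have hg2 : Measurable (fun x : ℂ => G (a * e + x, e / c)) := by fun_prop
    have h1 := lv_int (neg_ne_zero.2 hc) hg2
    have h2 : ∀ b : ℂ, a * e + -c * b = a * e - b * c := fun b => by ring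
    simp_rw [h2] at h1
    rw [h1, norm_neg]
    congr 1
    exact lintegral_add_left_eq_self (fun x => G (x, e / c)) (a * e)
  simp_rw [e2]
  have hH : Measurable (fun t : ℂ => ∫⁻ x, G (x, t)) := hGm.lintegral_prod_left'
  have e3 : ∫⁻ e : ℂ, ENNReal.ofReal (‖c‖ ^ 2)⁻¹ * ∫⁻ x, G (x, e / c) = ∫⁻ t, ∫⁻ x, G (x, t) := by
    have h3 : ∀ e : ℂ, e / c = c⁻¹ * e := fun e => by rw [div_eq_mul_inv, mul_comm]
    simp_rw [h3]
    have h4 : Measurable (fun e : ℂ => ∫⁻ x, G (x, c⁻¹ * e)) := hH.comp (measurable_const_mul _)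
    rw [lintegral_const_mul _ h4, lv_int (inv_ne_zero hc) hH, ← mul_assoc,
      ← ENNReal.ofReal_mul (by positivity), norm_inv]
    have : (‖c‖ ^ 2)⁻¹ * (‖c‖⁻¹ ^ 2)⁻¹ = 1 := by
      field_simp
    rw [this, ENNReal.ofReal_one, one_mul]
  rw [e3, lintegral_lintegral_swap (f := fun t x => G (x, t)) (hGm.comp measurable_swap).aemeasurable]
  have e4 : ∀ x : ℂ, ∫⁻ t, G (x, t) ≤ (closedBall (0 : ℂ) 1).indicator (fun _ =>
      (closedBall (0 : ℂ) ‖c‖).indicator
        (fun _ => (closedBall (0 : ℂ) δ).indicator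
          (fun _ => ENNReal.ofReal (C' * (δ / ‖c‖ ^ 2))) x) a) c := by
    intro x
    have hm : MeasurableSet {t : ℂ | (x, t) ∈ LS d A B C δ a c} :=
      measurable_prodMk_left (LS_meas d A B C δ a c)
    have h5 : ∫⁻ t, G (x, t) = volume {t : ℂ | (x, t) ∈ LS d A B C δ a c} := by
      rw [← lintegral_indicator_one hm]
      rfl
    rw [h5]
    by_cases hc1 : c ∈ closedBall (0 : ℂ) 1
    · rw [indicator_of_mem hc1]
      by_cases ha : a ∈ closedBall (0 : ℂ) ‖c‖
      · rw [indicator_of_mem ha]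
        by_cases hx : x ∈ closedBall (0 : ℂ) δ
        · rw [indicator_of_mem hx]
          rw [mem_closedBall_zero_iff] at ha hx
          refine le_trans (measure_mono ?_) ((hC (a / c) ?_ (‖x‖ / ‖c‖ ^ 2) (by positivity)).trans ?_)
          · rintro t ⟨_, _, h1, _, h2⟩
            exact ⟨h1, h2⟩
          · rw [norm_div, div_le_one hc']
            exact ha
          · apply ENNReal.ofReal_le_ofReal
            gcongr
        · rw [indicator_of_notMem hx]
          have : {t : ℂ | (x, t) ∈ LS d A B C δ a c} = ∅ := by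
            ext t
            simp only [mem_setOf_eq, mem_empty_iff_false, iff_false]
            rintro ⟨_, _, _, h1, _⟩
            exact hx (mem_closedBall_zero_iff.2 h1)
          rw [this, measure_empty]
      · rw [indicator_of_notMem ha]
        have : {t : ℂ | (x, t) ∈ LS d A B C δ a c} = ∅ := by
          ext t
          simp only [mem_setOf_eq, mem_empty_iff_false, iff_false]
          rintro ⟨_, h1, _⟩
          exact ha (mem_closedBall_zero_iff.2 h1)
        rw [this, measure_empty]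
    · rw [indicator_of_notMem hc1]
      have : {t : ℂ | (x, t) ∈ LS d A B C δ a c} = ∅ := by
        ext t
        simp only [mem_setOf_eq, mem_empty_iff_false, iff_false]
        rintro ⟨h1, _⟩
        exact hc1 (mem_closedBall_zero_iff.2 h1)
      rw [this, measure_empty]
  refine (lintegral_mono e4).trans ?_
  by_cases hc1 : c ∈ closedBall (0 : ℂ) 1
  · simp_rw [indicator_of_mem hc1]
    by_cases ha : a ∈ closedBall (0 : ℂ) ‖c‖
    · simp_rw [indicator_of_mem ha]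
      rw [lintegral_indicator measurableSet_closedBall, setLIntegral_const,
        Complex.volume_closedBall]
      rw [← ENNReal.ofReal_pow hδ.le]
      have : (NNReal.pi : ENNReal) = ENNReal.ofReal Real.pi := by
        rw [← NNReal.coe_real_pi, ENNReal.ofReal_coe_nnreal]
      rw [this, ← ENNReal.ofReal_mul (by positivity), ← ENNReal.ofReal_mul (by positivity)]
      apply ENNReal.ofReal_le_ofReal
      apply le_of_eq
      ring
    · simp_rw [indicator_of_notMem ha]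
      simp
  · simp_rw [indicator_of_notMem hc1]
    simp

/-
Write m = ((a, b), (c, e)). c = 0 is a null set. For fixed (a, c), c <> 0, the set of (b, e) is the
preimage under the ℂ-linear bijection (b, e) -> (Δ, t) = (a e - b c, e/c) (determinant of modulus 1:
the matrix (-c, a; 0, 1/c)) of {(Δ, t) | |Δ| <= δ, |t| <= 1, exceptional for c0 = a/c,
k = |Δ|/|c|^2}, whose measure is at most the integral over |Δ| <= δ of C' |Δ|/|c|^2 (leaf_area), that
is <= C' π δ^3/|c|^2. Then integrate over |a| <= |c| (area π |c|^2) and |c| <= 1.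
-/
theorem LB_vol {d : ℕ} {A B : Polynomial ℂ} (hcop : IsCoprime A B) (C : ℝ) :
    ∃ C' : ℝ, 0 < C' ∧ ∀ δ : ℝ, 0 < δ →
      volume (LB d A B C δ) ≤ ENNReal.ofReal (C' * δ ^ 3) := by
  obtain ⟨C1, hC1, hA⟩ := leaf_area hcop d C
  refine ⟨C1 * Real.pi * Real.pi * Real.pi, by positivity, fun δ hδ => ?_⟩
  have hπ : (NNReal.pi : ENNReal) = ENNReal.ofReal Real.pi := by
    rw [← NNReal.coe_real_pi, ENNReal.ofReal_coe_nnreal]
  rw [← lintegral_indicator_one (LB_meas d A B C δ),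
    lv_fub (measurable_one.indicator (LB_meas d A B C δ))]
  have h0 : ∀ᵐ c : ℂ, c ≠ 0 := by
    have : volume ({0} : Set ℂ) = 0 := measure_singleton 0
    rw [ae_iff]
    simpa using this
  have h1 : ∫⁻ c, ∫⁻ a, ∫⁻ e, ∫⁻ b, (LB d A B C δ).indicator 1 ((a, b), (c, e)) ≤
      ∫⁻ c : ℂ, (closedBall (0 : ℂ) 1).indicator
        (fun _ => ENNReal.ofReal (C1 * δ ^ 3 * Real.pi * Real.pi)) c := by
    apply lintegral_mono_ae
    filter_upwards [h0] with c hc
    have hc' : 0 < ‖c‖ := norm_pos_iff.2 hc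
    refine (lintegral_mono fun a => lv_inner hδ hC1 hA a c hc).trans ?_
    by_cases hc1 : c ∈ closedBall (0 : ℂ) 1
    · simp_rw [indicator_of_mem hc1]
      rw [lintegral_indicator measurableSet_closedBall, setLIntegral_const,
        Complex.volume_closedBall, ← ENNReal.ofReal_pow hc'.le, hπ,
        ← ENNReal.ofReal_mul (by positivity), ← ENNReal.ofReal_mul (by positivity)]
      apply ENNReal.ofReal_le_ofReal
      apply le_of_eq
      field_simp
    · simp_rw [indicator_of_notMem hc1]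
      simp
  refine h1.trans ?_
  rw [lintegral_indicator measurableSet_closedBall, setLIntegral_const,
        Complex.volume_closedBall, ← ENNReal.ofReal_pow zero_le_one, hπ,
        ← ENNReal.ofReal_mul (by positivity), ← ENNReal.ofReal_mul (by positivity)]
  apply ENNReal.ofReal_le_ofReal
  apply le_of_eq
  ring

theorem null_c : volume {m : M4 | m.2.1 = 0} = 0 := by
  have hS : MeasurableSet {m : M4 | m.2.1 = 0} := by
    have hc : Measurable (fun m : M4 => m.2.1) := by fun_prop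
    exact hc (measurableSet_singleton 0)
  rw [← lintegral_indicator_one hS, lv_fub (measurable_one.indicator hS), lintegral_eq_zero_iff']
  · have h0 : ∀ᵐ c : ℂ, c ≠ 0 := by
      have : volume ({0} : Set ℂ) = 0 := measure_singleton 0
      rw [ae_iff]
      simpa using this
    filter_upwards [h0] with c hc
    have : ∀ a b e : ℂ, {m : M4 | m.2.1 = 0}.indicator (1 : M4 → ENNReal) ((a, b), (c, e)) = 0 :=
      fun a b e => indicator_of_notMem
        (show ((a, b), (c, e)) ∉ {m : M4 | m.2.1 = 0} from fun h => hc h) _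
    simp_rw [this]
    simp
  · have hF : Measurable ({m : M4 | m.2.1 = 0}.indicator (1 : M4 → ENNReal)) :=
      measurable_one.indicator hS
    have h1 : Measurable (fun z : ((ℂ × ℂ) × ℂ) × ℂ =>
        {m : M4 | m.2.1 = 0}.indicator (1 : M4 → ENNReal) ((z.1.1.2, z.2), (z.1.1.1, z.1.2))) := by
      fun_prop
    exact (((h1.lintegral_prod_right').lintegral_prod_right').lintegral_prod_right').aemeasurable

theorem null_dt : volume {m : M4 | dt m = 0} = 0 := by
  have hdt : Measurable (dt : M4 → ℂ) := by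
    unfold dt
    fun_prop
  have hS : MeasurableSet {m : M4 | dt m = 0} := hdt (measurableSet_singleton 0)
  rw [← lintegral_indicator_one hS, lv_fub (measurable_one.indicator hS), lintegral_eq_zero_iff']
  · have h0 : ∀ᵐ c : ℂ, c ≠ 0 := by
      have : volume ({0} : Set ℂ) = 0 := measure_singleton 0
      rw [ae_iff]
      simpa using this
    filter_upwards [h0] with c hc
    have : ∀ a e : ℂ, ∫⁻ b, {m : M4 | dt m = 0}.indicator (1 : M4 → ENNReal)
        ((a, b), (c, e)) = 0 := by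
      intro a e
      have h1 : (fun b : ℂ => {m : M4 | dt m = 0}.indicator (1 : M4 → ENNReal)
        ((a, b), (c, e))) = ({a * e / c} : Set ℂ).indicator 1 := by
        ext b
        by_cases hb : b = a * e / c
        · rw [indicator_of_mem (show ((a, b), (c, e)) ∈ {m : M4 | dt m = 0} from ?_),
            indicator_of_mem (show b ∈ ({a * e / c} : Set ℂ) from hb)]
          · rfl
          · show a * e - b * c = 0
            rw [hb]
            field_simp
            ring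
        · rw [indicator_of_notMem, indicator_of_notMem]
          · exact hb
          · intro h
            apply hb
            have h2 : a * e - b * c = 0 := h
            rw [eq_div_iff hc]
            linear_combination -h2
      rw [h1, lintegral_indicator_one (measurableSet_singleton _), measure_singleton]
    simp_rw [this]
    simp
  · have hF : Measurable ({m : M4 | dt m = 0}.indicator (1 : M4 → ENNReal)) :=
      measurable_one.indicator hS
    have h1 : Measurable (fun z : ((ℂ × ℂ) × ℂ) × ℂ =>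
        {m : M4 | dt m = 0}.indicator (1 : M4 → ENNReal) ((z.1.1.2, z.2), (z.1.1.1, z.1.2))) := by
      fun_prop
    exact (((h1.lintegral_prod_right').lintegral_prod_right').lintegral_prod_right').aemeasurable

/-
The matrices of the left side with c <> 0, dt m <> 0 are in LB (leaf_crit, contraposition); c = 0
forces m = 0, and {dt m = 0} is null (for fixed a, c, e with c <> 0 only one b).
-/
theorem leaf_vol {d : ℕ} (hd : 2 ≤ d) {A B : Polynomial ℂ} (hcop : IsCoprime A B)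
    (hdeg : max A.natDegree B.natDegree = d) : ∃ C : ℝ, 0 < C ∧ ∀ δ : ℝ, 0 < δ →
      volume {m : M4 | ‖m‖ ≤ 1 ∧ ‖m.1.1‖ ≤ ‖m.2.1‖ ∧ ‖m.1.2‖ ≤ ‖m.2.1‖ ∧ ‖m.2.2‖ ≤ ‖m.2.1‖ ∧
        ‖dt m‖ ≤ δ ∧ ¬ HypDeg d (nu A B m) (de A B m)} ≤ ENNReal.ofReal (C * δ ^ 3) := by
  obtain ⟨C, hC, hcr⟩ := leaf_crit hd hcop hdeg
  obtain ⟨C', hC', hv⟩ := LB_vol (d := d) hcop C
  refine ⟨C', hC', fun δ hδ => ?_⟩
  refine le_trans ?_ (hv δ hδ)
  have hsub : {m : M4 | ‖m‖ ≤ 1 ∧ ‖m.1.1‖ ≤ ‖m.2.1‖ ∧ ‖m.1.2‖ ≤ ‖m.2.1‖ ∧ ‖m.2.2‖ ≤ ‖m.2.1‖ ∧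
        ‖dt m‖ ≤ δ ∧ ¬ HypDeg d (nu A B m) (de A B m)} ⊆
      LB d A B C δ ∪ ({m : M4 | m.2.1 = 0} ∪ {m : M4 | dt m = 0}) := by
    rintro m ⟨h1, h2, h3, h4, h5, h6⟩
    by_cases hc : m.2.1 = 0
    · exact Or.inr (Or.inl hc)
    by_cases hdt : dt m = 0
    · exact Or.inr (Or.inr hdt)
    left
    refine ⟨?_, h2, h4, h5, ?_⟩
    · calc ‖m.2.1‖ ≤ ‖m.2‖ := norm_fst_le m.2
        _ ≤ ‖m‖ := norm_snd_le m
        _ ≤ 1 := h1
    · by_contra hne
      push Not at hne
      exact h6 (hcr m hc h2 h4 hdt hne.1 hne.2)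
  calc volume _ ≤ volume (LB d A B C δ ∪ ({m : M4 | m.2.1 = 0} ∪ {m : M4 | dt m = 0})) :=
        measure_mono hsub
    _ ≤ volume (LB d A B C δ) + volume ({m : M4 | m.2.1 = 0} ∪ {m : M4 | dt m = 0}) :=
        measure_union_le _ _
    _ ≤ volume (LB d A B C δ) + (volume {m : M4 | m.2.1 = 0} + volume {m : M4 | dt m = 0}) := by
        gcongr
        exact measure_union_le _ _
    _ = volume (LB d A B C δ) := by rw [null_c, null_dt]; simp

end Pool.Agent.H84.SR
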