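import Pool.Agent.H84.SR.Generic

/-!
# The linear change to the frame `α`
-/

set_option autoImplicit false

open MeasureTheory Metric Set Polynomial

namespace Pool.Agent.H84.SR

open Pool.Agent.H44.Fatou Pool.Agent.H32.BT

/-- the pair in the frame `α` -/
noncomputable def fr2 (α : ℂ) (d : ℕ) (v : E d) : E d :=
  (cf d (fr α d (pol v.1)), cf d (fr α d (pol v.2)))

/-
v -> cf d (fr α d (pol v)) is a bijective ℂ-linear map: if fr α d P = 0 then P.comp (X + C α) = 0
(reflect_eq_zero_iff), so P = 0 (comp with X - C α, or mob lemmas, comp_shift_pos in H32/BT/Cj); then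
an injective linear map of a finite dimensional space.
-/
theorem fr_lin (α : ℂ) (d : ℕ) : ∃ L : V d ≃ₗ[ℂ] V d, ∀ v, L v = cf d (fr α d (pol v)) := by
  have hadd : ∀ v w : V d, pol (v + w) = pol v + pol w := by
    intro v w
    unfold pol
    rw [← Finset.sum_add_distrib]
    refine Finset.sum_congr rfl fun i _ => ?_
    rw [Pi.add_apply, C_add, add_mul]
  have hsmul : ∀ (t : ℂ) (v : V d), pol (t • v) = C t * pol v := by
    intro t v
    unfold pol
    rw [Finset.mul_sum]
    refine Finset.sum_congr rfl fun i _ => ?_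
    rw [Pi.smul_apply, smul_eq_mul, C_mul, mul_assoc]
  let L0 : V d →ₗ[ℂ] V d :=
    { toFun := fun v => cf d (fr α d (pol v))
      map_add' := by
        intro v w
        ext i
        show (fr α d (pol (v + w))).coeff i = (fr α d (pol v)).coeff i + (fr α d (pol w)).coeff i
        rw [hadd]
        unfold fr
        rw [add_comp, reflect_add, coeff_add]
      map_smul' := by
        intro t v
        ext i
        show (fr α d (pol (t • v))).coeff i = t * (fr α d (pol v)).coeff i
        rw [hsmul]
        unfold fr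
        rw [mul_comp, C_comp, reflect_C_mul, coeff_C_mul] }
  have hinj : Function.Injective L0 := by
    rw [← LinearMap.ker_eq_bot, LinearMap.ker_eq_bot']
    intro v hv
    have h1 : cf d (fr α d (pol v)) = 0 := hv
    have h2 : fr α d (pol v) = 0 := by
      rw [← pol_cf (fr_natDegree α (pol_natDegree v)), h1]
      unfold pol
      simp
    unfold fr at h2
    rw [reflect_eq_zero_iff] at h2
    have h3 : pol v = 0 := by
      have h4 : ((pol v).comp (X + C α)).comp (X - C α) = 0 := by
        rw [h2, zero_comp]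
      rw [comp_assoc] at h4
      have h5 : (X + C α : Polynomial ℂ).comp (X - C α) = X := by
        rw [add_comp, X_comp, C_comp, sub_add_cancel]
      rwa [h5, comp_X] at h4
    rw [← cf_pol v, h3]
    ext i
    show (0 : Polynomial ℂ).coeff i = (0 : V d) i
    simp
  exact ⟨LinearEquiv.ofInjectiveEndo L0 hinj, fun v => rfl⟩

/-
fr2 α d = L × L is a linear automorphism; Measure.addHaar_image_linearMap (or of a
ContinuousLinearEquiv): volume (fr2 '' S) = ofReal |det| * volume S with det <> 0.
-/
theorem lin_bound (α : ℂ) (d : ℕ) : ∃ C : ℝ, 0 < C ∧ ∀ S : Set (E d),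
    volume S ≤ ENNReal.ofReal C * volume (fr2 α d '' S) := by
  obtain ⟨L, hL⟩ := fr_lin α d
  have hV : (volume : Measure (V d)).IsAddHaarMeasure := by
    rw [volume_pi]
    infer_instance
  have hE : (volume : Measure (E d)).IsAddHaarMeasure := by
    rw [Measure.volume_eq_prod]
    exact Measure.prod.instIsAddHaarMeasure _ _
  let F : E d ≃ₗ[ℝ] E d := (LinearEquiv.prodCongr L L).restrictScalars ℝ
  have hF : ∀ v, F v = fr2 α d v := by
    intro v
    show (L v.1, L v.2) = fr2 α d v
    rw [hL, hL]
    rfl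
  have hdet : LinearMap.det (F : E d →ₗ[ℝ] E d) ≠ 0 := (LinearEquiv.isUnit_det' F).ne_zero
  refine ⟨|LinearMap.det (F : E d →ₗ[ℝ] E d)|⁻¹, inv_pos.2 (abs_pos.2 hdet), fun S => ?_⟩
  have h1 : fr2 α d '' S = (F : E d →ₗ[ℝ] E d) '' S := by
    apply Set.image_congr
    intro v _
    exact (hF v).symm
  rw [h1, Measure.addHaar_image_linearMap, ← mul_assoc, ← ENNReal.ofReal_mul (by positivity),
    inv_mul_cancel₀ (abs_ne_zero.2 hdet), ENNReal.ofReal_one, one_mul]

/-
ae_generic pulled back by the automorphism L (null sets are preserved by linear automorphisms) and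
then to the product (a property of the second component holding almost everywhere holds almost
everywhere on the product); pol (cf d (fr α d (pol b))) = fr α d (pol b) (pol_cf, fr_natDegree) and
(cf d P) (last d) = P.coeff d.
-/
theorem ae_generic_fr (α : ℂ) {d : ℕ} (hd : 1 ≤ d) :
    ∀ᵐ v : E d, (fr α d (pol v.2)).coeff d ≠ 0 ∧ (fr α d (pol v.2)).roots.Nodup := by
  obtain ⟨L, hL⟩ := fr_lin α d
  have hV : (volume : Measure (V d)).IsAddHaarMeasure := by
    rw [volume_pi]
    infer_instance
  let F : V d ≃ₗ[ℝ] V d := L.restrictScalars ℝ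
  have hdet : LinearMap.det (F : V d →ₗ[ℝ] V d) ≠ 0 := (LinearEquiv.isUnit_det' F).ne_zero
  have h1 : ∀ᵐ b : V d, (fr α d (pol b)).coeff d ≠ 0 ∧ (fr α d (pol b)).roots.Nodup := by
    have h2 := ae_generic hd
    rw [ae_iff] at h2 ⊢
    have h3 : {b : V d | ¬ ((fr α d (pol b)).coeff d ≠ 0 ∧ (fr α d (pol b)).roots.Nodup)} =
        (F : V d →ₗ[ℝ] V d) ⁻¹' {b : V d | ¬ (b (Fin.last d) ≠ 0 ∧ (pol b).roots.Nodup)} := by
      ext b
      have h4 : (F : V d →ₗ[ℝ] V d) b = cf d (fr α d (pol b)) := hL b
      have h5 : pol (cf d (fr α d (pol b))) = fr α d (pol b) :=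
        pol_cf (fr_natDegree α (pol_natDegree b))
      rw [Set.mem_preimage, h4, Set.mem_ofPred_eq, Set.mem_ofPred_eq, h5]
      rfl
    rw [h3, Measure.addHaar_preimage_linearMap _ hdet, h2, mul_zero]
  have h6 := Measure.quasiMeasurePreserving_snd (μ := (volume : Measure (V d)))
    (ν := (volume : Measure (V d)))
  rw [Measure.volume_eq_prod]
  exact h6.ae h1

end Pool.Agent.H84.SR
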