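import Pool.Agent.H84.SR.VolA

/-!
# Volume of `{|w j| ≤ η, ∏ |w j| ≤ t}`: lower bounds
-/

set_option autoImplicit false

open MeasureTheory Metric Set

namespace Pool.Agent.H84.SR

/-
Induction on n, for all η. n = 0: GG 1 η t contains the disc of radius η t (η, t <= 1), of area
π η^2 t^2.
Step: GG_split (k = 0, S = univ). Let t0 = min (η^4) (1/4). For t <= t0 and sqrt t < |a| <= η the fibre
is GG (n+1) η (t/|a|) and t/|a| <= sqrt t <= 1/2, log (|a|/t) >= (1/2) log (1/t), so its volume is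
at least c (t/|a|)^2 ((1/2) log (1/t))^n; annulus (a = sqrt t, b = η) gives the factor
2 π log (η / sqrt t) = 2π ((1/2) log (1/t) - log (1/η)) >= 2 π (1/4) log (1/t) as t <= η^4.
For t0 < t <= 1/2: GG is monotone in t, so the volume is at least c1 t0^2 (log (1/t0))^(n+1)
>= c2 t^2 (log (1/t))^(n+1) since t^2 <= 1 and log (1/t) <= log (1/t0).
-/

theorem GG_mono_right {n : ℕ} {K t t' : ℝ} (h : t ≤ t') : GG n K t ⊆ GG n K t' :=
  fun _ hw => ⟨hw.1, hw.2.trans h⟩

theorem vol_low_zero {η : ℝ} (h0 : 0 < η) (h1 : η ≤ 1) (t : ℝ) (ht : 0 < t) (ht1 : t ≤ 1 / 2) :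
    ENNReal.ofReal (Real.pi * η ^ 2 * t ^ 2) ≤ volume (GG 1 η t) := by
  have hsub : Set.pi univ (fun _ : Fin 1 => closedBall (0 : ℂ) (η * t)) ⊆ GG 1 η t := by
    intro w hw
    have h2 : ‖w 0‖ ≤ η * t := by simpa using hw 0 (mem_univ _)
    refine ⟨fun j => ?_, ?_⟩
    · rw [Fin.fin_one_eq_zero j]
      nlinarith
    · simp only [Finset.univ_unique, Fin.default_eq_zero, Fin.isValue, Finset.prod_singleton]
      nlinarith
  refine le_trans ?_ (measure_mono hsub)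
  rw [volume_pi_pi]
  simp only [Finset.univ_unique, Fin.default_eq_zero, Fin.isValue, Finset.prod_const,
    Finset.card_singleton, pow_one, Complex.volume_closedBall]
  rw [← ENNReal.ofReal_pow (by positivity), ← ENNReal.ofReal_coe_nnreal,
    ← ENNReal.ofReal_mul (by positivity)]
  apply ENNReal.ofReal_le_ofReal
  rw [NNReal.coe_real_pi]
  apply le_of_eq
  ring

theorem vol_low_step (n : ℕ) {η : ℝ} (h0 : 0 < η) (h1 : η ≤ 1) {c : ℝ} (hc : 0 < c)
    (ih : ∀ t : ℝ, 0 < t → t ≤ 1 / 2 →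
      ENNReal.ofReal (c * t ^ 2 * (Real.log (1 / t)) ^ n) ≤ volume (GG (n + 1) η t))
    (t : ℝ) (ht : 0 < t) (ht1 : t ≤ min (η ^ 4) (1 / 4)) :
    ENNReal.ofReal (c * Real.pi / 2 ^ (n + 1) * t ^ 2 * (Real.log (1 / t)) ^ (n + 1)) ≤
      volume (GG (n + 2) η t) := by
  have htη : t ≤ η ^ 4 := ht1.trans (min_le_left _ _)
  have ht4 : t ≤ 1 / 4 := ht1.trans (min_le_right _ _)
  set L := Real.log (1 / t) with hL
  have hLt : L = - Real.log t := by rw [hL, one_div, Real.log_inv]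
  have hL0 : 0 ≤ L := by
    rw [hLt]
    have := Real.log_nonpos ht.le (by linarith)
    linarith
  have hsplit := GG_split (n + 1) η t 0 univ MeasurableSet.univ
  have hset : {w ∈ GG (n + 1 + 1) η t | w 0 ∈ (univ : Set ℂ)} = GG (n + 2) η t := by
    ext w; simp
  rw [hset] at hsplit
  rw [hsplit]
  set s := Real.sqrt t with hs
  have hs0 : 0 < s := Real.sqrt_pos.2 ht
  have hss : s * s = t := Real.mul_self_sqrt ht.le
  have hs12 : s ≤ 1 / 2 := by
    nlinarith
  have hsη : s ≤ η := by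
    have h2 : s * s ≤ η ^ 4 := by rw [hss]; exact htη
    have h3 : η ^ 4 ≤ η * η := by nlinarith [mul_pos h0 h0, mul_le_one₀ h1 h0.le h1]
    nlinarith
  have hlogs : Real.log s = - (L / 2) := by
    rw [hs, Real.log_sqrt ht.le, hLt]; ring
  have hlogη : - (L / 4) ≤ Real.log η := by
    have h2 : Real.log t ≤ Real.log (η ^ 4) := Real.log_le_log ht htη
    rw [Real.log_pow] at h2
    push_cast at h2
    rw [hLt]
    linarith
  have hmeas : MeasurableSet {a : ℂ | s < ‖a‖ ∧ ‖a‖ ≤ η} :=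
    (measurableSet_lt measurable_const measurable_norm).inter
      (measurableSet_le measurable_norm measurable_const)
  have step1 : ENNReal.ofReal (c * Real.pi / 2 ^ (n + 1) * t ^ 2 * L ^ (n + 1)) ≤
      ∫⁻ a in {a : ℂ | s < ‖a‖ ∧ ‖a‖ ≤ η},
        ENNReal.ofReal (c * t ^ 2 * (L / 2) ^ n) * ENNReal.ofReal ((‖a‖⁻¹) ^ 2) := by
    rw [lintegral_const_mul' _ _ ENNReal.ofReal_ne_top, annulus hs0 hsη,
      ← ENNReal.ofReal_mul (by positivity)]
    apply ENNReal.ofReal_le_ofReal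
    rw [Real.log_div h0.ne' hs0.ne', hlogs]
    have h2 : L / 4 ≤ Real.log η - -(L / 2) := by linarith
    have h3 : c * Real.pi / 2 ^ (n + 1) * t ^ 2 * L ^ (n + 1) =
        c * t ^ 2 * (L / 2) ^ n * (2 * Real.pi * (L / 4)) := by
      rw [div_pow, pow_succ, pow_succ]
      field_simp
      ring
    rw [h3]
    have hpi := Real.pi_pos
    gcongr
  have step2 : ∫⁻ a in {a : ℂ | s < ‖a‖ ∧ ‖a‖ ≤ η},
        ENNReal.ofReal (c * t ^ 2 * (L / 2) ^ n) * ENNReal.ofReal ((‖a‖⁻¹) ^ 2) ≤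
      ∫⁻ a in {a : ℂ | s < ‖a‖ ∧ ‖a‖ ≤ η}, volume {w : Fin (n + 1) → ℂ |
        (∀ j, ‖w j‖ ≤ η) ∧ ‖a‖ * ∏ j, ‖w j‖ ≤ t} := by
    refine setLIntegral_mono' hmeas ?_
    rintro a ⟨ha1, ha2⟩
    have ha0 : 0 < ‖a‖ := hs0.trans ha1
    have hset2 : {w : Fin (n + 1) → ℂ | (∀ j, ‖w j‖ ≤ η) ∧ ‖a‖ * ∏ j, ‖w j‖ ≤ t} =
        GG (n + 1) η (t / ‖a‖) := by
      ext w
      simp only [GG, mem_setOf_eq]
      rw [le_div_iff₀ ha0, mul_comm]
    rw [hset2, ← ENNReal.ofReal_mul (by positivity)]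
    have hta : t / ‖a‖ ≤ s := by
      rw [div_le_iff₀ ha0, ← hss]
      exact mul_le_mul_of_nonneg_left ha1.le hs0.le
    refine le_trans ?_ (ih (t / ‖a‖) (div_pos ht ha0) (hta.trans hs12))
    apply ENNReal.ofReal_le_ofReal
    have h2 : L / 2 ≤ Real.log (1 / (t / ‖a‖)) := by
      rw [one_div, Real.log_inv]
      have h3 : Real.log (t / ‖a‖) ≤ Real.log s := Real.log_le_log (div_pos ht ha0) hta
      rw [hlogs] at h3
      linarith
    have h3 : c * t ^ 2 * (L / 2) ^ n * (‖a‖⁻¹) ^ 2 = c * (t / ‖a‖) ^ 2 * (L / 2) ^ n := by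
      rw [div_pow, inv_pow]
      ring
    rw [h3]
    have h4 : 0 ≤ L / 2 := by linarith
    gcongr
  refine step1.trans (step2.trans (lintegral_mono_set ?_))
  rintro a ⟨ha1, ha2⟩
  exact ⟨mem_univ _, ha2⟩

theorem vol_low (n : ℕ) {η : ℝ} (h0 : 0 < η) (h1 : η ≤ 1) : ∃ c : ℝ, 0 < c ∧
    ∀ t : ℝ, 0 < t → t ≤ 1 / 2 →
      ENNReal.ofReal (c * t ^ 2 * (Real.log (1 / t)) ^ n) ≤ volume (GG (n + 1) η t) := by
  induction n with
  | zero =>
    refine ⟨Real.pi * η ^ 2, by positivity, fun t ht ht1 => ?_⟩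
    simpa using vol_low_zero h0 h1 t ht ht1
  | succ n ihn =>
    obtain ⟨c, hc, ih⟩ := ihn
    set t0 := min (η ^ 4) (1 / 4) with ht0
    have ht0pos : 0 < t0 := lt_min (by positivity) (by norm_num)
    have ht04 : t0 ≤ 1 / 4 := min_le_right _ _
    have hpi := Real.pi_pos
    set c' := c * Real.pi / 2 ^ (n + 1) with hc'
    have hc'pos : 0 < c' := by positivity
    refine ⟨c' * t0 ^ 2, by positivity, fun t ht ht1 => ?_⟩
    have hLt : 0 ≤ Real.log (1 / t) := by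
      rw [one_div, Real.log_inv]
      have := Real.log_nonpos ht.le (by linarith)
      linarith
    have ht02 : t0 ^ 2 ≤ 1 := by nlinarith
    rcases le_total t t0 with h | h
    · refine le_trans ?_ (vol_low_step n h0 h1 hc ih t ht h)
      apply ENNReal.ofReal_le_ofReal
      rw [← hc']
      have h2 : c' * t0 ^ 2 ≤ c' * 1 := by gcongr
      rw [mul_one] at h2
      gcongr
    · refine le_trans ?_ ((vol_low_step n h0 h1 hc ih t0 ht0pos le_rfl).trans
        (measure_mono (GG_mono_right h)))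
      apply ENNReal.ofReal_le_ofReal
      rw [← hc']
      have h2 : Real.log (1 / t) ≤ Real.log (1 / t0) :=
        Real.log_le_log (by positivity) (one_div_le_one_div_of_le ht0pos h)
      have h3 : t ^ 2 ≤ 1 := by nlinarith
      calc c' * t0 ^ 2 * t ^ 2 * Real.log (1 / t) ^ (n + 1)
          ≤ c' * t0 ^ 2 * 1 * Real.log (1 / t0) ^ (n + 1) := by gcongr
        _ = c' * t0 ^ 2 * Real.log (1 / t0) ^ (n + 1) := by ring

end Pool.Agent.H84.SR
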