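import Pool.Agent.H84.SR.LowA
import Pool.Agent.H84.SR.ResMk
import Pool.Agent.H84.SR.Generic
import Pool.Agent.H84.SR.Jac

/-!
# Lower bound for the volume of the pairs of small resultant
-/

set_option autoImplicit false

open MeasureTheory Metric Set Polynomial

namespace Pool.Agent.H84.SR

open Pool.Agent.H44.Fatou Pool.Agent.H32.BT

private theorem lb_coeff_fst {d : ℕ} (k : ℕ) : Continuous fun v : E d => (pol v.1).coeff k := by
  simp only [pol_coeff]
  split_ifs with h
  · exact (continuous_apply _).comp continuous_fst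
  · exact continuous_const

private theorem lb_coeff_snd {d : ℕ} (k : ℕ) : Continuous fun v : E d => (pol v.2).coeff k := by
  simp only [pol_coeff]
  split_ifs with h
  · exact (continuous_apply _).comp continuous_snd
  · exact continuous_const

/-- the resultant is a continuous function of the coefficients -/
theorem rs_cont {d : ℕ} : Continuous (rs : E d → ℝ) := by
  unfold rs resultant
  apply Continuous.norm
  apply Continuous.matrix_det
  apply continuous_matrix
  intro i j
  refine Fin.addCases (fun j₁ => ?_) (fun j₁ => ?_) j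
  · simp only [sylvester, Matrix.of_apply, Fin.addCases_left]
    split_ifs
    · exact lb_coeff_snd _
    · exact continuous_const
  · simp only [sylvester, Matrix.of_apply, Fin.addCases_right]
    split_ifs
    · exact lb_coeff_fst _
    · exact continuous_const

/-- product of a disc and a region `GG` -/
private theorem lb_prod (d : ℕ) {η : ℝ} (hη : 0 ≤ η) (t : ℝ) :
    volume {y : V d | ‖y (Fin.last d)‖ ≤ η ∧ (fun j : Fin d => y j.castSucc) ∈ GG d η t} =
      ENNReal.ofReal (Real.pi * η ^ 2) * volume (GG d η t) := by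
  have hmp := volume_preserving_piFinSuccAbove (fun _ : Fin (d + 1) => ℂ) (Fin.last d)
  have hset : {y : V d | ‖y (Fin.last d)‖ ≤ η ∧ (fun j : Fin d => y j.castSucc) ∈ GG d η t} =
      (MeasurableEquiv.piFinSuccAbove (fun _ : Fin (d + 1) => ℂ) (Fin.last d)) ⁻¹'
        ({a : ℂ | ‖a‖ ≤ η} ×ˢ GG d η t) := by
    ext y
    have h1 : ((MeasurableEquiv.piFinSuccAbove (fun _ : Fin (d + 1) => ℂ) (Fin.last d)) y).1 =
      y (Fin.last d) := rfl
    have h2 : ((MeasurableEquiv.piFinSuccAbove (fun _ : Fin (d + 1) => ℂ) (Fin.last d)) y).2 =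
        fun j : Fin d => y j.castSucc := by
      funext j
      show y ((Fin.last d).succAbove j) = y j.castSucc
      rw [Fin.succAbove_last]
    rw [mem_preimage, mem_prod, h1, h2]
    rfl
  have hm : MeasurableSet ({a : ℂ | ‖a‖ ≤ η} ×ˢ GG d η t) :=
    (measurableSet_le measurable_norm measurable_const).prod (GG_meas d η t)
  rw [hset, hmp.measure_preimage hm.nullMeasurableSet, Measure.volume_eq_prod,
    Measure.prod_prod, disc_vol hη]

/-
exists_mk: x with mk x = pol b, q = b (last d), |q| <= 1. rs (p, b) = |q|^d prod |p(z j)| (rs_mk)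
<= prod |p (z j)|. evL x is bijective (det_evL, vd_ne_zero), so there is η in (0, 1] with:
all |evl x p i| <= η implies ‖p‖ <= 1 (the inverse is continuous, finite dimension). The set contains
the preimage under evL x of {y | |y (last)| <= η and (y j.castSucc)_j ∈ GG d η δ}, of volume
‖vd x‖^(-2) π η^2 vol (GG d η δ) (Measure.addHaar_preimage_linearMap with det_real, det_evL;
volume_preserving_piFinSuccAbove at Fin.last d). vol_low with n = d - 1.
-/
theorem low_fibre {d : ℕ} (hd : 1 ≤ d) {b : V d} (hb : ‖b‖ ≤ 1) (h1 : b (Fin.last d) ≠ 0)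
    (h2 : (pol b).roots.Nodup) : ∃ c : ℝ, 0 < c ∧ ∀ δ : ℝ, 0 < δ → δ ≤ 1 / 2 →
      ENNReal.ofReal (c * δ ^ 2 * (Real.log (1 / δ)) ^ (d - 1)) ≤
        volume {p : V d | ‖p‖ ≤ 1 ∧ rs ((p, b) : E d) ≤ δ} := by
  have htop : (pol b).coeff d = b (Fin.last d) := by
    rw [pol_coeff, dif_pos (Nat.lt_succ_self d)]
    rfl
  obtain ⟨x, hx1, hx2, hx3⟩ := exists_mk (pol_natDegree b) (by rw [htop]; exact h1) h2
  rw [htop] at hx2
  have hq : x (Fin.last d) ≠ 0 := by rw [hx2]; exact h1
  have hq1 : ‖x (Fin.last d)‖ ≤ 1 := by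
    rw [hx2]
    exact (norm_le_pi_norm b _).trans hb
  have hvd : vd x ≠ 0 := vd_ne_zero.2 hx3
  have hdet : LinearMap.det (evL x) ≠ 0 := by rw [det_evL]; exact hvd
  -- the inverse of the evaluation map
  have hunit : IsUnit (evL x) := by
    rw [LinearMap.isUnit_iff_isUnit_det]
    exact isUnit_iff_ne_zero.2 hdet
  have hker : LinearMap.ker (evL x) = ⊥ := (LinearMap.isUnit_iff_ker_eq_bot _).1 hunit
  obtain ⟨K, hK0, hK⟩ := (evL x).exists_antilipschitzWith hker
  have hKn : ∀ p : V d, ‖p‖ ≤ K * ‖evl x p‖ := by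
    intro p
    exact hK.le_mul_norm (map_zero (evL x)) p
  have hK0' : (0 : ℝ) < K := by exact_mod_cast hK0
  set η : ℝ := min 1 (1 / K) with hη
  have hη0 : 0 < η := lt_min one_pos (by positivity)
  have hη1 : η ≤ 1 := min_le_left _ _
  have hηK : K * η ≤ 1 := by
    have h3 : η ≤ 1 / K := min_le_right _ _
    calc (K : ℝ) * η ≤ K * (1 / K) := by gcongr
      _ = 1 := by field_simp
  obtain ⟨n, rfl⟩ : ∃ n, d = n + 1 := ⟨d - 1, by omega⟩
  obtain ⟨c, hc, hlow⟩ := vol_low n hη0 hη1
  have hvd0 : 0 < ‖vd x‖ := norm_pos_iff.2 hvd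
  have hpi := Real.pi_pos
  refine ⟨(‖vd x‖ ^ 2)⁻¹ * (Real.pi * η ^ 2) * c, by positivity, fun δ hδ hδ2 => ?_⟩
  have hL : 0 ≤ Real.log (1 / δ) := Real.log_nonneg (by rw [le_div_iff₀ hδ]; linarith)
  set W : Set (V (n + 1)) := {y : V (n + 1) | ‖y (Fin.last (n + 1))‖ ≤ η ∧
    (fun j : Fin (n + 1) => y j.castSucc) ∈ GG (n + 1) η δ} with hW
  have hsub : ((evL x).restrictScalars ℝ) ⁻¹' W ⊆
      {p : V (n + 1) | ‖p‖ ≤ 1 ∧ rs ((p, b) : E (n + 1)) ≤ δ} := by
    intro p hp
    have hp' : evl x p ∈ W := hp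
    obtain ⟨hp1, hp2, hp3⟩ := hp'
    have hn : ‖evl x p‖ ≤ η := by
      rw [pi_norm_le_iff_of_nonneg hη0.le]
      intro i
      refine Fin.lastCases hp1 (fun j => ?_) i
      exact hp2 j
    refine ⟨?_, ?_⟩
    · calc ‖p‖ ≤ K * ‖evl x p‖ := hKn p
        _ ≤ K * η := by gcongr
        _ ≤ 1 := hηK
    · show ‖resultant (pol p) (pol b) (n + 1) (n + 1)‖ ≤ δ
      rw [← hx1, rs_mk hq (pol_natDegree p)]
      have h3 : ∏ j : Fin (n + 1), ‖(pol p).eval (x j.castSucc)‖ ≤ δ := by
        refine le_trans (le_of_eq ?_) hp3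
        refine Finset.prod_congr rfl (fun j _ => ?_)
        show _ = ‖evl x p j.castSucc‖
        rw [evl_castSucc]
      have h4 : ‖x (Fin.last (n + 1))‖ ^ (n + 1) ≤ 1 := pow_le_one₀ (norm_nonneg _) hq1
      have h5 : 0 ≤ ∏ j : Fin (n + 1), ‖(pol p).eval (x j.castSucc)‖ :=
        Finset.prod_nonneg (fun _ _ => norm_nonneg _)
      calc _ ≤ 1 * ∏ j : Fin (n + 1), ‖(pol p).eval (x j.castSucc)‖ := by gcongr
        _ ≤ δ := by rw [one_mul]; exact h3
  have hdr := det_real (evL x)
  rw [det_evL] at hdr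
  have hdr0 : LinearMap.det ((evL x).restrictScalars ℝ) ≠ 0 := by
    intro h0
    rw [h0, abs_zero] at hdr
    have : 0 < ‖vd x‖ ^ 2 := by positivity
    linarith
  have hhaar : (volume : Measure (V (n + 1))).IsAddHaarMeasure := by
    rw [volume_pi]
    infer_instance
  have hvol := Measure.addHaar_preimage_linearMap (volume : Measure (V (n + 1))) hdr0 W
  rw [abs_inv, hdr] at hvol
  refine le_trans ?_ (measure_mono hsub)
  rw [hvol, hW, lb_prod (n + 1) hη0.le δ]
  refine le_trans ?_ (mul_le_mul le_rfl (mul_le_mul le_rfl (hlow δ hδ hδ2) zero_le zero_le)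
    zero_le zero_le)
  rw [← ENNReal.ofReal_mul (by positivity), ← ENNReal.ofReal_mul (by positivity)]
  apply ENNReal.ofReal_le_ofReal
  apply le_of_eq
  rw [Nat.add_sub_cancel]
  ring

/-
f δ b = volume {p | ‖p‖ <= 1 ∧ rs (p, b) <= δ} is measurable in b and the volume in the statement is
the integral of f δ over the unit ball of b (Measure.prod_apply_symm; the norm of a pair is the
maximum). A n = {b | ‖b‖ <= 1, for all δ in (0,1/2]: ofReal ((1/(n+1)) δ^2 L^(d-1)) <= f δ b}. By
low_fibre and ae_generic almost every b in the unit ball is in some A n, so some A n has positive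
(outer) measure m, which can be taken finite (contained in the ball). For each δ the measurable set
{b in the ball | ofReal (..) <= f δ b} contains A n, so the integral is at least ofReal (..) * m
(mul_meas_ge_le_lintegral or lintegral_mono on the set). c = m.toReal/(n+1).
-/
theorem low {d : ℕ} (hd : 1 ≤ d) : ∃ c : ℝ, 0 < c ∧ ∀ δ : ℝ, 0 < δ → δ ≤ 1 / 2 →
    ENNReal.ofReal (c * δ ^ 2 * (Real.log (1 / δ)) ^ (d - 1)) ≤
      volume {v : E d | ‖v‖ ≤ 1 ∧ rs v ≤ δ} := by
  set A : ℕ → Set (V d) := fun n => {b | ‖b‖ ≤ 1 ∧ ∀ δ : ℝ, 0 < δ → δ ≤ 1 / 2 →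
    ENNReal.ofReal (1 / ((n : ℝ) + 1) * δ ^ 2 * (Real.log (1 / δ)) ^ (d - 1)) ≤
      volume {p : V d | ‖p‖ ≤ 1 ∧ rs ((p, b) : E d) ≤ δ}} with hA
  have hhaar : (volume : Measure (V d)).IsAddHaarMeasure := by
    rw [volume_pi]
    infer_instance
  have hcov : ∀ᵐ b : V d, ‖b‖ ≤ 1 → ∃ n, b ∈ A n := by
    filter_upwards [ae_generic hd] with b hb hb1
    obtain ⟨c, hc, hcl⟩ := low_fibre hd hb1 hb.1 hb.2
    obtain ⟨n, hn⟩ := exists_nat_one_div_lt hc
    refine ⟨n, hb1, fun δ hδ hδ2 => le_trans ?_ (hcl δ hδ hδ2)⟩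
    apply ENNReal.ofReal_le_ofReal
    have hL : 0 ≤ Real.log (1 / δ) := Real.log_nonneg (by rw [le_div_iff₀ hδ]; linarith)
    gcongr
  have hex : ∃ n, volume (A n) ≠ 0 := by
    by_contra hcon
    push Not at hcon
    have h1 : volume (⋃ n, A n) = 0 := measure_iUnion_null hcon
    have h2 : volume (closedBall (0 : V d) 1) ≤ volume (⋃ n, A n) := by
      apply measure_mono_ae
      filter_upwards [hcov] with b hb hb1
      obtain ⟨n, hn⟩ := hb (mem_closedBall_zero_iff.1 hb1)
      exact mem_iUnion.2 ⟨n, hn⟩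
    have h3 : 0 < volume (closedBall (0 : V d) 1) := measure_closedBall_pos _ _ one_pos
    rw [h1] at h2
    exact absurd h2 (not_le.2 h3)
  obtain ⟨n, hn⟩ := hex
  have hfin : volume (A n) ≠ ⊤ := by
    have h4 : volume (closedBall (0 : V d) 1) ≠ ⊤ :=
      (isCompact_closedBall (0 : V d) 1).measure_lt_top.ne
    refine ne_top_of_le_ne_top h4 (measure_mono ?_)
    intro b hb
    exact mem_closedBall_zero_iff.2 hb.1
  have hm0 : 0 < (volume (A n)).toReal := ENNReal.toReal_pos hn hfin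
  refine ⟨1 / ((n : ℝ) + 1) * (volume (A n)).toReal, by positivity, fun δ hδ hδ2 => ?_⟩
  have hL : 0 ≤ Real.log (1 / δ) := Real.log_nonneg (by rw [le_div_iff₀ hδ]; linarith)
  set S : Set (E d) := {v : E d | ‖v‖ ≤ 1 ∧ rs v ≤ δ} with hS
  have hSm : MeasurableSet S := by
    apply IsClosed.measurableSet
    exact (isClosed_le continuous_norm continuous_const).inter
      (isClosed_le rs_cont continuous_const)
  have hvol : volume S = ∫⁻ b : V d, volume ((fun p : V d => (p, b)) ⁻¹' S) := by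
    rw [Measure.volume_eq_prod, Measure.prod_apply_symm hSm]
  set ε : ENNReal := ENNReal.ofReal (1 / ((n : ℝ) + 1) * δ ^ 2 * (Real.log (1 / δ)) ^ (d - 1))
    with hε
  have hmeas : Measurable fun b : V d => volume ((fun p : V d => (p, b)) ⁻¹' S) :=
    measurable_measure_prodMk_right hSm
  have h1 := mul_meas_ge_le_lintegral hmeas ε (μ := (volume : Measure (V d)))
  rw [hvol]
  refine le_trans ?_ h1
  have h2 : A n ⊆ {b : V d | ε ≤ volume ((fun p : V d => (p, b)) ⁻¹' S)} := by
    intro b hb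
    refine (hb.2 δ hδ hδ2).trans (measure_mono ?_)
    intro p hp
    refine ⟨?_, hp.2⟩
    show ‖((p, b) : E d)‖ ≤ 1
    rw [Prod.norm_mk]
    exact max_le hp.1 hb.1
  refine le_trans ?_ (mul_le_mul le_rfl (measure_mono h2) zero_le zero_le)
  rw [← ENNReal.ofReal_toReal hfin, hε, ← ENNReal.ofReal_mul (by positivity)]
  apply ENNReal.ofReal_le_ofReal
  rw [ENNReal.toReal_ofReal ENNReal.toReal_nonneg]
  apply le_of_eq
  ring

end Pool.Agent.H84.SR
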