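import Pool.Agent.H84.SR.Cover
import Pool.Agent.H84.SR.Est
import Pool.Agent.H84.SR.LowB
import Pool.Agent.H84.SR.Frames
import Pool.Agent.H84.SR.Lin

/-!
# Almost every rational map of small resultant is hyperbolic
-/

set_option autoImplicit false

open MeasureTheory Metric Set Polynomial

namespace Pool.Agent.H84.SR

open Pool.Agent.H44.Fatou Pool.Agent.H32.BT

/-
K from cover. Let Y' be the v in Y d α δ with the two generic properties (ae_generic_fr): Y minus Y'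
is null. S = fr2 α d '' Y'. By cover the hypothesis of jac (T = TT α K δ, TT_meas) holds for S:
for v' = fr2 α d v: v'.2 = cf d (fr α d (pol v.2)) = cf d (mk x), v'.1 = cf d (fr α d (pol v.1)).
So volume Y <= volume Y' <= C volume S (lin_bound) <= C * est.
-/
theorem vol_Y {d : ℕ} (hd : 2 ≤ d) {α : ℂ} (hα : ‖α‖ = 1) : ∃ C : ℝ, 0 < C ∧
    ∀ δ : ℝ, 0 < δ → δ ≤ 1 / 2 →
      volume (Y d α δ) ≤ ENNReal.ofReal (C * δ ^ 2 * (Real.log (1 / δ)) ^ (d - 2)) := by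
  obtain ⟨K, hK, hcov⟩ := cover hd hα
  obtain ⟨C1, hC1, hest⟩ := est hd hα hK
  obtain ⟨C2, hC2, hlin⟩ := lin_bound α d
  refine ⟨C2 * C1, by positivity, fun δ hδ hδ2 => ?_⟩
  set Y' : Set (E d) := {v ∈ Y d α δ | (fr α d (pol v.2)).coeff d ≠ 0 ∧
    (fr α d (pol v.2)).roots.Nodup} with hY'
  have h1 : volume (Y d α δ) ≤ volume Y' := by
    have h2 := ae_generic_fr α (d := d) (by omega)
    apply measure_mono_ae
    filter_upwards [h2] with v hv hvY
    exact ⟨hvY, hv⟩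
  have h3 := hlin Y'
  have h4 : volume (fr2 α d '' Y') ≤
      ∫⁻ a in TT (d := d) α K δ, ENNReal.ofReal (‖a.1 (Fin.last d)‖ ^ (4 * d + 2)) := by
    apply jac (TT_meas α K δ)
    rintro _ ⟨v, ⟨hv, hv1, hv2⟩, rfl⟩
    obtain ⟨x, y, hxy, hq, hinj, hmk, hev⟩ := hcov δ v hv hv1 hv2
    exact ⟨x, y, hxy, hq, hinj, hmk, hev⟩
  calc volume (Y d α δ) ≤ volume Y' := h1
    _ ≤ ENNReal.ofReal C2 * volume (fr2 α d '' Y') := h3
    _ ≤ ENNReal.ofReal C2 *
        ENNReal.ofReal (C1 * δ ^ 2 * (Real.log (1 / δ)) ^ (d - 2)) := by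
        gcongr
        exact h4.trans (hest δ hδ hδ2)
    _ = _ := by
        rw [← ENNReal.ofReal_mul hC2.le]
        congr 1
        ring

/-
bad_cover, vol_Y for α and α⁻¹ (‖α⁻¹‖ = 1), measure_biUnion_finset_le, inv2_mp. The preimage under
inv2 of a possibly nonmeasurable set: inv2 is an involution and a measurable equivalence (or use a
measurable superset, toMeasurable).
-/
theorem up {d : ℕ} (hd : 2 ≤ d) : ∃ C : ℝ, 0 < C ∧ ∀ δ : ℝ, 0 < δ → δ ≤ 1 / 2 →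
    volume {v : E d | ‖v‖ ≤ 1 ∧ rs v ≤ δ ∧ ¬ HypDeg d (pol v.1) (pol v.2)} ≤
      ENNReal.ofReal (C * δ ^ 2 * (Real.log (1 / δ)) ^ (d - 2)) := by
  obtain ⟨s, hs, hcov⟩ := bad_cover (d := d) (by omega)
  have h1 : ∀ α : ℂ, ‖α‖ = 1 → ∃ C : ℝ, 0 < C ∧ ∀ δ : ℝ, 0 < δ → δ ≤ 1 / 2 →
      volume (Y d α δ) ≤ ENNReal.ofReal (C * δ ^ 2 * (Real.log (1 / δ)) ^ (d - 2)) :=
    fun α hα => vol_Y hd hα
  choose! C hC using h1
  have hs' : ∀ α ∈ s, ‖α⁻¹‖ = 1 := by
    intro α hα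
    rw [norm_inv, hs α hα, inv_one]
  refine ⟨(∑ α ∈ s, (C α + C α⁻¹)) + 1, ?_, fun δ hδ hδ2 => ?_⟩
  · have : 0 ≤ ∑ α ∈ s, (C α + C α⁻¹) :=
      Finset.sum_nonneg fun α hα => add_nonneg (hC α (hs α hα)).1.le (hC _ (hs' α hα)).1.le
    linarith
  have hL : 0 < Real.log (1 / δ) := by
    apply Real.log_pos
    rw [lt_div_iff₀ hδ]
    linarith
  have hpre : ∀ S : Set (E d), volume (inv2 d ⁻¹' S) ≤ volume S := by
    intro S
    calc volume (inv2 d ⁻¹' S) ≤ volume (inv2 d ⁻¹' toMeasurable volume S) :=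
          measure_mono (preimage_mono (subset_toMeasurable _ _))
      _ = volume (toMeasurable volume S) :=
          (inv2_mp d).measure_preimage (measurableSet_toMeasurable _ _).nullMeasurableSet
      _ = volume S := measure_toMeasurable _
  set F : ℝ := δ ^ 2 * (Real.log (1 / δ)) ^ (d - 2) with hF
  have hF0 : 0 ≤ F := by positivity
  have e1 : volume (⋃ α ∈ s, Y d α δ) ≤ ∑ α ∈ s, ENNReal.ofReal (C α * F) := by
    refine (measure_biUnion_finset_le _ _).trans (Finset.sum_le_sum fun α hα => ?_)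
    have := (hC α (hs α hα)).2 δ hδ hδ2
    rwa [mul_assoc] at this
  have e2 : volume (⋃ α ∈ s, inv2 d ⁻¹' (Y d α⁻¹ δ)) ≤
      ∑ α ∈ s, ENNReal.ofReal (C α⁻¹ * F) := by
    refine (measure_biUnion_finset_le _ _).trans (Finset.sum_le_sum fun α hα => ?_)
    have := (hC _ (hs' α hα)).2 δ hδ hδ2
    rw [mul_assoc] at this
    exact (hpre _).trans this
  calc volume {v : E d | ‖v‖ ≤ 1 ∧ rs v ≤ δ ∧ ¬ HypDeg d (pol v.1) (pol v.2)}
      ≤ volume ((⋃ α ∈ s, Y d α δ) ∪ ⋃ α ∈ s, inv2 d ⁻¹' (Y d α⁻¹ δ)) :=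
        measure_mono (hcov δ)
    _ ≤ volume (⋃ α ∈ s, Y d α δ) + volume (⋃ α ∈ s, inv2 d ⁻¹' (Y d α⁻¹ δ)) :=
        measure_union_le _ _
    _ ≤ (∑ α ∈ s, ENNReal.ofReal (C α * F)) + ∑ α ∈ s, ENNReal.ofReal (C α⁻¹ * F) :=
        add_le_add e1 e2
    _ = ENNReal.ofReal ((∑ α ∈ s, (C α + C α⁻¹)) * F) := by
        rw [← ENNReal.ofReal_sum_of_nonneg, ← ENNReal.ofReal_sum_of_nonneg,
          ← ENNReal.ofReal_add, ← Finset.sum_add_distrib, Finset.sum_mul]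
        · congr 1
          exact Finset.sum_congr rfl fun α _ => by ring
        · exact Finset.sum_nonneg fun α hα => mul_nonneg (hC α (hs α hα)).1.le hF0
        · exact Finset.sum_nonneg fun α hα => mul_nonneg (hC _ (hs' α hα)).1.le hF0
        · exact fun α hα => mul_nonneg (hC _ (hs' α hα)).1.le hF0
        · exact fun α hα => mul_nonneg (hC α (hs α hα)).1.le hF0
    _ ≤ _ := by
        apply ENNReal.ofReal_le_ofReal
        rw [mul_assoc _ (δ ^ 2)]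
        apply mul_le_mul_of_nonneg_right _ hF0
        linarith

/-
up and low: L^(d-2) = L^(d-1) / L with L = log (1/δ) > 0.
-/
theorem main {d : ℕ} (hd : 2 ≤ d) : ∃ C : ℝ, 0 < C ∧ ∀ δ : ℝ, 0 < δ → δ ≤ 1 / 2 →
    volume {v : E d | ‖v‖ ≤ 1 ∧ rs v ≤ δ ∧ ¬ HypDeg d (pol v.1) (pol v.2)} ≤
      ENNReal.ofReal (C / Real.log (1 / δ)) * volume {v : E d | ‖v‖ ≤ 1 ∧ rs v ≤ δ} := by
  obtain ⟨C, hC, hup⟩ := up hd
  obtain ⟨c, hc, hlow⟩ := low (d := d) (by omega)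
  refine ⟨C / c, by positivity, fun δ hδ hδ2 => ?_⟩
  have hL : 0 < Real.log (1 / δ) := by
    apply Real.log_pos
    rw [lt_div_iff₀ hδ]
    linarith
  refine (hup δ hδ hδ2).trans ?_
  calc ENNReal.ofReal (C * δ ^ 2 * (Real.log (1 / δ)) ^ (d - 2))
      = ENNReal.ofReal (C / c / Real.log (1 / δ)) *
          ENNReal.ofReal (c * δ ^ 2 * (Real.log (1 / δ)) ^ (d - 1)) := by
        rw [← ENNReal.ofReal_mul (by positivity)]
        congr 1
        have : d - 1 = d - 2 + 1 := by omega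
        rw [this]
        field_simp
        ring
    _ ≤ _ := by
        gcongr
        exact hlow δ hδ hδ2

end Pool.Agent.H84.SR
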