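import Pool.Agent.H84.SR.Lim
import Pool.Agent.H44.Fatou.Gen

/-!
# Generic limit pairs are robust
-/

set_option autoImplicit false

open Filter Topology Polynomial Metric Set MeasureTheory

namespace Pool.Agent.H84.SR

open Pool.Agent.H44.Fatou Pool.Agent.H32.BT

/-
The matrix ((1, -z), (c', b - c' z)) has trace T = 1 + b - c' z and determinant b. Let l1, l2 be its
eigenvalues (roots of X^2 - T X + b). If |l1| = |l2| then, with s^2 = b, n_i = l_i/s satisfy
n1 n2 = 1, |n1| = |n2| = 1, n2 = conj n1 and T/s = n1 + n2 is real, excluded by hT. So we may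
assume |l2| < |l1|; both are nonzero because l1 l2 = b. a = (l1 - (b - c' z))/c' (so
c' a + (b - c' z) = l1), and then l2 + c' a = T - (b - c' z) = 1, and
-c' a^2 + (l1 - l2) a = -z from the characteristic equation of l1 (multiply by c').
-/
theorem mob_nf {z c' b s : ℂ} (hc : c' ≠ 0) (hb : b ≠ 0) (hs : s ^ 2 = b)
    (hT : ((1 + b - c' * z) / s).im ≠ 0) : ∃ a l1 l2 : ℂ, l1 ≠ 0 ∧ l2 ≠ 0 ∧ ‖l2‖ < ‖l1‖ ∧
      l2 + c' * a = 1 ∧ -c' * a ^ 2 + (l1 - l2) * a = -z ∧ l1 - c' * a = b - c' * z := by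
  have hs0 : s ≠ 0 := by
    intro h
    rw [h] at hs
    apply hb
    rw [← hs]
    ring
  obtain ⟨T, hTd⟩ : ∃ T, T = 1 + b - c' * z := ⟨_, rfl⟩
  rw [← hTd] at hT
  obtain ⟨q, hq⟩ : ∃ q : ℂ, q ^ 2 = T ^ 2 - 4 * b :=
    IsAlgClosed.exists_pow_nat_eq (T ^ 2 - 4 * b) (n := 2) (by norm_num)
  obtain ⟨u, hu⟩ : ∃ u, u = (T + q) / 2 := ⟨_, rfl⟩
  obtain ⟨t, ht⟩ : ∃ t, t = (T - q) / 2 := ⟨_, rfl⟩
  have hsum : u + t = T := by rw [hu, ht]; ring
  have hprod : u * t = b := by
    rw [hu, ht]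
    linear_combination (-1 / 4 : ℂ) * hq
  have hu0 : u ≠ 0 := by
    intro h
    rw [h, zero_mul] at hprod
    exact hb hprod.symm
  have ht0 : t ≠ 0 := by
    intro h
    rw [h, mul_zero] at hprod
    exact hb hprod.symm
  have hne : ‖u‖ ≠ ‖t‖ := by
    intro h
    apply hT
    have h1 : (u / s) * (t / s) = 1 := by
      rw [div_mul_div_comm, hprod, ← sq, hs, div_self hb]
    have h2 : ‖u / s‖ = ‖t / s‖ := by rw [norm_div, norm_div, h]
    have h3 : ‖u / s‖ * ‖u / s‖ = 1 := by
      nth_rewrite 2 [h2]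
      rw [← norm_mul, h1, norm_one]
    have h4 : ‖u / s‖ = 1 := by
      nlinarith [norm_nonneg (u / s)]
    have h5 : t / s = (starRingEnd ℂ) (u / s) := by
      have h6 : (u / s) * (starRingEnd ℂ) (u / s) = 1 := by
        rw [Complex.mul_conj, Complex.normSq_eq_norm_sq, h4]
        norm_num
      have h7 : u / s ≠ 0 := div_ne_zero hu0 hs0
      exact mul_left_cancel₀ h7 (h1.trans h6.symm)
    rw [← hsum, add_div, h5, Complex.add_im, Complex.conj_im]
    ring
  have key : ∀ l1 l2 : ℂ, l1 ≠ 0 → l2 ≠ 0 → l1 + l2 = T → l1 * l2 = b → ‖l2‖ < ‖l1‖ →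
      ∃ a l1 l2 : ℂ, l1 ≠ 0 ∧ l2 ≠ 0 ∧ ‖l2‖ < ‖l1‖ ∧
      l2 + c' * a = 1 ∧ -c' * a ^ 2 + (l1 - l2) * a = -z ∧ l1 - c' * a = b - c' * z := by
    intro l1 l2 h1 h2 h3 h4 h5
    have e1 : c' * ((l1 - (b - c' * z)) / c') = l1 - (b - c' * z) := mul_div_cancel₀ _ hc
    refine ⟨(l1 - (b - c' * z)) / c', l1, l2, h1, h2, h5, ?_, ?_, ?_⟩
    · rw [e1]
      linear_combination h3 + hTd
    · apply mul_left_cancel₀ hc
      have e2 : c' * (-c' * ((l1 - (b - c' * z)) / c') ^ 2 +
          (l1 - l2) * ((l1 - (b - c' * z)) / c')) =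
          -(c' * ((l1 - (b - c' * z)) / c')) ^ 2 +
            (l1 - l2) * (c' * ((l1 - (b - c' * z)) / c')) := by ring
      rw [e2, e1]
      have e3 : l1 - (b - c' * z) = 1 - l2 := by linear_combination h3 + hTd
      rw [e3]
      linear_combination h3 + hTd - h4
    · rw [e1]
      ring
  rcases lt_or_gt_of_ne hne with h | h
  · exact key t u ht0 hu0 (by rw [add_comm]; exact hsum) (by rw [mul_comm]; exact hprod) h
  · exact key u t hu0 ht0 hsum hprod h

/-
mob_nf, then mobdata_of_generic (H44/Fatou/Gen) with g = c', l = 1, k = d - 1 and h = the list of the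
z i, i <> k. S = {a, a + (l2 - l1)/c'} ∪ the w with (l2/l1)^n * ze a r w = 1 for some n,
R y = the w with (l2/l1)^n ze a r y = ze a r w for some n (countable by ze_fib, l2/l1 <> 0; only
the order (i, j) in both directions is needed and R is used for all ordered pairs).
The polynomial hk x k = C 1 * prod (X - C (h i)) after listing univ.erase k as Fin (d-1)
(Finset.equivFin / orderIsoOfFin), natDegree d - 1; C 1 * X + C (-z) = X - C z etc.
mob_main gives ρ > 0 such that all coprime pairs of degree d within ρ of the limit are Hyp, hence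
HypMap (hyp_iff); so the ball of radius ρ around lim0 (maximum norm of the coefficients) does not meet
NH d (pol, cf_pol).
-/
theorem rob_generic {d : ℕ} (hd : 2 ≤ d) {z c' b s : ℂ} (hc : c' ≠ 0) (hb : b ≠ 0)
    (hs : s ^ 2 = b) (hT : ((1 + b - c' * z) / s).im ≠ 0) :
    ∃ (S : Set ℂ) (R : ℂ → Set ℂ), S.Countable ∧ (∀ y, (R y).Countable) ∧
      MeasurableSet {p : ℂ × ℂ | p.2 ∈ R p.1} ∧
      ∀ (x : V d) (k : Fin d), x k.castSucc = z →
        (∀ i : Fin d, i ≠ k → x i.castSucc ∉ S) →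
        (∀ i j : Fin d, i ≠ k → j ≠ k → i ≠ j → x j.castSucc ∉ R (x i.castSucc)) →
        lim0 x k c' b ∉ closure (NH d) := by
  obtain ⟨a, l1, l2, h1, h2, hlt, e1, e2, e3⟩ := mob_nf hc hb hs hT
  obtain ⟨r, hr⟩ : ∃ r, r = a + (l2 - l1) / c' := ⟨_, rfl⟩
  have hll : l2 - l1 ≠ 0 := by
    intro h3
    rw [sub_eq_zero.1 h3] at hlt
    exact lt_irrefl _ hlt
  have har : a ≠ r := by
    intro h
    rw [hr] at h
    have : (l2 - l1) / c' = 0 := by linear_combination -h
    exact div_ne_zero hll hc this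
  have hκ0 : l2 / l1 ≠ 0 := div_ne_zero h2 h1
  refine ⟨{r, a} ∪ ⋃ n : ℕ, {w | ze a r w = ((l2 / l1) ^ n)⁻¹},
    fun y => ⋃ n : ℕ, {w | ze a r w = (l2 / l1) ^ n * ze a r y}, ?_, ?_, ?_, ?_⟩
  · apply Set.Countable.union
    · exact ((Set.finite_singleton a).insert r).countable
    · exact Set.countable_iUnion fun n => ze_fib a r har _
  · intro y
    exact Set.countable_iUnion fun n => ze_fib a r har _
  · have hze : Measurable (fun w : ℂ => ze a r w) := by
      unfold ze
      exact (measurable_id.sub_const a).div (measurable_id.sub_const r)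
    have he : {p : ℂ × ℂ | p.2 ∈ ⋃ n : ℕ, {w | ze a r w = (l2 / l1) ^ n * ze a r p.1}} =
        ⋃ n : ℕ, {p : ℂ × ℂ | ze a r p.2 = (l2 / l1) ^ n * ze a r p.1} := by
      ext p
      simp only [Set.mem_iUnion, Set.mem_setOf_eq]
    rw [he]
    exact MeasurableSet.iUnion fun n => measurableSet_eq_fun (hze.comp measurable_snd)
      ((hze.comp measurable_fst).const_mul _)
  intro x k hxk hS hR
  have hcard : (Finset.univ.erase k : Finset (Fin d)).card = d - 1 := by
    rw [Finset.card_erase_of_mem (Finset.mem_univ k), Finset.card_univ, Fintype.card_fin]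
  obtain ⟨e, -⟩ : ∃ e : (Finset.univ.erase k : Finset (Fin d)) ≃ Fin (d - 1), True :=
    ⟨Finset.equivFinOfCardEq hcard, trivial⟩
  obtain ⟨h, hh⟩ : ∃ h : Fin (d - 1) → ℂ, h = fun i => x (e.symm i : Fin d).castSucc := ⟨_, rfl⟩
  have hek : ∀ i, (e.symm i : Fin d) ≠ k := fun i => Finset.ne_of_mem_erase (e.symm i).2
  have hprod : hk x k = ∏ i : Fin (d - 1), (X - C (h i)) := by
    unfold hk
    rw [← Finset.prod_coe_sort, ← Equiv.prod_comp e.symm, hh]
  have hnotS : ∀ i, h i ∉ ({r, a} ∪ ⋃ n : ℕ, {w | ze a r w = ((l2 / l1) ^ n)⁻¹} : Set ℂ) := by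
    intro i
    rw [hh]
    exact hS _ (hek i)
  have D : MobData (l2 + c' * a) (-c' * a ^ 2 + (l1 - l2) * a) c' (l1 - c' * a) a
      (C 1 * ∏ i, (X - C (h i))) := by
    apply mobdata_of_generic hc h1 h2 hlt one_ne_zero
    · intro i hi
      exact hnotS i (Or.inl (Or.inl (by rw [hr]; exact hi)))
    · intro i hi
      exact hnotS i (Or.inl (Or.inr hi))
    · intro i n hn
      apply hnotS i
      right
      refine Set.mem_iUnion.2 ⟨n, ?_⟩
      show ze a r (h i) = ((l2 / l1) ^ n)⁻¹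
      rw [← hr] at hn
      exact eq_inv_of_mul_eq_one_right hn
    · intro i j hij n hn
      rw [← hr] at hn
      have hij' : (e.symm i : Fin d) ≠ (e.symm j : Fin d) := by
        intro h5
        apply hij
        exact e.symm.injective (Subtype.ext h5)
      have h6 := hR (e.symm i) (e.symm j) (hek i) (hek j) hij'
      apply h6
      refine Set.mem_iUnion.2 ⟨n, ?_⟩
      show ze a r (x (e.symm j : Fin d).castSucc) = _
      rw [hh] at hn
      exact hn.symm
  rw [e1, e2, e3, map_one, one_mul, ← hprod] at D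
  have hmon : (hk x k).Monic := by
    rw [hprod]
    exact monic_prod_X_sub_C _ _
  have hdeg : (hk x k).natDegree = d - 1 := by
    rw [hprod, natDegree_prod_of_monic _ _ (fun j _ => monic_X_sub_C _)]
    simp
  obtain ⟨ρ, hρ, hmob⟩ := mob_main D
  intro hcl
  rw [Metric.mem_closure_iff] at hcl
  obtain ⟨v, hv, hdist⟩ := hcl ρ hρ
  obtain ⟨hv1, hv2, hv3⟩ := hv
  apply hv3
  rw [← hyp_iff hv1 (by omega)]
  have hA : (C 1 * X + C (-z)) * hk x k = (X - C (x k.castSucc)) * hk x k := by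
    rw [hxk, map_one, one_mul, map_neg, sub_eq_add_neg]
  have hB : (C c' * X + C (b - c' * z)) * hk x k =
      (C c' * (X - C (x k.castSucc)) + C b) * hk x k := by
    rw [hxk, map_sub, map_mul]
    ring
  have hdA : ((X - C (x k.castSucc)) * hk x k).natDegree ≤ d := by
    refine natDegree_mul_le.trans ?_
    rw [hdeg, natDegree_X_sub_C]
    omega
  have hdB : ((C c' * X + C (b - c' * z)) * hk x k).natDegree ≤ d := by
    refine natDegree_mul_le.trans ?_
    rw [hdeg]
    have : (C c' * X + C (b - c' * z)).natDegree ≤ 1 := natDegree_linear_le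
    omega
  have hdv1 := pol_natDegree v.1
  have hdv2 := pol_natDegree v.2
  apply hmob _ _ hv1
  · rw [hv2, hdeg]
    omega
  · intro i
    rw [hA]
    rcases Nat.lt_or_ge i (d + 1) with hi | hi
    · rw [pol_coeff, dif_pos hi]
      have h7 : dist (lim0 x k c' b).1 v.1 < ρ :=
        lt_of_le_of_lt (by rw [Prod.dist_eq]; exact le_max_left _ _) hdist
      have h8 := lt_of_le_of_lt (dist_le_pi_dist _ _ (⟨i, hi⟩ : Fin (d + 1))) h7
      rw [dist_comm, dist_eq_norm] at h8
      exact h8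
    · rw [coeff_eq_zero_of_natDegree_lt (by omega), coeff_eq_zero_of_natDegree_lt (by omega),
        sub_zero, norm_zero]
      exact hρ
  · intro i
    rcases Nat.lt_or_ge i (d + 1) with hi | hi
    · rw [hB, pol_coeff, dif_pos hi]
      have h7 : dist (lim0 x k c' b).2 v.2 < ρ :=
        lt_of_le_of_lt (by rw [Prod.dist_eq]; exact le_max_right _ _) hdist
      have h8 := lt_of_le_of_lt (dist_le_pi_dist _ _ (⟨i, hi⟩ : Fin (d + 1))) h7
      rw [dist_comm, dist_eq_norm] at h8
      exact h8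
    · rw [coeff_eq_zero_of_natDegree_lt (by omega), coeff_eq_zero_of_natDegree_lt (by omega),
        sub_zero, norm_zero]
      exact hρ

end Pool.Agent.H84.SR
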