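import Pool.Agent.H84.SR.Defs

/-!
# Partial fractions of `P / mk x`
-/

set_option autoImplicit false

open Filter Topology Polynomial Metric Set

namespace Pool.Agent.H84.SR

open Pool.Agent.H44.Fatou Pool.Agent.H32.BT

/-- the residues of `P / mk x` -/
noncomputable def eps {d : ℕ} (x : V d) (P : Polynomial ℂ) (j : Fin d) : ℂ :=
  P.eval (x j.castSucc) /
    (x (Fin.last d) * ∏ i ∈ Finset.univ.erase j, (x j.castSucc - x i.castSucc))

theorem prod_erase_ne {d : ℕ} {x : V d} (hinj : Function.Injective fun j : Fin d => x j.castSucc)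
    (j : Fin d) : ∏ i ∈ Finset.univ.erase j, (x j.castSucc - x i.castSucc) ≠ 0 := by
  rw [Finset.prod_ne_zero_iff]
  intro i hi h
  have h1 : x j.castSucc = x i.castSucc := sub_eq_zero.mp h
  have h2 : j = i := hinj h1
  exact (Finset.mem_erase.mp hi).1 h2.symm

theorem pfrac_deg {d : ℕ} (j : Fin d) (x : V d) :
    (∏ i ∈ Finset.univ.erase j, (X - C (x i.castSucc))).degree < (d : WithBot ℕ) := by
  have hm : (∏ i ∈ Finset.univ.erase j, (X - C (x i.castSucc))).Monic :=
    monic_prod_of_monic _ _ (fun i _ => monic_X_sub_C _)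
  have h2 : (∏ i ∈ Finset.univ.erase j, (X - C (x i.castSucc))).natDegree = d - 1 := by
    rw [natDegree_prod_of_monic _ _ (fun i _ => monic_X_sub_C _)]
    simp [Finset.card_erase_of_mem]
  rw [degree_eq_natDegree hm.ne_zero, h2]
  have := j.pos
  exact_mod_cast (by omega : d - 1 < d)

theorem pfrac_sum_eval {d : ℕ} (x : V d) (a : Fin d → ℂ) (j : Fin d) :
    (∑ k : Fin d, C (a k) * ∏ i ∈ Finset.univ.erase k, (X - C (x i.castSucc))).eval
      (x j.castSucc) = a j * ∏ i ∈ Finset.univ.erase j, (x j.castSucc - x i.castSucc) := by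
  rw [eval_finsetSum, Finset.sum_eq_single j]
  · rw [eval_mul, eval_C, eval_prod]
    simp
  · intro k _ hk
    rw [eval_mul, eval_prod, Finset.prod_eq_zero (i := j)]
    · simp
    · exact Finset.mem_erase.mpr ⟨hk.symm, Finset.mem_univ _⟩
    · simp
  · intro h
    exact absurd (Finset.mem_univ _) h

/-
The polynomial identity P = c * mk x + q * sum_j eps j * prod_(i <> j) (X - z i), q = x (last d):
both sides have degree at most d and the same coefficient of index d (mk_coeff_top; the last sum has
degree < d), so the difference has degree < d, and it vanishes at the d different points z j (mk_eval;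
the value of the sum at z j is q * eps j * prod_(i <> j) (z j - z i) = P(z j)). Use
Polynomial.eq_of_degree_sub_lt_of_eval_finset_eq or card_roots, or Lagrange interpolation. Evaluate at
u and divide by (mk x).eval u = q * prod (u - z j), nonzero. (For d = 0 both sides are c.)
-/
theorem pfrac_poly {d : ℕ} {x : V d} (hinj : Function.Injective fun j : Fin d => x j.castSucc)
    (hq : x (Fin.last d) ≠ 0) {P : Polynomial ℂ} (hP : P.natDegree ≤ d) {c : ℂ}
    (hc : P.coeff d = c * x (Fin.last d)) :
    P = C c * mk x + C (x (Fin.last d)) * ∑ j : Fin d, C (eps x P j) *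
      ∏ i ∈ Finset.univ.erase j, (X - C (x i.castSucc)) := by
  set L : Polynomial ℂ := ∑ j : Fin d, C (eps x P j) *
      ∏ i ∈ Finset.univ.erase j, (X - C (x i.castSucc)) with hL
  have hLdeg : L.degree < (d : WithBot ℕ) := by
    rw [← mem_degreeLT, hL]
    apply Submodule.sum_mem
    intro j _
    rw [← smul_eq_C_mul]
    apply Submodule.smul_mem
    rw [mem_degreeLT]
    exact pfrac_deg j x
  have hqL : (C (x (Fin.last d)) * L).degree < (d : WithBot ℕ) := by
    rw [degree_C_mul hq]
    exact hLdeg
  have h1 : (P - C c * mk x).degree < (d : WithBot ℕ) := by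
    rw [degree_lt_iff_coeff_zero]
    intro m hm
    rcases Nat.lt_or_ge d m with h | h
    · rw [coeff_eq_zero_of_natDegree_lt]
      refine lt_of_le_of_lt (natDegree_sub_le _ _) (lt_of_le_of_lt ?_ h)
      exact max_le hP ((natDegree_C_mul_le _ _).trans (mk_natDegree_le x))
    · have hmd : m = d := le_antisymm h hm
      rw [hmd, coeff_sub, coeff_C_mul, mk_coeff_top, hc, sub_self]
  have h2 : P - C c * mk x - C (x (Fin.last d)) * L = 0 := by
    apply eq_zero_of_degree_lt_of_eval_index_eq_zero (s := (Finset.univ : Finset (Fin d)))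
      (v := fun j : Fin d => x j.castSucc) (hinj.injOn)
    · rw [Finset.card_univ, Fintype.card_fin]
      exact lt_of_le_of_lt (degree_sub_le _ _) (max_lt h1 hqL)
    · intro j _
      have h3 := pfrac_sum_eval x (eps x P) j
      rw [eval_sub, eval_sub, eval_mul, eval_C, eval_mul, eval_C, mk_eval, hL, h3]
      rw [Finset.prod_eq_zero (Finset.mem_univ j) (sub_self _)]
      have h4 := prod_erase_ne hinj j
      rw [eps, mul_zero, mul_zero, sub_zero, sub_eq_zero]
      field_simp
  have h3 : P - C c * mk x = C (x (Fin.last d)) * L := sub_eq_zero.mp h2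
  rw [← h3]
  ring

theorem mk_eval_ne {d : ℕ} {x : V d} (hq : x (Fin.last d) ≠ 0) {u : ℂ}
    (hu : ∀ j : Fin d, u ≠ x j.castSucc) : (mk x).eval u ≠ 0 := by
  rw [mk_eval]
  apply mul_ne_zero hq
  rw [Finset.prod_ne_zero_iff]
  intro j _
  exact sub_ne_zero.mpr (hu j)

theorem pfrac {d : ℕ} {x : V d} (hinj : Function.Injective fun j : Fin d => x j.castSucc)
    (hq : x (Fin.last d) ≠ 0) {P : Polynomial ℂ} (hP : P.natDegree ≤ d) {c : ℂ}
    (hc : P.coeff d = c * x (Fin.last d)) {u : ℂ} (hu : ∀ j : Fin d, u ≠ x j.castSucc) :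
    P.eval u / (mk x).eval u = c + ∑ j, eps x P j / (u - x j.castSucc) := by
  have h0 := mk_eval_ne hq hu
  have h1 := congrArg (fun Q : Polynomial ℂ => Q.eval u) (pfrac_poly hinj hq hP hc)
  simp only [eval_add, eval_mul, eval_C, eval_finsetSum, eval_prod, eval_sub, eval_X] at h1
  rw [div_eq_iff h0, add_mul, h1]
  congr 1
  rw [Finset.sum_mul, Finset.mul_sum]
  apply Finset.sum_congr rfl
  intro j _
  have h2 : u - x j.castSucc ≠ 0 := sub_ne_zero.mpr (hu j)
  rw [mk_eval, ← Finset.mul_prod_erase _ _ (Finset.mem_univ j)]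
  field_simp

/-
Both sides of pfrac are differentiable near u (the hypothesis on u holds near u, an open condition);
the derivative of P/Q at u is Wr/Q^2 (Wr P Q = P' Q - P Q') and the derivative of the right side is
- sum eps j/(u - z j)^2; uniqueness of the derivative. Or algebraically from pfrac_poly: with
L = sum_j eps j prod_(i <> j) (X - z i), Wr (c Q + q L) Q = q (L' Q - L Q').
-/
theorem wr_eval {d : ℕ} {x : V d} (hinj : Function.Injective fun j : Fin d => x j.castSucc)
    (hq : x (Fin.last d) ≠ 0) {P : Polynomial ℂ} (hP : P.natDegree ≤ d)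
    {u : ℂ} (hu : ∀ j : Fin d, u ≠ x j.castSucc) :
    (Wr P (mk x)).eval u =
      -((mk x).eval u) ^ 2 * ∑ j, eps x P j / (u - x j.castSucc) ^ 2 := by
  have h0 := mk_eval_ne hq hu
  obtain ⟨c, hc⟩ : ∃ c : ℂ, P.coeff d = c * x (Fin.last d) :=
    ⟨P.coeff d / x (Fin.last d), by field_simp⟩
  have hd1 : HasDerivAt (fun z => P.eval z / (mk x).eval z)
      ((P.derivative.eval u * (mk x).eval u - P.eval u * (mk x).derivative.eval u) /
        ((mk x).eval u) ^ 2) u :=
    (P.hasDerivAt u).div ((mk x).hasDerivAt u) h0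
  have hd2 : HasDerivAt (fun z => c + ∑ j, eps x P j / (z - x j.castSucc))
      (∑ j, -(eps x P j / (u - x j.castSucc) ^ 2)) u := by
    apply HasDerivAt.const_add
    apply HasDerivAt.fun_sum
    intro j _
    have h2 : u - x j.castSucc ≠ 0 := sub_ne_zero.mpr (hu j)
    have h3 : HasDerivAt (fun z : ℂ => z - x j.castSucc) 1 u := (hasDerivAt_id u).sub_const _
    have h4 := (hasDerivAt_const u (eps x P j)).fun_div h3 h2
    refine h4.congr_deriv ?_
    rw [zero_mul, mul_one, zero_sub, neg_div]
  have hev : (fun z => P.eval z / (mk x).eval z) =ᶠ[𝓝 u]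
      (fun z => c + ∑ j, eps x P j / (z - x j.castSucc)) := by
    have h5 : ∀ᶠ z in 𝓝 u, ∀ j : Fin d, z ≠ x j.castSucc := by
      rw [Filter.eventually_all]
      intro j
      exact isOpen_ne.mem_nhds (hu j)
    filter_upwards [h5] with z hz
    exact pfrac hinj hq hP hc hz
  have hd3 := hd2.congr_of_eventuallyEq hev
  have h6 := hd1.unique hd3
  rw [div_eq_iff (pow_ne_zero 2 h0)] at h6
  rw [Finset.sum_neg_distrib] at h6
  have h7 : (Wr P (mk x)).eval u =
      P.derivative.eval u * (mk x).eval u - P.eval u * (mk x).derivative.eval u := by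
    simp [Wr]
  rw [h7, h6]
  ring

/-
(mk x).eval (z j) = 0 and the derivative of mk x at z j is q * prod_(i <> j) (z j - z i), nonzero.
-/
theorem wr_root {d : ℕ} {x : V d} (hinj : Function.Injective fun j : Fin d => x j.castSucc)
    (hq : x (Fin.last d) ≠ 0) {P : Polynomial ℂ} {j : Fin d}
    (hj : P.eval (x j.castSucc) ≠ 0) : (Wr P (mk x)).eval (x j.castSucc) ≠ 0 := by
  have h0 : (mk x).eval (x j.castSucc) = 0 := by
    rw [mk_eval, Finset.prod_eq_zero (Finset.mem_univ j) (sub_self _), mul_zero]
  have h1 : (mk x).derivative.eval (x j.castSucc) =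
      x (Fin.last d) * ∏ i ∈ Finset.univ.erase j, (x j.castSucc - x i.castSucc) := by
    have h2 : mk x = (X - C (x j.castSucc)) *
        (C (x (Fin.last d)) * ∏ i ∈ Finset.univ.erase j, (X - C (x i.castSucc))) := by
      rw [mk, ← Finset.mul_prod_erase _ _ (Finset.mem_univ j)]
      ring
    rw [h2, derivative_mul, derivative_sub, derivative_X, derivative_C]
    simp [eval_prod]
  have h7 : (Wr P (mk x)).eval (x j.castSucc) =
      P.derivative.eval (x j.castSucc) * (mk x).eval (x j.castSucc) -
        P.eval (x j.castSucc) * (mk x).derivative.eval (x j.castSucc) := by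
    simp [Wr]
  rw [h7, h0, h1, mul_zero, zero_sub, neg_ne_zero]
  exact mul_ne_zero hj (mul_ne_zero hq (prod_erase_ne hinj j))

end Pool.Agent.H84.SR
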