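import Pool.Agent.H84.SR.Defs
import Pool.Agent.H84.SR.Annulus

/-!
# The threshold is positive almost everywhere and its logarithm is integrable
-/

set_option autoImplicit false

open MeasureTheory Metric Set

namespace Pool.Agent.H84.SR

theorem rho_cont {d : ℕ} (α : ℂ) (K : ℝ) :
    Continuous fun a : V d × ℂ => rho α K a.1 a.2 := by
  unfold rho
  refine Continuous.div_const ?_ _
  refine Continuous.mul ?_ ?_
  · refine continuous_finsetProd _ fun p _ => ?_
    fun_prop
  · refine continuous_finsetProd _ fun j _ => ?_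
    fun_prop

theorem rho_le_one {d : ℕ} (α : ℂ) {K : ℝ} (hK : 1 ≤ K) (x : V d) (c : ℂ) :
    rho α K x c ≤ 1 := by
  unfold rho
  have h1 : (∏ p ∈ (Finset.univ : Finset (Fin d)).offDiag,
      min 1 ‖x p.1.castSucc - x p.2.castSucc‖ ^ d) ≤ 1 := by
    refine Finset.prod_le_one (fun p _ => by positivity) fun p _ => ?_
    exact pow_le_one₀ (by positivity) (min_le_left _ _)
  have h2 : (∏ j : Fin d, min 1 ‖1 - x j.castSucc * (c - α)‖ ^ 2) ≤ 1 := by
    refine Finset.prod_le_one (fun p _ => by positivity) fun p _ => ?_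
    exact pow_le_one₀ (by positivity) (min_le_left _ _)
  have h3 : 0 ≤ (∏ j : Fin d, min 1 ‖1 - x j.castSucc * (c - α)‖ ^ 2) :=
    Finset.prod_nonneg fun p _ => by positivity
  have hd0 : (0 : ℝ) ≤ d := Nat.cast_nonneg d
  have h4 : (1 : ℝ) ≤ 16 * (d + 1) * K := by nlinarith
  rw [div_le_one (by linarith)]
  have h5 := mul_le_one₀ h1 h3 h2
  linarith

/-
rho > 0 iff all factors are nonzero. For almost every x the z i are pairwise different (the sets
x i = x j are proper subspaces, or Fubini) and for each x the set of c with 1 = z j (c - α) is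
finite.
-/
theorem rhoA_ne_ae {d : ℕ} (i j : Fin (d + 1)) (hij : i ≠ j) :
    ∀ᵐ x : V d, x i ≠ x j := by
  let L : V d →ₗ[ℝ] ℂ := (LinearMap.proj i : V d →ₗ[ℝ] ℂ) - (LinearMap.proj j : V d →ₗ[ℝ] ℂ)
  have h1 : LinearMap.ker L ≠ ⊤ := by
    intro h
    have h2 : (Pi.single i 1 : V d) ∈ LinearMap.ker L := by rw [h]; trivial
    rw [LinearMap.mem_ker] at h2
    have h3 : L (Pi.single i 1 : V d) = 1 := by
      show (Pi.single i 1 : V d) i - (Pi.single i 1 : V d) j = 1
      rw [Pi.single_eq_same, Pi.single_eq_of_ne (Ne.symm hij), sub_zero]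
    rw [h3] at h2
    exact one_ne_zero h2
  have h4 : volume ((LinearMap.ker L : Submodule ℝ (V d)) : Set (V d)) = 0 :=
    Measure.addHaar_submodule volume _ h1
  rw [ae_iff]
  refine measure_mono_null ?_ h4
  intro x hx
  simp only [ne_eq, not_not, mem_setOf_eq] at hx
  show L x = 0
  show x i - x j = 0
  rw [hx, sub_self]

theorem rho_pos_ae {d : ℕ} (α : ℂ) {K : ℝ} (hK : 1 ≤ K) :
    ∀ᵐ x : V d, ∀ᵐ c : ℂ, 0 < rho α K x c := by
  have h1 : ∀ᵐ x : V d, ∀ p ∈ (Finset.univ : Finset (Fin d)).offDiag,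
      x (Fin.castSucc p.1) ≠ x (Fin.castSucc p.2) := by
    rw [Finset.eventually_all]
    intro p hp
    refine rhoA_ne_ae _ _ ?_
    intro h
    exact (Finset.mem_offDiag.1 hp).2.2 (Fin.castSucc_injective d h)
  filter_upwards [h1] with x hx
  have h2 : ∀ᵐ c : ℂ, ∀ j : Fin d, 1 - x j.castSucc * (c - α) ≠ 0 := by
    rw [ae_all_iff]
    intro j
    by_cases hz : x j.castSucc = 0
    · refine Filter.Eventually.of_forall fun c => ?_
      rw [hz, zero_mul, sub_zero]
      exact one_ne_zero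
    · have h3 : volume ({α + (x j.castSucc)⁻¹} : Set ℂ) = 0 := by simp
      rw [ae_iff]
      refine measure_mono_null ?_ h3
      intro c hc
      simp only [ne_eq, not_not, mem_setOf_eq] at hc
      rw [mem_singleton_iff]
      field_simp
      linear_combination -hc
  filter_upwards [h2] with c hc
  unfold rho
  have hd0 : (0 : ℝ) ≤ d := Nat.cast_nonneg d
  have h4 : (0 : ℝ) < 16 * (d + 1) * K := by positivity
  refine div_pos (mul_pos ?_ ?_) h4
  · refine Finset.prod_pos fun p hp => ?_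
    refine pow_pos (lt_min one_pos ?_) _
    rw [norm_pos_iff, sub_ne_zero]
    exact hx p hp
  · refine Finset.prod_pos fun j _ => ?_
    refine pow_pos (lt_min one_pos ?_) _
    rw [norm_pos_iff]
    exact hc j

theorem rhoA_log_nonneg (a : ℝ) (ha : 0 ≤ a) : 0 ≤ Real.log (1 / min 1 a) := by
  rcases ha.eq_or_lt with h | h
  · rw [← h]
    simp
  · apply Real.log_nonneg
    rw [one_le_div (lt_min one_pos h)]
    exact min_le_left _ _

/-
If all factors are nonzero, log (1/rho) = log (16 (d+1) K) + d * sum over pairs of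
log (1/min 1 |z i - z j|) + 2 sum_j log (1/min 1 |1 - z j (c - α)|); if rho = 0 then
log (1/0) = 0 and all terms on the right are >= 0.
-/
theorem log_rho_le {d : ℕ} (α : ℂ) {K : ℝ} (hK : 1 ≤ K) (x : V d) (c : ℂ) :
    Real.log (1 / rho α K x c) ≤ Real.log (16 * (d + 1) * K) +
      d * (∑ p ∈ (Finset.univ : Finset (Fin d)).offDiag,
        Real.log (1 / min 1 ‖x p.1.castSucc - x p.2.castSucc‖)) +
      2 * ∑ j : Fin d, Real.log (1 / min 1 ‖1 - x j.castSucc * (c - α)‖) := by
  have hd0 : (0 : ℝ) ≤ d := Nat.cast_nonneg d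
  have h4 : (1 : ℝ) ≤ 16 * (d + 1) * K := by nlinarith
  have h4' : (0 : ℝ) < 16 * (d + 1) * K := by linarith
  by_cases h0 : rho α K x c = 0
  · rw [h0, div_zero, Real.log_zero]
    have e1 : 0 ≤ Real.log (16 * (d + 1) * K) := Real.log_nonneg h4
    have e2 : 0 ≤ ∑ p ∈ (Finset.univ : Finset (Fin d)).offDiag,
        Real.log (1 / min 1 ‖x p.1.castSucc - x p.2.castSucc‖) :=
      Finset.sum_nonneg fun p _ => rhoA_log_nonneg _ (norm_nonneg _)
    have e3 : 0 ≤ ∑ j : Fin d, Real.log (1 / min 1 ‖1 - x j.castSucc * (c - α)‖) :=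
      Finset.sum_nonneg fun p _ => rhoA_log_nonneg _ (norm_nonneg _)
    positivity
  · set A := (∏ p ∈ (Finset.univ : Finset (Fin d)).offDiag,
      min 1 ‖x p.1.castSucc - x p.2.castSucc‖ ^ d) with hA
    set B := (∏ j : Fin d, min 1 ‖1 - x j.castSucc * (c - α)‖ ^ 2) with hB
    have hr : rho α K x c = A * B / (16 * (d + 1) * K) := rfl
    have hAB : A ≠ 0 ∧ B ≠ 0 := by
      constructor
      · intro h
        apply h0
        rw [hr, h]
        simp
      · intro h
        apply h0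
        rw [hr, h]
        simp
    have hAf := Finset.prod_ne_zero_iff.1 hAB.1
    have hBf := Finset.prod_ne_zero_iff.1 hAB.2
    have hlA : Real.log A = -(d * (∑ p ∈ (Finset.univ : Finset (Fin d)).offDiag,
        Real.log (1 / min 1 ‖x p.1.castSucc - x p.2.castSucc‖))) := by
      rw [hA, Real.log_prod hAf, Finset.mul_sum, ← Finset.sum_neg_distrib]
      refine Finset.sum_congr rfl fun p _ => ?_
      rw [Real.log_pow, one_div, Real.log_inv]
      ring
    have hlB : Real.log B = -(2 * ∑ j : Fin d,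
        Real.log (1 / min 1 ‖1 - x j.castSucc * (c - α)‖)) := by
      rw [hB, Real.log_prod hBf, Finset.mul_sum, ← Finset.sum_neg_distrib]
      refine Finset.sum_congr rfl fun p _ => ?_
      rw [Real.log_pow, one_div, Real.log_inv]
      push_cast
      ring
    rw [hr, one_div, Real.log_inv, Real.log_div (mul_ne_zero hAB.1 hAB.2) h4'.ne',
      Real.log_mul hAB.1 hAB.2, hlA, hlB]
    apply le_of_eq
    ring

/-
|z| <= 1/(2(K+1)): |1 - z (c - α)| >= 1/2 for |c| <= K (|α| = 1), the function is <= log 2.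
Otherwise |1 - z (c-α)| = |z| |c - (α + 1/z)| and min 1 (a b) >= min 1 a * min 1 b, so the function
is <= log (2(K+1)) + log (1/min 1 |c - y|), y = α + 1/z, and log_int.
-/
theorem rhoA_pt {α : ℂ} (hα : ‖α‖ = 1) {K : ℝ} (hK : 1 ≤ K) (z : ℂ) : ∃ y : ℂ,
    ∀ c ∈ closedBall (0 : ℂ) K, Real.log (1 / min 1 ‖1 - z * (c - α)‖) ≤
      Real.log (2 * (K + 1)) + Real.log (1 / min 1 ‖c - y‖) := by
  have hK1 : 0 < 2 * (K + 1) := by linarith
  by_cases hz : ‖z‖ ≤ 1 / (2 * (K + 1))
  · refine ⟨0, fun c hc => ?_⟩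
    rw [mem_closedBall, dist_zero_right] at hc
    have h1 : ‖z * (c - α)‖ ≤ 1 / 2 := by
      rw [norm_mul]
      have h2 : ‖c - α‖ ≤ K + 1 := (norm_sub_le _ _).trans (by linarith)
      calc ‖z‖ * ‖c - α‖ ≤ 1 / (2 * (K + 1)) * (K + 1) :=
            mul_le_mul hz h2 (norm_nonneg _) (by positivity)
        _ = 1 / 2 := by field_simp
    have h3 : 1 / 2 ≤ ‖1 - z * (c - α)‖ := by
      have := norm_sub_norm_le (1 : ℂ) (z * (c - α))
      rw [norm_one] at this
      linarith
    have h4 : 1 / 2 ≤ min 1 ‖1 - z * (c - α)‖ := le_min (by norm_num) h3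
    have h5 : Real.log (1 / min 1 ‖1 - z * (c - α)‖) ≤ Real.log (2 * (K + 1)) := by
      apply Real.log_le_log (by positivity)
      rw [div_le_iff₀ (by linarith)]
      nlinarith
    have h6 := rhoA_log_nonneg ‖c - 0‖ (norm_nonneg _)
    linarith
  · push Not at hz
    have hz0 : z ≠ 0 := by
      rw [← norm_pos_iff]
      exact lt_trans (by positivity) hz
    refine ⟨α + z⁻¹, fun c _ => ?_⟩
    have h1 : ‖1 - z * (c - α)‖ = ‖z‖ * ‖c - (α + z⁻¹)‖ := by
      rw [← norm_mul, ← norm_neg]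
      congr 1
      field_simp
      ring
    rw [h1]
    set b := ‖c - (α + z⁻¹)‖ with hb
    have hb0 : 0 ≤ b := norm_nonneg _
    have hlK : 0 ≤ Real.log (2 * (K + 1)) := Real.log_nonneg (by linarith)
    rcases hb0.eq_or_lt with h0 | h0
    · rw [← h0]
      simp
      exact hlK
    · have hzpos : 0 < ‖z‖ := norm_pos_iff.2 hz0
      have hm1 : 1 / (2 * (K + 1)) ≤ min 1 ‖z‖ := by
        refine le_min ?_ hz.le
        rw [div_le_one hK1]
        linarith
      have hm1p : 0 < min 1 ‖z‖ := lt_min one_pos hzpos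
      have hm2p : 0 < min 1 b := lt_min one_pos h0
      have hm : min 1 ‖z‖ * min 1 b ≤ min 1 (‖z‖ * b) := by
        refine le_min ?_ ?_
        · exact mul_le_one₀ (min_le_left _ _) hm2p.le (min_le_left _ _)
        · exact mul_le_mul (min_le_right _ _) (min_le_right _ _) hm2p.le hzpos.le
      rw [← Real.log_mul hK1.ne' (by positivity)]
      apply Real.log_le_log (by positivity)
      have h5 : 1 / min 1 (‖z‖ * b) ≤ 1 / (min 1 ‖z‖ * min 1 b) :=
        one_div_le_one_div_of_le (mul_pos hm1p hm2p) hm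
      refine h5.trans ?_
      have h6 : 1 / min 1 ‖z‖ ≤ 2 * (K + 1) := by
        rw [div_le_iff₀ hm1p]
        have := mul_le_mul_of_nonneg_left hm1 hK1.le
        have h7 : 2 * (K + 1) * (1 / (2 * (K + 1))) = 1 := by field_simp
        linarith
      calc 1 / (min 1 ‖z‖ * min 1 b) = (1 / min 1 ‖z‖) * (1 / min 1 b) := by
            rw [one_div_mul_one_div]
        _ ≤ 2 * (K + 1) * (1 / min 1 b) :=
            mul_le_mul_of_nonneg_right h6 (by positivity)

theorem log_c_int {α : ℂ} (hα : ‖α‖ = 1) {K : ℝ} (hK : 1 ≤ K) : ∃ C : ℝ, 0 < C ∧ ∀ z : ℂ,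
    ∫⁻ c in closedBall (0 : ℂ) K,
      ENNReal.ofReal (Real.log (1 / min 1 ‖1 - z * (c - α)‖)) ≤ ENNReal.ofReal C := by
  obtain ⟨C0, hC0, hC⟩ := log_int
  have hfin : volume (closedBall (0 : ℂ) K) ≠ ⊤ := measure_closedBall_lt_top.ne
  have hlK : 0 ≤ Real.log (2 * (K + 1)) := Real.log_nonneg (by linarith)
  set v := (volume (closedBall (0 : ℂ) K)).toReal with hv
  have hv0 : 0 ≤ v := ENNReal.toReal_nonneg
  refine ⟨Real.log (2 * (K + 1)) * v + C0, by positivity, fun z => ?_⟩
  obtain ⟨y, hy⟩ := rhoA_pt hα hK z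
  calc ∫⁻ c in closedBall (0 : ℂ) K, ENNReal.ofReal (Real.log (1 / min 1 ‖1 - z * (c - α)‖))
      ≤ ∫⁻ c in closedBall (0 : ℂ) K, (ENNReal.ofReal (Real.log (2 * (K + 1))) +
          ENNReal.ofReal (Real.log (1 / min 1 ‖c - y‖))) := by
        refine setLIntegral_mono' measurableSet_closedBall fun c hc => ?_
        rw [← ENNReal.ofReal_add hlK (rhoA_log_nonneg _ (norm_nonneg _))]
        exact ENNReal.ofReal_le_ofReal (hy c hc)
    _ = ENNReal.ofReal (Real.log (2 * (K + 1))) * volume (closedBall (0 : ℂ) K) +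
        ∫⁻ c in closedBall (0 : ℂ) K, ENNReal.ofReal (Real.log (1 / min 1 ‖c - y‖)) := by
        rw [lintegral_add_left measurable_const, setLIntegral_const]
    _ ≤ ENNReal.ofReal (Real.log (2 * (K + 1))) * ENNReal.ofReal v + ENNReal.ofReal C0 := by
        refine add_le_add ?_ ?_
        · rw [hv, ENNReal.ofReal_toReal hfin]
        · exact (setLIntegral_le_lintegral _ _).trans (hC y)
    _ = ENNReal.ofReal (Real.log (2 * (K + 1)) * v + C0) := by
        rw [ENNReal.ofReal_add (by positivity) hC0.le, ENNReal.ofReal_mul hlK]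

end Pool.Agent.H84.SR
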