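import Pool.Agent.H84.SR.Defs
import Pool.Agent.H84.SR.Annulus

/-!
# Volume of `{|w j| ≤ K, ∏ |w j| ≤ t}`: upper bounds
-/

set_option autoImplicit false

open MeasureTheory Metric Set

namespace Pool.Agent.H84.SR

theorem GG_meas (n : ℕ) (K t : ℝ) : MeasurableSet (GG n K t) := by
  apply IsClosed.measurableSet
  unfold GG
  rw [Set.ofPred_and]
  apply IsClosed.inter
  · rw [Set.ofPred_forall]
    exact isClosed_iInter (fun j => isClosed_le (by fun_prop) continuous_const)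
  · exact isClosed_le (by fun_prop) continuous_const

/-
Split off the coordinate k (volume_preserving_piFinSuccAbove (fun _ => ℂ) k, Fin.prod_univ_succAbove)
and Tonelli: the product condition is ‖w k‖ * prod (others) <= t.
-/
theorem GG_split (n : ℕ) (K t : ℝ) (k : Fin (n + 1)) (S : Set ℂ) (hS : MeasurableSet S) :
    volume {w ∈ GG (n + 1) K t | w k ∈ S} =
      ∫⁻ a in {a : ℂ | a ∈ S ∧ ‖a‖ ≤ K}, volume {w : Fin n → ℂ | (∀ j, ‖w j‖ ≤ K) ∧
        ‖a‖ * ∏ j, ‖w j‖ ≤ t} := by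
  have hA : MeasurableSet {a : ℂ | a ∈ S ∧ ‖a‖ ≤ K} :=
    hS.inter (measurableSet_le measurable_norm measurable_const)
  have hs' : MeasurableSet {p : ℂ × (Fin n → ℂ) | (p.1 ∈ S ∧ ‖p.1‖ ≤ K) ∧
      ((∀ j, ‖p.2 j‖ ≤ K) ∧ ‖p.1‖ * ∏ j, ‖p.2 j‖ ≤ t)} := by
    have h1 : IsClosed {p : ℂ × (Fin n → ℂ) | ∀ j, ‖p.2 j‖ ≤ K} := by
      rw [Set.ofPred_forall]
      exact isClosed_iInter (fun j => isClosed_le (by fun_prop) continuous_const)
    have h2 : IsClosed {p : ℂ × (Fin n → ℂ) | ‖p.1‖ * ∏ j, ‖p.2 j‖ ≤ t} :=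
      isClosed_le (by fun_prop) continuous_const
    exact (hA.preimage measurable_fst).inter (h1.measurableSet.inter h2.measurableSet)
  have hmp := volume_preserving_piFinSuccAbove (fun _ : Fin (n + 1) => ℂ) k
  have hset : {w ∈ GG (n + 1) K t | w k ∈ S} =
      (MeasurableEquiv.piFinSuccAbove (fun _ : Fin (n + 1) => ℂ) k) ⁻¹'
        {p : ℂ × (Fin n → ℂ) | (p.1 ∈ S ∧ ‖p.1‖ ≤ K) ∧
          ((∀ j, ‖p.2 j‖ ≤ K) ∧ ‖p.1‖ * ∏ j, ‖p.2 j‖ ≤ t)} := by
    ext w
    have h1 : ((MeasurableEquiv.piFinSuccAbove (fun _ : Fin (n + 1) => ℂ) k) w).1 = w k := rfl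
    have h2 : ∀ j, ((MeasurableEquiv.piFinSuccAbove (fun _ : Fin (n + 1) => ℂ) k) w).2 j =
        w (k.succAbove j) := fun j => rfl
    simp only [Set.mem_ofPred_eq, Set.mem_preimage, h1, h2, GG, Fin.forall_iff_succAbove k,
      Fin.prod_univ_succAbove _ k]
    tauto
  rw [hset, hmp.measure_preimage hs'.nullMeasurableSet, Measure.volume_eq_prod,
    Measure.prod_apply hs', ← lintegral_indicator hA]
  apply lintegral_congr
  intro a
  by_cases ha : a ∈ S ∧ ‖a‖ ≤ K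
  · rw [Set.indicator_of_mem (by exact ha)]
    congr 1
    ext w
    simp only [Set.mem_preimage, Set.mem_ofPred_eq]
    tauto
  · rw [Set.indicator_of_notMem (by exact ha)]
    rw [← measure_empty (μ := (volume : Measure (Fin n → ℂ)))]
    congr 1
    ext w
    simp only [Set.mem_preimage, Set.mem_ofPred_eq, Set.mem_empty_iff_false]
    tauto

/-- the cube -/
theorem cube_vol (n : ℕ) {K : ℝ} (hK : 0 ≤ K) :
    volume {w : Fin n → ℂ | ∀ j, ‖w j‖ ≤ K} = ENNReal.ofReal ((Real.pi * K ^ 2) ^ n) := by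
  have h : {w : Fin n → ℂ | ∀ j, ‖w j‖ ≤ K} = Set.pi univ (fun _ => closedBall (0 : ℂ) K) := by
    ext w
    simp
  rw [h, volume_pi_pi]
  simp only [Complex.volume_closedBall, Finset.prod_const, Finset.card_univ, Fintype.card_fin]
  rw [ENNReal.ofReal_pow (by positivity), ENNReal.ofReal_mul Real.pi_pos.le,
    ENNReal.ofReal_pow hK, mul_comm]
  congr 2
  rw [← NNReal.coe_real_pi, ENNReal.ofReal_coe_nnreal]

/-- area of the disc -/
theorem disc_vol {t : ℝ} (ht : 0 ≤ t) :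
    volume {a : ℂ | ‖a‖ ≤ t} = ENNReal.ofReal (Real.pi * t ^ 2) := by
  have h : {a : ℂ | ‖a‖ ≤ t} = closedBall (0 : ℂ) t := by
    ext w
    simp
  have hp : ENNReal.ofReal Real.pi = (NNReal.pi : ENNReal) := by
    rw [← NNReal.coe_real_pi, ENNReal.ofReal_coe_nnreal]
  rw [h, Complex.volume_closedBall, ENNReal.ofReal_mul Real.pi_pos.le,
    ENNReal.ofReal_pow ht, mul_comm, hp]

/-- logarithm estimate -/
theorem log_est {K t r : ℝ} (hK : 1 ≤ K) (ht : 0 < t) (hr : 0 < r) (hrK : r ≤ K) :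
    1 + max 0 (Real.log (K / (t / r))) ≤
      (1 + Real.log K) * (1 + max 0 (Real.log (K / t))) := by
  have hK0 : 0 < K := by linarith
  have hl : 0 ≤ Real.log K := Real.log_nonneg hK
  have h1 : K / (t / r) = K / t * r := by field_simp
  have h2 : Real.log (K / t * r) = Real.log (K / t) + Real.log r :=
    Real.log_mul (by positivity) hr.ne'
  have h3 : Real.log r ≤ Real.log K := Real.log_le_log hr hrK
  have h4 := le_max_left 0 (Real.log (K / t))
  have h5 := le_max_right 0 (Real.log (K / t))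
  rw [h1, h2]
  have h6 : max 0 (Real.log (K / t) + Real.log r) ≤
      max 0 (Real.log (K / t)) + Real.log K := by
    apply max_le
    · positivity
    · linarith
  nlinarith [mul_nonneg hl h4]

/-- the fibre over `a` -/
theorem fibre_le (n : ℕ) {K C : ℝ} (hK : 1 ≤ K) (hC : 0 < C)
    (h : ∀ t : ℝ, 0 < t → volume (GG (n + 1) K t) ≤
      ENNReal.ofReal (C * t ^ 2 * (1 + max 0 (Real.log (K / t))) ^ n))
    {t : ℝ} (ht : 0 < t) {a : ℂ} (ha : 0 < ‖a‖) (haK : ‖a‖ ≤ K) :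
    volume {w : Fin (n + 1) → ℂ | (∀ j, ‖w j‖ ≤ K) ∧ ‖a‖ * ∏ j, ‖w j‖ ≤ t} ≤
      ENNReal.ofReal (C * t ^ 2 * (1 + Real.log K) ^ n * (1 + max 0 (Real.log (K / t))) ^ n) *
        ENNReal.ofReal ((‖a‖⁻¹) ^ 2) := by
  have hset : {w : Fin (n + 1) → ℂ | (∀ j, ‖w j‖ ≤ K) ∧ ‖a‖ * ∏ j, ‖w j‖ ≤ t} =
      GG (n + 1) K (t / ‖a‖) := by
    ext w
    simp only [GG, Set.mem_ofPred_eq]
    rw [le_div_iff₀ ha, mul_comm]
  have hl : 0 ≤ Real.log K := Real.log_nonneg hK
  have h4 := le_max_left 0 (Real.log (K / t))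
  rw [hset, ← ENNReal.ofReal_mul (by positivity)]
  refine (h (t / ‖a‖) (by positivity)).trans (ENNReal.ofReal_le_ofReal ?_)
  have h1 := log_est hK ht ha haK
  have h5 := le_max_left 0 (Real.log (K / (t / ‖a‖)))
  have h2 : (1 + max 0 (Real.log (K / (t / ‖a‖)))) ^ n ≤
      (1 + Real.log K) ^ n * (1 + max 0 (Real.log (K / t))) ^ n := by
    rw [← mul_pow]
    exact pow_le_pow_left₀ (by positivity) h1 n
  have h3 : (t / ‖a‖) ^ 2 = t ^ 2 * (‖a‖⁻¹) ^ 2 := by
    rw [div_eq_mul_inv, mul_pow]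
  rw [h3]
  calc C * (t ^ 2 * ‖a‖⁻¹ ^ 2) * (1 + max 0 (Real.log (K / (t / ‖a‖)))) ^ n
      ≤ C * (t ^ 2 * ‖a‖⁻¹ ^ 2) *
        ((1 + Real.log K) ^ n * (1 + max 0 (Real.log (K / t))) ^ n) :=
        mul_le_mul_of_nonneg_left h2 (by positivity)
    _ = _ := by ring

/-- integral over an annulus -/
theorem annulus_le (n : ℕ) {K C : ℝ} (hK : 1 ≤ K) (hC : 0 < C)
    (h : ∀ t : ℝ, 0 < t → volume (GG (n + 1) K t) ≤
      ENNReal.ofReal (C * t ^ 2 * (1 + max 0 (Real.log (K / t))) ^ n))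
    {t s : ℝ} (ht : 0 < t) (hs : 0 < s) (hsK : s ≤ K) :
    ∫⁻ a in {a : ℂ | s < ‖a‖ ∧ ‖a‖ ≤ K},
      volume {w : Fin (n + 1) → ℂ | (∀ j, ‖w j‖ ≤ K) ∧ ‖a‖ * ∏ j, ‖w j‖ ≤ t} ≤
      ENNReal.ofReal (C * t ^ 2 * (1 + Real.log K) ^ n * (1 + max 0 (Real.log (K / t))) ^ n *
        (2 * Real.pi * Real.log (K / s))) := by
  have hl : 0 ≤ Real.log K := Real.log_nonneg hK
  have h4 := le_max_left 0 (Real.log (K / t))
  have hm : MeasurableSet {a : ℂ | s < ‖a‖ ∧ ‖a‖ ≤ K} :=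
    (measurableSet_lt measurable_const measurable_norm).inter
      (measurableSet_le measurable_norm measurable_const)
  calc _ ≤ ∫⁻ a in {a : ℂ | s < ‖a‖ ∧ ‖a‖ ≤ K},
        ENNReal.ofReal (C * t ^ 2 * (1 + Real.log K) ^ n *
          (1 + max 0 (Real.log (K / t))) ^ n) * ENNReal.ofReal ((‖a‖⁻¹) ^ 2) := by
        apply setLIntegral_mono' hm
        intro a ha
        exact fibre_le n hK hC h ht (hs.trans ha.1) ha.2
    _ = ENNReal.ofReal (C * t ^ 2 * (1 + Real.log K) ^ n *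
          (1 + max 0 (Real.log (K / t))) ^ n) *
          ∫⁻ a in {a : ℂ | s < ‖a‖ ∧ ‖a‖ ≤ K}, ENNReal.ofReal ((‖a‖⁻¹) ^ 2) := by
        rw [lintegral_const_mul]
        fun_prop
    _ = _ := by
        rw [annulus hs hsK, ← ENNReal.ofReal_mul (by positivity)]

/-
Induction on n with GG_split (k = 0, S = univ). n = 0: the set is contained in the disc |w 0| <= t,
of area π t^2. Step: for |a| <= t the fibre has volume at most (π K^2)^(n+1), the a's have area π t^2.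
For t < |a| <= K the fibre is GG (n+1) K (t/|a|), with volume at most
C (t/|a|)^2 (1 + max 0 (log (K |a|/t)))^n <= C' t^2 |a|^(-2) (1 + max 0 (log (K/t)))^n, because
K |a| / t <= K^2/t and 1 + log K + m <= (1 + log K)(1 + m); annulus gives the factor
2 π log (K/t) (if t < K; otherwise there is no such a).
-/
theorem vol_up (n : ℕ) {K : ℝ} (hK : 1 ≤ K) : ∃ C : ℝ, 0 < C ∧ ∀ t : ℝ, 0 < t →
    volume (GG (n + 1) K t) ≤
      ENNReal.ofReal (C * t ^ 2 * (1 + max 0 (Real.log (K / t))) ^ n) := by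
  have hK0 : 0 < K := by linarith
  have hpi := Real.pi_pos
  have hl : 0 ≤ Real.log K := Real.log_nonneg hK
  induction n with
  | zero =>
    refine ⟨Real.pi, Real.pi_pos, ?_⟩
    intro t ht
    have hsub : GG (0 + 1) K t ⊆ {w : Fin (0 + 1) → ℂ | ∀ j, ‖w j‖ ≤ t} := by
      intro w hw j
      have h := hw.2
      rw [Fin.prod_univ_one] at h
      have hj : j = 0 := Fin.ext (by omega)
      rw [hj]
      exact h
    refine (measure_mono hsub).trans ?_
    rw [cube_vol _ ht.le]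
    apply ENNReal.ofReal_le_ofReal
    simp
  | succ n ih =>
    obtain ⟨C, hC, h⟩ := ih
    refine ⟨(Real.pi * K ^ 2) ^ (n + 1) * Real.pi + C * (1 + Real.log K) ^ n * (2 * Real.pi),
      by positivity, ?_⟩
    intro t ht
    obtain ⟨M, hM⟩ : ∃ M : ℝ, M = max 0 (Real.log (K / t)) := ⟨_, rfl⟩
    have hM0 : 0 ≤ M := by rw [hM]; exact le_max_left _ _
    have hM1 : Real.log (K / t) ≤ M := by rw [hM]; exact le_max_right _ _
    have h0 := GG_split (n + 1) K t 0 univ MeasurableSet.univ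
    have hset : {w ∈ GG (n + 1 + 1) K t | w 0 ∈ univ} = GG (n + 1 + 1) K t := by
      ext w; simp
    rw [hset] at h0
    rw [h0]
    have hcov : {a : ℂ | a ∈ univ ∧ ‖a‖ ≤ K} ⊆
        {a : ℂ | ‖a‖ ≤ t} ∪ {a : ℂ | t < ‖a‖ ∧ ‖a‖ ≤ K} := by
      intro a ha
      rcases le_or_gt ‖a‖ t with h1 | h1
      · left; exact h1
      · right; exact ⟨h1, ha.2⟩
    refine (lintegral_mono_set hcov).trans ?_
    refine (lintegral_union_le _ _ _).trans ?_
    have hp1 : ∫⁻ a in {a : ℂ | ‖a‖ ≤ t},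
        volume {w : Fin (n + 1) → ℂ | (∀ j, ‖w j‖ ≤ K) ∧ ‖a‖ * ∏ j, ‖w j‖ ≤ t} ≤
        ENNReal.ofReal ((Real.pi * K ^ 2) ^ (n + 1) * (Real.pi * t ^ 2)) := by
      calc _ ≤ ∫⁻ a in {a : ℂ | ‖a‖ ≤ t}, ENNReal.ofReal ((Real.pi * K ^ 2) ^ (n + 1)) := by
            apply lintegral_mono
            intro a
            refine (measure_mono ?_).trans (cube_vol (n + 1) hK0.le).le
            intro w hw
            exact hw.1
        _ = _ := by
            rw [lintegral_const, Measure.restrict_apply_univ, disc_vol ht.le,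
              ← ENNReal.ofReal_mul (by positivity)]
    have hp2 : ∫⁻ a in {a : ℂ | t < ‖a‖ ∧ ‖a‖ ≤ K},
        volume {w : Fin (n + 1) → ℂ | (∀ j, ‖w j‖ ≤ K) ∧ ‖a‖ * ∏ j, ‖w j‖ ≤ t} ≤
        ENNReal.ofReal (C * t ^ 2 * (1 + Real.log K) ^ n * (1 + M) ^ n *
          (2 * Real.pi * M)) := by
      rcases le_or_gt t K with h1 | h1
      · refine (annulus_le n hK hC h ht ht h1).trans (ENNReal.ofReal_le_ofReal ?_)
        rw [← hM]
        gcongr
      · have he : {a : ℂ | t < ‖a‖ ∧ ‖a‖ ≤ K} = ∅ := by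
          ext a
          simp only [Set.mem_ofPred_eq, Set.mem_empty_iff_false, iff_false, not_and, not_le]
          intro h2
          linarith
        rw [he]
        simp
    refine (add_le_add hp1 hp2).trans ?_
    rw [← ENNReal.ofReal_add (by positivity) (by positivity)]
    apply ENNReal.ofReal_le_ofReal
    rw [← hM]
    have h1 : (1 : ℝ) ≤ (1 + M) ^ (n + 1) := one_le_pow₀ (by linarith)
    have h2 : M ≤ 1 + M := by linarith
    have h3 : C * t ^ 2 * (1 + Real.log K) ^ n * (1 + M) ^ n * (2 * Real.pi * M) ≤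
        C * t ^ 2 * (1 + Real.log K) ^ n * (1 + M) ^ n * (2 * Real.pi * (1 + M)) := by
      gcongr
    have h4 : (Real.pi * K ^ 2) ^ (n + 1) * (Real.pi * t ^ 2) * 1 ≤
        (Real.pi * K ^ 2) ^ (n + 1) * (Real.pi * t ^ 2) * (1 + M) ^ (n + 1) := by
      gcongr
    calc _ ≤ (Real.pi * K ^ 2) ^ (n + 1) * (Real.pi * t ^ 2) * (1 + M) ^ (n + 1) +
        C * t ^ 2 * (1 + Real.log K) ^ n * (1 + M) ^ n * (2 * Real.pi * (1 + M)) := by
          linarith
      _ = _ := by ring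

/-
GG_split with S = {a | ρ < ‖a‖}: for ρ < |a| <= K the fibre is GG (n+1) K (t/|a|), as in vol_up its
volume is at most C' t^2 |a|^(-2) (1 + max 0 (log (K/t)))^n; annulus with a = ρ, b = K gives
2 π log (K/ρ) <= 2 π (1 + log K)(1 + log (1/ρ)) (empty if K < ρ, impossible here).
-/
theorem vol_up2 (n : ℕ) {K : ℝ} (hK : 1 ≤ K) : ∃ C : ℝ, 0 < C ∧
    ∀ (k : Fin (n + 2)) (t ρ : ℝ), 0 < t → 0 < ρ → ρ ≤ 1 →
      volume {w ∈ GG (n + 2) K t | ρ < ‖w k‖} ≤
        ENNReal.ofReal (C * t ^ 2 * (1 + max 0 (Real.log (K / t))) ^ n *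
          (1 + Real.log (1 / ρ))) := by
  have hK0 : 0 < K := by linarith
  have hpi := Real.pi_pos
  have hl : 0 ≤ Real.log K := Real.log_nonneg hK
  obtain ⟨C, hC, h⟩ := vol_up n hK
  refine ⟨C * (1 + Real.log K) ^ n * (2 * Real.pi) * (1 + Real.log K), by positivity, ?_⟩
  intro k t ρ ht hρ hρ1
  have hm : MeasurableSet {a : ℂ | ρ < ‖a‖} := measurableSet_lt measurable_const measurable_norm
  have h0 := GG_split (n + 1) K t k {a : ℂ | ρ < ‖a‖} hm
  have h0' : volume {w ∈ GG (n + 2) K t | ρ < ‖w k‖} =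
      ∫⁻ a in {a : ℂ | ρ < ‖a‖ ∧ ‖a‖ ≤ K}, volume {w : Fin (n + 1) → ℂ |
        (∀ j, ‖w j‖ ≤ K) ∧ ‖a‖ * ∏ j, ‖w j‖ ≤ t} := h0
  rw [h0']
  refine (annulus_le n hK hC h ht hρ (hρ1.trans hK)).trans (ENNReal.ofReal_le_ofReal ?_)
  have h4 := le_max_left 0 (Real.log (K / t))
  have hr : 0 ≤ Real.log (1 / ρ) := Real.log_nonneg (by rw [le_div_iff₀ hρ]; linarith)
  have h1 : Real.log (K / ρ) = Real.log K + Real.log (1 / ρ) := by
    rw [← Real.log_mul hK0.ne' (by positivity), mul_one_div]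
  have h2 : Real.log (K / ρ) ≤ (1 + Real.log K) * (1 + Real.log (1 / ρ)) := by
    rw [h1]
    nlinarith [mul_nonneg hl hr]
  calc _ ≤ C * t ^ 2 * (1 + Real.log K) ^ n * (1 + max 0 (Real.log (K / t))) ^ n *
        (2 * Real.pi * ((1 + Real.log K) * (1 + Real.log (1 / ρ)))) := by
        gcongr
    _ = _ := by ring

/-
A coordinate hyperplane is null (Measure.pi / volume_preserving_piFinSuccAbove, or GG_split with
S = {0}).
-/
theorem vol_zero (n : ℕ) (K t : ℝ) (k : Fin (n + 1)) :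
    volume {w ∈ GG (n + 1) K t | w k = 0} = 0 := by
  have h0 := GG_split n K t k {0} (measurableSet_singleton 0)
  have h0' : volume {w ∈ GG (n + 1) K t | w k = 0} =
      ∫⁻ a in {a : ℂ | a ∈ ({0} : Set ℂ) ∧ ‖a‖ ≤ K}, volume {w : Fin n → ℂ |
        (∀ j, ‖w j‖ ≤ K) ∧ ‖a‖ * ∏ j, ‖w j‖ ≤ t} := h0
  rw [h0']
  apply setLIntegral_measure_zero
  refine measure_mono_null (t := {(0 : ℂ)}) ?_ (by simp)
  intro a ha
  exact ha.1

end Pool.Agent.H84.SR
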