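import Pool.Agent.H84.SR.VolA

/-!
# Volume with lower bounds on two coordinates
-/

set_option autoImplicit false

open MeasureTheory Metric Set

namespace Pool.Agent.H84.SR

/-- passing to the minimum of two bounds -/
private theorem vc_min {C₁ C₂ A P Y : ℝ} {v : ENNReal} (hC₁ : 0 < C₁) (hC₂ : 0 < C₂)
    (hA : 0 ≤ A) (hP : 0 ≤ P) (hY : 0 ≤ Y)
    (h1 : v ≤ ENNReal.ofReal (C₁ * A * P)) (h2 : v ≤ ENNReal.ofReal (C₂ * A * (P * Y))) :
    v ≤ ENNReal.ofReal ((C₁ + C₂) * A) * ENNReal.ofReal (P * min 1 Y) := by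
  rw [← ENNReal.ofReal_mul (by positivity)]
  rcases le_total 1 Y with h | h
  · rw [min_eq_left h]
    refine h1.trans (ENNReal.ofReal_le_ofReal ?_)
    have : 0 ≤ C₂ * A * P := by positivity
    nlinarith
  · rw [min_eq_right h]
    refine h2.trans (ENNReal.ofReal_le_ofReal ?_)
    have : 0 ≤ C₁ * A * (P * Y) := by positivity
    nlinarith

/-- the fibre -/
private theorem vc_fibre (n : ℕ) {K : ℝ} (hK : 1 ≤ K) : ∃ C : ℝ, 0 < C ∧
    ∀ (j' : Fin (n + 1)) (t ρ s : ℝ) (a : ℂ), 0 < t → 0 < ρ → ρ ≤ 1 → 0 < s → s ≤ 1 →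
      ρ < ‖a‖ → ‖a‖ ≤ K →
      volume {w : Fin (n + 1) → ℂ | ((∀ i, ‖w i‖ ≤ K) ∧ ‖a‖ * ∏ i, ‖w i‖ ≤ t) ∧ s ≤ ‖w j'‖} ≤
        ENNReal.ofReal (C * (t ^ 2 * (1 + max 0 (Real.log (K / t))) ^ n)) *
          ENNReal.ofReal ((‖a‖⁻¹) ^ 2 * min 1 ((1 + Real.log (1 / s) + Real.log (1 / ρ)) /
              (1 + max 0 (Real.log (K / t))))) := by
  have hK0 : 0 < K := by linarith
  have hl : 0 ≤ Real.log K := Real.log_nonneg hK
  obtain ⟨C, hC, h⟩ := vol_up n hK
  have hfirst : ∀ (j' : Fin (n + 1)) (t s : ℝ) (a : ℂ), 0 < t → 0 < ‖a‖ → ‖a‖ ≤ K →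
      volume {w : Fin (n + 1) → ℂ | ((∀ i, ‖w i‖ ≤ K) ∧ ‖a‖ * ∏ i, ‖w i‖ ≤ t) ∧ s ≤ ‖w j'‖} ≤
        ENNReal.ofReal (C * (1 + Real.log K) ^ n *
          (t ^ 2 * (1 + max 0 (Real.log (K / t))) ^ n) * (‖a‖⁻¹) ^ 2) := by
    intro j' t s a ht ha haK
    refine (measure_mono (fun w hw => hw.1)).trans ?_
    refine (fibre_le n hK hC h ht ha haK).trans ?_
    rw [← ENNReal.ofReal_mul (by positivity)]
    apply ENNReal.ofReal_le_ofReal
    apply le_of_eq
    ring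
  rcases n with _ | m
  · refine ⟨C * (1 + Real.log K) ^ 0 + C * (1 + Real.log K), by positivity, ?_⟩
    intro j' t ρ s a ht hρ hρ1 hs hs1 ha haK
    have ha0 : 0 < ‖a‖ := hρ.trans ha
    have hlr : 0 ≤ Real.log (1 / ρ) := Real.log_nonneg (by rw [le_div_iff₀ hρ]; linarith)
    have hls : 0 ≤ Real.log (1 / s) := Real.log_nonneg (by rw [le_div_iff₀ hs]; linarith)
    obtain ⟨M, hM⟩ : ∃ M : ℝ, M = max 0 (Real.log (K / t)) := ⟨_, rfl⟩
    have hM0 : 0 ≤ M := by rw [hM]; exact le_max_left _ _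
    rw [← hM]
    refine vc_min (by positivity) (by positivity) (by positivity) (by positivity)
      (by positivity) ?_ ?_
    · have h1 := hfirst j' t s a ht ha0 haK
      rw [← hM] at h1
      exact h1
    · by_cases hne : {w : Fin (0 + 1) → ℂ | ((∀ i, ‖w i‖ ≤ K) ∧ ‖a‖ * ∏ i, ‖w i‖ ≤ t) ∧
          s ≤ ‖w j'‖} = ∅
      · rw [hne, measure_empty]
        exact zero_le
      · obtain ⟨w, ⟨hw1, hw2⟩, hw3⟩ := Set.nonempty_iff_ne_empty.2 hne
        have h1 := hfirst j' t s a ht ha0 haK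
        rw [← hM] at h1
        refine h1.trans (ENNReal.ofReal_le_ofReal ?_)
        have hprod : ∏ i, ‖w i‖ = ‖w j'‖ := by
          have hj : j' = 0 := Fin.ext (by omega)
          rw [hj]
          exact Fin.prod_univ_one _
        rw [hprod] at hw2
        have h2 : ρ * s ≤ t := by
          calc ρ * s ≤ ‖a‖ * ‖w j'‖ := mul_le_mul ha.le hw3 hs.le ha0.le
            _ ≤ t := hw2
        have h3 : - Real.log t ≤ Real.log (1 / s) + Real.log (1 / ρ) := by
          have h4 : Real.log (ρ * s) ≤ Real.log t := Real.log_le_log (by positivity) h2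
          rw [Real.log_mul hρ.ne' hs.ne'] at h4
          rw [one_div, one_div, Real.log_inv, Real.log_inv]
          linarith
        have h5 : M ≤ Real.log K + (Real.log (1 / s) + Real.log (1 / ρ)) := by
          rw [hM]
          apply max_le (by positivity)
          rw [Real.log_div hK0.ne' ht.ne']
          linarith
        have h6 : 1 + M ≤ (1 + Real.log K) * (1 + Real.log (1 / s) + Real.log (1 / ρ)) := by
          nlinarith [mul_nonneg hl (add_nonneg hls hlr)]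
        have h7 : 1 ≤ (1 + Real.log K) *
            ((1 + Real.log (1 / s) + Real.log (1 / ρ)) / (1 + M)) := by
          rw [← mul_div_assoc, le_div_iff₀ (by linarith)]
          linarith
        have h8 : 0 ≤ C * (t ^ 2 * (1 + M) ^ 0) * ‖a‖⁻¹ ^ 2 := by positivity
        calc C * (1 + Real.log K) ^ 0 * (t ^ 2 * (1 + M) ^ 0) * ‖a‖⁻¹ ^ 2
            = C * (t ^ 2 * (1 + M) ^ 0) * ‖a‖⁻¹ ^ 2 * 1 := by ring
          _ ≤ C * (t ^ 2 * (1 + M) ^ 0) * ‖a‖⁻¹ ^ 2 * ((1 + Real.log K) *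
            ((1 + Real.log (1 / s) + Real.log (1 / ρ)) / (1 + M))) :=
              mul_le_mul_of_nonneg_left h7 h8
          _ = _ := by ring
  · obtain ⟨C₂, hC₂, h₂⟩ := vol_up2 m hK
    refine ⟨C * (1 + Real.log K) ^ (m + 1) + 2 * C₂ * (1 + Real.log K) ^ m, by positivity, ?_⟩
    intro j' t ρ s a ht hρ hρ1 hs hs1 ha haK
    have ha0 : 0 < ‖a‖ := hρ.trans ha
    have hlr : 0 ≤ Real.log (1 / ρ) := Real.log_nonneg (by rw [le_div_iff₀ hρ]; linarith)
    have hls : 0 ≤ Real.log (1 / s) := Real.log_nonneg (by rw [le_div_iff₀ hs]; linarith)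
    obtain ⟨M, hM⟩ : ∃ M : ℝ, M = max 0 (Real.log (K / t)) := ⟨_, rfl⟩
    have hM0 : 0 ≤ M := by rw [hM]; exact le_max_left _ _
    rw [← hM]
    refine vc_min (by positivity) (by positivity) (by positivity) (by positivity)
      (by positivity) ?_ ?_
    · have h1 := hfirst j' t s a ht ha0 haK
      rw [← hM] at h1
      exact h1
    · have hsub : {w : Fin (m + 1 + 1) → ℂ | ((∀ i, ‖w i‖ ≤ K) ∧ ‖a‖ * ∏ i, ‖w i‖ ≤ t) ∧
          s ≤ ‖w j'‖} ⊆ {w ∈ GG (m + 2) K (t / ‖a‖) | s / 2 < ‖w j'‖} := by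
        rintro w ⟨⟨hw1, hw2⟩, hw3⟩
        refine ⟨⟨hw1, ?_⟩, by linarith⟩
        rw [le_div_iff₀ ha0, mul_comm]
        exact hw2
      refine (measure_mono hsub).trans ?_
      refine (h₂ j' (t / ‖a‖) (s / 2) (by positivity) (by positivity) (by linarith)).trans
        (ENNReal.ofReal_le_ofReal ?_)
      have h1 := log_est hK ht ha0 haK
      rw [← hM] at h1
      have h5 := le_max_left 0 (Real.log (K / (t / ‖a‖)))
      have h3 : (1 + max 0 (Real.log (K / (t / ‖a‖)))) ^ m ≤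
          (1 + Real.log K) ^ m * (1 + M) ^ m := by
        rw [← mul_pow]
        exact pow_le_pow_left₀ (by positivity) h1 m
      have h4 : 1 + Real.log (1 / (s / 2)) ≤ 2 * (1 + Real.log (1 / s) + Real.log (1 / ρ)) := by
        have h6 : 1 / (s / 2) = 2 * (1 / s) := by field_simp
        rw [h6, Real.log_mul (by norm_num) (by positivity)]
        have h7 : Real.log 2 ≤ 1 := by
          have := Real.log_two_lt_d9
          linarith
        linarith
      have h6 : 0 ≤ 1 + Real.log (1 / (s / 2)) := by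
        have h7 : 0 ≤ Real.log (1 / (s / 2)) :=
          Real.log_nonneg (by rw [le_div_iff₀ (by positivity)]; linarith)
        linarith
      have h8 : (t / ‖a‖) ^ 2 = t ^ 2 * (‖a‖⁻¹) ^ 2 := by
        rw [div_eq_mul_inv, mul_pow]
      have h9 : (1 + M) ^ (m + 1) * ((1 + Real.log (1 / s) + Real.log (1 / ρ)) / (1 + M)) =
          (1 + M) ^ m * (1 + Real.log (1 / s) + Real.log (1 / ρ)) := by
        rw [pow_succ]
        have : (1 + M) ≠ 0 := by positivity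
        field_simp
      calc C₂ * (t / ‖a‖) ^ 2 * (1 + max 0 (Real.log (K / (t / ‖a‖)))) ^ m *
            (1 + Real.log (1 / (s / 2)))
          ≤ C₂ * (t / ‖a‖) ^ 2 * ((1 + Real.log K) ^ m * (1 + M) ^ m) *
            (2 * (1 + Real.log (1 / s) + Real.log (1 / ρ))) := by
            refine mul_le_mul (mul_le_mul_of_nonneg_left h3 (by positivity)) h4 h6 (by positivity)
        _ = 2 * C₂ * (1 + Real.log K) ^ m * t ^ 2 * (‖a‖⁻¹) ^ 2 *
            ((1 + M) ^ m * (1 + Real.log (1 / s) + Real.log (1 / ρ))) := by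
            rw [h8]; ring
        _ = _ := by
            rw [← h9]; ring

/-
ℓ = 1 + max 0 (log (K/t)). GG_split at the index k (first without the condition on w j one gets an
integral over a = w k; with the condition argue in the same way, e.g. by the same proof:
volume_preserving_piFinSuccAbove at k and Tonelli): the volume is at most the integral over
ρ < |a| <= K of the volume of the fibre F_a = {w' : Fin (n+1) -> ℂ | all |w' i| <= K,
|a| prod |w' i| <= t, tau a <= |w' j'|}, j = k.succAbove j', contained in GG (n+1) K t', t' = t/|a|.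
First bound: vol_up n: C t'^2 (1 + max 0 (log (K/t')))^n <= C' t^2 |a|^(-2) ℓ^n (as in vol_up:
K/t' <= K^2/t).
Second bound, for almost every a (τ a > 0). n >= 1: vol_up2 (n-1) with ρ = τ a/2:
C t'^2 (1 + max 0 (log (K/t')))^(n-1) (1 + log (2/τ a)) <= C'' t^2 |a|^(-2) ℓ^n (1 + log (1/τ a))/ℓ.
n = 0: F_a is contained in the disc of radius t' (area π t'^2) and empty unless τ a <= t' = t/|a| < t/ρ,
in which case log (1/τ a) + log (1/ρ) >= log (1/t), so ℓ <= (1 + log K)(1 + log (1/τ a) + log (1/ρ)).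
So the fibre has volume at most C t^2 ℓ^n |a|^(-2) min 1 ((1 + log (1/τ a) + log (1/ρ))/ℓ).
-/
theorem vol_up3 (n : ℕ) {K : ℝ} (hK : 1 ≤ K) : ∃ C : ℝ, 0 < C ∧
    ∀ (k j : Fin (n + 2)), j ≠ k → ∀ (t ρ : ℝ) (τ : ℂ → ℝ), 0 < t → 0 < ρ → ρ ≤ 1 →
      Measurable τ → (∀ᵐ a, 0 < τ a) → (∀ a, τ a ≤ 1) →
      volume {w ∈ GG (n + 2) K t | ρ < ‖w k‖ ∧ τ (w k) ≤ ‖w j‖} ≤
        ENNReal.ofReal (C * t ^ 2 * (1 + max 0 (Real.log (K / t))) ^ n) *
          ∫⁻ a in {a : ℂ | ρ < ‖a‖ ∧ ‖a‖ ≤ K},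
            ENNReal.ofReal ((‖a‖⁻¹) ^ 2 * min 1 ((1 + Real.log (1 / τ a) + Real.log (1 / ρ)) /
              (1 + max 0 (Real.log (K / t))))) := by
  obtain ⟨C, hC, hfib⟩ := vc_fibre n hK
  refine ⟨C, hC, ?_⟩
  intro k j hjk t ρ τ ht hρ hρ1 hτm hτ0 hτ1
  obtain ⟨j', rfl⟩ := Fin.exists_succAbove_eq hjk
  have hA : MeasurableSet {a : ℂ | ρ < ‖a‖ ∧ ‖a‖ ≤ K} :=
    (measurableSet_lt measurable_const measurable_norm).inter
      (measurableSet_le measurable_norm measurable_const)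
  have hs' : MeasurableSet {p : ℂ × (Fin (n + 1) → ℂ) | (ρ < ‖p.1‖ ∧ ‖p.1‖ ≤ K) ∧
      (((∀ i, ‖p.2 i‖ ≤ K) ∧ ‖p.1‖ * ∏ i, ‖p.2 i‖ ≤ t) ∧ τ p.1 ≤ ‖p.2 j'‖)} := by
    have h1 : IsClosed {p : ℂ × (Fin (n + 1) → ℂ) | ∀ i, ‖p.2 i‖ ≤ K} := by
      rw [Set.ofPred_forall]
      exact isClosed_iInter (fun j => isClosed_le (by fun_prop) continuous_const)
    have h2 : IsClosed {p : ℂ × (Fin (n + 1) → ℂ) | ‖p.1‖ * ∏ i, ‖p.2 i‖ ≤ t} :=
      isClosed_le (by fun_prop) continuous_const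
    have h3 : MeasurableSet {p : ℂ × (Fin (n + 1) → ℂ) | τ p.1 ≤ ‖p.2 j'‖} :=
      measurableSet_le (hτm.comp measurable_fst)
        (((measurable_pi_apply j').comp measurable_snd).norm)
    exact (hA.preimage measurable_fst).inter ((h1.measurableSet.inter h2.measurableSet).inter h3)
  have hmp := volume_preserving_piFinSuccAbove (fun _ : Fin (n + 2) => ℂ) k
  have hset : {w ∈ GG (n + 2) K t | ρ < ‖w k‖ ∧ τ (w k) ≤ ‖w (k.succAbove j')‖} =
      (MeasurableEquiv.piFinSuccAbove (fun _ : Fin (n + 2) => ℂ) k) ⁻¹'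
        {p : ℂ × (Fin (n + 1) → ℂ) | (ρ < ‖p.1‖ ∧ ‖p.1‖ ≤ K) ∧
      (((∀ i, ‖p.2 i‖ ≤ K) ∧ ‖p.1‖ * ∏ i, ‖p.2 i‖ ≤ t) ∧ τ p.1 ≤ ‖p.2 j'‖)} := by
    ext w
    have h1 : ((MeasurableEquiv.piFinSuccAbove (fun _ : Fin (n + 2) => ℂ) k) w).1 = w k := rfl
    have h2 : ∀ j, ((MeasurableEquiv.piFinSuccAbove (fun _ : Fin (n + 2) => ℂ) k) w).2 j =
        w (k.succAbove j) := fun j => rfl
    simp only [Set.mem_ofPred_eq, Set.mem_preimage, h1, h2, GG, Fin.forall_iff_succAbove k,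
      Fin.prod_univ_succAbove _ k]
    tauto
  rw [hset, hmp.measure_preimage hs'.nullMeasurableSet, Measure.volume_eq_prod,
    Measure.prod_apply hs', ← lintegral_const_mul' _ _ ENNReal.ofReal_ne_top,
    ← lintegral_indicator hA]
  apply lintegral_mono_ae
  filter_upwards [hτ0] with a ha0
  by_cases ha : ρ < ‖a‖ ∧ ‖a‖ ≤ K
  · rw [Set.indicator_of_mem (by exact ha), mul_assoc C]
    refine le_trans (measure_mono ?_) (hfib j' t ρ (τ a) a ht hρ hρ1 ha0 (hτ1 a) ha.1 ha.2)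
    intro w hw
    exact hw.2
  · rw [Set.indicator_of_notMem (by exact ha)]
    apply le_of_eq
    rw [← measure_empty (μ := (volume : Measure (Fin (n + 1) → ℂ)))]
    congr 1
    ext w
    simp only [Set.mem_preimage, Set.mem_ofPred_eq, Set.mem_empty_iff_false]
    tauto

end Pool.Agent.H84.SR
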